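import Pool.Agent.Lib.FSB.Dem

/-!
# Abstract setting for the non-existence of Frobenius structures
-/

set_option autoImplicit false

open MvPolynomial TensorProduct

namespace Pool.Agent.Lib.FSB

variable {K : Type} [Field K]

/-- `m` has label `g`: `m · f = g(f) m` for all `f ∈ R`. -/
def Lab (X : Bimod K) (g : Rg K ≃ₐ[K] Rg K) (m : X.carrier) : Prop :=
  ∀ f : Rg K, X.right f m = (g f) • m

/-- A bimodule embedded in a finite sum `⊕_j R_{y_j}` of twisted copies of `R`, with an element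
all of whose coordinates are `1`. -/
structure Coord (X : Bimod K) where
  J : Type
  [fin : Fintype J]
  y : J → (Rg K ≃ₐ[K] Rg K)
  ι : X.carrier →ₗ[Rg K] (J → Rg K)
  inj : Function.Injective ι
  right : ∀ (f : Rg K) (m : X.carrier) (j : J), ι (X.right f m) j = y j f * ι m j
  bot : X.carrier
  ι_bot : ∀ j, ι bot j = 1

attribute [instance] Coord.fin

/-- A Frobenius structure in terms of dual bases. -/
structure DualFrob (X : Bimod K) where
  mul : X.carrier →+ X.carrier →+ X.carrier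
  smul_mul : ∀ (f : Rg K) (a b : X.carrier), mul (f • a) b = f • mul a b
  mul_balanced : ∀ (f : Rg K) (a b : X.carrier), mul (X.right f a) b = mul a (f • b)
  mul_right : ∀ (f : Rg K) (a b : X.carrier), mul a (X.right f b) = X.right f (mul a b)
  one : X.carrier
  one_central : ∀ f : Rg K, X.right f one = f • one
  one_mul : ∀ a, mul one a = a
  mul_one : ∀ a, mul a one = a
  mul_assoc : ∀ a b c, mul (mul a b) c = mul a (mul b c)
  counit : X.carrier →ₗ[Rg K] Rg K
  counit_right : ∀ (f : Rg K) (a : X.carrier), counit (X.right f a) = f * counit a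
  n : ℕ
  x : Fin n → X.carrier
  z : Fin n → X.carrier
  expand_left : ∀ a, a = ∑ i, counit (mul a (x i)) • z i
  expand_right : ∀ a, a = ∑ i, X.right (counit (mul (z i) a)) (x i)

/-- Properties of the image of the primitive idempotent of `BS(s,t,s,u,t,s)` used in the
non-existence proof (`s = refl K 0`, `t = refl K 1`, `u = refl K 2`). -/
structure Props (X : Bimod K) (C : Coord X) : Prop where
  /-- the gluing condition between one coordinate with label `1` and one with label `t` -/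
  glue : ∃ j0 j1, C.y j0 = 1 ∧ C.y j1 = refl K 1 ∧ ∀ m, root K 1 ∣ C.ι m j0 - C.ι m j1
  /-- saturation -/
  sat : ∀ (f : Rg K) (m m' : X.carrier), ¬ root K 1 ∣ f → f • m = root K 1 • m' →
    ∃ m'', m = root K 1 • m''
  sep : ∀ j, C.y j ≠ 1 → C.y j ≠ refl K 1 → ∃ f, ¬ root K 1 ∣ f - C.y j f
  rk_t : ∀ m m', Lab X (refl K 1) m → Lab X (refl K 1) m' →
    ∃ a b : Rg K, (a ≠ 0 ∨ b ≠ 0) ∧ a • m + b • m' = 0
  rk_u : ∀ m m', Lab X (refl K 2) m → Lab X (refl K 2) m' →
    ∃ a b : Rg K, (a ≠ 0 ∨ b ≠ 0) ∧ a • m + b • m' = 0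
  rk_e : ∀ m m' m'', Lab X 1 m → Lab X 1 m' → Lab X 1 m'' →
    ∃ a b c : Rg K, (a ≠ 0 ∨ b ≠ 0 ∨ c ≠ 0) ∧ a • m + b • m' + c • m'' = 0
  ex_s : ∃ j, C.y j = refl K 0
  ex_u : ∃ j, C.y j = refl K 2
  ex_su : ∃ j, C.y j = refl K 0 * refl K 2
  ex_tu : ∃ j, C.y j = refl K 1 * refl K 2
  no_utst : ∀ j, C.y j ≠ refl K 2 * refl K 1 * refl K 0 * refl K 1
  no_utstu : ∀ j, C.y j ≠ refl K 2 * refl K 1 * refl K 0 * refl K 1 * refl K 2

end Pool.Agent.Lib.FSB
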