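import Mathlib

/-!
# Soergel bimodules of type `B₃` and Frobenius algebra objects (MP_3c30f2_al)

Definitions: the polynomial ring `R = K[x₀,x₁,x₂]` with the reflection representation of the
Coxeter group of type `B₃` (signed permutations), `(R,R)`-bimodules, Bott-Samelson bimodules
(iterated tensor products `R ⊗_{R^{r₁}} R ⊗_{R^{r₂}} ⋯ ⊗_{R^{rₖ}} R`) with their grading, direct
summands, and Frobenius algebra objects in the monoidal category of `(R,R)`-bimodules.
-/

set_option autoImplicit false

open MvPolynomial TensorProduct

namespace Pool.Agent.Lib.FSB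

variable (K : Type) [Field K]

/-- The polynomial ring `R = K[x₀,x₁,x₂]`. -/
abbrev Rg : Type := MvPolynomial (Fin 3) K

/-- `x₀ ↦ -x₀`. -/
noncomputable def signHom : Rg K →ₐ[K] Rg K := aeval ![-X 0, X 1, X 2]

theorem signHom_signHom : (signHom K).comp (signHom K) = AlgHom.id K (Rg K) := by
  apply MvPolynomial.algHom_ext
  intro i
  fin_cases i <;> simp [signHom]

/-- The simple reflections of type `B₃` acting on `R`: number `0` is `s : x₀ ↦ -x₀`, number `1` is
`t : x₀ ↔ x₁`, number `2` is `u : x₁ ↔ x₂`; so `m(s,t) = 4`, `m(t,u) = 3`, `m(s,u) = 2`. -/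
noncomputable def refl : Fin 3 → (Rg K ≃ₐ[K] Rg K)
  | 0 => AlgEquiv.ofAlgHom (signHom K) (signHom K) (signHom_signHom K) (signHom_signHom K)
  | 1 => MvPolynomial.renameEquiv K (Equiv.swap 0 1)
  | 2 => MvPolynomial.renameEquiv K (Equiv.swap 1 2)

/-- The subalgebra `R^r` of invariants of a simple reflection `r`. -/
noncomputable def Inv (i : Fin 3) : Subalgebra K (Rg K) :=
  AlgHom.equalizer (refl K i).toAlgHom (AlgHom.id K (Rg K))

/-- `(R,R)`-bimodules on which `K` acts centrally: a left `R`-module together with a commuting
(right) action of `R`. -/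
structure Bimod where
  carrier : Type
  [acg : AddCommGroup carrier]
  [mod : Module (Rg K) carrier]
  right : Rg K →+* Module.End (Rg K) carrier
  right_C : ∀ (c : K) (m : carrier), right (C c) m = (C c : Rg K) • m

attribute [instance] Bimod.acg Bimod.mod

variable {K}

/-- A graded `(R,R)`-bimodule (only the homogeneous components are recorded), with a distinguished
element (used for `1 ⊗ ⋯ ⊗ 1`). -/
structure GBimod (K : Type) [Field K] extends Bimod K where
  gr : ℕ → AddSubgroup carrier
  bot : carrier

/-- The regular bimodule `R`. -/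
noncomputable def regular (K : Type) [Field K] : GBimod K where
  carrier := Rg K
  right := 
    { toFun := fun f => LinearMap.mulLeft (Rg K) f
      map_one' := by ext; simp
      map_mul' := fun f g => by ext; simp
      map_zero' := by ext; simp
      map_add' := fun f g => by ext; simp }
  right_C := fun c m => by simp
  gr := fun n => (homogeneousSubmodule (Fin 3) K n).toAddSubgroup
  bot := (1 : Rg K)

/-- The left `R`-module `R ⊗_{R^r} M`, for a simple reflection `r` and a left `R`-module `M`. -/
def Ind (K : Type) [Field K] (i : Fin 3) (M : Type) [AddCommGroup M] [Module (Rg K) M] : Type :=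
  Rg K ⊗[Inv K i] M

section Ind

variable {M : Type} [AddCommGroup M] [Module (Rg K) M]

noncomputable instance (i : Fin 3) : AddCommGroup (Ind K i M) :=
  inferInstanceAs (AddCommGroup (Rg K ⊗[Inv K i] M))

noncomputable instance (i : Fin 3) : Module (Rg K) (Ind K i M) :=
  inferInstanceAs (Module (Rg K) (Rg K ⊗[Inv K i] M))

/-- The element `f ⊗ m` of `R ⊗_{R^r} M`. -/
noncomputable def tm (i : Fin 3) (f : Rg K) (m : M) : Ind K i M := f ⊗ₜ[Inv K i] m

theorem tm_induction (i : Fin 3) {P : Ind K i M → Prop} (hP : ∀ (f : Rg K) (m : M), P (tm i f m))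
    (hadd : ∀ x y, P x → P y → P (x + y)) (x : Ind K i M) : P x := by
  refine TensorProduct.induction_on (motive := P) x ?_ hP hadd
  have h := hP 0 0
  have h0 : (tm i (0 : Rg K) (0 : M)) = (0 : Ind K i M) := TensorProduct.zero_tmul _ _
  rwa [h0] at h

/-- The endomorphism `f ⊗ m ↦ f ⊗ g m` of `R ⊗_{R^r} M`. -/
noncomputable def bc (i : Fin 3) (g : M →ₗ[Rg K] M) : Ind K i M →ₗ[Rg K] Ind K i M :=
  LinearMap.baseChange (Rg K) (g.restrictScalars (Inv K i))

theorem bc_tm (i : Fin 3) (g : M →ₗ[Rg K] M) (f : Rg K) (m : M) :
    bc i g (tm i f m) = tm i f (g m) := rfl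

theorem tm_ext (i : Fin 3) {N : Type} [AddCommGroup N] [Module (Rg K) N]
    (g h : Ind K i M →ₗ[Rg K] N)
    (H : ∀ (f : Rg K) (m : M), g (tm i f m) = h (tm i f m)) : g = h := by
  apply LinearMap.ext
  intro x
  induction x using tm_induction with
  | hadd x y hx hy => rw [map_add, map_add, hx, hy]
  | hP f m => exact H f m

theorem tm_zero (i : Fin 3) (f : Rg K) : tm i f (0 : M) = 0 := TensorProduct.tmul_zero _ _

theorem zero_tm (i : Fin 3) (m : M) : tm i (0 : Rg K) m = 0 := TensorProduct.zero_tmul _ _

theorem tm_add (i : Fin 3) (f : Rg K) (m m' : M) : tm i f (m + m') = tm i f m + tm i f m' :=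
  TensorProduct.tmul_add _ _ _

theorem add_tm (i : Fin 3) (f g : Rg K) (m : M) : tm i (f + g) m = tm i f m + tm i g m :=
  TensorProduct.add_tmul _ _ _

theorem smul_tm (i : Fin 3) (g f : Rg K) (m : M) : g • tm i f m = tm i (g * f) m := rfl

/-- elements of `R^r` can be moved across the tensor sign -/
theorem inv_tm (i : Fin 3) (c f : Rg K) (hc : refl K i c = c) (m : M) :
    tm i (c * f) m = tm i f (c • m) :=
  TensorProduct.smul_tmul (R := Inv K i) (⟨c, hc⟩ : Inv K i) f m

theorem bc_one (i : Fin 3) :
    bc (M := M) i (1 : Module.End (Rg K) M) = (1 : Module.End (Rg K) (Ind K i M)) :=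
  tm_ext i _ _ fun _ _ => rfl

theorem bc_mul (i : Fin 3) (g h : Module.End (Rg K) M) :
    bc i (g * h : Module.End (Rg K) M) = (bc i g * bc i h : Module.End (Rg K) (Ind K i M)) :=
  tm_ext i _ _ fun _ _ => rfl

theorem bc_zero (i : Fin 3) :
    bc (M := M) i (0 : Module.End (Rg K) M) = (0 : Module.End (Rg K) (Ind K i M)) :=
  tm_ext i _ _ fun f m => by
    rw [bc_tm, LinearMap.zero_apply, tm_zero, LinearMap.zero_apply]

theorem bc_add (i : Fin 3) (g h : Module.End (Rg K) M) :
    bc i (g + h : Module.End (Rg K) M) = (bc i g + bc i h : Module.End (Rg K) (Ind K i M)) :=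
  tm_ext i _ _ fun f m => by
    rw [bc_tm, LinearMap.add_apply, tm_add, LinearMap.add_apply]; rfl

theorem bc_C (i : Fin 3) (g : M →ₗ[Rg K] M) (c : K)
    (hg : ∀ m, g m = (C c : Rg K) • m) (x : Ind K i M) : bc i g x = (C c : Rg K) • x := by
  induction x using tm_induction with
  | hadd x y hx hy => rw [map_add, hx, hy, smul_add]
  | hP f m =>
    rw [bc_tm, hg, smul_tm]
    exact (inv_tm i (C c) f ((refl K i).commutes c) m).symm

end Ind

/-- `R ⊗_{R^r} B`. -/
noncomputable def ind (i : Fin 3) (B : GBimod K) : GBimod K where
  carrier := Ind K i B.carrier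
  right :=
    { toFun := fun f => bc i (B.right f)
      map_one' := by rw [map_one]; exact bc_one i
      map_mul' := fun f g => by rw [map_mul]; exact bc_mul i _ _
      map_zero' := by rw [map_zero]; exact bc_zero i
      map_add' := fun f g => by rw [map_add]; exact bc_add i _ _ }
  right_C := fun c m => bc_C i (B.right (C c)) c (B.right_C c) m
  gr := fun n => AddSubgroup.closure
    {x | ∃ (a b : ℕ) (f : Rg K) (m : B.carrier), f.IsHomogeneous a ∧ m ∈ B.gr b ∧ a + b = n ∧
      x = tm i f m}
  bot := tm i 1 B.bot

/-- The Bott-Samelson bimodule `R ⊗_{R^{r₁}} R ⊗_{R^{r₂}} ⋯ ⊗_{R^{rₖ}} R`. (The usual grading is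
`2 n - k` in the component `gr n`.) -/
noncomputable def BS (K : Type) [Field K] : List (Fin 3) → GBimod K
  | [] => regular K
  | i :: w => ind i (BS K w)

/-- `e` is an endomorphism of graded bimodules (homogeneous of degree `0`). -/
structure IsGrEnd (B : GBimod K) (e : B.carrier →ₗ[Rg K] B.carrier) : Prop where
  right : ∀ (f : Rg K) (m : B.carrier), e (B.right f m) = B.right f (e m)
  deg : ∀ (n : ℕ) (m : B.carrier), m ∈ B.gr n → e m ∈ B.gr n

/-- `e` is an idempotent endomorphism of graded bimodules whose image is an indecomposable graded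
direct summand of `B`. -/
structure IsIndecomposableIdempotent (B : GBimod K) (e : B.carrier →ₗ[Rg K] B.carrier) : Prop where
  grEnd : IsGrEnd B e
  idem : e ∘ₗ e = e
  ne_zero : e ≠ 0
  indec : ∀ e' : B.carrier →ₗ[Rg K] B.carrier, IsGrEnd B e' → e' ∘ₗ e' = e' →
    e ∘ₗ e' = e' → e' ∘ₗ e = e' → e' = 0 ∨ e' = e

/-- The image of an endomorphism of bimodules. -/
noncomputable def image (B : Bimod K) (e : B.carrier →ₗ[Rg K] B.carrier)
    (he : ∀ (f : Rg K) (m : B.carrier), e (B.right f m) = B.right f (e m)) : Bimod K where
  carrier := LinearMap.range e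
  right :=
    { toFun := fun f => (B.right f).restrict (p := LinearMap.range e) (q := LinearMap.range e)
        (by rintro _ ⟨m, rfl⟩; exact ⟨B.right f m, he f m⟩)
      map_one' := by ext m; simp
      map_mul' := fun f g => by ext m; simp
      map_zero' := by ext m; simp
      map_add' := fun f g => by ext m; simp }
  right_C := fun c m => by
    apply Subtype.ext
    simp [B.right_C]

/-- The underlying group of `B`, as an `R`-module for the right action. -/
def RM (B : Bimod K) : Type := B.carrier

noncomputable instance (B : Bimod K) : AddCommGroup (RM B) := B.acg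

noncomputable instance (B : Bimod K) : Module (Rg K) (RM B) :=
  Module.compHom B.carrier B.right

theorem RM_smul (B : Bimod K) (f : Rg K) (m : B.carrier) :
    (f • (show RM B from m) : RM B) = B.right f m := rfl

/-- The tensor product `B ⊗_R B`. -/
abbrev Tens (B : Bimod K) : Type := RM B ⊗[Rg K] B.carrier

/-- A Frobenius algebra object structure `(m, η, δ, ε)` on the bimodule `B` in the monoidal category
of `(R,R)`-bimodules.  The unit `η` is given by the central element `one = η(1)`, the
multiplication `m : B ⊗_R B → B` by an `R`-balanced biadditive map.  (Neither homogeneity of the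
maps nor coassociativity is required, so that this is weaker than the notion in the literature.) -/
structure Frob (B : Bimod K) where
  mul : B.carrier →+ B.carrier →+ B.carrier
  smul_mul : ∀ (f : Rg K) (a b : B.carrier), mul (f • a) b = f • mul a b
  mul_balanced : ∀ (f : Rg K) (a b : B.carrier), mul (B.right f a) b = mul a (f • b)
  mul_right : ∀ (f : Rg K) (a b : B.carrier), mul a (B.right f b) = B.right f (mul a b)
  one : B.carrier
  one_central : ∀ f : Rg K, B.right f one = f • one
  one_mul : ∀ a, mul one a = a
  mul_one : ∀ a, mul a one = a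
  mul_assoc : ∀ a b c, mul (mul a b) c = mul a (mul b c)
  /-- the counit `ε : B → R`, left and right `R`-linear -/
  counit : B.carrier →ₗ[Rg K] Rg K
  counit_right : ∀ (f : Rg K) (a : B.carrier), counit (B.right f a) = f * counit a
  /-- the comultiplication `δ : B → B ⊗_R B` -/
  comul : B.carrier →+ Tens B
  comul_smul : ∀ (f : Rg K) (a : B.carrier), comul (f • a) =
    LinearMap.rTensor B.carrier
      ({ toFun := fun x : RM B => (f • (show B.carrier from x) : B.carrier)
         map_add' := fun x y => smul_add f (show B.carrier from x) (show B.carrier from y)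
         map_smul' := fun g x => (map_smul (B.right g) f (show B.carrier from x)).symm } :
        RM B →ₗ[Rg K] RM B) (comul a)
  comul_right : ∀ (f : Rg K) (a : B.carrier), comul (B.right f a) =
    LinearMap.lTensor (RM B) (B.right f) (comul a)
  /-- `(ε ⊗ 1) δ = 1` -/
  counit_comul : ∀ a : B.carrier, TensorProduct.lift
      ({ toFun := fun x : RM B => counit (show B.carrier from x) • LinearMap.id
         map_add' := fun x y => by
          rw [← add_smul]; congr 1; exact map_add counit (show B.carrier from x) (show B.carrier from y)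
         map_smul' := fun g x => by
          have h : counit (show B.carrier from (g • x : RM B)) =
            g * counit (show B.carrier from x) := counit_right g (show B.carrier from x)
          rw [h, mul_smul]; rfl } :
        RM B →ₗ[Rg K] B.carrier →ₗ[Rg K] B.carrier) (comul a) = a
  /-- `(1 ⊗ ε) δ = 1` -/
  comul_counit : ∀ a : B.carrier, TensorProduct.lift
      ({ toFun := fun x : RM B =>
          { toFun := fun y : B.carrier => (counit y • x : RM B)
            map_add' := fun y z => by rw [map_add, add_smul]
            map_smul' := fun g y => by rw [map_smul, smul_eq_mul, mul_smul]; rfl }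
         map_add' := fun x y => by ext z; exact smul_add _ _ _
         map_smul' := fun g x => by ext z; exact smul_comm _ _ _ } :
        RM B →ₗ[Rg K] B.carrier →ₗ[Rg K] RM B) (comul a) = a
  /-- `δ m = (m ⊗ 1)(1 ⊗ δ)` -/
  frob_left : ∀ a b : B.carrier, comul (mul a b) =
    LinearMap.rTensor B.carrier
      ({ toFun := fun x : RM B => mul a (show B.carrier from x)
         map_add' := fun x y => map_add (mul a) (show B.carrier from x) (show B.carrier from y)
         map_smul' := fun g x => mul_right g a (show B.carrier from x) } :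
        RM B →ₗ[Rg K] RM B) (comul b)
  /-- `δ m = (1 ⊗ m)(δ ⊗ 1)` -/
  frob_right : ∀ a b : B.carrier, comul (mul a b) =
    LinearMap.lTensor (RM B)
      ({ toFun := fun x : B.carrier => mul x b
         map_add' := fun x y => by rw [map_add]; rfl
         map_smul' := fun g x => smul_mul g x b } :
        B.carrier →ₗ[Rg K] B.carrier) (comul a)

end Pool.Agent.Lib.FSB
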