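import Pool.Agent.Lib.FSB.Defs

/-!
# Roots and Demazure operators
-/

set_option autoImplicit false

open MvPolynomial TensorProduct

namespace Pool.Agent.Lib.FSB

variable {K : Type} [Field K]

/-- The roots: `x₀`, `x₀ - x₁`, `x₁ - x₂`. -/
noncomputable def root (K : Type) [Field K] : Fin 3 → Rg K
  | 0 => X 0
  | 1 => X 0 - X 1
  | 2 => X 1 - X 2

@[simp] theorem refl_C (i : Fin 3) (a : K) : refl K i (C a) = C a := (refl K i).commutes a
@[simp] theorem refl0_X0 : refl K 0 (X 0) = - X 0 := by simp [refl, signHom]
@[simp] theorem refl0_X1 : refl K 0 (X 1) = X 1 := by simp [refl, signHom]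
@[simp] theorem refl0_X2 : refl K 0 (X 2) = X 2 := by simp [refl, signHom]
@[simp] theorem refl1_X0 : refl K 1 (X 0) = X 1 := by simp [refl]
@[simp] theorem refl1_X1 : refl K 1 (X 1) = X 0 := by simp [refl]
@[simp] theorem refl1_X2 : refl K 1 (X 2) = X 2 := by
  simp only [refl, renameEquiv_apply, rename_X]
  rfl
@[simp] theorem refl2_X0 : refl K 2 (X 0) = X 0 := by
  simp only [refl, renameEquiv_apply, rename_X]
  rfl
@[simp] theorem refl2_X1 : refl K 2 (X 1) = X 2 := by simp [refl]
@[simp] theorem refl2_X2 : refl K 2 (X 2) = X 1 := by simp [refl]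

theorem refl_refl (i : Fin 3) (f : Rg K) : refl K i (refl K i f) = f := by
  have h : ((refl K i).toAlgHom.comp (refl K i).toAlgHom) = AlgHom.id K (Rg K) := by
    apply MvPolynomial.algHom_ext
    intro j
    fin_cases i <;> fin_cases j <;> simp [refl, signHom]
  exact DFunLike.congr_fun h f

theorem refl_root (i : Fin 3) : refl K i (root K i) = - root K i := by
  fin_cases i <;> simp [refl, root, signHom]

theorem root_ne_zero (i : Fin 3) : root K i ≠ 0 := by
  fin_cases i
  · exact X_ne_zero _
  · show (X 0 - X 1 : Rg K) ≠ 0
    rw [sub_ne_zero]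
    intro h
    have := X_injective h
    simp at this
  · show (X 1 - X 2 : Rg K) ≠ 0
    rw [sub_ne_zero]
    intro h
    have := X_injective h
    simp at this

theorem root_dvd_sub (i : Fin 3) (f : Rg K) : root K i ∣ f - refl K i f := by
  induction f using MvPolynomial.induction_on with
  | C a =>
    have : refl K i (C a) = C a := (refl K i).commutes a
    rw [this, sub_self]
    exact dvd_zero _
  | add p q hp hq =>
    rw [map_add]
    have : p + q - (refl K i p + refl K i q) = (p - refl K i p) + (q - refl K i q) := by ring
    rw [this]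
    exact dvd_add hp hq
  | mul_X p j hp =>
    rw [map_mul]
    have : p * X j - refl K i p * refl K i (X j) =
      (p - refl K i p) * X j + refl K i p * (X j - refl K i (X j)) := by ring
    rw [this]
    refine dvd_add (Dvd.dvd.mul_right hp _) (Dvd.dvd.mul_left ?_ _)
    have key : ∀ i j : Fin 3, root K i ∣ X j - refl K i (X j) := by
      intro i j
      fin_cases i <;> fin_cases j <;> simp [root]
      · exact ⟨-1, by ring⟩
      · exact ⟨-1, by ring⟩
    exact key i j

/-- The Demazure operator `∂_i f = (f - r_i f) / α_i`. -/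
noncomputable def demFun (i : Fin 3) (f : Rg K) : Rg K := (root_dvd_sub i f).choose

theorem root_mul_demFun (i : Fin 3) (f : Rg K) : root K i * demFun i f = f - refl K i f :=
  (root_dvd_sub i f).choose_spec.symm

theorem demFun_unique (i : Fin 3) (f g : Rg K) (h : root K i * g = f - refl K i f) :
    demFun i f = g :=
  mul_left_cancel₀ (root_ne_zero i) ((root_mul_demFun i f).trans h.symm)

theorem Inv_iff (i : Fin 3) (f : Rg K) : f ∈ Inv K i ↔ refl K i f = f := Iff.rfl

/-- The Demazure operator as a linear map over the invariants. -/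
noncomputable def dem (i : Fin 3) : Rg K →ₗ[Inv K i] Rg K where
  toFun := demFun i
  map_add' f g := demFun_unique i _ _ (by
    rw [mul_add, root_mul_demFun, root_mul_demFun, map_add]; ring)
  map_smul' c f := demFun_unique i _ _ (by
    have hc : refl K i (c : Rg K) = c := c.2
    show root K i * ((c : Rg K) * demFun i f) = (c : Rg K) * f - refl K i ((c : Rg K) * f)
    rw [map_mul, hc, mul_left_comm, root_mul_demFun]; ring)

theorem root_mul_dem (i : Fin 3) (f : Rg K) : root K i * dem i f = f - refl K i f :=
  root_mul_demFun i f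

theorem dem_unique (i : Fin 3) (f g : Rg K) (h : root K i * g = f - refl K i f) : dem i f = g :=
  demFun_unique i f g h

theorem refl_dem (i : Fin 3) (f : Rg K) : refl K i (dem i f) = dem i f := by
  have h := congrArg (refl K i) (root_mul_dem i f)
  rw [map_mul, refl_root, map_sub, refl_refl] at h
  apply mul_left_cancel₀ (root_ne_zero i)
  linear_combination -h - root_mul_dem i f

theorem dem_mul_left (i : Fin 3) (c f : Rg K) (hc : refl K i c = c) :
    dem i (c * f) = c * dem i f := (dem i).map_smul (⟨c, hc⟩ : Inv K i) f

/-- twisted Leibniz rule -/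
theorem dem_mul (i : Fin 3) (f g : Rg K) :
    dem i (f * g) = dem i f * g + refl K i f * dem i g := by
  apply dem_unique
  rw [map_mul]
  linear_combination g * root_mul_dem i f + refl K i f * root_mul_dem i g

theorem dem_of_inv (i : Fin 3) (f : Rg K) (hf : refl K i f = f) : dem i f = 0 := by
  apply dem_unique
  rw [hf, mul_zero, sub_self]

theorem X_homog (j : Fin 3) : (X j : Rg K).IsHomogeneous 1 := isHomogeneous_X K j

theorem root_homog (i : Fin 3) : (root K i).IsHomogeneous 1 := by
  have h : ∀ i : Fin 3, (root K i).IsHomogeneous 1 := by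
    intro i
    fin_cases i
    · exact X_homog 0
    · exact (X_homog 0).sub (X_homog 1)
    · exact (X_homog 1).sub (X_homog 2)
  exact h i

theorem refl_X_homog (i j : Fin 3) : (refl K i (X j)).IsHomogeneous 1 := by
  have h : ∀ i j : Fin 3, (refl K i (X j)).IsHomogeneous 1 := by
    intro i j
    fin_cases i <;> fin_cases j <;> simp [isHomogeneous_X]
    exact (X_homog 0).neg
  exact h i j

theorem refl_homog (i : Fin 3) {n : ℕ} {f : Rg K} (hf : f.IsHomogeneous n) :
    (refl K i f).IsHomogeneous n := by
  have h : refl K i f = aeval (fun j => refl K i (X j)) f := by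
    have : (refl K i).toAlgHom = aeval (fun j => refl K i (X j)) := by
      apply MvPolynomial.algHom_ext
      intro j
      simp
    exact DFunLike.congr_fun this f
  rw [h]
  have := hf.aeval (fun j => refl K i (X j)) (n := 1) (fun j => refl_X_homog i j)
  simpa using this

theorem homogeneousComponent_root_mul (i : Fin 3) (g : Rg K) (m : ℕ) :
    homogeneousComponent (m + 1) (root K i * g) = root K i * homogeneousComponent m g := by
  have h1 : root K i * g = ∑ k ∈ Finset.range (g.totalDegree + 1),
      root K i * homogeneousComponent k g := by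
    rw [← Finset.mul_sum, sum_homogeneousComponent]
  have h2 : ∀ k, homogeneousComponent (m + 1) (root K i * homogeneousComponent k g) =
      if k = m then root K i * homogeneousComponent m g else 0 := by
    intro k
    have h3 : (root K i * homogeneousComponent k g).IsHomogeneous (k + 1) := by
      rw [add_comm]
      exact (root_homog i).mul (homogeneousComponent_isHomogeneous k g)
    rw [homogeneousComponent_of_mem h3]
    by_cases hk : k = m
    · subst hk; simp
    · rw [if_neg (by omega), if_neg hk]
  rw [h1, map_sum]
  simp only [h2]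
  rw [Finset.sum_ite_eq']
  split_ifs with h
  · rfl
  · rw [homogeneousComponent_eq_zero]
    · rw [mul_zero]
    · rw [Finset.mem_range] at h; omega

theorem homog_of_root_mul (i : Fin 3) (n : ℕ) (g : Rg K) (h : (root K i * g).IsHomogeneous (n + 1)) :
    g.IsHomogeneous n := by
  have h1 := homogeneousComponent_root_mul i g n
  rw [homogeneousComponent_eq_self h] at h1
  have h2 := mul_left_cancel₀ (root_ne_zero i) h1
  rw [h2]
  exact homogeneousComponent_isHomogeneous n g

theorem dem_homog (i : Fin 3) {n : ℕ} {f : Rg K} (hf : f.IsHomogeneous (n + 1)) :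
    (dem i f).IsHomogeneous n := by
  apply homog_of_root_mul i
  rw [root_mul_dem]
  exact hf.sub (refl_homog i hf)

theorem dem_homog_zero (i : Fin 3) {f : Rg K} (hf : f.IsHomogeneous 0) : dem i f = 0 := by
  have h : f ∈ homogeneousSubmodule (Fin 3) K 0 := hf
  rw [homogeneousSubmodule_zero, Submodule.mem_one] at h
  obtain ⟨a, rfl⟩ := h
  exact dem_of_inv i _ (refl_C i a)

noncomputable def shiftHom (K : Type) [Field K] (c : K) : Rg K →ₐ[K] Rg K := aeval ![X 0 + C c * X 1, X 1, X 2]

theorem shift_comp (c : K) : (shiftHom K c).comp (shiftHom K (-c)) = AlgHom.id K (Rg K) := by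
  apply MvPolynomial.algHom_ext
  intro i
  fin_cases i <;> simp [shiftHom]

noncomputable def shiftEquiv (K : Type) [Field K] : Rg K ≃ₐ[K] Rg K :=
  AlgEquiv.ofAlgHom (shiftHom K 1) (shiftHom K (-1)) (shift_comp 1)
    (by have := shift_comp (K := K) (-1); rwa [neg_neg] at this)

theorem root_prime : Prime (root K 1) := by
  have h : shiftEquiv K (root K 1) = X 0 := by
    simp [shiftEquiv, root, shiftHom]
  have h2 : Prime (shiftEquiv K (root K 1)) := by
    rw [h]
    exact MvPolynomial.X_prime
  exact (MulEquiv.prime_iff (shiftEquiv K).toMulEquiv).mp h2 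

end Pool.Agent.Lib.FSB
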