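import Pool.Agent.Lib.FSB.Ev

/-!
# The idempotent `e_L`
-/

set_option autoImplicit false

open MvPolynomial TensorProduct

namespace Pool.Agent.Lib.FSB

variable {K : Type} [Field K]

section

variable {M : Type} [AddCommGroup M] [Module (Rg K) M]

theorem hf_ne_zero [CharZero K] : (hf : Rg K) ≠ 0 := by
  intro h
  have := hf_add (K := K)
  rw [h, add_zero] at this
  exact zero_ne_one this

theorem dem0_root1 : dem 0 (root K 1) = 2 := by
  apply dem_unique
  simp [root]
  ring

theorem gL_del (m : M) : gL (del 1 (tm 0 1 m) : Ind K 1 (Ind K 0 M)) = (4 : Rg K) • m := by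
  have h : (del 1 (tm 0 1 m) : Ind K 1 (Ind K 0 M)) =
      tm 1 (root K 1) (tm 0 1 m) + tm 1 1 (tm 0 (root K 1 * 1) m) := rfl
  rw [h, gL_add, gL_tm, gL_tm, mul_one, one_mul, dem0_root1, ← add_smul]
  norm_num

theorem gL_hL [CharZero K] (m : M) : gL (hL m : Ind K 1 (Ind K 0 M)) = (2 : Rg K) • m := by
  unfold hL
  rw [gL_smul _ (refl_hf 0), gL_del, smul_smul]
  congr 1
  have := hf_add (K := K)
  linear_combination 2 * this

theorem theta_theta [CharZero K] (x : Ind K 1 (Ind K 0 M)) : theta (theta x) = theta x := by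
  rw [theta_apply, theta_apply, gL_smul _ (refl_hf 0), gL_hL, smul_smul, hL_smul, smul_smul]
  · congr 1
    have := hf_add (K := K)
    linear_combination hf * this
  · rw [map_mul, refl_hf]
    congr 1
    exact map_ofNat _ 2

/-- naturality of `θ` -/
theorem gL_bc (ρ : M →ₗ[Rg K] M) (x : Ind K 1 (Ind K 0 M)) :
    gL (bc 1 (bc 0 ρ) x) = ρ (gL x) := by
  induction x using tm_induction with
  | hadd x y hx hy => rw [map_add, gL_add, gL_add, hx, hy, map_add]
  | hP f x =>
    induction x using tm_induction with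
    | hadd x y hx hy => rw [tm_add, map_add, gL_add, gL_add, hx, hy, map_add]
    | hP g m => rw [bc_tm, bc_tm, gL_tm, gL_tm, map_smul]

theorem hL_bc (ρ : M →ₗ[Rg K] M) (m : M) :
    (hL (ρ m) : Ind K 1 (Ind K 0 M)) = bc 1 (bc 0 ρ) (hL m) := by
  unfold hL del
  rw [map_smul, map_add, bc_tm, bc_tm, bc_tm, map_smul, bc_tm]

theorem theta_bc (ρ : M →ₗ[Rg K] M) (x : Ind K 1 (Ind K 0 M)) :
    theta (bc 1 (bc 0 ρ) x) = bc 1 (bc 0 ρ) (theta x) := by
  rw [theta_apply, theta_apply, gL_bc, hL_bc, map_smul]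

/-- The idempotent `e_L` on `R ⊗_s R ⊗_t R ⊗_s M`. -/
noncomputable def eLM [CharZero K] : Ind K 0 (Ind K 1 (Ind K 0 M)) →ₗ[Rg K]
    Ind K 0 (Ind K 1 (Ind K 0 M)) := mapI 0 theta theta_smul

theorem eLM_tm [CharZero K] (f : Rg K) (x : Ind K 1 (Ind K 0 M)) :
    eLM (tm 0 f x) = tm 0 f (theta x) := mapI_tm _ _ _ _ _

theorem eLM_eLM [CharZero K] (x : Ind K 0 (Ind K 1 (Ind K 0 M))) : eLM (eLM x) = eLM x := by
  induction x using tm_induction with
  | hadd x y hx hy => rw [map_add, map_add, hx, hy]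
  | hP f x => rw [eLM_tm, eLM_tm, theta_theta]

theorem eLM_bc [CharZero K] (ρ : M →ₗ[Rg K] M) (x : Ind K 0 (Ind K 1 (Ind K 0 M))) :
    eLM (bc 0 (bc 1 (bc 0 ρ)) x) = bc 0 (bc 1 (bc 0 ρ)) (eLM x) := by
  induction x using tm_induction with
  | hadd x y hx hy => rw [map_add, map_add, hx, hy, map_add, map_add]
  | hP f x => rw [bc_tm, eLM_tm, eLM_tm, bc_tm, theta_bc]

theorem gL_bot (m : M) : gL (tm 1 1 (tm 0 1 m) : Ind K 1 (Ind K 0 M)) = 0 := by
  rw [gL_tm, mul_one, dem_of_inv 0 1 (map_one _), zero_smul]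

theorem theta_bot (m : M) : theta (tm 1 1 (tm 0 1 m) : Ind K 1 (Ind K 0 M)) = 0 := by
  rw [theta_apply, gL_bot, hL_zero, smul_zero]

theorem eLM_bot [CharZero K] (m : M) : eLM (tm 0 1 (tm 1 1 (tm 0 1 m)) :
    Ind K 0 (Ind K 1 (Ind K 0 M))) = 0 := by
  rw [eLM_tm, theta_bot, tm_zero]

/-- the coordinates `(0, b)` of `θ(x)` -/
theorem ev_theta [CharZero K] (φ : M →ₗ[Rg K] Rg K) (c : Bool) (x : Ind K 1 (Ind K 0 M)) :
    ev1 1 false (ev1 0 c φ) (theta x) = hf * root K 1 * tw 0 c (φ (gL x)) := by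
  rw [theta_apply, hL, del]
  rw [map_smul, map_smul, map_add, ev1_tm, ev1_tm, ev1_tm, tw_false, map_smul, ev1_tm]
  show hf * (hf * (root K 1 * (1 * tw 0 c (φ (gL x))) + 1 * (root K 1 * (1 * tw 0 c (φ (gL x)))))) = _
  have := hf_add (K := K)
  linear_combination hf * root K 1 * tw 0 c (φ (gL x)) * this

theorem tw0_not (c : Bool) (f : Rg K) : refl K 0 (tw 0 (!c) f) = tw 0 c f := by
  cases c
  · exact refl_refl 0 f
  · rfl

/-- the relation between the coordinates of `x` and of `e_L x` -/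
theorem ev_eLM [CharZero K] (φ : M →ₗ[Rg K] Rg K) (c : Bool) (x : Ind K 0 (Ind K 1 (Ind K 0 M))) :
    X 0 * ev1 0 false (ev1 1 false (ev1 0 c φ)) (eLM x) =
      hf * root K 1 * (ev1 0 false (ev1 1 false (ev1 0 c φ)) x -
        ev1 0 true (ev1 1 false (ev1 0 (!c) φ)) x) := by
  induction x using tm_induction with
  | hadd x y hx hy =>
    rw [map_add, map_add, map_add, map_add, mul_add, hx, hy]
    ring
  | hP f x =>
    rw [eLM_tm, ev1_tm, ev1_tm, ev1_tm, ev_theta]
    induction x using tm_induction with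
    | hadd x y hx hy =>
      rw [gL_add, map_add, map_add, map_add, map_add, map_add, map_add]
      rw [map_mul, map_mul] at hx hy ⊢
      rw [map_add]
      linear_combination hx + hy
    | hP g x =>
      induction x using tm_induction with
      | hadd x y hx hy =>
        rw [tm_add, gL_add, map_add, map_add, map_add, map_add, map_add, map_add]
        rw [map_mul, map_mul] at hx hy ⊢
        rw [map_add]
        linear_combination hx + hy
      | hP h m =>
        rw [gL_tm, ev1_tm, ev1_tm, ev1_tm, ev1_tm, map_smul, smul_eq_mul]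
        have e1 := root_mul_dem 0 (g * h)
        have e2 := tw0_not c (φ m)
        have e3 : tw 0 c (dem 0 (g * h) : Rg K) = dem 0 (g * h) := tw_inv _ _ _ (refl_dem _ _)
        rw [map_mul (tw 0 c), e3]
        simp only [tw_false, tw_true, AlgEquiv.one_apply, map_mul] at e1 ⊢
        rw [e2]
        have e4 : (root K 0 : Rg K) = X 0 := rfl
        rw [e4] at e1
        linear_combination f * hf * root K 1 * tw 0 c (φ m) * e1

theorem eLM_rel [CharZero K] (φ : M →ₗ[Rg K] Rg K) (c : Bool) (x : Ind K 0 (Ind K 1 (Ind K 0 M)))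
    (hx : eLM x = 0) : ev1 0 false (ev1 1 false (ev1 0 c φ)) x =
      ev1 0 true (ev1 1 false (ev1 0 (!c) φ)) x := by
  have h := ev_eLM φ c x
  rw [hx, map_zero, mul_zero] at h
  have h2 := (mul_eq_zero.mp h.symm).resolve_left
    (mul_ne_zero hf_ne_zero (root_ne_zero (K := K) 1))
  exact sub_eq_zero.mp h2

end

end Pool.Agent.Lib.FSB
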