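import Pool.Agent.Lib.FSB.EL

/-!
# The idempotent `e_R`
-/

set_option autoImplicit false

open MvPolynomial TensorProduct

namespace Pool.Agent.Lib.FSB

variable {K : Type} [Field K]

section

variable {M : Type} [AddCommGroup M] [Module (Rg K) M]

theorem c0_of_inv [CharZero K] (i : Fin 3) (f : Rg K) (hf : refl K i f = f) : c0 i f = f :=
  c0_unique i f f 0 hf (map_zero _) (by ring)

theorem c1_of_inv [CharZero K] (i : Fin 3) (f : Rg K) (hf : refl K i f = f) : c1 i f = 0 :=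
  c1_unique i f f 0 hf (map_zero _) (by ring)

theorem phi_phi [CharZero K] (θ : M →+ M)
    (hθ : ∀ c : Rg K, refl K 0 c = c → ∀ m, θ (c • m) = c • θ m) (hθ2 : ∀ m, θ (θ m) = θ m)
    (x : Ind K 2 M) : phi θ hθ (phi θ hθ x) = phi θ hθ x := by
  induction x using tm_induction with
  | hadd x y hx hy => rw [map_add, map_add, hx, hy]
  | hP f m =>
    rw [phi_tm, map_add, phi_tm, phi_tm]
    rw [c0_of_inv 0 _ (refl_c0 0 f), c0_of_inv 0 _ (refl_c1 0 f), c1_of_inv 0 _ (refl_c0 0 f),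
      c1_of_inv 0 _ (refl_c1 0 f), hθ2, hθ2, zero_tm, zero_tm, add_zero, add_zero]

theorem phi_bc [CharZero K] (θ : M →+ M)
    (hθ : ∀ c : Rg K, refl K 0 c = c → ∀ m, θ (c • m) = c • θ m) (ρ : M →ₗ[Rg K] M)
    (hρ : ∀ m, θ (ρ m) = ρ (θ m)) (x : Ind K 2 M) :
    phi θ hθ (bc 2 ρ x) = bc 2 ρ (phi θ hθ x) := by
  induction x using tm_induction with
  | hadd x y hx hy => rw [map_add, map_add, map_add, map_add, hx, hy]
  | hP f m =>
    rw [bc_tm, phi_tm, phi_tm, map_add, bc_tm, bc_tm, hρ, ← map_smul ρ, hρ]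

/-- The operator on `R ⊗_s R ⊗_u R ⊗_t R ⊗_s M` underlying `e_R`. -/
noncomputable def eRN [CharZero K] : Ind K 0 (Ind K 2 (Ind K 1 (Ind K 0 M))) →ₗ[Rg K]
    Ind K 0 (Ind K 2 (Ind K 1 (Ind K 0 M))) :=
  mapI 0 (phi theta theta_smul) (phi_smul theta theta_smul)

/-- The idempotent `e_R` on `R ⊗_s R ⊗_t R ⊗_s R ⊗_u R ⊗_t R ⊗_s M`. -/
noncomputable def eRM [CharZero K] :
    Ind K 0 (Ind K 1 (Ind K 0 (Ind K 2 (Ind K 1 (Ind K 0 M))))) →ₗ[Rg K]
    Ind K 0 (Ind K 1 (Ind K 0 (Ind K 2 (Ind K 1 (Ind K 0 M))))) := bc 0 (bc 1 eRN)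

theorem eRN_tm [CharZero K] (f : Rg K) (x : Ind K 2 (Ind K 1 (Ind K 0 M))) :
    eRN (tm 0 f x) = tm 0 f (phi theta theta_smul x) := mapI_tm _ _ _ _ _

theorem eRN_eRN [CharZero K] (x : Ind K 0 (Ind K 2 (Ind K 1 (Ind K 0 M)))) :
    eRN (eRN x) = eRN x := by
  induction x using tm_induction with
  | hadd x y hx hy => rw [map_add, map_add, hx, hy]
  | hP f x => rw [eRN_tm, eRN_tm, phi_phi _ _ theta_theta]

theorem bc_bc (i : Fin 3) (g h : M →ₗ[Rg K] M) (x : Ind K i M) :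
    bc i g (bc i h x) = bc i (g.comp h) x := by
  induction x using tm_induction with
  | hadd x y hx hy => rw [map_add, map_add, map_add, hx, hy]
  | hP f x => rw [bc_tm, bc_tm, bc_tm]; rfl

theorem eRM_eRM [CharZero K] (x : Ind K 0 (Ind K 1 (Ind K 0 (Ind K 2 (Ind K 1 (Ind K 0 M)))))) :
    eRM (eRM x) = eRM x := by
  unfold eRM
  rw [bc_bc]
  congr 2
  apply LinearMap.ext
  intro y
  rw [LinearMap.comp_apply, bc_bc]
  congr 2
  apply LinearMap.ext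
  intro z
  exact eRN_eRN z

theorem eRN_bc [CharZero K] (ρ : M →ₗ[Rg K] M) (x : Ind K 0 (Ind K 2 (Ind K 1 (Ind K 0 M)))) :
    eRN (bc 0 (bc 2 (bc 1 (bc 0 ρ))) x) = bc 0 (bc 2 (bc 1 (bc 0 ρ))) (eRN x) := by
  induction x using tm_induction with
  | hadd x y hx hy => rw [map_add, map_add, hx, hy, map_add, map_add]
  | hP f x => rw [bc_tm, eRN_tm, eRN_tm, bc_tm, phi_bc _ _ _ (theta_bc ρ)]

theorem eRM_bc [CharZero K] (ρ : M →ₗ[Rg K] M)
    (x : Ind K 0 (Ind K 1 (Ind K 0 (Ind K 2 (Ind K 1 (Ind K 0 M)))))) :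
    eRM (bc 0 (bc 1 (bc 0 (bc 2 (bc 1 (bc 0 ρ))))) x) =
      bc 0 (bc 1 (bc 0 (bc 2 (bc 1 (bc 0 ρ))))) (eRM x) := by
  unfold eRM
  rw [bc_bc, bc_bc]
  congr 2
  apply LinearMap.ext
  intro y
  rw [LinearMap.comp_apply, LinearMap.comp_apply, bc_bc, bc_bc]
  congr 2
  apply LinearMap.ext
  intro z
  exact eRN_bc ρ z

theorem eRM_bot [CharZero K] (m : M) : eRM (tm 0 1 (tm 1 1 (tm 0 1 (tm 2 1 (tm 1 1 (tm 0 1 m))))) :
    Ind K 0 (Ind K 1 (Ind K 0 (Ind K 2 (Ind K 1 (Ind K 0 M)))))) = 0 := by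
  unfold eRM
  rw [bc_tm, bc_tm, eRN_tm, phi_tm, c1_of_inv 0 1 (map_one _), zero_tm, theta_bot, tm_zero,
    add_zero, tm_zero, tm_zero, tm_zero]

/-- `e_L` and `e_R` commute -/
theorem gL_bcN {M : Type} [AddCommGroup M] [Module (Rg K) M] (ρ : M →+ M)
    (hρ : ∀ c : Rg K, refl K 0 c = c → ∀ m, ρ (c • m) = c • ρ m) (x : Ind K 1 (Ind K 0 M)) :
    gL (bc 1 (mapI 0 ρ hρ) x) = ρ (gL x) := by
  induction x using tm_induction with
  | hadd x y hx hy => rw [map_add, gL_add, gL_add, hx, hy, map_add]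
  | hP f x =>
    induction x using tm_induction with
    | hadd x y hx hy => rw [tm_add, map_add, gL_add, gL_add, hx, hy, map_add]
    | hP g m => rw [bc_tm, mapI_tm, gL_tm, gL_tm, hρ _ (refl_dem _ _)]

theorem hL_bcN {M : Type} [AddCommGroup M] [Module (Rg K) M] (ρ : M →+ M)
    (hρ : ∀ c : Rg K, refl K 0 c = c → ∀ m, ρ (c • m) = c • ρ m) (m : M) :
    (hL (ρ m) : Ind K 1 (Ind K 0 M)) = bc 1 (mapI 0 ρ hρ) (hL m) := by
  unfold hL del
  rw [map_smul, map_add, bc_tm, bc_tm, mapI_tm, map_smul, mapI_tm]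

theorem theta_bcN {M : Type} [AddCommGroup M] [Module (Rg K) M] (ρ : M →+ M)
    (hρ : ∀ c : Rg K, refl K 0 c = c → ∀ m, ρ (c • m) = c • ρ m) (x : Ind K 1 (Ind K 0 M)) :
    theta (bc 1 (mapI 0 ρ hρ) x) = bc 1 (mapI 0 ρ hρ) (theta x) := by
  rw [theta_apply, theta_apply, gL_bcN, hL_bcN _ hρ, map_smul]

theorem eLM_eRM [CharZero K]
    (x : Ind K 0 (Ind K 1 (Ind K 0 (Ind K 2 (Ind K 1 (Ind K 0 M)))))) :
    eLM (eRM x) = eRM (eLM x) := by
  induction x using tm_induction with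
  | hadd x y hx hy => rw [map_add, map_add, hx, hy, map_add, map_add]
  | hP f x =>
    unfold eRM
    rw [bc_tm, eLM_tm, eLM_tm, bc_tm]
    congr 1
    exact theta_bcN _ _ x

end

end Pool.Agent.Lib.FSB
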