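import Pool.Agent.Lib.FSB.ER

/-!
# The coordinates of `e_R`
-/

set_option autoImplicit false

open MvPolynomial TensorProduct

namespace Pool.Agent.Lib.FSB

variable {K : Type} [Field K]

section

variable {M : Type} [AddCommGroup M] [Module (Rg K) M]

theorem tw0_not' (c : Bool) (f : Rg K) : tw 0 (!c) f = tw 0 c (refl K 0 f) := by
  cases c
  · rfl
  · exact (refl_refl 0 f).symm

theorem tw2_X0 (b : Bool) : (tw 2 b (X 0) : Rg K) = X 0 := by
  cases b
  · rfl
  · exact refl2_X0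

theorem refl0_tw2 (b : Bool) (f : Rg K) : refl K 0 (tw 2 b f) = tw 2 b (refl K 0 f) := by
  cases b
  · rfl
  · exact refl_commSU f

theorem X0_gL (φ : M →ₗ[Rg K] Rg K) (y : Ind K 1 (Ind K 0 M)) :
    X 0 * φ (gL y) = ev1 1 false (ev1 0 false φ) y - refl K 0 (ev1 1 false (ev1 0 true φ) y) := by
  induction y using tm_induction with
  | hadd x y hx hy =>
    rw [gL_add, map_add, map_add, map_add, map_add, mul_add, hx, hy]
    ring
  | hP f y =>
    induction y using tm_induction with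
    | hadd x y hx hy =>
      rw [tm_add, gL_add, map_add, map_add, map_add, map_add, mul_add, hx, hy]
      ring
    | hP g m =>
      rw [gL_tm, map_smul, smul_eq_mul]
      have e1 := root_mul_dem 0 (f * g)
      have e2 : ev1 1 false (ev1 0 false φ) (tm 1 f (tm 0 g m)) = f * (g * φ m) := rfl
      have e3 : ev1 1 false (ev1 0 true φ) (tm 1 f (tm 0 g m)) = f * (g * refl K 0 (φ m)) := rfl
      have e4 : (root K 0 : Rg K) = X 0 := rfl
      rw [e4, map_mul (refl K 0)] at e1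
      rw [e2, e3, map_mul (refl K 0), map_mul (refl K 0), refl_refl]
      linear_combination φ m * e1

theorem gL_X0 (φ : M →ₗ[Rg K] Rg K) (y : Ind K 1 (Ind K 0 M)) :
    φ (gL ((X 0 : Rg K) • y)) =
      ev1 1 false (ev1 0 false φ) y + refl K 0 (ev1 1 false (ev1 0 true φ) y) := by
  have h := X0_gL φ ((X 0 : Rg K) • y)
  apply mul_left_cancel₀ (root_ne_zero (K := K) 0)
  show X 0 * _ = X 0 * _
  rw [h, map_smul, map_smul, smul_eq_mul, smul_eq_mul, map_mul, refl0_X0]
  ring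

theorem ev_eRN [CharZero K] (φ : M →ₗ[Rg K] Rg K) (c b : Bool)
    (y : Ind K 0 (Ind K 2 (Ind K 1 (Ind K 0 M)))) :
    tw 0 c (X 0) * ev1 0 c (ev1 2 b (ev1 1 false (ev1 0 false φ))) (eRN y) =
      tw 0 c (tw 2 b (hf * root K 1)) * (ev1 0 c (ev1 2 b (ev1 1 false (ev1 0 false φ))) y -
        ev1 0 (!c) (ev1 2 b (ev1 1 false (ev1 0 true φ))) y) := by
  induction y using tm_induction with
  | hadd x y hx hy =>
    rw [map_add, map_add, map_add, map_add, mul_add, hx, hy]
    ring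
  | hP f y =>
    rw [eRN_tm, ev1_tm, ev1_tm, ev1_tm, tw0_not']
    have key : X 0 * ev1 2 b (ev1 1 false (ev1 0 false φ)) (phi theta theta_smul y) =
      tw 2 b (hf * root K 1) * (ev1 2 b (ev1 1 false (ev1 0 false φ)) y -
        refl K 0 (ev1 2 b (ev1 1 false (ev1 0 true φ)) y)) := by
      induction y using tm_induction with
      | hadd x y hx hy =>
        rw [map_add, map_add, map_add, map_add, map_add, mul_add, hx, hy]
        ring
      | hP g y =>
        rw [phi_tm, map_add, ev1_tm, ev1_tm, ev_theta, ev_theta, ev1_tm, ev1_tm]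
        have e1 := congrArg (tw 2 b) (X0_gL φ y)
        have e2 := congrArg (tw 2 b) (gL_X0 φ y)
        rw [map_mul, tw2_X0, map_sub] at e1
        rw [map_add] at e2
        rw [map_mul (refl K 0), refl0_tw2, map_mul (tw 2 b), map_mul (tw 2 b) (hf * root K 1)]
        have e3 := c0_add_c1 0 g
        have e4 := congrArg (refl K 0) e3
        rw [map_add, map_mul, refl_c0, refl_c1, refl_root] at e4
        have e5 : (root K 0 : Rg K) = X 0 := rfl
        rw [e5] at e3 e4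
        have e6 : (tw 0 false (φ (gL y)) : Rg K) = φ (gL y) := rfl
        have e7 : (tw 0 false (φ (gL ((X 0 : Rg K) • y))) : Rg K) =
          φ (gL ((X 0 : Rg K) • y)) := rfl
        rw [e6, e7, e2, e4]
        linear_combination c0 0 g * tw 2 b (hf * root K 1) * e1 -
          tw 2 b (hf * root K 1) * tw 2 b (ev1 1 false (ev1 0 false φ) y) * e3
    have h2 := congrArg (tw 0 c) key
    rw [map_mul, map_mul, map_sub] at h2
    linear_combination f * h2

theorem tw_ne_zero (i : Fin 3) (c : Bool) (f : Rg K) (hf : f ≠ 0) : tw i c f ≠ 0 := by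
  intro h
  exact hf ((map_eq_zero_iff _ (tw i c).injective).mp h)

/-- the relations in the kernel of `e_R` -/
theorem eRM_rel [CharZero K] (φ : M →ₗ[Rg K] Rg K) (b1 b2 c b : Bool)
    (x : Ind K 0 (Ind K 1 (Ind K 0 (Ind K 2 (Ind K 1 (Ind K 0 M)))))) (hx : eRM x = 0) :
    ev1 0 b1 (ev1 1 b2 (ev1 0 c (ev1 2 b (ev1 1 false (ev1 0 false φ))))) x =
      ev1 0 b1 (ev1 1 b2 (ev1 0 (!c) (ev1 2 b (ev1 1 false (ev1 0 true φ))))) x := by
  set ψ := ev1 0 c (ev1 2 b (ev1 1 false (ev1 0 false φ))) with hψ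
  set ψ' := ev1 0 (!c) (ev1 2 b (ev1 1 false (ev1 0 true φ))) with hψ'
  have h1 : (tw 0 c (X 0) : Rg K) • ψ.comp eRN =
      (tw 0 c (tw 2 b (hf * root K 1)) : Rg K) • (ψ - ψ') := by
    apply LinearMap.ext
    intro y
    exact ev_eRN φ c b y
  have h2 : ev1 0 b1 (ev1 1 b2 ψ) (eRM x) = ev1 0 b1 (ev1 1 b2 (ψ.comp eRN)) x := by
    unfold eRM
    rw [ev1_bc]
    congr 2
    apply LinearMap.ext
    intro y
    exact ev1_bc 1 b2 ψ eRN y
  rw [hx, map_zero] at h2
  have h3 : ∀ (a : Rg K) (χ : Ind K 0 (Ind K 2 (Ind K 1 (Ind K 0 M))) →ₗ[Rg K] Rg K),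
      ev1 0 b1 (ev1 1 b2 (a • χ)) x = tw 0 b1 (tw 1 b2 a) * ev1 0 b1 (ev1 1 b2 χ) x := by
    intro a χ
    rw [← ev1_smul]
    congr 2
    apply LinearMap.ext
    intro y
    exact ev1_smul 1 b2 a χ y
  have h4 : ev1 0 b1 (ev1 1 b2 (ψ - ψ')) x =
      ev1 0 b1 (ev1 1 b2 ψ) x - ev1 0 b1 (ev1 1 b2 ψ') x := by
    rw [← ev1_sub]
    congr 2
    apply LinearMap.ext
    intro y
    exact ev1_sub 1 b2 ψ ψ' y
  have h5 := congrArg (fun χ => ev1 0 b1 (ev1 1 b2 χ) x) h1
  simp only [h3, h4, ← h2, mul_zero] at h5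
  have h6 := (mul_eq_zero.mp h5.symm).resolve_left (tw_ne_zero _ _ _ (tw_ne_zero _ _ _
    (tw_ne_zero _ _ _ (tw_ne_zero _ _ _
      (mul_ne_zero hf_ne_zero (root_ne_zero (K := K) 1))))))
  exact sub_eq_zero.mp h6

end

end Pool.Agent.Lib.FSB
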