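import Pool.Agent.Lib.FSB.Gr

/-!
# The idempotent `e_S`
-/

set_option autoImplicit false

open MvPolynomial TensorProduct

namespace Pool.Agent.Lib.FSB

variable {K : Type} [Field K]

section

variable {M : Type} [AddCommGroup M] [Module (Rg K) M]

theorem lamD_bc (i : Fin 3) (φ : M →ₗ[Rg K] Rg K) (ρ : M →ₗ[Rg K] M)
    (x : Ind K i M) : lamD i φ (bc i ρ x) = lamD i (φ.comp ρ) x := by
  induction x using tm_induction with
  | hadd x y hx hy => rw [map_add, map_add, hx, hy, map_add]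
  | hP f m => rw [bc_tm, lamD_tm, lamD_tm]; rfl

theorem lamD_zero (i : Fin 3) (x : Ind K i M) : lamD i (0 : M →ₗ[Rg K] Rg K) x = 0 := by
  induction x using tm_induction with
  | hadd x y hx hy => rw [map_add, hx, hy, add_zero]
  | hP f m => rw [lamD_tm, LinearMap.zero_apply, map_zero, mul_zero]

theorem lamD_smul (i : Fin 3) (c : Rg K) (hc : refl K i c = c) (φ : M →ₗ[Rg K] Rg K)
    (x : Ind K i M) : lamD i (c • φ) x = c * lamD i φ x := by
  induction x using tm_induction with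
  | hadd x y hx hy => rw [map_add, hx, hy, map_add, mul_add]
  | hP f m =>
    rw [lamD_tm, lamD_tm, LinearMap.smul_apply, smul_eq_mul, dem_mul_left i c _ hc]
    ring

/-- the defining relation of the Demazure operator -/
theorem root_lamD (i : Fin 3) (φ : M →ₗ[Rg K] Rg K) (x : Ind K i M) :
    root K i * lamD i φ x = ev1 i false φ x - ev1 i true φ x := by
  induction x using tm_induction with
  | hadd x y hx hy => rw [map_add, map_add, map_add, mul_add, hx, hy]; ring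
  | hP f m =>
    rw [lamD_tm, ev1_tm, ev1_tm]
    have := root_mul_dem i (φ m)
    show _ = f * φ m - f * refl K i (φ m)
    linear_combination f * this

theorem lamD_del (i : Fin 3) (φ : M →ₗ[Rg K] Rg K) (m : M) :
    lamD i φ (del i m) = 2 * φ m := by
  unfold del
  rw [map_add, lamD_tm, lamD_tm, map_smul, smul_eq_mul]
  have h1 := root_mul_dem i (φ m)
  have h2 : dem i (root K i * φ m) = φ m + refl K i (φ m) := by
    apply dem_unique
    rw [map_mul, refl_root]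
    ring
  rw [h2]
  linear_combination h1

theorem lam_theta [CharZero K] (φ : M →ₗ[Rg K] Rg K) (x : Ind K 1 (Ind K 0 M)) :
    lamD 1 (lamD 0 φ) (theta x) = hf * dem 0 (φ (gL x)) := by
  rw [theta_apply, hL, map_smul, map_smul, lamD_del, lamD_tm]
  have := hf_add (K := K)
  show hf * (hf * (2 * (1 * dem 0 (φ (gL x))))) = _
  linear_combination hf * dem 0 (φ (gL x)) * this

theorem refl_lam_theta [CharZero K] (φ : M →ₗ[Rg K] Rg K) (x : Ind K 1 (Ind K 0 M)) :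
    refl K 0 (lamD 1 (lamD 0 φ) (theta x)) = lamD 1 (lamD 0 φ) (theta x) := by
  rw [lam_theta, map_mul, refl_hf, refl_dem]

theorem lam_eLM [CharZero K] (φ : M →ₗ[Rg K] Rg K) (x : Ind K 0 (Ind K 1 (Ind K 0 M))) :
    lamD 0 (lamD 1 (lamD 0 φ)) (eLM x) = 0 := by
  induction x using tm_induction with
  | hadd x y hx hy => rw [map_add, map_add, hx, hy, add_zero]
  | hP f x => rw [eLM_tm, lamD_tm, dem_of_inv 0 _ (refl_lam_theta φ x), mul_zero]

theorem ev_phi_inv [CharZero K] (θ : M →+ M)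
    (hθ : ∀ c : Rg K, refl K 0 c = c → ∀ m, θ (c • m) = c • θ m) (ψ : M →ₗ[Rg K] Rg K)
    (hψ : ∀ m, refl K 0 (ψ (θ m)) = ψ (θ m)) (x : Ind K 2 M) :
    refl K 0 (ev1 2 false ψ (phi θ hθ x)) = ev1 2 false ψ (phi θ hθ x) := by
  induction x using tm_induction with
  | hadd x y hx hy => rw [map_add, map_add, map_add, hx, hy]
  | hP g y =>
    rw [phi_tm, map_add, ev1_tm, ev1_tm, tw_false, AlgEquiv.one_apply, AlgEquiv.one_apply,
      map_add, map_mul, map_mul, refl_c0, refl_c1, hψ, hψ]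

theorem lam_eRN [CharZero K] (φ : M →ₗ[Rg K] Rg K)
    (x : Ind K 0 (Ind K 2 (Ind K 1 (Ind K 0 M)))) :
    lamD 0 (ev1 2 false (lamD 1 (lamD 0 φ))) (eRN x) = 0 := by
  induction x using tm_induction with
  | hadd x y hx hy => rw [map_add, map_add, hx, hy, add_zero]
  | hP f x =>
    rw [eRN_tm, lamD_tm, dem_of_inv 0 _ (ev_phi_inv theta theta_smul _ (refl_lam_theta φ) x),
      mul_zero]

theorem lam_eRM [CharZero K] (φ : M →ₗ[Rg K] Rg K)
    (x : Ind K 0 (Ind K 1 (Ind K 0 (Ind K 2 (Ind K 1 (Ind K 0 M)))))) :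
    lamD 0 (lamD 1 (lamD 0 (ev1 2 false (lamD 1 (lamD 0 φ))))) (eRM x) = 0 := by
  unfold eRM
  rw [lamD_bc]
  have h : (lamD 1 (lamD 0 (ev1 2 false (lamD 1 (lamD 0 φ))))).comp (bc 1 eRN) =
      (0 : Ind K 1 (Ind K 0 (Ind K 2 (Ind K 1 (Ind K 0 M)))) →ₗ[Rg K] Rg K) := by
    apply LinearMap.ext
    intro y
    rw [LinearMap.comp_apply, lamD_bc]
    have h2 : (lamD 0 (ev1 2 false (lamD 1 (lamD 0 φ)))).comp eRN =
      (0 : Ind K 0 (Ind K 2 (Ind K 1 (Ind K 0 M))) →ₗ[Rg K] Rg K) := by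
      apply LinearMap.ext
      intro z
      exact lam_eRN φ z
    rw [h2, lamD_zero]
    rfl
  rw [h, lamD_zero]

end

/-- The functional `λ(f₀ ⊗ ⋯ ⊗ f₆) = f₀ ∂_s(f₁ ∂_t(f₂ ∂_s(f₃ f₄ ∂_t(f₅ ∂_s(f₆)))))`. -/
noncomputable def lam : (BS K dW).carrier →ₗ[Rg K] Rg K :=
  lamD 0 (lamD 1 (lamD 0 (ev1 2 false (lamD 1 (lamD 0 (LinearMap.id : Rg K →ₗ[Rg K] Rg K))))))

theorem lam_eL [CharZero K] (x : (BS K dW).carrier) : lam (eL x) = 0 :=
  lam_eLM (M := (BS K [2, 1, 0]).carrier)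
    (ev1 2 false (lamD 1 (lamD 0 (LinearMap.id : Rg K →ₗ[Rg K] Rg K)))) x

theorem lam_eR [CharZero K] (x : (BS K dW).carrier) : lam (eR x) = 0 :=
  lam_eRM (M := Rg K) LinearMap.id x

/-- The element `Ψ = 1 ⊗ 1 ⊗ 1 ⊗ ½ (α_u ⊗_u 1 + 1 ⊗_u α_u) ⊗ 1 ⊗ 1`. -/
noncomputable def Psi : (BS K dW).carrier :=
  (tm 0 1 (tm 1 1 (tm 0 1 ((hf : Rg K) • del 2 (tm 1 1 (tm 0 1 (1 : Rg K)))))) :
    Ind K 0 (Ind K 1 (Ind K 0 (Ind K 2 (Ind K 1 (Ind K 0 (Rg K)))))))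

theorem bc_hf_del {M : Type} [AddCommGroup M] [Module (Rg K) M] (i : Fin 3) (ρ : M →ₗ[Rg K] M)
    (y : M) : bc i ρ ((hf : Rg K) • del i y) = (hf : Rg K) • del i (ρ y) := by
  unfold del
  rw [map_smul, map_add, bc_tm, bc_tm, map_smul]

theorem right_Psi (f : Rg K) : (BS K dW).right f Psi =
  (tm 0 1 (tm 1 1 (tm 0 1 ((hf : Rg K) • del 2 (tm 1 1 (tm 0 1 (f * 1 : Rg K)))))) :
    Ind K 0 (Ind K 1 (Ind K 0 (Ind K 2 (Ind K 1 (Ind K 0 (Rg K))))))) :=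
  congrArg (fun z : Ind K 2 (Ind K 1 (Ind K 0 (Rg K))) =>
    (tm 0 1 (tm 1 1 (tm 0 1 z)) : Ind K 0 (Ind K 1 (Ind K 0 (Ind K 2 (Ind K 1 (Ind K 0 (Rg K))))))))
    (bc_hf_del 2 ((BS K [1, 0]).right f) (tm 1 1 (tm 0 1 (1 : Rg K)) : Ind K 1 (Ind K 0 (Rg K))))

theorem right_Psi_inv [CharZero K] (c : Rg K) (h0 : refl K 0 c = c) (h1 : refl K 1 c = c) :
    (BS K dW).right c Psi = c • Psi := by
  rw [right_Psi]
  have e1 : (tm 0 1 (c * 1 : Rg K) : Ind K 0 (Rg K)) = c • tm 0 1 (1 : Rg K) := by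
    rw [smul_tm, inv_tm 0 c 1 h0]
    rfl
  have e2 : ∀ (i : Fin 3) (M : Type) [AddCommGroup M] [Module (Rg K) M] (_ : refl K i c = c)
      (m : M), (tm i 1 (c • m) : Ind K i M) = c • tm i 1 m := by
    intro i M _ _ hi m
    rw [smul_tm, inv_tm i c 1 hi]
  rw [e1, e2 1 _ h1, del_smul, smul_comm (hf : Rg K) c, e2 0 _ h0, e2 1 _ h1, e2 0 _ h0]
  rfl

theorem lam_right_inv (c : Rg K) (h0 : refl K 0 c = c) (h1 : refl K 1 c = c)
    (x : (BS K dW).carrier) : lam ((BS K dW).right c x) = c * lam x := by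
  have a1 : (LinearMap.id : Rg K →ₗ[Rg K] Rg K).comp ((BS K []).right c) =
      c • (LinearMap.id : Rg K →ₗ[Rg K] Rg K) := rfl
  have a2 : (lamD 0 (LinearMap.id : Rg K →ₗ[Rg K] Rg K)).comp ((BS K [0]).right c) =
      c • lamD 0 (LinearMap.id : Rg K →ₗ[Rg K] Rg K) := by
    apply LinearMap.ext
    intro y
    exact (lamD_bc 0 _ _ y).trans (a1 ▸ lamD_smul 0 c h0 _ y)
  have a3 : (lamD 1 (lamD 0 (LinearMap.id : Rg K →ₗ[Rg K] Rg K))).comp ((BS K [1, 0]).right c) =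
      c • lamD 1 (lamD 0 (LinearMap.id : Rg K →ₗ[Rg K] Rg K)) := by
    apply LinearMap.ext
    intro y
    exact (lamD_bc 1 _ _ y).trans (a2 ▸ lamD_smul 1 c h1 _ y)
  have a4 : (ev1 2 false (lamD 1 (lamD 0 (LinearMap.id : Rg K →ₗ[Rg K] Rg K)))).comp
      ((BS K [2, 1, 0]).right c) =
      c • ev1 2 false (lamD 1 (lamD 0 (LinearMap.id : Rg K →ₗ[Rg K] Rg K))) := by
    apply LinearMap.ext
    intro y
    exact (ev1_bc 2 false _ _ y).trans (a3 ▸ ev1_smul 2 false c _ y)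
  have a5 : (lamD 0 (ev1 2 false (lamD 1 (lamD 0 (LinearMap.id : Rg K →ₗ[Rg K] Rg K))))).comp
      ((BS K [0, 2, 1, 0]).right c) =
      c • lamD 0 (ev1 2 false (lamD 1 (lamD 0 (LinearMap.id : Rg K →ₗ[Rg K] Rg K)))) := by
    apply LinearMap.ext
    intro y
    exact (lamD_bc 0 _ _ y).trans (a4 ▸ lamD_smul 0 c h0 _ y)
  have a6 : (lamD 1 (lamD 0 (ev1 2 false (lamD 1 (lamD 0
      (LinearMap.id : Rg K →ₗ[Rg K] Rg K)))))).comp ((BS K [1, 0, 2, 1, 0]).right c) =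
      c • lamD 1 (lamD 0 (ev1 2 false (lamD 1 (lamD 0 (LinearMap.id : Rg K →ₗ[Rg K] Rg K))))) := by
    apply LinearMap.ext
    intro y
    exact (lamD_bc 1 _ _ y).trans (a5 ▸ lamD_smul 1 c h1 _ y)
  exact (lamD_bc 0 _ _ x).trans (a6 ▸ lamD_smul 0 c h0 _ x)

end Pool.Agent.Lib.FSB
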