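import Pool.Agent.Lib.FSB.ES

/-!
# The idempotent `e_S`, continued
-/

set_option autoImplicit false

open MvPolynomial TensorProduct

namespace Pool.Agent.Lib.FSB

variable {K : Type} [Field K]

/-- dual bases of `R` over `R^{s,t}` -/
noncomputable def bb : Fin 8 → Rg K :=
  ![1, X 0, X 1, X 0 * X 1, -(X 1 * X 1), -(X 0 * (X 1 * X 1)), -(X 1 * (X 1 * X 1)),
    -(X 0 * (X 1 * (X 1 * X 1)))]

noncomputable def bs : Fin 8 → Rg K :=
  ![X 0 * (X 1 * (X 0 * X 0)), X 1 * (X 0 * X 0), X 0 * (X 0 * X 0), X 0 * X 0, X 0 * X 1, X 1,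
    X 0, 1]

/-- the constant `-1/8` -/
noncomputable def cS : Rg K := C (-1 / 8)

/-- The idempotent `e_S`. -/
noncomputable def eS : (BS K dW).carrier →ₗ[Rg K] (BS K dW).carrier :=
  (cS : Rg K) • ∑ i : Fin 8, (lam.comp ((BS K dW).right (bb i))).smulRight
    ((BS K dW).right (bs i) Psi)

theorem eS_apply (x : (BS K dW).carrier) : eS x =
    (cS : Rg K) • ∑ i : Fin 8, lam ((BS K dW).right (bb i) x) • (BS K dW).right (bs i) Psi := by
  unfold eS
  rw [LinearMap.smul_apply, LinearMap.sum_apply]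
  rfl

theorem eS_eL [CharZero K] (x : (BS K dW).carrier) : eS (eL x) = 0 := by
  rw [eS_apply]
  have : ∀ i : Fin 8, lam ((BS K dW).right (bb i) (eL x)) • (BS K dW).right (bs i) Psi =
      (0 : (BS K dW).carrier) := by
    intro i
    rw [← eL_grEnd.right, lam_eL, zero_smul]
  rw [Finset.sum_congr rfl (fun i _ => this i), Finset.sum_const_zero, smul_zero]

theorem eS_eR [CharZero K] (x : (BS K dW).carrier) : eS (eR x) = 0 := by
  rw [eS_apply]
  have : ∀ i : Fin 8, lam ((BS K dW).right (bb i) (eR x)) • (BS K dW).right (bs i) Psi =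
      (0 : (BS K dW).carrier) := by
    intro i
    rw [← eR_grEnd.right, lam_eR, zero_smul]
  rw [Finset.sum_congr rfl (fun i _ => this i), Finset.sum_const_zero, smul_zero]

/-- the bilinear expression `L(g) V(h) = λ(x g) Ψ h` -/
noncomputable def bil (x : (BS K dW).carrier) (g h : Rg K) : (BS K dW).carrier :=
  lam ((BS K dW).right g x) • (BS K dW).right h Psi

theorem right_mul_apply (B : Bimod K) (f g : Rg K) (x : B.carrier) :
    B.right (f * g) x = B.right f (B.right g x) := by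
  rw [map_mul]; rfl

theorem bil_add_left (x : (BS K dW).carrier) (g g' h : Rg K) :
    bil x (g + g') h = bil x g h + bil x g' h := by
  unfold bil
  rw [map_add, LinearMap.add_apply, map_add, add_smul]

theorem bil_add_right (x : (BS K dW).carrier) (g h h' : Rg K) :
    bil x g (h + h') = bil x g h + bil x g h' := by
  unfold bil
  rw [map_add, LinearMap.add_apply, smul_add]

theorem bil_neg_left (x : (BS K dW).carrier) (g h : Rg K) : bil x (-g) h = -bil x g h := by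
  unfold bil
  rw [map_neg, LinearMap.neg_apply, map_neg, neg_smul]

theorem bil_neg_right (x : (BS K dW).carrier) (g h : Rg K) : bil x g (-h) = -bil x g h := by
  unfold bil
  rw [map_neg, LinearMap.neg_apply, smul_neg]

theorem bil_inv [CharZero K] (x : (BS K dW).carrier) (c g h : Rg K) (h0 : refl K 0 c = c)
    (h1 : refl K 1 c = c) : bil x (c * g) h = bil x g (c * h) := by
  unfold bil
  rw [right_mul_apply, lam_right_inv c h0 h1, mul_comm c h, right_mul_apply, right_Psi_inv c h0 h1,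
    map_smul, smul_smul, mul_comm c]

theorem eS_apply' (x : (BS K dW).carrier) : eS x =
    (cS : Rg K) • ∑ i : Fin 8, bil x (bb i) (bs i) := eS_apply x

theorem bil_right (x : (BS K dW).carrier) (f g h : Rg K) :
    bil ((BS K dW).right f x) g h = bil x (g * f) h := by
  unfold bil
  rw [right_mul_apply]

theorem right_bil (x : (BS K dW).carrier) (f g h : Rg K) :
    (BS K dW).right f (bil x g h) = bil x g (f * h) := by
  unfold bil
  rw [right_mul_apply, map_smul]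

/-- `∑ f b_i ⊗ b_i^* = ∑ b_i ⊗ f b_i^*` for `f = x₀, x₁` -/
theorem bil_X0 [CharZero K] (x : (BS K dW).carrier) :
    ∑ i : Fin 8, bil x (bb i * X 0) (bs i) = ∑ i : Fin 8, bil x (bb i) (X 0 * bs i) := by
  have e1_0 : refl K 0 (X 0 * X 0 + X 1 * X 1) = (X 0 * X 0 + X 1 * X 1 : Rg K) := by simp
  have e1_1 : refl K 1 (X 0 * X 0 + X 1 * X 1) = (X 0 * X 0 + X 1 * X 1 : Rg K) := by
    simp [add_comm]
  have e2_0 : refl K 0 (X 0 * X 0 * (X 1 * X 1)) = (X 0 * X 0 * (X 1 * X 1) : Rg K) := by simp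
  have e2_1 : refl K 1 (X 0 * X 0 * (X 1 * X 1)) = (X 0 * X 0 * (X 1 * X 1) : Rg K) := by
    simp [mul_comm]
  have A1 := bil_inv x _ 1 (X 0 * X 0 * X 1) e1_0 e1_1
  have A2 := bil_inv x _ 1 (X 1) e2_0 e2_1
  have A3 := bil_inv x _ (X 1) (X 0 * X 0) e1_0 e1_1
  have A4 := bil_inv x _ (X 1) 1 e2_0 e2_1
  rw [add_mul, add_mul, bil_add_left, bil_add_right] at A1 A3
  rw [Fin.sum_univ_eight, Fin.sum_univ_eight]
  have n1 : ∀ g h : Rg K, bil x (-g) h = -bil x g h := bil_neg_left x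
  show bil x (1 * X 0) (X 0 * (X 1 * (X 0 * X 0))) + bil x (X 0 * X 0) (X 1 * (X 0 * X 0)) +
    bil x (X 1 * X 0) (X 0 * (X 0 * X 0)) + bil x (X 0 * X 1 * X 0) (X 0 * X 0) +
    bil x (-(X 1 * X 1) * X 0) (X 0 * X 1) + bil x (-(X 0 * (X 1 * X 1)) * X 0) (X 1) +
    bil x (-(X 1 * (X 1 * X 1)) * X 0) (X 0) + bil x (-(X 0 * (X 1 * (X 1 * X 1))) * X 0) 1 =
    bil x 1 (X 0 * (X 0 * (X 1 * (X 0 * X 0)))) + bil x (X 0) (X 0 * (X 1 * (X 0 * X 0))) +
    bil x (X 1) (X 0 * (X 0 * (X 0 * X 0))) + bil x (X 0 * X 1) (X 0 * (X 0 * X 0)) +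
    bil x (-(X 1 * X 1)) (X 0 * (X 0 * X 1)) + bil x (-(X 0 * (X 1 * X 1))) (X 0 * X 1) +
    bil x (-(X 1 * (X 1 * X 1))) (X 0 * X 0) + bil x (-(X 0 * (X 1 * (X 1 * X 1)))) (X 0 * 1)
  simp only [neg_mul, n1]
  ring_nf at A1 A2 A3 A4 ⊢
  linear_combination (norm := abel) A1 - A2 + A3 - A4

theorem bil_X1 [CharZero K] (x : (BS K dW).carrier) :
    ∑ i : Fin 8, bil x (bb i * X 1) (bs i) = ∑ i : Fin 8, bil x (bb i) (X 1 * bs i) := by
  have e1_0 : refl K 0 (X 0 * X 0 + X 1 * X 1) = (X 0 * X 0 + X 1 * X 1 : Rg K) := by simp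
  have e1_1 : refl K 1 (X 0 * X 0 + X 1 * X 1) = (X 0 * X 0 + X 1 * X 1 : Rg K) := by
    simp [add_comm]
  have e2_0 : refl K 0 (X 0 * X 0 * (X 1 * X 1)) = (X 0 * X 0 * (X 1 * X 1) : Rg K) := by simp
  have e2_1 : refl K 1 (X 0 * X 0 * (X 1 * X 1)) = (X 0 * X 0 * (X 1 * X 1) : Rg K) := by
    simp [mul_comm]
  have A1 := bil_inv x _ (X 1 * X 1) (X 0) e1_0 e1_1
  have A2 := bil_inv x _ 1 (X 0) e2_0 e2_1
  have A3 := bil_inv x _ (X 0 * (X 1 * X 1)) 1 e1_0 e1_1
  have A4 := bil_inv x _ (X 0) 1 e2_0 e2_1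
  rw [add_mul, add_mul, bil_add_left, bil_add_right] at A1 A3
  rw [Fin.sum_univ_eight, Fin.sum_univ_eight]
  have n1 : ∀ g h : Rg K, bil x (-g) h = -bil x g h := bil_neg_left x
  show bil x (1 * X 1) (X 0 * (X 1 * (X 0 * X 0))) + bil x (X 0 * X 1) (X 1 * (X 0 * X 0)) +
    bil x (X 1 * X 1) (X 0 * (X 0 * X 0)) + bil x (X 0 * X 1 * X 1) (X 0 * X 0) +
    bil x (-(X 1 * X 1) * X 1) (X 0 * X 1) + bil x (-(X 0 * (X 1 * X 1)) * X 1) (X 1) +
    bil x (-(X 1 * (X 1 * X 1)) * X 1) (X 0) + bil x (-(X 0 * (X 1 * (X 1 * X 1))) * X 1) 1 =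
    bil x 1 (X 1 * (X 0 * (X 1 * (X 0 * X 0)))) + bil x (X 0) (X 1 * (X 1 * (X 0 * X 0))) +
    bil x (X 1) (X 1 * (X 0 * (X 0 * X 0))) + bil x (X 0 * X 1) (X 1 * (X 0 * X 0)) +
    bil x (-(X 1 * X 1)) (X 1 * (X 0 * X 1)) + bil x (-(X 0 * (X 1 * X 1))) (X 1 * X 1) +
    bil x (-(X 1 * (X 1 * X 1))) (X 1 * X 0) + bil x (-(X 0 * (X 1 * (X 1 * X 1)))) (X 1 * 1)
  simp only [neg_mul, n1]
  ring_nf at A1 A2 A3 A4 ⊢
  linear_combination (norm := abel) -A1 + A2 - A3 + A4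

theorem eS_right_X [CharZero K] (j : Fin 3) (x : (BS K dW).carrier) :
    eS ((BS K dW).right (X j) x) = (BS K dW).right (X j) (eS x) := by
  have key : ∀ j : Fin 3,
      ∑ i : Fin 8, bil x (bb i * X j) (bs i) = ∑ i : Fin 8, bil x (bb i) (X j * bs i) := by
    intro j
    fin_cases j
    · exact bil_X0 x
    · exact bil_X1 x
    · apply Finset.sum_congr rfl
      intro i _
      have := bil_inv x (X 2) (bb i) (bs i) (by simp) (by simp)
      rw [mul_comm] at this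
      exact this
  rw [eS_apply', eS_apply', map_smul, map_sum]
  congr 1
  rw [Finset.sum_congr rfl (fun i _ => bil_right x (X j) (bb i) (bs i)), key j]
  exact Finset.sum_congr rfl (fun i _ => (right_bil x (X j) (bb i) (bs i)).symm)

theorem eS_right [CharZero K] (f : Rg K) (x : (BS K dW).carrier) :
    eS ((BS K dW).right f x) = (BS K dW).right f (eS x) := by
  induction f using MvPolynomial.induction_on generalizing x with
  | C a => rw [(BS K dW).right_C, (BS K dW).right_C, map_smul]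
  | add p q hp hq =>
    rw [map_add, LinearMap.add_apply, LinearMap.add_apply, map_add, hp, hq]
  | mul_X p j hp =>
    rw [right_mul_apply, hp, eS_right_X, right_mul_apply]

end Pool.Agent.Lib.FSB
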