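import Pool.Agent.Lib.FSB.ES2

/-!
# The idempotent `e_S`: idempotency
-/

set_option autoImplicit false

open MvPolynomial TensorProduct

namespace Pool.Agent.Lib.FSB

variable {K : Type} [Field K]

theorem lam_right_Psi [CharZero K] (b : Rg K) : lam ((BS K dW).right b Psi) =
    dem 0 (dem 1 (dem 0 (root K 2 * dem 1 (dem 0 b)))) := by
  rw [right_Psi]
  unfold lam
  have e1 : ev1 2 false (lamD 1 (lamD 0 (LinearMap.id : Rg K →ₗ[Rg K] Rg K)))
      ((hf : Rg K) • del 2 (tm 1 1 (tm 0 1 (b * 1)))) = root K 2 * dem 1 (dem 0 b) := by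
    unfold del
    rw [map_smul, map_add, ev1_tm, ev1_tm, map_smul, lamD_tm, lamD_tm]
    simp only [tw_false, AlgEquiv.one_apply, smul_eq_mul, one_mul, mul_one, LinearMap.id_apply]
    have := hf_add (K := K)
    linear_combination root K 2 * dem 1 (dem 0 b) * this
  erw [lamD_tm, lamD_tm, lamD_tm, e1]
  rw [one_mul, one_mul, one_mul]

theorem lam_right_bot (b : Rg K) : lam ((BS K dW).right b (BS K dW).bot) =
    dem 0 (dem 1 (dem 0 (dem 1 (dem 0 b)))) := by
  have : lam ((BS K dW).right b (BS K dW).bot) =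
    1 * dem 0 (1 * dem 1 (1 * dem 0 (1 * (1 * dem 1 (1 * dem 0 (b * 1)))))) := rfl
  rw [this]
  simp only [one_mul, mul_one]

@[simp] theorem refl_two (i : Fin 3) : refl K i 2 = 2 := map_ofNat _ 2
@[simp] theorem refl_four (i : Fin 3) : refl K i 4 = 4 := map_ofNat _ 4

theorem dem0_1 : dem 0 (1 : Rg K) = 0 := dem_of_inv 0 1 (map_one _)
theorem dem0_X0 : dem 0 (X 0 : Rg K) = 2 := by apply dem_unique; simp [root]; ring
theorem dem0_X1 : dem 0 (X 1 : Rg K) = 0 := by apply dem_unique; simp [root]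
theorem dem0_b3 : dem 0 (X 0 * X 1 : Rg K) = 2 * X 1 := by apply dem_unique; simp [root]; ring
theorem dem0_b4 : dem 0 (-(X 1 * X 1) : Rg K) = 0 := by apply dem_unique; simp [root]
theorem dem0_b5 : dem 0 (-(X 0 * (X 1 * X 1)) : Rg K) = -2 * (X 1 * X 1) := by
  apply dem_unique; simp [root]; ring
theorem dem0_b6 : dem 0 (-(X 1 * (X 1 * X 1)) : Rg K) = 0 := by apply dem_unique; simp [root]
theorem dem0_b7 : dem 0 (-(X 0 * (X 1 * (X 1 * X 1))) : Rg K) = -2 * (X 1 * (X 1 * X 1)) := by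
  apply dem_unique; simp [root]; ring

theorem dem1_c1 : dem 1 (2 : Rg K) = 0 := dem_of_inv 1 2 (map_ofNat _ 2)
theorem dem1_c3 : dem 1 (2 * X 1 : Rg K) = -2 := by apply dem_unique; simp [root]; ring
theorem dem1_c5 : dem 1 (-2 * (X 1 * X 1) : Rg K) = 2 * (X 0 + X 1) := by
  apply dem_unique; simp [root]; ring
theorem dem1_c7 : dem 1 (-2 * (X 1 * (X 1 * X 1)) : Rg K) =
    2 * (X 0 * X 0 + X 0 * X 1 + X 1 * X 1) := by
  apply dem_unique; simp [root]; ring

theorem dem0_d3 : dem 0 (-2 : Rg K) = 0 := by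
  apply dem_of_inv; rw [map_neg]; congr 1; exact map_ofNat _ 2
theorem dem0_d5 : dem 0 (2 * (X 0 + X 1) : Rg K) = 4 := by apply dem_unique; simp [root]; ring
theorem dem0_d7 : dem 0 (2 * (X 0 * X 0 + X 0 * X 1 + X 1 * X 1) : Rg K) = 4 * X 1 := by
  apply dem_unique; simp [root]; ring
theorem dem1_f5 : dem 1 (4 : Rg K) = 0 := dem_of_inv 1 4 (map_ofNat _ 4)
theorem dem1_f7 : dem 1 (4 * X 1 : Rg K) = -4 := by apply dem_unique; simp [root]; ring
theorem dem0_g7 : dem 0 (-4 : Rg K) = 0 := by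
  apply dem_of_inv; rw [map_neg]; congr 1; exact map_ofNat _ 4

theorem dem0_h3 : dem 0 (root K 2 * -2) = 0 := by apply dem_unique; simp [root]
theorem dem0_h5 : dem 0 (root K 2 * (2 * (X 0 + X 1))) = 4 * (X 1 - X 2) := by
  apply dem_unique; simp [root]; ring
theorem dem0_h7 : dem 0 (root K 2 * (2 * (X 0 * X 0 + X 0 * X 1 + X 1 * X 1))) =
    4 * X 1 * (X 1 - X 2) := by
  apply dem_unique; simp [root]; ring
theorem dem1_h5 : dem 1 (4 * (X 1 - X 2) : Rg K) = -4 := by apply dem_unique; simp [root]; ring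
theorem dem1_h7 : dem 1 (4 * X 1 * (X 1 - X 2) : Rg K) = -4 * (X 0 + X 1) + 4 * X 2 := by
  apply dem_unique; simp [root]; ring
theorem dem0_k7 : dem 0 (-4 * (X 0 + X 1) + 4 * X 2 : Rg K) = -8 := by
  apply dem_unique; simp [root]; ring

theorem cS_mul [CharZero K] : (cS : Rg K) * (-8) = 1 := by
  have : (-8 : Rg K) = C (-8) := by
    rw [C_neg]
    congr 1
  rw [cS, this, ← C_mul, ← C_1]
  congr 1
  norm_num

theorem eS_Psi [CharZero K] : eS (Psi : (BS K dW).carrier) = Psi := by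
  rw [eS_apply, Fin.sum_univ_eight]
  have l0 : lam ((BS K dW).right (bb 0) Psi) = 0 := by
    rw [lam_right_Psi]
    show dem 0 (dem 1 (dem 0 (root K 2 * dem 1 (dem 0 1)))) = 0
    simp only [dem0_1, map_zero, mul_zero]
  have l1 : lam ((BS K dW).right (bb 1) Psi) = 0 := by
    rw [lam_right_Psi]
    show dem 0 (dem 1 (dem 0 (root K 2 * dem 1 (dem 0 (X 0))))) = 0
    simp only [dem0_X0, dem1_c1, map_zero, mul_zero]
  have l2 : lam ((BS K dW).right (bb 2) Psi) = 0 := by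
    rw [lam_right_Psi]
    show dem 0 (dem 1 (dem 0 (root K 2 * dem 1 (dem 0 (X 1))))) = 0
    simp only [dem0_X1, map_zero, mul_zero]
  have l3 : lam ((BS K dW).right (bb 3) Psi) = 0 := by
    rw [lam_right_Psi]
    show dem 0 (dem 1 (dem 0 (root K 2 * dem 1 (dem 0 (X 0 * X 1))))) = 0
    rw [dem0_b3, dem1_c3, dem0_h3, map_zero, map_zero]
  have l4 : lam ((BS K dW).right (bb 4) Psi) = 0 := by
    rw [lam_right_Psi]
    show dem 0 (dem 1 (dem 0 (root K 2 * dem 1 (dem 0 (-(X 1 * X 1)))))) = 0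
    simp only [dem0_b4, map_zero, mul_zero]
  have l5 : lam ((BS K dW).right (bb 5) Psi) = 0 := by
    rw [lam_right_Psi]
    show dem 0 (dem 1 (dem 0 (root K 2 * dem 1 (dem 0 (-(X 0 * (X 1 * X 1))))))) = 0
    rw [dem0_b5, dem1_c5, dem0_h5, dem1_h5, dem0_g7]
  have l6 : lam ((BS K dW).right (bb 6) Psi) = 0 := by
    rw [lam_right_Psi]
    show dem 0 (dem 1 (dem 0 (root K 2 * dem 1 (dem 0 (-(X 1 * (X 1 * X 1))))))) = 0
    simp only [dem0_b6, map_zero, mul_zero]
  have l7 : lam ((BS K dW).right (bb 7) Psi) = -8 := by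
    rw [lam_right_Psi]
    show dem 0 (dem 1 (dem 0 (root K 2 * dem 1 (dem 0 (-(X 0 * (X 1 * (X 1 * X 1)))))))) = -8
    rw [dem0_b7, dem1_c7, dem0_h7, dem1_h7, dem0_k7]
  have h1 : (BS K dW).right (bs 7) Psi = Psi := by
    show (BS K dW).right 1 Psi = Psi
    rw [map_one]
    rfl
  rw [l0, l1, l2, l3, l4, l5, l6, l7, h1]
  simp only [zero_smul, zero_add]
  rw [smul_smul, cS_mul, one_smul]

theorem eS_bot [CharZero K] : eS (BS K dW).bot = 0 := by
  rw [eS_apply]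
  have key : ∀ i : Fin 8, lam ((BS K dW).right (bb i) (BS K dW).bot) = 0 := by
    intro i
    rw [lam_right_bot]
    fin_cases i
    · show dem 0 (dem 1 (dem 0 (dem 1 (dem 0 1)))) = 0
      simp only [dem0_1, map_zero]
    · show dem 0 (dem 1 (dem 0 (dem 1 (dem 0 (X 0))))) = 0
      simp only [dem0_X0, dem1_c1, map_zero]
    · show dem 0 (dem 1 (dem 0 (dem 1 (dem 0 (X 1))))) = 0
      simp only [dem0_X1, map_zero]
    · show dem 0 (dem 1 (dem 0 (dem 1 (dem 0 (X 0 * X 1))))) = 0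
      rw [dem0_b3, dem1_c3, dem0_d3, map_zero, map_zero]
    · show dem 0 (dem 1 (dem 0 (dem 1 (dem 0 (-(X 1 * X 1)))))) = 0
      simp only [dem0_b4, map_zero]
    · show dem 0 (dem 1 (dem 0 (dem 1 (dem 0 (-(X 0 * (X 1 * X 1))))))) = 0
      rw [dem0_b5, dem1_c5, dem0_d5, dem1_f5, map_zero]
    · show dem 0 (dem 1 (dem 0 (dem 1 (dem 0 (-(X 1 * (X 1 * X 1))))))) = 0
      simp only [dem0_b6, map_zero]
    · show dem 0 (dem 1 (dem 0 (dem 1 (dem 0 (-(X 0 * (X 1 * (X 1 * X 1)))))))) = 0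
      rw [dem0_b7, dem1_c7, dem0_d7, dem1_f7, dem0_g7]
  rw [Finset.sum_congr rfl (fun i _ => by rw [key i, zero_smul]), Finset.sum_const_zero,
    smul_zero]

theorem eS_eS [CharZero K] (x : (BS K dW).carrier) : eS (eS x) = eS x := by
  rw [eS_apply x, map_smul, map_sum]
  congr 1
  apply Finset.sum_congr rfl
  intro i _
  rw [map_smul, eS_right, eS_Psi]

end Pool.Agent.Lib.FSB
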