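import Pool.Agent.Lib.FSB.ES3

/-!
# The idempotent `e_S`: degrees
-/

set_option autoImplicit false

open MvPolynomial TensorProduct

namespace Pool.Agent.Lib.FSB

variable {K : Type} [Field K]

/-- `φ` lowers degrees by `k` -/
def Lowers {M : Type} [AddCommGroup M] [Module (Rg K) M] (G : ℕ → AddSubgroup M)
    (φ : M →ₗ[Rg K] Rg K) (k : ℕ) : Prop :=
  (∀ j m, m ∈ G (j + k) → (φ m).IsHomogeneous j) ∧ ∀ n m, n < k → m ∈ G n → φ m = 0

section

variable {M : Type} [AddCommGroup M] [Module (Rg K) M]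

theorem lowers_of_gen (i : Fin 3) (G : ℕ → AddSubgroup M) (φ : Ind K i M →ₗ[Rg K] Rg K) (k : ℕ)
    (h : ∀ (a b : ℕ) (f : Rg K) (m : M), f.IsHomogeneous a → m ∈ G b →
      (∀ j, a + b = j + k → (φ (tm i f m)).IsHomogeneous j) ∧ (a + b < k → φ (tm i f m) = 0)) :
    Lowers (indGr i G) φ k := by
  constructor
  · intro j x hx
    refine indGr_induction i G (n := j + k)
      (homogeneousSubmodule (Fin 3) K j).toAddSubgroup φ.toAddMonoidHom ?_ hx
    intro a b f m hf hm hn
    exact (h a b f m hf hm).1 j hn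
  · intro n x hn hx
    have := indGr_induction i G (n := n) (⊥ : AddSubgroup (Rg K)) φ.toAddMonoidHom ?_ hx
    · exact this
    intro a b f m hf hm hn'
    exact (h a b f m hf hm).2 (by omega)

theorem lowers_lamD (i : Fin 3) (G : ℕ → AddSubgroup M) (φ : M →ₗ[Rg K] Rg K) (k : ℕ)
    (h : Lowers G φ k) : Lowers (indGr i G) (lamD i φ) (k + 1) := by
  apply lowers_of_gen
  intro a b f m hf hm
  rw [lamD_tm]
  rcases Nat.lt_or_ge b k with hb | hb
  · rw [h.2 b m hb hm, map_zero, mul_zero]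
    exact ⟨fun j _ => isHomogeneous_zero _ _ _, fun _ => rfl⟩
  · obtain ⟨c, rfl⟩ : ∃ c, b = c + k := ⟨b - k, by omega⟩
    have h1 := h.1 c m hm
    rcases Nat.eq_zero_or_pos c with h0 | h0
    · rw [h0] at h1
      rw [dem_homog_zero i h1, mul_zero]
      exact ⟨fun j _ => isHomogeneous_zero _ _ _, fun _ => rfl⟩
    · obtain ⟨d, rfl⟩ : ∃ d, c = d + 1 := ⟨c - 1, by omega⟩
      have h2 := hf.mul (dem_homog i h1)
      constructor
      · intro j hj
        have : a + d = j := by omega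
        rwa [this] at h2
      · intro h3
        omega

theorem lowers_ev (i : Fin 3) (G : ℕ → AddSubgroup M) (φ : M →ₗ[Rg K] Rg K) (k : ℕ)
    (h : Lowers G φ k) : Lowers (indGr i G) (ev1 i false φ) k := by
  apply lowers_of_gen
  intro a b f m hf hm
  rw [ev1_tm, tw_false, AlgEquiv.one_apply]
  rcases Nat.lt_or_ge b k with hb | hb
  · rw [h.2 b m hb hm, mul_zero]
    exact ⟨fun j _ => isHomogeneous_zero _ _ _, fun _ => rfl⟩
  · obtain ⟨c, rfl⟩ : ∃ c, b = c + k := ⟨b - k, by omega⟩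
    have h2 := hf.mul (h.1 c m hm)
    constructor
    · intro j hj
      have : a + c = j := by omega
      rwa [this] at h2
    · intro h3
      omega

theorem bc_mem_shift (i : Fin 3) (G : ℕ → AddSubgroup M) (g : M →ₗ[Rg K] M) (k : ℕ)
    (hgr : ∀ n m, m ∈ G n → g m ∈ G (n + k)) {n : ℕ} {x : Ind K i M} (hx : x ∈ indGr i G n) :
    bc i g x ∈ indGr i G (n + k) := by
  refine indGr_induction i G (n := n) (indGr i G (n + k)) (bc i g).toAddMonoidHom ?_ hx
  intro a b f m hf hm hn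
  show bc i g (tm i f m) ∈ _
  rw [bc_tm]
  exact tm_mem i G hf (hgr b m hm) (by omega)

end

theorem right_mem (w : List (Fin 3)) {a n : ℕ} {f : Rg K} (hf : f.IsHomogeneous a)
    {m : (BS K w).carrier} (hm : m ∈ (BS K w).gr n) :
    (BS K w).right f m ∈ (BS K w).gr (n + a) := by
  induction w generalizing n with
  | nil =>
    have := MvPolynomial.IsHomogeneous.mul hf hm
    rw [add_comm] at this
    exact this
  | cons i w ih =>
    exact bc_mem_shift i (BS K w).gr ((BS K w).right f) a (fun n m hm => ih hm) hm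

theorem lowers_lam : Lowers (BS K dW).gr (lam : (BS K dW).carrier →ₗ[Rg K] Rg K) 5 := by
  have h0 : Lowers (BS K []).gr (LinearMap.id : Rg K →ₗ[Rg K] Rg K) 0 :=
    ⟨fun j m hm => hm, fun n m hn => absurd hn (Nat.not_lt_zero n)⟩
  exact lowers_lamD 0 _ _ 4 (lowers_lamD 1 _ _ 3 (lowers_lamD 0 _ _ 2 (lowers_ev 2 _ _ 2
    (lowers_lamD 1 _ _ 1 (lowers_lamD 0 _ _ 0 h0)))))

theorem Psi_mem_aux (G : ℕ → AddSubgroup (Rg K)) (h : (1 : Rg K) ∈ G 0) :
    (tm 0 1 (tm 1 1 (tm 0 1 ((hf : Rg K) • del 2 (tm 1 1 (tm 0 1 (1 : Rg K)))))) :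
    Ind K 0 (Ind K 1 (Ind K 0 (Ind K 2 (Ind K 1 (Ind K 0 (Rg K))))))) ∈
    indGr (K := K) 0 (indGr 1 (indGr 0 (indGr 2 (indGr 1 (indGr 0 G))))) 1 := by
  have h1 : (tm 1 1 (tm 0 1 (1 : Rg K)) : Ind K 1 (Ind K 0 (Rg K))) ∈
      indGr (K := K) 1 (indGr 0 G) 0 :=
    tm_mem 1 _ (isHomogeneous_one _ _) (tm_mem 0 _ (isHomogeneous_one _ _) h rfl) rfl
  have h2 := del_mem (K := K) 2 _ (isGr_indGr 1 _) h1
  have h3 := isGr_indGr (K := K) 2 _ 0 _ hf _ hf_homogF h2
  exact tm_mem 0 _ (isHomogeneous_one _ _) (tm_mem 1 _ (isHomogeneous_one _ _)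
    (tm_mem 0 _ (isHomogeneous_one _ _) h3 rfl) rfl) rfl

theorem Psi_mem : (Psi : (BS K dW).carrier) ∈ (BS K dW).gr 1 :=
  Psi_mem_aux (BS K []).gr (isHomogeneous_one (Fin 3) K)

/-- degrees of the dual bases -/
def db : Fin 8 → ℕ := ![0, 1, 1, 2, 2, 3, 3, 4]

theorem bb_homog (i : Fin 8) : (bb i : Rg K).IsHomogeneous (db i) := by
  have h0 := X_homog (K := K) 0
  have h1 := X_homog (K := K) 1
  have h : ∀ i : Fin 8, (bb i : Rg K).IsHomogeneous (db i) := by
    intro i
    fin_cases i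
    · exact isHomogeneous_one _ _
    · exact h0
    · exact h1
    · exact h0.mul h1
    · exact (h1.mul h1).neg
    · exact (h0.mul (h1.mul h1)).neg
    · exact (h1.mul (h1.mul h1)).neg
    · exact (h0.mul (h1.mul (h1.mul h1))).neg
  exact h i

theorem bs_homog (i : Fin 8) : (bs i : Rg K).IsHomogeneous (4 - db i) := by
  have h0 := X_homog (K := K) 0
  have h1 := X_homog (K := K) 1
  have h : ∀ i : Fin 8, (bs i : Rg K).IsHomogeneous (4 - db i) := by
    intro i
    fin_cases i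
    · exact h0.mul (h1.mul (h0.mul h0))
    · exact h1.mul (h0.mul h0)
    · exact h0.mul (h0.mul h0)
    · exact h0.mul h0
    · exact h0.mul h1
    · exact h1
    · exact h0
    · exact isHomogeneous_one _ _
  exact h i

theorem db_le (i : Fin 8) : db i ≤ 4 := by
  fin_cases i <;> decide

theorem eS_mem {n : ℕ} {x : (BS K dW).carrier} (hx : x ∈ (BS K dW).gr n) :
    eS x ∈ (BS K dW).gr n := by
  rw [eS_apply]
  have hcS : (cS : Rg K).IsHomogeneous 0 := isHomogeneous_C _ _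
  have key : ∑ i : Fin 8, lam ((BS K dW).right (bb i) x) • (BS K dW).right (bs i) Psi ∈
      (BS K dW).gr n := by
    apply sum_mem
    intro i _
    have h1 := right_mem dW (bb_homog (K := K) i) hx
    have h2 := right_mem dW (bs_homog (K := K) i) Psi_mem
    rcases Nat.lt_or_ge (n + db i) 5 with hb | hb
    · rw [lowers_lam.2 _ _ hb h1, zero_smul]
      exact zero_mem _
    · obtain ⟨c, hc⟩ : ∃ c, n + db i = c + 5 := ⟨n + db i - 5, by omega⟩
      rw [hc] at h1
      have h3 := lowers_lam.1 _ _ h1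
      have h4 := isGr_BS dW _ _ _ _ h3 h2
      have h5 := db_le i
      have e : c + (1 + (4 - db i)) = n := by omega
      rwa [e] at h4
  have h6 := isGr_BS dW _ _ _ _ hcS key
  rwa [zero_add] at h6

theorem eS_grEnd [CharZero K] : IsGrEnd (BS K dW) eS where
  right f m := eS_right f m
  deg _ _ hm := eS_mem hm

end Pool.Agent.Lib.FSB
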