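import Pool.Agent.Lib.FSB.Maps

/-!
# The coordinates on Bott-Samelson bimodules
-/

set_option autoImplicit false

open MvPolynomial TensorProduct

namespace Pool.Agent.Lib.FSB

variable {K : Type} [Field K]

/-- The coordinate `f₀ ⊗ ⋯ ⊗ f_k ↦ f₀ w₁(f₁) ⋯ w_k(f_k)` on `BS(w)`, with
`w_j = r₁^{b₁} ⋯ r_j^{b_j}`. -/
noncomputable def ev : (w : List (Fin 3)) → List Bool → ((BS K w).carrier →ₗ[Rg K] Rg K)
  | [], _ => (LinearMap.id : Rg K →ₗ[Rg K] Rg K)
  | i :: w, b => ev1 i (b.headD false) (ev w b.tail)

/-- The label `r₁^{b₁} ⋯ r_k^{b_k}` of a coordinate. -/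
noncomputable def lab : List (Fin 3) → List Bool → (Rg K ≃ₐ[K] Rg K)
  | [], _ => 1
  | i :: w, b => tw i (b.headD false) * lab w b.tail

section

variable {M : Type} [AddCommGroup M] [Module (Rg K) M]

theorem ev1_bc (i : Fin 3) (c : Bool) (φ : M →ₗ[Rg K] Rg K) (ρ : M →ₗ[Rg K] M)
    (x : Ind K i M) : ev1 i c φ (bc i ρ x) = ev1 i c (φ.comp ρ) x := by
  induction x using tm_induction with
  | hadd x y hx hy => rw [map_add, map_add, hx, hy, map_add]
  | hP f m => rw [bc_tm, ev1_tm, ev1_tm]; rfl

theorem ev1_smul (i : Fin 3) (c : Bool) (a : Rg K) (φ : M →ₗ[Rg K] Rg K) (x : Ind K i M) :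
    ev1 i c (a • φ) x = tw i c a * ev1 i c φ x := by
  induction x using tm_induction with
  | hadd x y hx hy => rw [map_add, map_add, hx, hy, mul_add]
  | hP f m =>
    rw [ev1_tm, ev1_tm, LinearMap.smul_apply, smul_eq_mul, map_mul]
    ring

theorem ev1_sub (i : Fin 3) (c : Bool) (φ ψ : M →ₗ[Rg K] Rg K) (x : Ind K i M) :
    ev1 i c (φ - ψ) x = ev1 i c φ x - ev1 i c ψ x := by
  induction x using tm_induction with
  | hadd x y hx hy => rw [map_add, map_add, hx, hy, map_add]; ring
  | hP f m =>
    rw [ev1_tm, ev1_tm, ev1_tm, LinearMap.sub_apply, map_sub]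
    ring

theorem ev1_zero (i : Fin 3) (c : Bool) (x : Ind K i M) :
    ev1 i c (0 : M →ₗ[Rg K] Rg K) x = 0 := by
  induction x using tm_induction with
  | hadd x y hx hy => rw [map_add, hx, hy, add_zero]
  | hP f m =>
    rw [ev1_tm, LinearMap.zero_apply, map_zero, mul_zero]

/-- if the coordinates `f ⊗ m ↦ f φ(m)` and `f ⊗ m ↦ f r(φ(m))` of `x = 1 ⊗ m + α ⊗ m'` vanish
then `φ(m) = φ(m') = 0` -/
theorem ev1_decomp [CharZero K] (i : Fin 3) (φ : M →ₗ[Rg K] Rg K) (m m' : M)
    (h0 : ev1 i false φ (tm i 1 m + tm i (root K i) m') = 0)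
    (h1 : ev1 i true φ (tm i 1 m + tm i (root K i) m') = 0) : φ m = 0 ∧ φ m' = 0 := by
  rw [map_add, ev1_tm, ev1_tm, one_mul] at h0 h1
  have e0 : φ m + root K i * φ m' = 0 := h0
  have e1 : φ m - root K i * φ m' = 0 := by
    have := congrArg (refl K i) h1
    rw [map_add, map_mul, tw_true, refl_refl, refl_refl, refl_root, map_zero] at this
    linear_combination this
  have h2 : (hf : Rg K) + hf = 1 := hf_add
  constructor
  · linear_combination hf * e0 + hf * e1 - φ m * h2
  · apply mul_left_cancel₀ (root_ne_zero (K := K) i)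
    linear_combination hf * e0 - hf * e1 - root K i * φ m' * h2

end

theorem ev_right (w : List (Fin 3)) (b : List Bool) (f : Rg K) (m : (BS K w).carrier) :
    ev w b ((BS K w).right f m) = lab w b f * ev w b m := by
  induction w generalizing b with
  | nil => rfl
  | cons i w ih =>
    have h : (ev w b.tail).comp ((BS K w).right f) = (lab w b.tail f) • (ev w b.tail) := by
      apply LinearMap.ext
      intro x
      exact ih b.tail x
    have key : ∀ y : Ind K i (BS K w).carrier,
        ev1 i (b.headD false) (ev w b.tail) (bc i ((BS K w).right f) y) =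
        tw i (b.headD false) (lab w b.tail f) * ev1 i (b.headD false) (ev w b.tail) y := by
      intro y
      rw [ev1_bc, h, ev1_smul]
    exact key m

theorem ev_bot (w : List (Fin 3)) (b : List Bool) : ev w b (BS K w).bot = 1 := by
  induction w generalizing b with
  | nil => rfl
  | cons i w ih =>
    show 1 * tw i (b.headD false) (ev w b.tail (BS K w).bot) = 1
    rw [ih, map_one, mul_one]

theorem ev_inj [CharZero K] (w : List (Fin 3)) (m : (BS K w).carrier)
    (h : ∀ b : List Bool, b.length = w.length → ev w b m = 0) : m = 0 := by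
  induction w with
  | nil => exact h [] rfl
  | cons i w ih =>
    obtain ⟨x, x', hx⟩ := exists_decomp i (m : Ind K i (BS K w).carrier)
    have key : ∀ b : List Bool, b.length = w.length → ev w b x = 0 ∧ ev w b x' = 0 := by
      intro b hb
      apply ev1_decomp i
      · have := h (false :: b) (by simp [hb])
        rw [← hx]
        exact this
      · have := h (true :: b) (by simp [hb])
        rw [← hx]
        exact this
    have e1 : x = 0 := ih x fun b hb => (key b hb).1
    have e2 : x' = 0 := ih x' fun b hb => (key b hb).2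
    have h2 : (tm i 1 x + tm i (root K i) x' : Ind K i (BS K w).carrier) = 0 := by
      rw [e1, e2, tm_zero, tm_zero, add_zero]
    exact hx.trans h2

end Pool.Agent.Lib.FSB
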