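import Pool.Agent.Lib.FSB.M2a

/-!
# Module M2b: the commutative algebra `X^e` has no nilpotent elements
-/

set_option autoImplicit false

open MvPolynomial TensorProduct

namespace Pool.Agent.Lib.FSB

variable {K : Type} [Field K]

section aux

variable {X : Bimod K}

theorem right_one_lab {z : X.carrier} (hz : Lab X 1 z) (f : Rg K) : X.right f z = f • z := hz f

/-- properties of a square-zero element of label `1` that is not divisible by the root -/
structure Nil0 (X : Bimod K) (F : DualFrob X) (z : X.carrier) : Prop where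
  lab : Lab X 1 z
  sq : F.mul z z = 0
  nd : ∀ a : X.carrier, z ≠ root K 1 • a

theorem exists_nil0 (C : Coord X) (F : DualFrob X) {ζ : X.carrier} (hζ : Lab X 1 ζ)
    (h : F.mul ζ ζ = 0) (h0 : ζ ≠ 0) : ∃ z, Nil0 X F z := by
  by_contra hno
  push Not at hno
  -- all powers of the root divide `ζ`
  have key : ∀ n : ℕ, ∃ z : X.carrier, ζ = (root K 1) ^ n • z := by
    intro n
    induction n with
    | zero => exact ⟨ζ, by rw [pow_zero, one_smul]⟩
    | succ n ih =>
      obtain ⟨z, hz⟩ := ih
      have hp : (root K 1) ^ n ≠ 0 := pow_ne_zero _ (root_ne_zero 1)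
      have h1 : Lab X 1 z := by
        intro f
        have h2 : (root K 1) ^ n • (X.right f z - (1 : Rg K ≃ₐ[K] Rg K) f • z) = 0 := by
          rw [smul_sub, ← map_smul, ← hz, hζ f, hz, smul_comm, sub_self]
        exact sub_eq_zero.1 ((C.smul_eq_zero h2).resolve_left hp)
      have h3 : F.mul z z = 0 := by
        have h4 : (root K 1) ^ n • ((root K 1) ^ n • F.mul z z) = 0 := by
          have h5 : F.mul ζ ζ = (root K 1) ^ n • ((root K 1) ^ n • F.mul z z) := by
            conv_lhs => rw [hz]
            rw [F.smul_mul, mul_smul_lab F h1]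
            rfl
          rw [← h5, h]
        exact (C.smul_eq_zero ((C.smul_eq_zero h4).resolve_left hp)).resolve_left hp
      by_contra hh
      push Not at hh
      refine hno z ⟨h1, h3, fun a ha => hh a ?_⟩
      rw [hz, ha, smul_smul, pow_succ]
  -- a nonzero coordinate
  have h1 : ∃ j, C.ι ζ j ≠ 0 := by
    by_contra hh
    push Not at hh
    apply h0
    apply C.inj
    rw [map_zero]
    funext j
    exact hh j
  obtain ⟨j, hj⟩ := h1
  have h2 : ∀ n : ℕ, (root K 1) ^ n ∣ C.ι ζ j := by
    intro n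
    obtain ⟨z, hz⟩ := key n
    rw [hz, map_smul]
    exact ⟨C.ι z j, rfl⟩
  exact (FiniteMultiplicity.of_prime_left root_prime hj).elim fun n hn => hn (h2 (n + 1))

variable {F : DualFrob X} {z : X.carrier}

theorem Nil0.ne_zero (N : Nil0 X F z) : z ≠ 0 := by
  rintro rfl
  exact N.nd 0 (by rw [smul_zero])

theorem Nil0.sat {C : Coord X} (P : Props X C) (N : Nil0 X F z) {c : Rg K} {a : X.carrier}
    (h : c • z = root K 1 • a) : root K 1 ∣ c := by
  by_contra hc
  obtain ⟨m, hm⟩ := P.sat c z a hc h
  exact N.nd m hm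

theorem Nil0.val {C : Coord X} (P : Props X C) (N : Nil0 X F z) (k : ℕ) :
    ∀ (m : X.carrier) (d : Rg K), (root K 1) ^ k • m = d • z → (root K 1) ^ k ∣ d := by
  induction k with
  | zero => intro m d _; rw [pow_zero]; exact one_dvd d
  | succ k ih =>
    intro m d h
    have h1 : root K 1 ∣ d := N.sat P (a := (root K 1) ^ k • m) (by
      rw [← h, pow_succ', smul_smul])
    obtain ⟨e, rfl⟩ := h1
    have h2 : root K 1 • ((root K 1) ^ k • m - e • z) = 0 := by
      rw [smul_sub, smul_smul, smul_smul, ← pow_succ', h, sub_self]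
    have h3 := sub_eq_zero.1 ((C.smul_eq_zero h2).resolve_left (root_ne_zero 1))
    rw [pow_succ']
    exact mul_dvd_mul_left _ (ih m e h3)

theorem Nil0.indep (C : Coord X) (N : Nil0 X F z) {a b : Rg K}
    (h : a • F.one + b • z = 0) : a = 0 ∧ b = 0 := by
  have h1 : a • z = 0 := by
    have h2 := congrArg (fun w => F.mul w z) h
    simp only [map_add, AddMonoidHom.add_apply, F.smul_mul, F.one_mul, N.sq, smul_zero, add_zero,
      map_zero, AddMonoidHom.zero_apply] at h2
    exact h2
  have h3 := (C.smul_eq_zero h1).resolve_right N.ne_zero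
  rw [h3, zero_smul, zero_add] at h
  exact ⟨h3, (C.smul_eq_zero h).resolve_right N.ne_zero⟩

theorem one_lab : Lab X 1 F.one := F.one_central

theorem Nil0.express {C : Coord X} (P : Props X C) (N : Nil0 X F z) {x : X.carrier}
    (hx : Lab X 1 x) : ∃ c d1 d2 : Rg K, c ≠ 0 ∧ c • x = d1 • F.one + d2 • z := by
  obtain ⟨a, b, c, habc, h⟩ := P.rk_e x F.one z hx one_lab N.lab
  refine ⟨a, -b, -c, ?_, ?_⟩
  · rintro rfl
    rw [zero_smul, zero_add] at h
    obtain ⟨hb, hc⟩ := N.indep C h
    rw [hb, hc] at habc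
    simp at habc
  · rw [neg_smul, neg_smul]
    rw [add_assoc, add_comm] at h
    rw [← neg_add]
    exact (neg_eq_of_add_eq_zero_right h).symm

theorem Nil0.mul_t {C : Coord X} (P : Props X C) (N : Nil0 X F z) {w : X.carrier}
    (hw : Lab X (refl K 1) w) : F.mul w z = 0 := by
  have h0 : Lab X (refl K 1) (F.mul w z) := by
    have := mul_lab F hw N.lab
    rwa [mul_one] at this
  obtain ⟨a, b, hab, h⟩ := P.rk_t w (F.mul w z) hw h0
  have h1 : a • F.mul w z = 0 := by
    have h2 := congrArg (fun v => F.mul v z) h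
    simp only [map_add, AddMonoidHom.add_apply, F.smul_mul, F.mul_assoc, N.sq, smul_zero,
      add_zero, map_zero, AddMonoidHom.zero_apply] at h2
    exact h2
  rcases C.smul_eq_zero h1 with ha | h2
  · rw [ha, zero_smul, zero_add] at h
    rcases C.smul_eq_zero h with hb | h3
    · rw [ha, hb] at hab; simp at hab
    · exact h3
  · exact h2

theorem two_ne [CharZero K] : (2 : Rg K) ≠ 0 := two_ne_zero

theorem not_dvd_two [CharZero K] : ¬ root K 1 ∣ (2 : Rg K) := by
  intro h
  have h1 : IsUnit (2 : Rg K) := by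
    have : (2 : Rg K) = C 2 := (map_ofNat (C : K →+* Rg K) 2).symm
    rw [this]
    exact (IsUnit.mk0 (2 : K) two_ne_zero).map C
  exact root_prime.not_isUnit (isUnit_of_dvd_unit h h1)

theorem Nil0.step4 [CharZero K] {C : Coord X} (P : Props X C) (N : Nil0 X F z) {a : X.carrier}
    (ha : ∀ j, C.y j ≠ 1 → C.y j ≠ refl K 1 → C.ι a j = 0) :
    ∃ (k : ℕ) (c e d : Rg K), ¬ root K 1 ∣ c ∧
      ((root K 1) ^ k * c) • (root K 1 • a + X.right (root K 1) a) =
        ((root K 1) ^ (k + 1) * e) • F.one + d • z ∧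
      (2 * c) • F.mul a z = e • z := by
  set al := root K 1 with hal
  set x := al • a + X.right al a with hx
  set w := al • a - X.right al a with hw
  have hcoord : ∀ j, C.ι (X.right al a) j = C.y j al * C.ι a j := fun j => C.right al a j
  have hxl : Lab X 1 x := by
    refine C.lab_of_ι fun j hj => ?_
    rw [hx, map_add, map_smul]
    show al * C.ι a j + C.ι (X.right al a) j = 0
    rw [hcoord]
    by_cases hj' : C.y j = refl K 1
    · rw [hj', hal, refl_root]; ring
    · rw [ha j hj hj', mul_zero, mul_zero, add_zero]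
  have hwl : Lab X (refl K 1) w := by
    refine C.lab_of_ι fun j hj => ?_
    rw [hw, map_sub, map_smul]
    show al * C.ι a j - C.ι (X.right al a) j = 0
    rw [hcoord]
    by_cases hj' : C.y j = 1
    · rw [hj']
      exact sub_self _
    · rw [ha j hj' hj, mul_zero, mul_zero, sub_zero]
  have hsum : (2 * al) • a = x + w := by
    rw [hx, hw, two_mul, add_smul]
    abel
  have h1 : (2 * al) • F.mul a z = F.mul x z := by
    rw [← F.smul_mul, hsum, map_add, AddMonoidHom.add_apply, N.mul_t P hwl, add_zero]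
  obtain ⟨c0, d1, d2, hc0, hexp⟩ := N.express P hxl
  have h2 : c0 • F.mul x z = d1 • z := by
    have h3 := congrArg (fun v => F.mul v z) hexp
    simp only [map_add, AddMonoidHom.add_apply, F.smul_mul, F.one_mul, N.sq, smul_zero,
      add_zero] at h3
    exact h3
  obtain ⟨k, c, hc, hc0'⟩ := (FiniteMultiplicity.of_prime_left (root_prime (K := K)) hc0).exists_eq_pow_mul_and_not_dvd.elim
    fun c hc => (⟨_, c, hc.2, hc.1⟩ : ∃ (k : ℕ) (c : Rg K), ¬ root K 1 ∣ c ∧ c0 = (root K 1) ^ k * c)
  have h3 : al ^ (k + 1) • ((2 * c) • F.mul a z) = d1 • z := by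
    rw [← h2, ← h1, hc0', smul_smul, smul_smul]
    congr 1
    rw [hal]
    ring
  obtain ⟨e, he⟩ := N.val P (k + 1) _ _ h3
  refine ⟨k, c, e, d2, hc, ?_, ?_⟩
  · rw [← hc0', hexp, he]
  · have h4 : al ^ (k + 1) • ((2 * c) • F.mul a z - e • z) = 0 := by
      rw [smul_sub, h3, he, smul_smul, sub_self]
    exact sub_eq_zero.1 ((C.smul_eq_zero h4).resolve_left (pow_ne_zero _ (root_ne_zero 1)))

end aux

theorem no_nilp [CharZero K] {X : Bimod K} (C : Coord X) (P : Props X C) (F : DualFrob X)
    {ζ : X.carrier} (hζ : Lab X 1 ζ) (h : F.mul ζ ζ = 0) : ζ = 0 := by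
  classical
  by_contra hne
  obtain ⟨z, N⟩ := exists_nil0 C F hζ h hne
  set al := root K 1 with hal
  have hp : Prime al := root_prime
  -- separating functions
  have hsep : ∀ j, ∃ f : Rg K, C.y j ≠ 1 → C.y j ≠ refl K 1 → ¬ al ∣ f - C.y j f := by
    intro j
    by_cases h1 : C.y j = 1
    · exact ⟨0, fun h => absurd h1 h⟩
    by_cases h2 : C.y j = refl K 1
    · exact ⟨0, fun _ h => absurd h2 h⟩
    obtain ⟨f, hf⟩ := P.sep j h1 h2
    exact ⟨f, fun _ _ => hf⟩
  choose f hf using hsep
  set S := Finset.univ.filter fun j => C.y j ≠ 1 ∧ C.y j ≠ refl K 1 with hS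
  set D := ∏ j ∈ S, (f j - C.y j (f j)) with hD
  have hDn : ¬ al ∣ D := by
    intro hd
    obtain ⟨j, hj, hd'⟩ := hp.exists_mem_finset_dvd hd
    rw [hS, Finset.mem_filter] at hj
    exact hf j hj.2.1 hj.2.2 hd'
  have hsupp : ∀ (m0 m : X.carrier), (∀ k, C.ι m k = (∏ j ∈ S, (C.y k (f j) - C.y j (f j))) *
      C.ι m0 k) → ∀ j, C.y j ≠ 1 → C.y j ≠ refl K 1 → C.ι m j = 0 := by
    intro m0 m hm j h1 h2
    rw [hm, Finset.prod_eq_zero (i := j) (by rw [hS, Finset.mem_filter]; exact ⟨Finset.mem_univ _, h1, h2⟩)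
      (sub_self _), zero_mul]
  -- step 5
  have h5 : al ∣ F.counit z := by
    obtain ⟨a, ha, _⟩ := C.exists_ops C.bot S f
    obtain ⟨k, c, e, d, hc, h1, h2⟩ := N.step4 P (hsupp _ _ ha)
    obtain ⟨j0, j1, hj0, hj1, hglue⟩ := P.glue
    have hne1 : C.y j1 ≠ 1 := by
      rw [hj1]
      intro hh
      have := DFunLike.congr_fun hh (root K 1)
      rw [refl_root] at this
      have h3 : -root K 1 = root K 1 := this
      have h4 : (2 : Rg K) * root K 1 = 0 := by rw [two_mul]; nth_rewrite 1 [← h3]; ring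
      rcases mul_eq_zero.1 h4 with h5 | h5
      · exact two_ne h5
      · exact root_ne_zero 1 h5
    obtain ⟨o, ho⟩ : al ∣ C.ι F.one j0 := by
      have := hglue F.one
      rwa [C.ι_eq_zero one_lab hne1, sub_zero] at this
    obtain ⟨z', hz'⟩ : al ∣ C.ι z j0 := by
      have := hglue z
      rwa [C.ι_eq_zero N.lab hne1, sub_zero] at this
    have ha0 : C.ι a j0 = D := by
      rw [ha, C.ι_bot, mul_one, hD, hj0]
      rfl
    have h3 := congrFun (congrArg C.ι h1) j0
    rw [map_smul, map_add, map_add, map_smul, map_smul, map_smul] at h3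
    have h4 : (al ^ k * c) * (al * C.ι a j0 + C.ι (X.right al a) j0) =
        (al ^ (k + 1) * e) * C.ι F.one j0 + d * C.ι z j0 := h3
    have h6 : C.ι (X.right al a) j0 = al * C.ι a j0 := by
      rw [C.right, hj0]
      rfl
    rw [h6, ho, hz', ha0] at h4
    have h7 : d * z' = al ^ k * (2 * c * D - al * (e * o)) := by
      apply mul_left_cancel₀ hp.ne_zero
      linear_combination -h4
    have h8 : ¬ al ^ (k + 1) ∣ d := by
      intro hd
      have h9 : al ^ (k + 1) ∣ al ^ k * (2 * c * D - al * (e * o)) := by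
        rw [← h7]
        exact Dvd.dvd.mul_right hd _
      rw [pow_succ] at h9
      have h10 := (mul_dvd_mul_iff_left (pow_ne_zero k hp.ne_zero)).1 h9
      have h11 : al ∣ 2 * c * D := by
        have := dvd_add h10 (Dvd.intro (e * o) rfl : al ∣ al * (e * o))
        rwa [sub_add_cancel] at this
      rcases hp.dvd_or_dvd h11 with h12 | h12
      · rcases hp.dvd_or_dvd h12 with h13 | h13
        · exact not_dvd_two h13
        · exact hc h13
      · exact hDn h12
    have h9 := congrArg F.counit h1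
    rw [map_smul, map_add, map_add, map_smul, map_smul, map_smul, F.counit_right] at h9
    have h10 : al ^ (k + 1) ∣ d * F.counit z := by
      have h11 : d * F.counit z = al ^ (k + 1) * (2 * c * F.counit a - e * F.counit F.one) := by
        have h12 : (al ^ k * c) * (al * F.counit a + al * F.counit a) =
          (al ^ (k + 1) * e) * F.counit F.one + d * F.counit z := h9
        linear_combination -h12
      rw [h11]
      exact dvd_mul_right _ _
    by_contra hh
    exact h8 (hp.pow_dvd_of_dvd_mul_right (k + 1) hh h10)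
  -- step 6
  have h6 : ∀ b : X.carrier, al ∣ F.counit (F.mul b z) := by
    intro b
    obtain ⟨a, ha, ha2⟩ := C.exists_ops b S f
    obtain ⟨k, c, e, d, hc, _, h2⟩ := N.step4 P (hsupp _ _ ha)
    have h3 := congrArg F.counit h2
    rw [map_smul, map_smul, ha2 F 1 z N.lab] at h3
    have h4 : (2 * c) * (D * F.counit (F.mul b z)) = e * F.counit z := h3
    have h7 : al ∣ (2 * c) * (D * F.counit (F.mul b z)) := by
      rw [h4]
      exact Dvd.dvd.mul_left h5 _
    rcases hp.dvd_or_dvd h7 with h8 | h8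
    · rcases hp.dvd_or_dvd h8 with h9 | h9
      · exact absurd h9 not_dvd_two
      · exact absurd h9 hc
    · rcases hp.dvd_or_dvd h8 with h9 | h9
      · exact absurd h9 hDn
      · exact h9
  -- step 7
  choose e he using fun i => h6 (F.z i)
  set a' := ∑ i, X.right (e i) (F.x i) with ha'
  have h7 : z = X.right al a' := by
    rw [ha', map_sum]
    conv_lhs => rw [F.expand_right z]
    refine Finset.sum_congr rfl fun i _ => ?_
    rw [he i, map_mul]
    rfl
  have h8 : Lab X 1 a' := by
    refine C.lab_of_ι fun j hj => ?_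
    have h9 := C.ι_eq_zero N.lab hj
    rw [h7, C.right] at h9
    rcases mul_eq_zero.1 h9 with h10 | h10
    · exact absurd ((map_eq_zero_iff _ (C.y j).injective).1 h10) hp.ne_zero
    · exact h10
  exact N.nd a' (h7.trans (h8 al))

end Pool.Agent.Lib.FSB
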