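import Pool.Agent.Lib.FSB.M2a

/-!
# Module M2c: the groupoid argument
-/

set_option autoImplicit false

open MvPolynomial TensorProduct

namespace Pool.Agent.Lib.FSB

variable {K : Type} [Field K]

/-! ### The combinatorial part -/

/-- the combinatorial part of the groupoid argument -/
theorem groupoid_comb {G : Type*} [Group G] (S T U : G) (hS : S * S = 1) (hT : T * T = 1)
    (hU : U * U = 1) (hSU : S * U = U * S) (V : G → Bool → Bool → Prop)
    (hmul : ∀ g h a b c, V g a b → V h b c → V (g * h) a c)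
    (hinv : ∀ g a b, V g a b → V g⁻¹ b a) (i k : Bool)
    (hTi : V T i i) (hTu : ∀ a b, V T a b → a = i ∧ b = i)
    (hUk : V U k k) (hUu : ∀ a b, V U a b → a = k ∧ b = k)
    (hs : ∃ a b, V S a b) (hsu : ∃ a b, V (S * U) a b) (htu : ∃ a b, V (T * U) a b)
    (h1 : ∀ a b, ¬ V (U * T * S * T) a b) (h2 : ∀ a b, ¬ V (U * T * S * T * U) a b) : False := by
  have hSi : S⁻¹ = S := inv_eq_of_mul_eq_one_left hS
  have hTinv : T⁻¹ = T := inv_eq_of_mul_eq_one_left hT
  have hUi : U⁻¹ = U := inv_eq_of_mul_eq_one_left hU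
  have dS : ∀ a b, V S a b → V S b a := fun a b h => by
    have := hinv S a b h
    rwa [hSi] at this
  have dTU : ∀ a b, V (T * U) a b → V (U * T) b a := fun a b h => by
    have := hinv _ a b h
    rwa [mul_inv_rev, hTinv, hUi] at this
  have A1 : ∀ a b c d, V S a b → V U b c → V S c d → V U a d := fun a b c d x y z => by
    have := hmul _ _ _ _ _ (hmul _ _ _ _ _ x y) z
    rwa [hSU, mul_assoc, hS, mul_one] at this
  have A2 : ∀ a b c, V (S * U) a b → V U b c → V S a c := fun a b c x y => by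
    have := hmul _ _ _ _ _ x y
    rwa [mul_assoc, hU, mul_one] at this
  have A3 : ∀ a b c, V U a b → V (S * U) b c → V S a c := fun a b c x y => by
    have := hmul _ _ _ _ _ x y
    rwa [hSU, ← mul_assoc, hU, one_mul] at this
  have A4 : ∀ a b c, V S a b → V (S * U) b c → V U a c := fun a b c x y => by
    have := hmul _ _ _ _ _ x y
    rwa [← mul_assoc, hS, one_mul] at this
  have A5 : ∀ a b c, V T a b → V (T * U) b c → V U a c := fun a b c x y => by
    have := hmul _ _ _ _ _ x y
    rwa [← mul_assoc, hT, one_mul] at this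
  have A6 : ∀ a b c, V (T * U) a b → V U b c → V T a c := fun a b c x y => by
    have := hmul _ _ _ _ _ x y
    rwa [mul_assoc, hU, mul_one] at this
  have A8 : ∀ e a b c d, V U e a → V (T * U) a b → V S b c → V (U * T) c d → False :=
    fun e a b c d w x y z => by
    have h := hmul _ _ _ _ _ w (hmul _ _ _ _ _ (hmul _ _ _ _ _ x y) z)
    have e1 : U * (T * U * S * (U * T)) = U * T * S * T := by
      have : T * U * S * (U * T) = T * (U * (S * U)) * T := by group
      rw [this, hSU, ← mul_assoc U U S, hU, one_mul]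
      group
    rw [e1] at h
    exact h1 _ _ h
  have A9 : ∀ a b c d, V (U * T) a b → V S b c → V (T * U) c d → False := fun a b c d x y z => by
    have h := hmul _ _ _ _ _ (hmul _ _ _ _ _ x y) z
    rw [← mul_assoc] at h
    exact h2 _ _ h
  have A10 : ∀ a b c d e, V U a b → V T b c → V S c d → V T d e → False :=
    fun a b c d e x y z w => h1 _ _ (hmul _ _ _ _ _ (hmul _ _ _ _ _ (hmul _ _ _ _ _ x y) z) w)
  have hb : ∀ x y : Bool, x = y ∨ x = !y := by decide
  have hnot : ∀ x : Bool, (!x) = x → False := by decide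
  have hnot' : ∀ x : Bool, x = (!x) → False := by decide
  rcases hb k i with rfl | rfl
  · -- `i = k`
    have n1 : ¬ V S k k := fun h => A10 _ _ _ _ _ hUk hTi h hTi
    have n2 : ¬ V S (!k) k := fun h => hnot k (hUu _ _ (A1 _ _ _ _ h hUk (dS _ _ h))).1
    have n3 : ¬ V S k (!k) := fun h => n2 (dS _ _ h)
    have p1 : V S (!k) (!k) := by
      obtain ⟨a, b, h⟩ := hs
      rcases hb a k with ha | ha <;> rcases hb b k with hb' | hb' <;> rw [ha, hb'] at h
      · exact absurd h n1
      · exact absurd h n3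
      · exact absurd h n2
      · exact h
    obtain ⟨a, b, h⟩ := hsu
    rcases hb b k with hb' | hb' <;> rcases hb a k with ha | ha <;> rw [ha, hb'] at h
    · exact n1 (A2 _ _ _ h hUk)
    · exact n2 (A2 _ _ _ h hUk)
    · exact n3 (A3 _ _ _ hUk h)
    · exact hnot k (hUu _ _ (A4 _ _ _ p1 h)).1
  · -- `k = !i`
    have q : V (T * U) (!i) i := by
      obtain ⟨a, b, h⟩ := htu
      rcases hb a i with ha | ha <;> rcases hb b i with hb' | hb' <;> rw [ha, hb'] at h
      · exact (hnot' i (hUu _ _ (A5 _ _ _ hTi h)).1).elim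
      · exact (hnot' i (hUu _ _ (A5 _ _ _ hTi h)).1).elim
      · exact h
      · exact (hnot i (hTu _ _ (A6 _ _ _ h hUk)).1).elim
    have q' := dTU _ _ q
    obtain ⟨a, b, h⟩ := hs
    rcases hb a i with ha | ha <;> rcases hb b i with hb' | hb' <;> rw [ha, hb'] at h
    · exact A8 _ _ _ _ _ hUk q h q'
    · exact hnot' i (hUu _ _ (A1 _ _ _ _ h hUk (dS _ _ h))).1
    · exact hnot' i (hUu _ _ (A1 _ _ _ _ (dS _ _ h) hUk h)).1
    · exact A9 _ _ _ _ q' h q

/-! ### Orthogonal idempotents -/

/-- a pair of orthogonal quasi-idempotents in the label-`1` part -/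
structure IdemPair (X : Bimod K) (F : DualFrob X) where
  p : Bool → X.carrier
  r : Rg K
  hr : r ≠ 0
  lab : ∀ b, Lab X 1 (p b)
  orth : ∀ b, F.mul (p b) (p (!b)) = 0
  idem : ∀ b, F.mul (p b) (p b) = r • p b
  sum : ∀ b, p b + p (!b) = r • F.one
  ne : ∀ b, p b ≠ 0

namespace IdemPair

variable {X : Bimod K} {F : DualFrob X}

theorem one_lab' : Lab X 1 F.one := F.one_central

/-- elements of type `(a, b)` and label `g` -/
def Ty (E : IdemPair X F) (g : Rg K ≃ₐ[K] Rg K) (a b : Bool) (x : X.carrier) : Prop :=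
  Lab X g x ∧ F.mul (E.p (!a)) x = 0 ∧ F.mul x (E.p (!b)) = 0

theorem Ty.left {E : IdemPair X F} {g : Rg K ≃ₐ[K] Rg K} {a b : Bool} {x : X.carrier}
    (h : E.Ty g a b x) : F.mul (E.p a) x = E.r • x := by
  have h1 := congrArg (fun v => F.mul v x) (E.sum a)
  simp only [map_add, AddMonoidHom.add_apply, F.smul_mul, F.one_mul, h.2.1, add_zero] at h1
  exact h1

theorem Ty.right {E : IdemPair X F} {g : Rg K ≃ₐ[K] Rg K} {a b : Bool} {x : X.carrier}
    (h : E.Ty g a b x) : F.mul x (E.p b) = g E.r • x := by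
  have h1 := congrArg (fun v => F.mul x v) (E.sum b)
  simp only [map_add, h.2.2, add_zero] at h1
  rw [h1, mul_smul_lab F h.1, F.mul_one]

theorem exists_type (E : IdemPair X F) (C : Coord X) {g : Rg K ≃ₐ[K] Rg K} {x : X.carrier}
    (hx : Lab X g x) (h0 : x ≠ 0) : ∃ a b y, y ≠ 0 ∧ E.Ty g a b y := by
  have hty : ∀ a b, E.Ty g a b (F.mul (F.mul (E.p a) x) (E.p b)) := by
    intro a b
    refine ⟨?_, ?_, ?_⟩
    · have := mul_lab F (mul_lab F (E.lab a) hx) (E.lab b)
      rwa [one_mul, mul_one] at this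
    · have h1 := E.orth (!a)
      rw [Bool.not_not] at h1
      rw [← F.mul_assoc, ← F.mul_assoc, h1]
      simp
    · rw [F.mul_assoc, E.orth b, map_zero]
  by_contra hno
  push Not at hno
  have hz : ∀ a b, F.mul (F.mul (E.p a) x) (E.p b) = 0 := by
    intro a b
    by_contra h
    exact hno a b _ h (hty a b)
  have h1 : ∀ a, F.mul (F.mul (E.p a) x) (E.r • F.one) = 0 := by
    intro a
    rw [← E.sum true, map_add, hz, hz, add_zero]
  have h2 : F.mul (F.mul (E.r • F.one) x) (E.r • F.one) = 0 := by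
    have e : F.mul (F.mul (E.r • F.one) x) (E.r • F.one) =
        F.mul (F.mul (E.p true) x) (E.r • F.one) +
          F.mul (F.mul (E.p (!true)) x) (E.r • F.one) := by
      rw [← AddMonoidHom.add_apply, ← map_add, ← AddMonoidHom.add_apply, ← map_add, E.sum true]
    rw [e, h1, h1, add_zero]
  rw [F.smul_mul, F.one_mul, F.smul_mul, mul_smul_lab F hx, F.mul_one] at h2
  have h3 := (C.smul_eq_zero h2).resolve_left E.hr
  have h4 := (C.smul_eq_zero h3).resolve_right h0
  exact E.hr ((map_eq_zero_iff _ g.injective).1 h4)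

theorem indep (E : IdemPair X F) (C : Coord X) {a b : Rg K}
    (h : a • E.p true + b • E.p false = 0) : a = 0 ∧ b = 0 := by
  have h1 : a • (E.r • E.p true) = 0 := by
    have h2 := congrArg (fun v => F.mul v (E.p true)) h
    have h3 : F.mul (E.p false) (E.p true) = 0 := E.orth false
    simp only [map_add, AddMonoidHom.add_apply, F.smul_mul, E.idem, h3, smul_zero, add_zero,
      map_zero, AddMonoidHom.zero_apply] at h2
    exact h2
  have h2 : b • (E.r • E.p false) = 0 := by
    have h2 := congrArg (fun v => F.mul v (E.p false)) h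
    have h3 : F.mul (E.p true) (E.p false) = 0 := E.orth true
    simp only [map_add, AddMonoidHom.add_apply, F.smul_mul, E.idem, h3, smul_zero, zero_add,
      map_zero, AddMonoidHom.zero_apply] at h2
    exact h2
  constructor
  · rcases C.smul_eq_zero h1 with h3 | h3
    · exact h3
    · exact absurd ((C.smul_eq_zero h3).resolve_left E.hr) (E.ne true)
  · rcases C.smul_eq_zero h2 with h3 | h3
    · exact h3
    · exact absurd ((C.smul_eq_zero h3).resolve_left E.hr) (E.ne false)

/-- a nonzero element `w` of label `1` with `w p_{b'} = 0` is proportional to `p_b` -/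
theorem prop (E : IdemPair X F) {C : Coord X} (P : Props X C) {w : X.carrier} {b : Bool}
    (hw : Lab X 1 w) (h0 : w ≠ 0) (h : F.mul w (E.p (!b)) = 0) :
    ∃ d q : Rg K, d ≠ 0 ∧ q ≠ 0 ∧ d • w = q • E.p b := by
  obtain ⟨a, c, d, hacd, h1⟩ := P.rk_e (E.p true) (E.p false) w (E.lab _) (E.lab _) hw
  have hd : d ≠ 0 := by
    rintro rfl
    rw [zero_smul, add_zero] at h1
    obtain ⟨ha, hc⟩ := E.indep C h1
    rw [ha, hc] at hacd
    simp at hacd
  -- multiply on the right by `p (!b)`
  have h2 := congrArg (fun v => F.mul v (E.p (!b))) h1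
  simp only [map_add, AddMonoidHom.add_apply, F.smul_mul, h, smul_zero, add_zero,
    map_zero, AddMonoidHom.zero_apply] at h2
  cases b with
  | true =>
    have h3 : F.mul (E.p true) (E.p false) = 0 := E.orth true
    simp only [Bool.not_true, h3, E.idem, smul_zero, zero_add] at h2
    have hc : c = 0 := by
      rcases C.smul_eq_zero h2 with h4 | h4
      · exact h4
      · exact absurd ((C.smul_eq_zero h4).resolve_left E.hr) (E.ne false)
    rw [hc, zero_smul, add_zero] at h1
    refine ⟨d, -a, hd, ?_, ?_⟩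
    · intro ha
      rw [neg_eq_zero] at ha
      rw [ha, zero_smul, zero_add] at h1
      exact h0 ((C.smul_eq_zero h1).resolve_left hd)
    · rw [neg_smul]
      exact (neg_eq_of_add_eq_zero_right h1).symm
  | false =>
    have h3 : F.mul (E.p false) (E.p true) = 0 := E.orth false
    simp only [Bool.not_false, h3, E.idem, smul_zero, add_zero] at h2
    have ha : a = 0 := by
      rcases C.smul_eq_zero h2 with h4 | h4
      · exact h4
      · exact absurd ((C.smul_eq_zero h4).resolve_left E.hr) (E.ne true)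
    rw [ha, zero_smul, zero_add] at h1
    refine ⟨d, -c, hd, ?_, ?_⟩
    · intro hc
      rw [neg_eq_zero] at hc
      rw [hc, zero_smul, zero_add] at h1
      exact h0 ((C.smul_eq_zero h1).resolve_left hd)
    · rw [neg_smul]
      exact (neg_eq_of_add_eq_zero_right h1).symm

/-- the dual element -/
theorem dual (E : IdemPair X F) {C : Coord X} (P : Props X C) {g : Rg K ≃ₐ[K] Rg K} {a b : Bool}
    {x : X.carrier} (hx : E.Ty g a b x) (h0 : x ≠ 0) :
    ∃ (y : X.carrier) (d q : Rg K), Lab X g⁻¹ y ∧ d ≠ 0 ∧ q ≠ 0 ∧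
      d • F.mul y x = q • E.p b := by
  obtain ⟨y, hy, hyx⟩ := nondeg C F hx.1 h0
  have h1 : Lab X 1 (F.mul y x) := by
    have := mul_lab F hy hx.1
    rwa [inv_mul_cancel] at this
  have h2 : F.mul y x ≠ 0 := by
    intro h
    rw [h, map_zero] at hyx
    exact hyx rfl
  obtain ⟨d, q, hd, hq, h3⟩ := E.prop P (b := b) h1 h2 (by rw [F.mul_assoc, hx.2.2, map_zero])
  exact ⟨y, d, q, hy, hd, hq, h3⟩

/-- the product of composable nonzero elements is nonzero -/
theorem mul_ne (E : IdemPair X F) {C : Coord X} (P : Props X C) {g h : Rg K ≃ₐ[K] Rg K}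
    {a b c : Bool} {x y : X.carrier} (hx : E.Ty g a b x) (hx0 : x ≠ 0) (hy : E.Ty h b c y)
    (hy0 : y ≠ 0) : F.mul x y ≠ 0 ∧ E.Ty (g * h) a c (F.mul x y) := by
  constructor
  · intro hxy
    obtain ⟨z, d, q, hz, hd, hq, h1⟩ := E.dual P hx hx0
    have h2 := congrArg (fun v => F.mul v y) h1
    simp only [F.smul_mul, F.mul_assoc, hxy, map_zero, smul_zero, hy.left] at h2
    rcases C.smul_eq_zero h2.symm with h3 | h3
    · exact hq h3
    · rcases C.smul_eq_zero h3 with h4 | h4
      · exact E.hr h4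
      · exact hy0 h4
  · refine ⟨mul_lab F hx.1 hy.1, ?_, ?_⟩
    · rw [← F.mul_assoc, hx.2.1]
      simp
    · rw [F.mul_assoc, hy.2.2, map_zero]

/-- existence of nonzero elements of a given type -/
def VV (E : IdemPair X F) (g : Rg K ≃ₐ[K] Rg K) (a b : Bool) : Prop :=
  ∃ x, x ≠ 0 ∧ E.Ty g a b x

theorem VV_mul (E : IdemPair X F) {C : Coord X} (P : Props X C) (g h : Rg K ≃ₐ[K] Rg K)
    (a b c : Bool) (h1 : E.VV g a b) (h2 : E.VV h b c) : E.VV (g * h) a c := by
  obtain ⟨x, hx0, hx⟩ := h1
  obtain ⟨y, hy0, hy⟩ := h2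
  have := E.mul_ne P hx hx0 hy hy0
  exact ⟨_, this.1, this.2⟩

theorem VV_inv (E : IdemPair X F) {C : Coord X} (P : Props X C) (g : Rg K ≃ₐ[K] Rg K)
    (a b : Bool) (h : E.VV g a b) : E.VV g⁻¹ b a := by
  obtain ⟨x, hx0, hx⟩ := h
  obtain ⟨y, d, q, hy, hd, hq, h1⟩ := E.dual P hx hx0
  refine ⟨F.mul (F.mul (E.p b) y) (E.p a), ?_, ?_, ?_, ?_⟩
  · intro h2
    have h3 : F.mul (F.mul (F.mul (E.p b) y) (E.p a)) x = 0 := by
      rw [h2]
      simp
    rw [F.mul_assoc, hx.left, F.mul_assoc, mul_smul_lab F hy, mul_smul_lab F (E.lab b)] at h3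
    have h4 : (g⁻¹ E.r) • F.mul (E.p b) (F.mul y x) = 0 := h3
    have h5 := (C.smul_eq_zero h4).resolve_left fun hh =>
      E.hr ((map_eq_zero_iff _ (g⁻¹).injective).1 hh)
    have h6 := congrArg (fun v => F.mul (E.p b) v) h1
    simp only [mul_smul_lab F (E.lab b), E.idem, h5, smul_zero] at h6
    have h7 : q • (E.r • E.p b) = 0 := h6.symm
    rcases C.smul_eq_zero h7 with h8 | h8
    · exact hq h8
    · rcases C.smul_eq_zero h8 with h9 | h9
      · exact E.hr h9
      · exact E.ne b h9
  · have := mul_lab F (mul_lab F (E.lab b) hy) (E.lab a)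
    rwa [one_mul, mul_one] at this
  · have h2 := E.orth (!b)
    rw [Bool.not_not] at h2
    rw [← F.mul_assoc, ← F.mul_assoc, h2]
    simp
  · rw [F.mul_assoc, E.orth a, map_zero]

/-- uniqueness of the type for labels of rank one -/
theorem VV_unique (E : IdemPair X F) (C : Coord X) {g : Rg K ≃ₐ[K] Rg K}
    (hg : ∀ m m', Lab X g m → Lab X g m' →
      ∃ a b : Rg K, (a ≠ 0 ∨ b ≠ 0) ∧ a • m + b • m' = 0) {a b a' b' : Bool}
    (h : E.VV g a b) (h' : E.VV g a' b') : a = a' ∧ b = b' := by
  obtain ⟨x, hx0, hx⟩ := h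
  obtain ⟨y, hy0, hy⟩ := h'
  obtain ⟨c, d, hcd, h1⟩ := hg x y hx.1 hy.1
  have hboth : c ≠ 0 ∧ d ≠ 0 := by
    constructor
    · rintro rfl
      rw [zero_smul, zero_add] at h1
      have := (C.smul_eq_zero h1).resolve_right hy0
      rw [this] at hcd
      simp at hcd
    · rintro rfl
      rw [zero_smul, add_zero] at h1
      have := (C.smul_eq_zero h1).resolve_right hx0
      rw [this] at hcd
      simp at hcd
  constructor
  · by_contra hne
    have hne' : (!a') = a := by
      cases a <;> cases a' <;> simp_all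
    have h2 := congrArg (fun v => F.mul (E.p a) v) h1
    have h3 : F.mul (E.p a) y = 0 := by rw [← hne']; exact hy.2.1
    simp only [map_add, mul_smul_lab F (E.lab a), hx.left, h3, smul_zero, add_zero, map_zero] at h2
    have h4 : c • (E.r • x) = 0 := h2
    rcases C.smul_eq_zero h4 with h5 | h5
    · exact hboth.1 h5
    · rcases C.smul_eq_zero h5 with h6 | h6
      · exact E.hr h6
      · exact hx0 h6
  · by_contra hne
    have hne' : (!b') = b := by
      cases b <;> cases b' <;> simp_all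
    have h2 := congrArg (fun v => F.mul v (E.p b)) h1
    have h3 : F.mul y (E.p b) = 0 := by rw [← hne']; exact hy.2.2
    simp only [map_add, AddMonoidHom.add_apply, F.smul_mul, hx.right, h3, smul_zero, add_zero,
      map_zero, AddMonoidHom.zero_apply] at h2
    rcases C.smul_eq_zero h2 with h5 | h5
    · exact hboth.1 h5
    · rcases C.smul_eq_zero h5 with h6 | h6
      · exact E.hr ((map_eq_zero_iff _ g.injective).1 h6)
      · exact hx0 h6

end IdemPair

/-! ### The main theorem -/

theorem refl_mul_self (i : Fin 3) : refl K i * refl K i = 1 := by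
  apply AlgEquiv.ext
  intro f
  exact refl_refl i f

theorem refl_comm02 : refl K 0 * refl K 2 = refl K 2 * refl K 0 := by
  have h : ((refl K 0).toAlgHom.comp (refl K 2).toAlgHom) =
      ((refl K 2).toAlgHom.comp (refl K 0).toAlgHom) := by
    apply MvPolynomial.algHom_ext
    intro j
    fin_cases j <;> simp
  apply AlgEquiv.ext
  intro f
  exact DFunLike.congr_fun h f

theorem no_dual [CharZero K] {X : Bimod K} (C : Coord X) (P : Props X C) (F : DualFrob X)
    (hnil : ∀ ζ : X.carrier, Lab X 1 ζ → F.mul ζ ζ = 0 → ζ = 0) : False := by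
  obtain ⟨τ, hτ, hτ0⟩ := C.exists_lab (g := refl K 1) (by
    obtain ⟨_, j1, _, h, _⟩ := P.glue
    exact ⟨j1, h⟩)
  obtain ⟨ω, hω, hω0⟩ := C.exists_lab P.ex_u
  obtain ⟨σ, hσ, hσ0⟩ := C.exists_lab P.ex_s
  obtain ⟨β, hβ, hβ0⟩ := C.exists_lab P.ex_su
  obtain ⟨γ, hγ, hγ0⟩ := C.exists_lab P.ex_tu
  have hone : F.one ≠ 0 := by
    intro h
    apply hτ0
    rw [← F.one_mul τ, h]
    simp
  have hl1 : Lab X 1 F.one := F.one_central
  by_cases hA : ∀ z, Lab X 1 z → ∃ a b : Rg K, (a ≠ 0 ∨ b ≠ 0) ∧ a • F.one + b • z = 0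
  · -- Case A
    have hprod : ∀ (g h : Rg K ≃ₐ[K] Rg K) (a c : X.carrier), Lab X g a → Lab X h c → a ≠ 0 →
        c ≠ 0 → F.mul a c ≠ 0 := by
      intro g h a c ha hc ha0 hc0 hac
      obtain ⟨b, hb, hba⟩ := nondeg C F ha ha0
      have h1 : Lab X 1 (F.mul b a) := by
        have := mul_lab F hb ha
        rwa [inv_mul_cancel] at this
      obtain ⟨a', b', hab, h2⟩ := hA _ h1
      have h3 := congrArg (fun v => F.mul v c) h2
      simp only [map_add, AddMonoidHom.add_apply, F.smul_mul, F.one_mul, F.mul_assoc, hac,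
        map_zero, smul_zero, add_zero, AddMonoidHom.zero_apply] at h3
      have h4 := (C.smul_eq_zero h3).resolve_right hc0
      rw [h4, zero_smul, zero_add] at h2
      have h5 : b' ≠ 0 := by
        rcases hab with h | h
        · exact absurd h4 h
        · exact h
      have h6 := (C.smul_eq_zero h2).resolve_left h5
      rw [h6, map_zero] at hba
      exact hba rfl
    have h1 := hprod _ _ _ _ hω hτ hω0 hτ0
    have h1l := mul_lab F hω hτ
    have h2 := hprod _ _ _ _ h1l hσ h1 hσ0
    have h2l := mul_lab F h1l hσ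
    have h3 := hprod _ _ _ _ h2l hτ h2 hτ0
    have h3l := mul_lab F h2l hτ
    exact h3 (C.eq_zero_of_no_lab P.no_utst h3l)
  · -- Case B
    push Not at hA
    obtain ⟨z, hz, hind⟩ := hA
    have hind' : ∀ a b : Rg K, a • F.one + b • z = 0 → a = 0 ∧ b = 0 := by
      intro a b h
      by_contra hh
      rw [not_and_or] at hh
      exact hind a b hh h
    obtain ⟨a, b, hab, h1⟩ := P.rk_t τ (F.mul z τ) hτ (by
      have := mul_lab F hz hτ
      rwa [one_mul] at this)
    set z' := a • F.one + b • z with hz'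
    have hz'0 : z' ≠ 0 := by
      intro h
      obtain ⟨ha, hb⟩ := hind' a b h
      rw [ha, hb] at hab
      simp at hab
    have hz'l : Lab X 1 z' := by
      intro f
      rw [hz', map_add, map_smul, map_smul, hl1 f, hz f, smul_add, smul_comm a, smul_comm b]
    have hz'τ : F.mul z' τ = 0 := by
      rw [hz', map_add, AddMonoidHom.add_apply, F.smul_mul, F.smul_mul, F.one_mul]
      exact h1
    have hz'2l : Lab X 1 (F.mul z' z') := by
      have := mul_lab F hz'l hz'l
      rwa [one_mul] at this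
    obtain ⟨c0, c1, c2, hc, h2⟩ := P.rk_e F.one z' (F.mul z' z') hl1 hz'l hz'2l
    have hc0 : c0 = 0 := by
      have h3 := congrArg (fun v => F.mul v τ) h2
      simp only [map_add, AddMonoidHom.add_apply, F.smul_mul, F.one_mul, F.mul_assoc, hz'τ,
        map_zero, smul_zero, add_zero, AddMonoidHom.zero_apply] at h3
      exact (C.smul_eq_zero h3).resolve_right hτ0
    rw [hc0, zero_smul, zero_add] at h2
    have hc2 : c2 ≠ 0 := by
      intro h
      rw [h, zero_smul, add_zero] at h2
      have := (C.smul_eq_zero h2).resolve_right hz'0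
      rw [hc0, this, h] at hc
      simp at hc
    have hc1 : c1 ≠ 0 := by
      intro h
      rw [h, zero_smul, zero_add] at h2
      exact hz'0 (hnil z' hz'l ((C.smul_eq_zero h2).resolve_left hc2))
    -- the idempotents
    set p1 := c2 • z' with hp1
    set r := -c1 with hr
    have hp1l : Lab X 1 p1 := smul_lab hz'l c2
    have hp11 : F.mul p1 p1 = r • p1 := by
      rw [hp1, F.smul_mul, mul_smul_lab F hz'l, hr, neg_smul, smul_comm c1 c2 z', ← smul_neg]
      congr 1
      exact (neg_eq_of_add_eq_zero_right h2).symm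
    set p2 := r • F.one - p1 with hp2
    have hp2l : Lab X 1 p2 := by
      intro f
      rw [hp2, map_sub, map_smul, hl1 f, hp1l f, smul_sub, smul_comm r]
    have hp12 : F.mul p1 p2 = 0 := by
      rw [hp2, map_sub, mul_smul_lab F hp1l, F.mul_one, hp11]
      exact sub_self _
    have hp21 : F.mul p2 p1 = 0 := by
      rw [hp2, map_sub, AddMonoidHom.sub_apply, F.smul_mul, F.one_mul, hp11, sub_self]
    have hp22 : F.mul p2 p2 = r • p2 := by
      have h3 : F.mul (r • F.one - p1) p2 = F.mul (r • F.one) p2 - F.mul p1 p2 :=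
        DFunLike.congr_fun (map_sub F.mul (r • F.one) p1) p2
      rw [F.smul_mul, F.one_mul, hp12, sub_zero] at h3
      exact h3
    have hr0 : r ≠ 0 := neg_ne_zero.2 hc1
    have hp1τ : F.mul p1 τ = 0 := by rw [hp1, F.smul_mul, hz'τ, smul_zero]
    have hp2τ : F.mul p2 τ = r • τ := by
      rw [hp2, map_sub, AddMonoidHom.sub_apply, F.smul_mul, F.one_mul, hp1τ, sub_zero]
    have hp10 : p1 ≠ 0 := by
      intro h
      rcases C.smul_eq_zero (hp1 ▸ h : c2 • z' = 0) with h3 | h3
      · exact hc2 h3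
      · exact hz'0 h3
    have hp20 : p2 ≠ 0 := by
      intro h
      rw [h] at hp2τ
      simp only [map_zero, AddMonoidHom.zero_apply] at hp2τ
      rcases C.smul_eq_zero hp2τ.symm with h3 | h3
      · exact hr0 h3
      · exact hτ0 h3
    let E : IdemPair X F :=
      { p := fun b => cond b p1 p2
        r := r
        hr := hr0
        lab := fun b => by cases b; exacts [hp2l, hp1l]
        orth := fun b => by cases b; exacts [hp21, hp12]
        idem := fun b => by cases b; exacts [hp22, hp11]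
        sum := fun b => by
          cases b
          · show p2 + p1 = r • F.one
            rw [hp2]; abel
          · show p1 + p2 = r • F.one
            rw [hp2]; abel
        ne := fun b => by cases b; exacts [hp20, hp10] }
    have hex : ∀ (g : Rg K ≃ₐ[K] Rg K) (x : X.carrier), Lab X g x → x ≠ 0 →
        ∃ a b, E.VV g a b := by
      intro g x hx hx0
      obtain ⟨a, b, y, hy0, hy⟩ := E.exists_type C hx hx0
      exact ⟨a, b, y, hy0, hy⟩
    have hdiag : ∀ i : Fin 3, (∀ m m', Lab X (refl K i) m → Lab X (refl K i) m' →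
        ∃ a b : Rg K, (a ≠ 0 ∨ b ≠ 0) ∧ a • m + b • m' = 0) → ∀ x, Lab X (refl K i) x → x ≠ 0 →
        ∃ k, E.VV (refl K i) k k ∧ ∀ a b, E.VV (refl K i) a b → a = k ∧ b = k := by
      intro i hrk x hx hx0
      obtain ⟨a, b, hV⟩ := hex _ x hx hx0
      have hV' := E.VV_inv P _ _ _ hV
      rw [inv_eq_of_mul_eq_one_left (refl_mul_self i)] at hV'
      obtain ⟨h3, _⟩ := E.VV_unique C hrk hV hV'
      subst h3
      exact ⟨a, hV, fun a' b' h => E.VV_unique C hrk h hV⟩
    obtain ⟨i, hTi, hTu⟩ := hdiag 1 P.rk_t τ hτ hτ0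
    obtain ⟨k, hUk, hUu⟩ := hdiag 2 P.rk_u ω hω hω0
    refine groupoid_comb (refl K 0) (refl K 1) (refl K 2) (refl_mul_self 0) (refl_mul_self 1)
      (refl_mul_self 2) refl_comm02 E.VV (fun g h a b c => E.VV_mul P g h a b c)
      (fun g a b => E.VV_inv P g a b) i k hTi hTu hUk hUu (hex _ σ hσ hσ0) (hex _ β hβ hβ0)
      (hex _ γ hγ hγ0) ?_ ?_
    · rintro a b ⟨x, hx0, hx⟩
      exact hx0 (C.eq_zero_of_no_lab P.no_utst hx.1)
    · rintro a b ⟨x, hx0, hx⟩
      exact hx0 (C.eq_zero_of_no_lab P.no_utstu hx.1)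

end Pool.Agent.Lib.FSB
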