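import Pool.Agent.Lib.FSB.Dem

/-!
# Generalities on `R ⊗_{R^r} M`
-/

set_option autoImplicit false

open MvPolynomial TensorProduct

namespace Pool.Agent.Lib.FSB

variable {K : Type} [Field K]

/-- the constant `1/2` -/
noncomputable def hf : Rg K := C (1 / 2)

theorem hf_add [CharZero K] : (hf : Rg K) + hf = 1 := by
  unfold hf
  rw [← C_add, ← C_1]
  congr 1
  norm_num

@[simp] theorem refl_hf (i : Fin 3) : refl K i hf = hf := refl_C i _

/-- the even part of `f` -/
noncomputable def c0 (i : Fin 3) (f : Rg K) : Rg K := hf * (f + refl K i f)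

/-- the odd part of `f` divided by `α_i` -/
noncomputable def c1 (i : Fin 3) (f : Rg K) : Rg K := hf * dem i f

@[simp] theorem refl_c0 (i : Fin 3) (f : Rg K) : refl K i (c0 i f) = c0 i f := by
  simp [c0, refl_refl, add_comm]

@[simp] theorem refl_c1 (i : Fin 3) (f : Rg K) : refl K i (c1 i f) = c1 i f := by
  simp [c1, refl_dem]

theorem c0_add_c1 [CharZero K] (i : Fin 3) (f : Rg K) : f = c0 i f + c1 i f * root K i := by
  show f = hf * (f + refl K i f) + hf * dem i f * root K i
  have h := root_mul_dem i f
  have h2 := hf_add (K := K)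
  linear_combination -hf * h - f * h2

theorem c0_add (i : Fin 3) (f g : Rg K) : c0 i (f + g) = c0 i f + c0 i g := by
  simp only [c0, map_add]; ring

theorem c1_add (i : Fin 3) (f g : Rg K) : c1 i (f + g) = c1 i f + c1 i g := by
  simp only [c1, map_add]; ring

theorem c0_inv_mul (i : Fin 3) (c f : Rg K) (hc : refl K i c = c) : c0 i (c * f) = c * c0 i f := by
  simp only [c0, map_mul, hc]; ring

theorem c1_inv_mul (i : Fin 3) (c f : Rg K) (hc : refl K i c = c) : c1 i (c * f) = c * c1 i f := by
  simp only [c1, dem_mul_left i c f hc]; ring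

section

variable {M : Type} [AddCommGroup M] [Module (Rg K) M]

theorem tm_eq [CharZero K] (i : Fin 3) (f : Rg K) (m : M) :
    tm i f m = tm i 1 (c0 i f • m) + tm i (root K i) (c1 i f • m) := by
  rw [← inv_tm i _ _ (refl_c0 i f), ← inv_tm i _ _ (refl_c1 i f), mul_one, ← add_tm,
    ← c0_add_c1]

/-- every element of `R ⊗_{R^r} M` is of the form `1 ⊗ m + α ⊗ m'` -/
theorem exists_decomp [CharZero K] (i : Fin 3) (x : Ind K i M) :
    ∃ m m' : M, x = tm i 1 m + tm i (root K i) m' := by
  induction x using tm_induction with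
  | hP f m => exact ⟨_, _, tm_eq i f m⟩
  | hadd x y hx hy =>
    obtain ⟨a, a', rfl⟩ := hx
    obtain ⟨b, b', rfl⟩ := hy
    refine ⟨a + b, a' + b', ?_⟩
    rw [tm_add, tm_add]
    abel

theorem refl_sq_root (i : Fin 3) : refl K i (root K i * root K i) = root K i * root K i := by
  rw [map_mul, refl_root]; ring

/-- the element `α ⊗ x + 1 ⊗ α x` -/
noncomputable def del (i : Fin 3) (x : M) : Ind K i M :=
  tm i (root K i) x + tm i 1 (root K i • x)

theorem del_add (i : Fin 3) (x y : M) : (del i (x + y) : Ind K i M) = del i x + del i y := by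
  simp only [del, tm_add, smul_add]; abel

/-- centrality of `α ⊗ 1 + 1 ⊗ α` -/
theorem del_smul [CharZero K] (i : Fin 3) (c : Rg K) (x : M) :
    (del i (c • x) : Ind K i M) = c • del i x := by
  unfold del
  rw [smul_add, smul_tm, smul_tm]
  have h : c = c0 i c + c1 i c * root K i := c0_add_c1 i c
  have ha := refl_c0 i c
  have hb := refl_c1 i c
  generalize c0 i c = a at h ha
  generalize c1 i c = b at h hb
  subst h
  have e2 : tm i (root K i) ((a + b * root K i) • x) =
      tm i (a * root K i) x + tm i (b * root K i) (root K i • x) := by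
    rw [inv_tm i a _ ha, inv_tm i b _ hb, ← tm_add, add_smul, mul_smul]
  have hbb : refl K i (b * (root K i * root K i)) = b * (root K i * root K i) := by
    rw [map_mul, hb, refl_sq_root]
  have e3 : tm i 1 (root K i • (a + b * root K i) • x) =
      tm i (a * 1) (root K i • x) + tm i (b * (root K i * root K i) * 1) x := by
    rw [inv_tm i a _ ha, inv_tm i _ _ hbb, ← tm_add, smul_smul, smul_smul, ← add_smul]
    congr 2
    ring
  rw [e2, e3]
  have e4 : (a + b * root K i) * root K i = a * root K i + b * (root K i * root K i) * 1 := by ring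
  have e5 : (a + b * root K i) * 1 = a * 1 + b * root K i := by ring
  rw [e4, e5, add_tm, add_tm]
  abel

variable {N : Type} [AddCommGroup N] [Module (Rg K) N]

/-- biadditive balanced maps define additive maps on `R ⊗_{R^r} M` -/
noncomputable def liftB {N : Type} [AddCommGroup N] (i : Fin 3) (φ : Rg K →+ M →+ N)
    (hφ : ∀ c, refl K i c = c → ∀ (f : Rg K) (m : M), φ (c * f) m = φ f (c • m)) :
    Ind K i M →+ N :=
  TensorProduct.liftAddHom (R := Inv K i) φ (fun r f m => hφ r r.2 f m)

theorem liftB_tm {N : Type} [AddCommGroup N] (i : Fin 3) (φ : Rg K →+ M →+ N)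
    (hφ : ∀ c, refl K i c = c → ∀ (f : Rg K) (m : M), φ (c * f) m = φ f (c • m))
    (f : Rg K) (m : M) : liftB i φ hφ (tm i f m) = φ f m := rfl

/-- `R^r`-linear maps `g : M → N` induce `R`-linear maps `R ⊗_{R^r} M → N`, `f ⊗ m ↦ f g(m)` -/
noncomputable def liftI (i : Fin 3) (g : M →+ N)
    (hg : ∀ c, refl K i c = c → ∀ m : M, g (c • m) = c • g m) : Ind K i M →ₗ[Rg K] N where
  toFun := liftB i
    { toFun := fun f =>
        { toFun := fun m => f • g m
          map_zero' := by rw [map_zero, smul_zero]
          map_add' := fun m m' => by rw [map_add, smul_add] }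
      map_zero' := by ext m; exact zero_smul _ _
      map_add' := fun f f' => by ext m; exact add_smul _ _ _ }
    (fun c hc f m => by
      show (c * f) • g m = f • g (c • m)
      rw [hg c hc, smul_smul, mul_comm])
  map_add' := map_add _
  map_smul' r x := by
    induction x using tm_induction with
    | hadd x y hx hy => rw [smul_add, map_add, map_add, hx, hy, smul_add]
    | hP f m =>
      show (r * f) • g m = r • f • g m
      rw [mul_smul]

theorem liftI_tm (i : Fin 3) (g : M →+ N)
    (hg : ∀ c, refl K i c = c → ∀ m : M, g (c • m) = c • g m) (f : Rg K) (m : M) :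
    liftI i g hg (tm i f m) = f • g m := rfl

/-- `R^r`-linear maps `g : M → N` induce `R`-linear maps `id ⊗ g` -/
noncomputable def mapI (i : Fin 3) (g : M →+ N)
    (hg : ∀ c, refl K i c = c → ∀ m : M, g (c • m) = c • g m) : Ind K i M →ₗ[Rg K] Ind K i N :=
  liftI i
    { toFun := fun m => tm i (1 : Rg K) (g m)
      map_zero' := by rw [map_zero, tm_zero]
      map_add' := fun m m' => by rw [map_add, tm_add] }
    (fun c hc m => by
      show tm i (1 : Rg K) (g (c • m)) = c • tm i (1 : Rg K) (g m)
      rw [hg c hc, smul_tm, inv_tm i c 1 hc])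

theorem mapI_tm (i : Fin 3) (g : M →+ N)
    (hg : ∀ c, refl K i c = c → ∀ m : M, g (c • m) = c • g m) (f : Rg K) (m : M) :
    mapI i g hg (tm i f m) = tm i f (g m) := by
  show f • tm i (1 : Rg K) (g m) = _
  rw [smul_tm, mul_one]

end

end Pool.Agent.Lib.FSB
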