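import Pool.Agent.Lib.FSB.M4a
import Pool.Agent.Lib.FSB.Ten

/-!
# Module M4b: finiteness of Bott-Samelson bimodules
-/

set_option autoImplicit false

open MvPolynomial TensorProduct

namespace Pool.Agent.Lib.FSB

variable {K : Type} [Field K]

namespace FinBS

/-- `f` is zero or homogeneous of degree `n - d` -/
def HZ (n d : ℕ) (f : Rg K) : Prop := f = 0 ∨ ∃ a, a + d = n ∧ f.IsHomogeneous a

theorem HZ.add {n d : ℕ} {f g : Rg K} (hf : HZ n d f) (hg : HZ n d g) : HZ n d (f + g) := by
  rcases hf with rfl | ⟨a, ha, hf⟩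
  · rwa [zero_add]
  · rcases hg with rfl | ⟨b, hb, hg⟩
    · rw [add_zero]; exact Or.inr ⟨a, ha, hf⟩
    · have : a = b := by omega
      subst this
      exact Or.inr ⟨a, ha, hf.add hg⟩

theorem HZ.neg {n d : ℕ} {f : Rg K} (hf : HZ n d f) : HZ n d (-f) := by
  rcases hf with rfl | ⟨a, ha, hf⟩
  · rw [neg_zero]; exact Or.inl rfl
  · exact Or.inr ⟨a, ha, hf.neg⟩

theorem HZ.zero (n d : ℕ) : HZ n d (0 : Rg K) := Or.inl rfl

theorem hf_homog : (hf : Rg K).IsHomogeneous 0 := isHomogeneous_C _ _

theorem c0_homog (i : Fin 3) {a : ℕ} {f : Rg K} (h : f.IsHomogeneous a) :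
    (c0 i f).IsHomogeneous a := by
  have h1 := hf_homog.mul (h.add (refl_homog i h))
  rwa [zero_add] at h1

theorem c1_homog (i : Fin 3) {a : ℕ} {f : Rg K} (h : f.IsHomogeneous (a + 1)) :
    (c1 i f).IsHomogeneous a := by
  have h1 := hf_homog.mul (dem_homog i h)
  rwa [zero_add] at h1

theorem c1_homog_zero (i : Fin 3) {f : Rg K} (h : f.IsHomogeneous 0) : c1 i f = 0 := by
  unfold c1
  rw [dem_homog_zero i h, mul_zero]

theorem HZ.c0 {n d e : ℕ} {f g : Rg K} (i : Fin 3) (hf : f.IsHomogeneous e) (hg : HZ n d g) :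
    HZ (e + n) d (f * c0 i g) := by
  rcases hg with rfl | ⟨a, ha, hg⟩
  · left
    simp [FSB.c0]
  · right
    exact ⟨e + a, by omega, hf.mul (c0_homog i hg)⟩

theorem HZ.c1 {n d e : ℕ} {f g : Rg K} (i : Fin 3) (hf : f.IsHomogeneous e) (hg : HZ n d g) :
    HZ (e + n) (d + 1) (f * c1 i g) := by
  rcases hg with rfl | ⟨a, ha, hg⟩
  · left
    simp [FSB.c1]
  · cases a with
    | zero =>
      left
      rw [c1_homog_zero i hg, mul_zero]
    | succ a =>
      right
      exact ⟨e + a, by omega, hf.mul (c1_homog i hg)⟩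

/-- finite homogeneous generation -/
structure HGen (B : GBimod K) : Prop where
  ex : ∃ (ι : Type) (_ : Fintype ι) (g : ι → B.carrier) (d : ι → ℕ),
    (∀ j, g j ∈ B.gr (d j)) ∧
    (∀ n, ∀ m ∈ B.gr n, ∃ h : ι → Rg K, (∀ j, HZ n (d j) (h j)) ∧ m = ∑ j, h j • g j) ∧
    (∀ m, ∃ h : ι → Rg K, m = ∑ j, h j • g j)
  smul : ∀ (a b : ℕ) (f : Rg K) (m : B.carrier), f.IsHomogeneous a → m ∈ B.gr b →
    f • m ∈ B.gr (a + b)

theorem hgen_regular : HGen (regular K) where
  ex := by
    refine ⟨Unit, inferInstance, fun _ => (1 : Rg K), fun _ => 0, ?_, ?_, ?_⟩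
    · intro _
      exact isHomogeneous_one (Fin 3) K
    · intro n m hm
      refine ⟨fun _ => m, fun _ => Or.inr ⟨n, rfl, hm⟩, ?_⟩
      rw [Finset.univ_unique, Finset.sum_singleton]
      have h1 : ∀ x : Rg K, x = x * 1 := fun x => (mul_one x).symm
      exact h1 m
    · intro m
      refine ⟨fun _ => m, ?_⟩
      rw [Finset.univ_unique, Finset.sum_singleton]
      have h1 : ∀ x : Rg K, x = x * 1 := fun x => (mul_one x).symm
      exact h1 m
  smul := fun a b f m hf hm => IsHomogeneous.mul hf hm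

theorem tm_sum {M : Type} [AddCommGroup M] [Module (Rg K) M] {ι : Type} (s : Finset ι)
    (i : Fin 3) (f : Rg K) (m : ι → M) : tm i f (∑ j ∈ s, m j) = ∑ j ∈ s, tm i f (m j) := by
  classical
  induction s using Finset.induction_on with
  | empty => rw [Finset.sum_empty, Finset.sum_empty, tm_zero]
  | insert a s ha ih => rw [Finset.sum_insert ha, Finset.sum_insert ha, tm_add, ih]

theorem tm_smul [CharZero K] {M : Type} [AddCommGroup M] [Module (Rg K) M] (i : Fin 3)
    (f h : Rg K) (m : M) :
    tm i f (h • m) = (f * c0 i h) • tm i 1 m + (f * c1 i h) • tm i 1 (root K i • m) := by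
  rw [smul_tm, smul_tm, mul_one, mul_one, mul_comm f, mul_comm f, inv_tm i _ _ (refl_c0 i h),
    inv_tm i _ _ (refl_c1 i h), ← tm_add, smul_smul, ← add_smul, ← c0_add_c1]

theorem comb_add {M : Type} [AddCommGroup M] [Module (Rg K) M] {ι : Type} [Fintype ι]
    (g : ι → M) (h h' : ι → Rg K) (x y : M) (hx : x = ∑ j, h j • g j) (hy : y = ∑ j, h' j • g j) :
    x + y = ∑ j, (h j + h' j) • g j := by
  rw [hx, hy, ← Finset.sum_add_distrib]
  exact Finset.sum_congr rfl fun j _ => (add_smul _ _ _).symm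

theorem comb_neg {M : Type} [AddCommGroup M] [Module (Rg K) M] {ι : Type} [Fintype ι]
    (g : ι → M) (h : ι → Rg K) (x : M) (hx : x = ∑ j, h j • g j) :
    - x = ∑ j, (- h j) • g j := by
  rw [hx, ← Finset.sum_neg_distrib]
  exact Finset.sum_congr rfl fun j _ => (neg_smul _ _).symm

theorem comb_zero {M : Type} [AddCommGroup M] [Module (Rg K) M] {ι : Type} [Fintype ι]
    (g : ι → M) : (0 : M) = ∑ j, (0 : Rg K) • g j :=
  (Finset.sum_eq_zero fun _ _ => zero_smul _ _).symm

theorem smul_closure {M : Type} [AddCommGroup M] [Module (Rg K) M] (f : Rg K) (S T : Set M)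
    (h : ∀ x ∈ S, f • x ∈ AddSubgroup.closure T) (x : M) (hx : x ∈ AddSubgroup.closure S) :
    f • x ∈ AddSubgroup.closure T := by
  induction hx using AddSubgroup.closure_induction with
  | mem x hx => exact h x hx
  | zero => rw [smul_zero]; exact AddSubgroup.zero_mem _
  | add x y _ _ hx hy => rw [smul_add]; exact AddSubgroup.add_mem _ hx hy
  | neg x _ hx => rw [smul_neg]; exact AddSubgroup.neg_mem _ hx

theorem const_closure {M : Type} [AddCommGroup M] [Module (Rg K) M] (b : M) (S : Set M)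
    (h : ∀ x ∈ S, ∃ c : K, x = (C c : Rg K) • b) (x : M) (hx : x ∈ AddSubgroup.closure S) :
    ∃ c : K, x = (C c : Rg K) • b := by
  induction hx using AddSubgroup.closure_induction with
  | mem x hx => exact h x hx
  | zero => exact ⟨0, by rw [C_0, zero_smul]⟩
  | add x y _ _ hx hy =>
    obtain ⟨c, rfl⟩ := hx
    obtain ⟨c', rfl⟩ := hy
    exact ⟨c + c', by rw [C_add, add_smul]⟩
  | neg x _ hx =>
    obtain ⟨c, rfl⟩ := hx
    exact ⟨-c, by rw [C_neg, neg_smul]⟩

theorem homog_zero (f : Rg K) (h : f.IsHomogeneous 0) : ∃ a : K, f = C a := by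
  have h : f ∈ homogeneousSubmodule (Fin 3) K 0 := h
  rw [homogeneousSubmodule_zero, Submodule.mem_one] at h
  obtain ⟨a, ha⟩ := h
  exact ⟨a, ha.symm⟩

theorem hgen_ind [CharZero K] (i : Fin 3) (B : GBimod K) (hB : HGen B) : HGen (ind i B) where
  ex := by
    obtain ⟨ι, _, g, d, hg, hh, hs⟩ := hB.ex
    have key : ∀ (f : Rg K) (h : ι → Rg K), tm i f (∑ j, h j • g j) =
        ∑ x : ι ⊕ ι, (Sum.elim (fun j => f * c0 i (h j)) (fun j => f * c1 i (h j)) x) •
          (Sum.elim (fun j => tm i (1 : Rg K) (g j)) (fun j => tm i (1 : Rg K) (root K i • g j)) x) := by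
      intro f h
      rw [tm_sum, Fintype.sum_sum_type, ← Finset.sum_add_distrib]
      exact Finset.sum_congr rfl fun j _ => tm_smul i f (h j) (g j)
    refine ⟨ι ⊕ ι, inferInstance,
      Sum.elim (fun j => tm i (1 : Rg K) (g j)) (fun j => tm i (1 : Rg K) (root K i • g j)),
      Sum.elim d (fun j => d j + 1), ?_, ?_, ?_⟩
    · rintro (j | j)
      · exact AddSubgroup.subset_closure
          ⟨0, d j, 1, g j, isHomogeneous_one (Fin 3) K, hg j, zero_add _, rfl⟩
      · refine AddSubgroup.subset_closure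
          ⟨0, d j + 1, 1, root K i • g j, isHomogeneous_one (Fin 3) K, ?_, zero_add _, rfl⟩
        rw [add_comm]
        exact hB.smul 1 (d j) _ _ (root_homog i) (hg j)
    · intro n m hm
      induction hm using AddSubgroup.closure_induction with
      | mem x hx =>
        obtain ⟨a, b, f, m, hf, hm, hab, rfl⟩ := hx
        obtain ⟨h, hh1, hh2⟩ := hh b m hm
        refine ⟨Sum.elim (fun j => f * c0 i (h j)) (fun j => f * c1 i (h j)), ?_, ?_⟩
        · subst hab
          rintro (j | j)
          · exact (hh1 j).c0 i hf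
          · exact (hh1 j).c1 i hf
        · rw [hh2]
          exact key f h
      | zero =>
        exact ⟨fun _ => 0, fun _ => HZ.zero _ _, comb_zero (M := Ind K i B.carrier) _⟩
      | add x y _ _ hx hy =>
        obtain ⟨h, h1, h2⟩ := hx
        obtain ⟨h', h1', h2'⟩ := hy
        exact ⟨fun j => h j + h' j, fun j => (h1 j).add (h1' j),
          comb_add (M := Ind K i B.carrier) _ h h' x y h2 h2'⟩
      | neg x _ hx =>
        obtain ⟨h, h1, h2⟩ := hx
        exact ⟨fun j => - h j, fun j => (h1 j).neg,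
          comb_neg (M := Ind K i B.carrier) _ h x h2⟩
    · intro m
      induction m using tm_induction with
      | hP f m =>
        obtain ⟨h, hh2⟩ := hs m
        refine ⟨Sum.elim (fun j => f * c0 i (h j)) (fun j => f * c1 i (h j)), ?_⟩
        rw [hh2]
        exact key f h
      | hadd x y hx hy =>
        obtain ⟨h, h2⟩ := hx
        obtain ⟨h', h2'⟩ := hy
        exact ⟨fun j => h j + h' j, comb_add (M := Ind K i B.carrier) _ h h' x y h2 h2'⟩
  smul := by
    intro a b f m hf hm
    refine smul_closure (M := Ind K i B.carrier) f _ _ ?_ m hm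
    rintro x ⟨a', b', f', m, hf', hm, hab, rfl⟩
    refine AddSubgroup.subset_closure ⟨a + a', b', f * f', m, hf.mul hf', hm, by omega, ?_⟩
    exact smul_tm i f f' m

theorem hgen_BS [CharZero K] (w : List (Fin 3)) : HGen (BS K w) := by
  induction w with
  | nil => exact hgen_regular
  | cons i w ih => exact hgen_ind i _ ih

/-- homogeneous polynomials are combinations of monomials of the same degree -/
theorem homog_fin (a : ℕ) : ∃ T : Finset (Fin 3 →₀ ℕ), ∀ f : Rg K, f.IsHomogeneous a →
    f = ∑ t ∈ T, C (coeff t f) * monomial t 1 := by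
  classical
  refine ⟨(Finset.univ : Finset (Fin 3)).finsuppAntidiag a, ?_⟩
  intro f hf
  have h1 : f.support ⊆ (Finset.univ : Finset (Fin 3)).finsuppAntidiag a := by
    intro t ht
    rw [Finset.mem_finsuppAntidiag]
    refine ⟨?_, Finset.subset_univ _⟩
    have h2 := hf (mem_support_iff.mp ht)
    rw [← h2]
    simp [Finsupp.weight_apply, Finsupp.sum_fintype]
  conv_lhs => rw [f.as_sum]
  rw [Finset.sum_subset h1]
  · refine Finset.sum_congr rfl fun t _ => ?_
    rw [C_mul_monomial, mul_one]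
  · intro t _ ht
    rw [notMem_support_iff.mp ht, monomial_zero]

theorem finGen_of_hgen (B : GBimod K) (hB : HGen B) : FinGen B where
  gen := by
    obtain ⟨ι, _, g, d, hg, hh, hs⟩ := hB.ex
    refine ⟨∑ j, d j, ?_⟩
    intro m
    obtain ⟨h, rfl⟩ := hs m
    refine Submodule.sum_mem _ fun j _ => Submodule.smul_mem _ _ (Submodule.subset_span ?_)
    exact ⟨d j, Finset.single_le_sum (f := d) (fun _ _ => Nat.zero_le _) (Finset.mem_univ j), hg j⟩
  fin := by
    classical
    obtain ⟨ι, _, g, d, hg, hh, hs⟩ := hB.ex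
    intro n
    choose T hT using homog_fin (K := K)
    -- the finite set of all `monomial • g j`
    let F : ι × (Fin 3 →₀ ℕ) → B.carrier := fun p => (monomial p.2 (1 : K) : Rg K) • g p.1
    let U : Finset (ι × (Fin 3 →₀ ℕ)) :=
      (Finset.univ : Finset ι) ×ˢ ((Finset.range (n + 1)).biUnion T)
    refine ⟨U.image F, ?_⟩
    intro v hv
    obtain ⟨h, h1, h2⟩ := hh n v hv
    -- `v` lies in the `K`-span
    let := Fit.instK B
    let := Fit.instT B
    have hspan : v ∈ Submodule.span K ((U.image F : Finset B.carrier) : Set B.carrier) := by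
      rw [h2]
      refine Submodule.sum_mem _ fun j _ => ?_
      rcases h1 j with h3 | ⟨a, ha, h3⟩
      · rw [h3, zero_smul]; exact Submodule.zero_mem _
      · rw [hT a (h j) h3, Finset.sum_smul]
        refine Submodule.sum_mem _ fun t ht => ?_
        rw [mul_smul, ← Fit.k_smul]
        refine Submodule.smul_mem _ _ (Submodule.subset_span ?_)
        rw [Finset.mem_coe, Finset.mem_image]
        refine ⟨(j, t), ?_, rfl⟩
        rw [Finset.mem_product]
        refine ⟨Finset.mem_univ _, ?_⟩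
        rw [Finset.mem_biUnion]
        exact ⟨a, Finset.mem_range.mpr (by omega), ht⟩
    rw [Submodule.mem_span_finset] at hspan
    obtain ⟨c, -, hc⟩ := hspan
    exact ⟨c, hc.symm⟩
  gr_C := by
    intro n c v hv
    have h := hB.smul 0 n (C c) v (isHomogeneous_C _ _) hv
    rwa [zero_add] at h

end FinBS

theorem finGen_BS [CharZero K] (w : List (Fin 3)) : FinGen (BS K w) :=
  FinBS.finGen_of_hgen _ (FinBS.hgen_BS w)

theorem gr_zero_BS [CharZero K] (w : List (Fin 3)) : ∀ m ∈ (BS K w).gr 0,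
    ∃ c : K, m = (C c : Rg K) • (BS K w).bot := by
  induction w with
  | nil =>
    intro m hm
    obtain ⟨a, ha⟩ := FinBS.homog_zero (m : Rg K) hm
    exact ⟨a, ha.trans (mul_one (C a : Rg K)).symm⟩
  | cons i w ih =>
    intro m hm
    refine FinBS.const_closure (M := Ind K i (BS K w).carrier) (tm i (1 : Rg K) (BS K w).bot) _ ?_
      m hm
    rintro x ⟨a, b, f, m, hf, hm, hab, rfl⟩
    obtain ⟨rfl, rfl⟩ : a = 0 ∧ b = 0 := by omega
    obtain ⟨c, rfl⟩ := ih m hm
    obtain ⟨a, rfl⟩ := FinBS.homog_zero f hf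
    refine ⟨c * a, ?_⟩
    rw [← inv_tm i (C c) (C a) (refl_C i c), smul_tm, mul_one, C_mul]

theorem bot_mem_BS (w : List (Fin 3)) : (BS K w).bot ∈ (BS K w).gr 0 := by
  induction w with
  | nil => exact isHomogeneous_one (Fin 3) K
  | cons i w ih =>
    exact AddSubgroup.subset_closure
      ⟨0, 0, 1, (BS K w).bot, isHomogeneous_one (Fin 3) K, ih, rfl, rfl⟩

/-- `R ≅ R^r ⊕ R^r α` -/
noncomputable def invEquiv [CharZero K] (i : Fin 3) :
    (Inv K i × Inv K i) ≃ₗ[Inv K i] Rg K where
  toFun p := (p.1 : Rg K) + (p.2 : Rg K) * root K i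
  map_add' p q := by
    show ((p.1 + q.1 : Inv K i) : Rg K) + ((p.2 + q.2 : Inv K i) : Rg K) * root K i = _
    rw [Subalgebra.coe_add, Subalgebra.coe_add]
    ring
  map_smul' c p := by
    show ((c * p.1 : Inv K i) : Rg K) + ((c * p.2 : Inv K i) : Rg K) * root K i =
      (c : Rg K) * ((p.1 : Rg K) + (p.2 : Rg K) * root K i)
    rw [Subalgebra.coe_mul, Subalgebra.coe_mul]
    ring
  invFun f := (⟨c0 i f, refl_c0 i f⟩, ⟨c1 i f, refl_c1 i f⟩)
  left_inv p := by
    have hx : ∀ f p q : Rg K, refl K i p = p → refl K i q = q → f = p + q * root K i →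
        c0 i f = p ∧ c1 i f = q := by
      intro f p q hp hq h
      have h2 := hf_add (K := K)
      have e0 : c0 i f = p := by
        unfold c0
        rw [h, map_add, map_mul, hp, hq, refl_root]
        linear_combination p * h2
      refine ⟨e0, ?_⟩
      apply mul_right_cancel₀ (root_ne_zero (K := K) i)
      have h3 := c0_add_c1 i f
      rw [e0] at h3
      linear_combination h - h3
    obtain ⟨h1, h2⟩ := hx _ p.1 p.2 p.1.2 p.2.2 rfl
    exact Prod.ext (Subtype.ext h1) (Subtype.ext h2)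
  right_inv f := (c0_add_c1 i f).symm

/-- `BS(w)` is free as a left `R`-module. -/
theorem free_BS [CharZero K] (w : List (Fin 3)) : Module.Free (Rg K) (BS K w).carrier := by
  induction w with
  | nil => exact Module.Free.self (Rg K)
  | cons i w ih =>
    have h1 : Module.Free (Inv K i) (Rg K) := Module.Free.of_equiv (invEquiv i)
    have h2 : Module.Free (Inv K i) (BS K w).carrier := Module.Free.trans (S := Rg K)
    exact (inferInstance : Module.Free (Rg K) (Rg K ⊗[Inv K i] (BS K w).carrier))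

/-- saturation, from freeness and primality of `α_t` -/
theorem sat_BS [CharZero K] (w : List (Fin 3)) (f : Rg K) (m m' : (BS K w).carrier)
    (hf : ¬ root K 1 ∣ f) (h : f • m = root K 1 • m') :
    ∃ m'' : (BS K w).carrier, m = root K 1 • m'' := by
  classical
  have := free_BS (K := K) w
  let b := Module.Free.chooseBasis (Rg K) (BS K w).carrier
  have hdvd : ∀ j, root K 1 ∣ b.repr m j := by
    intro j
    have h1 := congrArg (fun x => b.repr x j) h
    simp only [map_smul, Finsupp.smul_apply, smul_eq_mul] at h1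
    have h2 : root K 1 ∣ f * b.repr m j := ⟨_, h1⟩
    exact (root_prime.dvd_or_dvd h2).resolve_left hf
  let q : Rg K → Rg K := fun r => if hr : root K 1 ∣ r then hr.choose else 0
  have hq : ∀ r, root K 1 ∣ r → r = root K 1 * q r := by
    intro r hr
    show r = root K 1 * (if hr : root K 1 ∣ r then hr.choose else 0)
    rw [dif_pos hr]
    exact hr.choose_spec
  have hq0 : q 0 = 0 := by
    have h1 := hq 0 (dvd_zero _)
    exact (mul_eq_zero.mp h1.symm).resolve_left (root_ne_zero 1)
  refine ⟨b.repr.symm (Finsupp.mapRange q hq0 (b.repr m)), ?_⟩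
  apply b.repr.injective
  rw [map_smul, LinearEquiv.apply_symm_apply]
  ext1 j
  rw [Finsupp.smul_apply, Finsupp.mapRange_apply, smul_eq_mul]
  exact hq _ (hdvd j)

end Pool.Agent.Lib.FSB
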