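import Pool.Agent.Lib.FSB.Kern
import Pool.Agent.Lib.FSB.M2b
import Pool.Agent.Lib.FSB.M2c
import Pool.Agent.Lib.FSB.M4b

/-!
# `B_d` carries no Frobenius structure
-/

set_option autoImplicit false

open MvPolynomial TensorProduct

namespace Pool.Agent.Lib.FSB

variable {K : Type} [Field K]

theorem bot_ne_zero_BS (w : List (Fin 3)) : (BS K w).bot ≠ 0 := by
  intro h
  have := ev_bot (K := K) w []
  rw [h, map_zero] at this
  exact zero_ne_one this

theorem smul_C_eq_zero [CharZero K] (c : K) (x : (BS K dW).carrier) (hx : x ≠ 0)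
    (h : (C c : Rg K) • x = 0) : c = 0 := by
  by_contra hc
  apply hx
  have := congrArg (fun z => (C c⁻¹ : Rg K) • z) h
  simp only [smul_smul, ← C_mul, inv_mul_cancel₀ hc, smul_zero, C_1, one_smul] at this
  exact this

theorem e_bot_eq [CharZero K] (e : (BS K dW).carrier →ₗ[Rg K] (BS K dW).carrier)
    (he : IsIndecomposableIdempotent (BS K dW) e) (h : e (BS K dW).bot ≠ 0) :
    e (BS K dW).bot = (BS K dW).bot := by
  obtain ⟨c, hc⟩ := gr_zero_BS dW _ (he.grEnd.deg 0 _ (bot_mem_BS dW))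
  have h2 : e (e (BS K dW).bot) = e (BS K dW).bot := DFunLike.congr_fun he.idem _
  rw [hc, map_smul, hc] at h2
  have h3 : (C (c * c - c) : Rg K) • (BS K dW).bot = 0 := by
    rw [C_sub, C_mul, sub_smul, mul_smul, h2, sub_self]
  have h4 := smul_C_eq_zero _ _ (bot_ne_zero_BS dW) h3
  have h5 : c ≠ 0 := by
    rintro rfl
    rw [hc, C_0, zero_smul] at h
    exact h rfl
  have h6 : c = 1 := by
    have : c * (c - 1) = 0 := by linear_combination h4
    rcases mul_eq_zero.mp this with h | h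
    · exact absurd h h5
    · exact sub_eq_zero.mp h
  rw [hc, h6, C_1, one_smul]

/-- paths -/
abbrev Path : Type := Bool × Bool × Bool × Bool × Bool × Bool

/-- the list of a path -/
def pl (j : Path) : List Bool := [j.1, j.2.1, j.2.2.1, j.2.2.2.1, j.2.2.2.2.1, j.2.2.2.2.2]

/-- `B_d`, as the image of the idempotent `e` -/
noncomputable abbrev Bd (e : (BS K dW).carrier →ₗ[Rg K] (BS K dW).carrier)
    (he : IsIndecomposableIdempotent (BS K dW) e) : Bimod K :=
  image (BS K dW).toBimod e he.grEnd.right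

/-- the coordinates of `B_d` -/
noncomputable def coordX [CharZero K] (e : (BS K dW).carrier →ₗ[Rg K] (BS K dW).carrier)
    (he : IsIndecomposableIdempotent (BS K dW) e) (h : e (BS K dW).bot = (BS K dW).bot) :
    Coord (Bd e he) where
  J := Path
  y := fun j => lab dW (pl j)
  ι := LinearMap.pi fun j => (ev dW (pl j)).comp (LinearMap.range e).subtype
  inj := by
    rw [← LinearMap.ker_eq_bot, LinearMap.ker_eq_bot']
    intro m hm
    apply Subtype.ext
    apply ev_inj6
    intro b1 b2 b3 b4 b5 b6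
    exact congrFun hm (b1, b2, b3, b4, b5, b6)
  right := fun f m j => ev_right dW (pl j) f m.1
  bot := ⟨(BS K dW).bot, ⟨(BS K dW).bot, h⟩⟩
  ι_bot := fun j => ev_bot dW (pl j)

theorem coordX_ι [CharZero K] (e : (BS K dW).carrier →ₗ[Rg K] (BS K dW).carrier)
    (he : IsIndecomposableIdempotent (BS K dW) e) (h : e (BS K dW).bot = (BS K dW).bot)
    (m : (Bd e he).carrier) (j : Path) : (coordX e he h).ι m j = ev dW (pl j) m.1 := rfl

/-- the map `pY` is injective on the image of `e` -/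
theorem pY_inj [CharZero K] (e : (BS K dW).carrier →ₗ[Rg K] (BS K dW).carrier)
    (he : IsIndecomposableIdempotent (BS K dW) e) (h : e (BS K dW).bot = (BS K dW).bot)
    (m : (Bd e he).carrier) (hm : pY m.1 = 0) : m = 0 := by
  apply Subtype.ext
  refine fitting_fixed (BS K dW) (finGen_BS dW) e (LinearMap.id - pY) he h (bot_ne_zero_BS dW)
    pY_grEnd pY_bot m.1 ?_ ?_
  · obtain ⟨z, hz⟩ := m.2
    rw [← hz]
    exact DFunLike.congr_fun he.idem z
  · rw [LinearMap.sub_apply, hm, sub_zero]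
    rfl

theorem lab_pY [CharZero K] {e : (BS K dW).carrier →ₗ[Rg K] (BS K dW).carrier}
    {he : IsIndecomposableIdempotent (BS K dW) e} {g : Rg K ≃ₐ[K] Rg K}
    {m : (Bd e he).carrier} (hm : Lab (Bd e he) g m) : Lab (BS K dW).toBimod g (pY m.1) := by
  intro f
  have h1 : (BS K dW).right f m.1 = (g f) • m.1 := congrArg Subtype.val (hm f)
  have h2 := pY_right f m.1
  rw [h1, map_smul] at h2
  exact h2.symm

theorem rk_one [CharZero K] (e : (BS K dW).carrier →ₗ[Rg K] (BS K dW).carrier)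
    (he : IsIndecomposableIdempotent (BS K dW) e) (h : e (BS K dW).bot = (BS K dW).bot)
    (g : Rg K ≃ₐ[K] Rg K) (F : (BS K dW).carrier →ₗ[Rg K] Rg K)
    (hF : ∀ x, Lab (BS K dW).toBimod g x → InKer x → F x = 0 → x = 0)
    (m m' : (Bd e he).carrier) (hm : Lab (Bd e he) g m) (hm' : Lab (Bd e he) g m') :
    ∃ a b : Rg K, (a ≠ 0 ∨ b ≠ 0) ∧ a • m + b • m' = 0 := by
  obtain ⟨a, b, hab, h2⟩ := rank_one (X := (BS K dW).toBimod)
    (fun x => Lab (BS K dW).toBimod g x ∧ InKer x) F
    (fun x y hx hy a b => ⟨hx.1.add_smul hy.1 a b, hx.2.add_smul hy.2 a b⟩)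
    (fun x hx => hF x hx.1 hx.2) (pY m.1) (pY m'.1) ⟨lab_pY hm, pY_inKer _⟩
    ⟨lab_pY hm', pY_inKer _⟩
  refine ⟨a, b, hab, pY_inj e he h _ ?_⟩
  show pY (a • m.1 + b • m'.1) = 0
  rw [map_add, map_smul, map_smul]
  exact h2

theorem propsX [CharZero K] (e : (BS K dW).carrier →ₗ[Rg K] (BS K dW).carrier)
    (he : IsIndecomposableIdempotent (BS K dW) e) (h : e (BS K dW).bot = (BS K dW).bot) :
    Props (Bd e he) (coordX e he h) where
  glue := by
    refine ⟨(false, false, false, false, false, false), (false, true, false, false, false, false),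
      lab_eq_of dW [] _ [] (by decide), lab_eq_of dW [1] _ [true] (by decide), ?_⟩
    intro m
    rw [coordX_ι, coordX_ι]
    have h1 := DFunLike.congr_fun (ev1_rel 0 false _ _ _ _
      (lamD_rel 1 (ev [0, 2, 1, 0] [false, false, false, false]))) m.1
    exact ⟨_, h1.symm⟩
  sat := by
    intro f m m' hf hmm
    obtain ⟨z, hz⟩ := sat_BS dW f m.1 m'.1 hf (congrArg Subtype.val hmm)
    refine ⟨⟨e z, ⟨z, rfl⟩⟩, ?_⟩
    apply Subtype.ext
    have h2 : e m.1 = m.1 := by
      obtain ⟨w, hw⟩ := m.2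
      rw [← hw]
      exact DFunLike.congr_fun he.idem w
    rw [← h2, hz, map_smul]
    rfl
  sep := by
    rintro ⟨b1, b2, b3, b4, b5, b6⟩ h1 h2
    obtain ⟨j, hj⟩ := sep_labP b1 b2 b3 b4 b5 b6
      (fun h' => h1 (lab_eq_of dW [] _ [] h')) (fun h' => h2 (lab_eq_of dW [1] _ [true] h'))
    refine ⟨X j, ?_⟩
    have h3 := cond_spec (K := K) j _ hj
    rw [← lab_X] at h3
    exact h3
  rk_t := fun m m' hm hm' => rk_one e he h (refl K 1) _
    (fun x hx hk hF => ker_t hx hk hF) m m' hm hm'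
  rk_u := fun m m' hm hm' => rk_one e he h (refl K 2) _
    (fun x hx hk hF => ker_u hx hk hF) m m' hm hm'
  rk_e := by
    intro m m' m'' hm hm' hm''
    obtain ⟨a, b, c, habc, h2⟩ := rank_two (X := (BS K dW).toBimod)
      (fun x => Lab (BS K dW).toBimod 1 x ∧ InKer x)
      (ev dW [false, false, false, false, false, false])
      (ev dW [true, true, false, false, true, true])
      (fun x y hx hy a b => ⟨hx.1.add_smul hy.1 a b, hx.2.add_smul hy.2 a b⟩)
      (fun x hx h1 h2 => ker_e hx.1 hx.2 h1 h2) (pY m.1) (pY m'.1) (pY m''.1)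
      ⟨lab_pY hm, pY_inKer _⟩ ⟨lab_pY hm', pY_inKer _⟩ ⟨lab_pY hm'', pY_inKer _⟩
    refine ⟨a, b, c, habc, pY_inj e he h _ ?_⟩
    show pY (a • m.1 + b • m'.1 + c • m''.1) = 0
    rw [map_add, map_add, map_smul, map_smul, map_smul]
    exact h2
  ex_s := ⟨(true, false, false, false, false, false), lab_eq_of dW [0] _ [true] (by decide)⟩
  ex_u := ⟨(false, false, false, true, false, false), lab_eq_of dW [2] _ [true] (by decide)⟩
  ex_su := ⟨(true, false, false, true, false, false),
    lab_eq_of dW [0, 2] _ [true, true] (by decide)⟩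
  ex_tu := ⟨(false, true, false, true, false, false),
    lab_eq_of dW [1, 2] _ [true, true] (by decide)⟩
  no_utst := by
    rintro ⟨b1, b2, b3, b4, b5, b6⟩
    exact lab_ne_of dW [2, 1, 0, 1] _ [true, true, true, true] (no_utst b1 b2 b3 b4 b5 b6)
  no_utstu := by
    rintro ⟨b1, b2, b3, b4, b5, b6⟩
    exact lab_ne_of dW [2, 1, 0, 1, 2] _ [true, true, true, true, true]
      (no_utstu b1 b2 b3 b4 b5 b6)

/-- `B_d` does not carry a Frobenius structure. -/
theorem no_frobenius [CharZero K] (e : (BS K dW).carrier →ₗ[Rg K] (BS K dW).carrier)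
    (he : IsIndecomposableIdempotent (BS K dW) e) (h : e (BS K dW).bot ≠ 0) :
    IsEmpty (Frob (image (BS K dW).toBimod e he.grEnd.right)) := by
  constructor
  intro F
  have h2 := e_bot_eq e he h
  obtain ⟨D⟩ := F.toDual
  exact no_dual (coordX e he h2) (propsX e he h2) D
    (fun ζ hζ hz => no_nilp (coordX e he h2) (propsX e he h2) D hζ hz)

theorem exists_Bd [CharZero K] : ∃ e : (BS K dW).carrier →ₗ[Rg K] (BS K dW).carrier,
    IsIndecomposableIdempotent (BS K dW) e ∧ e (BS K dW).bot = (BS K dW).bot :=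
  exists_indec (BS K dW) (finGen_BS dW) (bot_ne_zero_BS dW) (bot_mem_BS dW) (gr_zero_BS dW)

end Pool.Agent.Lib.FSB
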