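import Pool.Agent.Lib.FSB.ER2

/-!
# Gradings
-/

set_option autoImplicit false

open MvPolynomial TensorProduct

namespace Pool.Agent.Lib.FSB

variable {K : Type} [Field K]

section

variable {M N : Type} [AddCommGroup M] [Module (Rg K) M] [AddCommGroup N] [Module (Rg K) N]

/-- The induced grading on `R ⊗_{R^r} M`. -/
noncomputable def indGr (i : Fin 3) (G : ℕ → AddSubgroup M) (n : ℕ) : AddSubgroup (Ind K i M) :=
  AddSubgroup.closure
    {x | ∃ (a b : ℕ) (f : Rg K) (m : M), f.IsHomogeneous a ∧ m ∈ G b ∧ a + b = n ∧ x = tm i f m}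

theorem tm_mem (i : Fin 3) (G : ℕ → AddSubgroup M) {a b n : ℕ} {f : Rg K} {m : M}
    (hf : f.IsHomogeneous a) (hm : m ∈ G b) (hn : a + b = n) : tm i f m ∈ indGr i G n :=
  AddSubgroup.subset_closure ⟨a, b, f, m, hf, hm, hn, rfl⟩

/-- `G` is a grading compatible with the action of `R` -/
def IsGr (K : Type) [Field K] {M : Type} [AddCommGroup M] [Module (Rg K) M]
    (G : ℕ → AddSubgroup M) : Prop :=
  ∀ (a b : ℕ) (f : Rg K) (m : M), f.IsHomogeneous a → m ∈ G b → f • m ∈ G (a + b)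

theorem indGr_induction {N : Type} [AddCommGroup N] (i : Fin 3) (G : ℕ → AddSubgroup M) {n : ℕ}
    (S : AddSubgroup N)
    (g : Ind K i M →+ N) (h : ∀ (a b : ℕ) (f : Rg K) (m : M), f.IsHomogeneous a → m ∈ G b →
      a + b = n → g (tm i f m) ∈ S) {x : Ind K i M} (hx : x ∈ indGr i G n) : g x ∈ S := by
  have : indGr i G n ≤ S.comap g := by
    rw [indGr, AddSubgroup.closure_le]
    rintro _ ⟨a, b, f, m, hf, hm, hn, rfl⟩
    exact h a b f m hf hm hn
  exact this hx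

theorem isGr_indGr (i : Fin 3) (G : ℕ → AddSubgroup M) : IsGr K (indGr (K := K) i G) := by
  intro a b f x hf hx
  refine indGr_induction i G (n := b) (indGr i G (a + b))
    (LinearMap.toAddMonoidHom ((LinearMap.lsmul (Rg K) (Ind K i M)) f)) ?_ hx
  intro a' b' g m hg hm hn
  show f • tm i g m ∈ _
  rw [smul_tm]
  exact tm_mem i G (hf.mul hg) hm (by omega)

theorem mapI_mem (i : Fin 3) (G : ℕ → AddSubgroup M) (G' : ℕ → AddSubgroup N) (g : M →+ N)
    (hg : ∀ c, refl K i c = c → ∀ m : M, g (c • m) = c • g m)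
    (hgr : ∀ n m, m ∈ G n → g m ∈ G' n) {n : ℕ} {x : Ind K i M} (hx : x ∈ indGr i G n) :
    mapI i g hg x ∈ indGr i G' n := by
  refine indGr_induction i G (n := n) (indGr i G' n) (mapI i g hg).toAddMonoidHom ?_ hx
  intro a b f m hf hm hn
  show mapI i g hg (tm i f m) ∈ _
  rw [mapI_tm]
  exact tm_mem i G' hf (hgr b m hm) hn

theorem bc_mem (i : Fin 3) (G : ℕ → AddSubgroup M) (g : M →ₗ[Rg K] M)
    (hgr : ∀ n m, m ∈ G n → g m ∈ G n) {n : ℕ} {x : Ind K i M} (hx : x ∈ indGr i G n) :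
    bc i g x ∈ indGr i G n := by
  refine indGr_induction i G (n := n) (indGr i G n) (bc i g).toAddMonoidHom ?_ hx
  intro a b f m hf hm hn
  show bc i g (tm i f m) ∈ _
  rw [bc_tm]
  exact tm_mem i G hf (hgr b m hm) hn

theorem hf_homogF : (hf : Rg K).IsHomogeneous 0 := isHomogeneous_C _ _

theorem del_mem (i : Fin 3) (G : ℕ → AddSubgroup M) (hG : IsGr K G) {n : ℕ} {m : M}
    (hm : m ∈ G n) : (del i m : Ind K i M) ∈ indGr i G (n + 1) := by
  unfold del
  refine add_mem (tm_mem i G (root_homog i) hm (by omega)) (tm_mem i G (isHomogeneous_one _ _)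
    (hG 1 n _ _ (root_homog i) hm) (by omega))

theorem hL_mem (G : ℕ → AddSubgroup M) {n : ℕ} {m : M}
    (hm : m ∈ G n) : (hL m : Ind K 1 (Ind K 0 M)) ∈ indGr (K := K) 1 (indGr 0 G) (n + 1) := by
  unfold hL
  have h1 := del_mem (K := K) 1 (indGr 0 G) (isGr_indGr 0 G) (n := n) (m := tm 0 1 m)
    (tm_mem 0 G (isHomogeneous_one _ _) hm (by omega))
  have h2 := isGr_indGr (K := K) 1 (indGr 0 G) 0 (n + 1) hf _ hf_homogF h1
  rwa [zero_add] at h2

theorem theta_mem (G : ℕ → AddSubgroup M) (hG : IsGr K G) {n : ℕ} {x : Ind K 1 (Ind K 0 M)}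
    (hx : x ∈ indGr (K := K) 1 (indGr 0 G) n) : theta x ∈ indGr (K := K) 1 (indGr 0 G) n := by
  refine indGr_induction 1 (indGr 0 G) (n := n) (indGr 1 (indGr 0 G) n) theta ?_ hx
  intro a b f y hf hy hn
  set g : Ind K 0 M →+ Ind K 1 (Ind K 0 M) :=
    { toFun := fun y => theta (tm 1 f y)
      map_zero' := by rw [tm_zero, map_zero]
      map_add' := fun x y => by rw [tm_add, map_add] } with hgdef
  have := indGr_induction 0 G (n := b) (indGr 1 (indGr 0 G) n) g ?_ hy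
  · exact this
  intro a' b' f' m hf' hm hn'
  show theta (tm 1 f (tm 0 f' m)) ∈ _
  rw [theta_apply, gL_tm]
  have hff := hf.mul hf'
  rcases Nat.eq_zero_or_pos (a + a') with h0 | h0
  · rw [h0] at hff
    rw [dem_homog_zero 0 hff, zero_smul, hL_zero, smul_zero]
    exact zero_mem _
  · obtain ⟨k, hk⟩ : ∃ k, a + a' = k + 1 := ⟨a + a' - 1, by omega⟩
    rw [hk] at hff
    have h1 := hG k b' _ m (dem_homog 0 hff) hm
    have h2 := hL_mem (K := K) G h1
    have h3 := isGr_indGr (K := K) 1 (indGr 0 G) 0 _ Pool.Agent.Lib.FSB.hf _ hf_homogF h2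
    have e : 0 + (k + b' + 1) = n := by omega
    rwa [e] at h3

theorem c0_homogF (i : Fin 3) {a : ℕ} {f : Rg K} (h : f.IsHomogeneous a) :
    (c0 i f).IsHomogeneous a := by
  have := hf_homogF.mul (h.add (refl_homog i h))
  rwa [zero_add] at this

theorem c1_homogF (i : Fin 3) {a : ℕ} {f : Rg K} (h : f.IsHomogeneous (a + 1)) :
    (c1 i f).IsHomogeneous a := by
  have := hf_homogF.mul (dem_homog i h)
  rwa [zero_add] at this

theorem phi_mem [CharZero K] (θ : M →+ M)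
    (hθ : ∀ c : Rg K, refl K 0 c = c → ∀ m, θ (c • m) = c • θ m)
    (G : ℕ → AddSubgroup M) (hG : IsGr K G) (hgr : ∀ n m, m ∈ G n → θ m ∈ G n)
    {n : ℕ} {x : Ind K 2 M} (hx : x ∈ indGr (K := K) 2 G n) : phi θ hθ x ∈ indGr 2 G n := by
  refine indGr_induction 2 G (n := n) (indGr 2 G n) (phi θ hθ) ?_ hx
  intro a b f m hf hm hn
  rw [phi_tm]
  refine add_mem (tm_mem 2 G (c0_homogF 0 hf) (hgr b m hm) hn) ?_
  rcases Nat.eq_zero_or_pos a with h0 | h0
  · rw [h0] at hf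
    have : c1 0 f = 0 := by
      unfold c1
      rw [dem_homog_zero 0 hf, mul_zero]
    rw [this, zero_tm]
    exact zero_mem _
  · obtain ⟨k, hk⟩ : ∃ k, a = k + 1 := ⟨a - 1, by omega⟩
    rw [hk] at hf
    exact tm_mem 2 G (c1_homogF 0 hf) (hgr _ _ (hG 1 b _ m (X_homog 0) hm)) (by omega)

theorem eLM_mem [CharZero K] (G : ℕ → AddSubgroup M) (hG : IsGr K G) {n : ℕ}
    {x : Ind K 0 (Ind K 1 (Ind K 0 M))} (hx : x ∈ indGr (K := K) 0 (indGr 1 (indGr 0 G)) n) :
    eLM x ∈ indGr (K := K) 0 (indGr 1 (indGr 0 G)) n :=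
  mapI_mem 0 _ _ theta theta_smul (fun _ _ h => theta_mem G hG h) hx

theorem eRM_mem [CharZero K] (G : ℕ → AddSubgroup M) (hG : IsGr K G) {n : ℕ}
    {x : Ind K 0 (Ind K 1 (Ind K 0 (Ind K 2 (Ind K 1 (Ind K 0 M)))))}
    (hx : x ∈ indGr (K := K) 0 (indGr 1 (indGr 0 (indGr 2 (indGr 1 (indGr 0 G))))) n) :
    eRM x ∈ indGr (K := K) 0 (indGr 1 (indGr 0 (indGr 2 (indGr 1 (indGr 0 G))))) n := by
  unfold eRM
  refine bc_mem 0 _ _ (fun n y hy => bc_mem 1 _ _ (fun n z hz => ?_) hy) hx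
  exact mapI_mem 0 _ _ _ _ (fun _ _ h => phi_mem theta theta_smul _ (isGr_indGr 1 _)
    (fun _ _ h' => theta_mem G hG h') h) hz

end

/-- the word `s t s u t s` -/
abbrev dW : List (Fin 3) := [0, 1, 0, 2, 1, 0]

theorem isGr_BS (w : List (Fin 3)) : IsGr K (BS K w).gr := by
  cases w with
  | nil =>
    intro a b f m hf hm
    exact MvPolynomial.IsHomogeneous.mul hf hm
  | cons i w => exact isGr_indGr i (BS K w).gr

theorem BS_gr_cons (i : Fin 3) (w : List (Fin 3)) : (BS K (i :: w)).gr = indGr i (BS K w).gr := rfl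

/-- The idempotent `e_L` on `BS(s,t,s,u,t,s)`. -/
noncomputable def eL [CharZero K] : (BS K dW).carrier →ₗ[Rg K] (BS K dW).carrier :=
  eLM (M := (BS K [2, 1, 0]).carrier)

/-- The idempotent `e_R` on `BS(s,t,s,u,t,s)`. -/
noncomputable def eR [CharZero K] : (BS K dW).carrier →ₗ[Rg K] (BS K dW).carrier :=
  eRM (M := (BS K []).carrier)

theorem eL_grEnd [CharZero K] : IsGrEnd (BS K dW) eL where
  right f m := eLM_bc ((BS K [2, 1, 0]).right f) m
  deg n m hm := eLM_mem (BS K [2, 1, 0]).gr (isGr_BS _) hm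

theorem eR_grEnd [CharZero K] : IsGrEnd (BS K dW) eR where
  right f m := eRM_bc ((BS K []).right f) m
  deg n m hm := eRM_mem (BS K []).gr (isGr_BS _) hm

theorem eL_eL [CharZero K] (x : (BS K dW).carrier) : eL (eL x) = eL x := eLM_eLM x

theorem eR_eR [CharZero K] (x : (BS K dW).carrier) : eR (eR x) = eR x := eRM_eRM x

theorem eL_eR [CharZero K] (x : (BS K dW).carrier) : eL (eR x) = eR (eL x) := eLM_eRM x

theorem eL_bot [CharZero K] : eL (BS K dW).bot = 0 := eLM_bot (M := (BS K [2, 1, 0]).carrier) _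

theorem eR_bot [CharZero K] : eR (BS K dW).bot = 0 := eRM_bot (M := (BS K []).carrier) _

theorem eL_rel [CharZero K] (c b4 b5 b6 : Bool) (x : (BS K dW).carrier) (hx : eL x = 0) :
    ev dW [false, false, c, b4, b5, b6] x = ev dW [true, false, !c, b4, b5, b6] x :=
  eLM_rel (M := (BS K [2, 1, 0]).carrier) (ev [2, 1, 0] [b4, b5, b6]) c x hx

theorem eR_rel [CharZero K] (b1 b2 c b4 : Bool) (x : (BS K dW).carrier) (hx : eR x = 0) :
    ev dW [b1, b2, c, b4, false, false] x = ev dW [b1, b2, !c, b4, false, true] x :=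
  eRM_rel (M := (BS K []).carrier) (ev [] []) b1 b2 c b4 x hx

end Pool.Agent.Lib.FSB
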