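import Mathlib

/-!
# Hecke algebras, Kazhdan-Lusztig bases, Lusztig's functions `a` and `Δ`

Hecke algebras with equal parameters of Coxeter systems, in Soergel's normalisation: the standard
basis `H_w` satisfies `H_x H_y = H_{xy}` if `ℓ(xy) = ℓ(x) + ℓ(y)`, and
`H_s² = 1 + (v⁻¹ - v) H_s`; the Kazhdan-Lusztig basis element `C_w` is bar invariant and lies in
`H_w + ∑_{y ≠ w} v ℤ[v] H_y`.  (Lusztig's normalisation is obtained by exchanging `v` and `v⁻¹`.)
-/

set_option autoImplicit false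

open LaurentPolynomial

namespace Pool.Agent.Lib.FSB

/-- The Coxeter matrix of type `B₃`, with `m(0,1) = 4`, `m(1,2) = 3`, `m(0,2) = 2`. -/
def cmB3 : CoxeterMatrix (Fin 3) where
  M := !![1, 4, 2; 4, 1, 3; 2, 3, 1]
  isSymm := by decide
  diagonal := by decide
  off_diagonal := fun i i' h => by
    fin_cases i <;> fin_cases i' <;> simp_all

/-- A Hecke algebra of the Coxeter system `cs`: a `ℤ[v,v⁻¹]`-algebra with a basis `H_w`, `w ∈ W`,
multiplied in the usual way. -/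
structure HeckeAlg {B : Type} {M : CoxeterMatrix B} {W : Type} [Group W]
    (cs : CoxeterSystem M W) where
  H : Type
  [ring : Ring H]
  [alg : Algebra ℤ[T;T⁻¹] H]
  std : Module.Basis W ℤ[T;T⁻¹] H
  std_mul : ∀ x y : W, cs.length (x * y) = cs.length x + cs.length y → std x * std y = std (x * y)
  std_quad : ∀ i : B, std (cs.simple i) * std (cs.simple i) =
    1 + (T (-1) - T 1 : ℤ[T;T⁻¹]) • std (cs.simple i)

attribute [instance] HeckeAlg.ring HeckeAlg.alg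

variable {B : Type} {M : CoxeterMatrix B} {W : Type} [Group W] {cs : CoxeterSystem M W}

/-- `bar` is the bar involution: `v ↦ v⁻¹`, `H_s ↦ H_s⁻¹ = H_s + (v - v⁻¹)`. -/
structure IsBar (A : HeckeAlg cs) (bar : A.H →+* A.H) : Prop where
  bar_scalar : ∀ f : ℤ[T;T⁻¹], bar (algebraMap ℤ[T;T⁻¹] A.H f) = algebraMap ℤ[T;T⁻¹] A.H (invert f)
  bar_std : ∀ i : B, bar (A.std (cs.simple i)) =
    A.std (cs.simple i) + (T 1 - T (-1) : ℤ[T;T⁻¹]) • (1 : A.H)

/-- `C` is the Kazhdan-Lusztig basis: `C_w` is bar invariant and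
`C_w ∈ H_w + ∑_{y ≠ w} v ℤ[v] H_y`. -/
structure IsKL (A : HeckeAlg cs) (bar : A.H →+* A.H) (C : Module.Basis W ℤ[T;T⁻¹] A.H) :
    Prop where
  bar_C : ∀ w, bar (C w) = C w
  diag : ∀ w, A.std.repr (C w) w = 1
  upper : ∀ w y, y ≠ w → ∀ k : ℤ, k ≤ 0 → (A.std.repr (C w) y).coeff k = 0

/-- Lusztig's function `a(z)`: the least `n` such that `vⁿ h_{x,y,z} ∈ ℤ[v]` for all `x, y`, where
`C_x C_y = ∑_z h_{x,y,z} C_z`. -/
noncomputable def aFun {A : HeckeAlg cs} (C : Module.Basis W ℤ[T;T⁻¹] A.H) (z : W) : ℕ :=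
  sInf {n : ℕ | ∀ x y : W, ∀ k : ℤ, k < -(n : ℤ) → (C.repr (C x * C y) z).coeff k = 0}

/-- Lusztig's function `Δ(z)`: the order of vanishing at `v = 0` of the coefficient `p_{1,z}` of
`H_1` in `C_z`. -/
noncomputable def DeltaFun {A : HeckeAlg cs} (C : Module.Basis W ℤ[T;T⁻¹] A.H) (z : W) : ℕ :=
  sInf {n : ℕ | (A.std.repr (C z) 1).coeff (n : ℤ) ≠ 0}

end Pool.Agent.Lib.FSB
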