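import Mathlib

/-!
# Soergel bimodules of type `B₃` and Frobenius algebra objects: the definitions of the statement

Bott-Samelson bimodules over the polynomial ring `R = K[x₀,x₁,x₂]` with the reflection
representation of the Coxeter group of type `B₃`, their indecomposable direct summands, Frobenius
algebra objects in the category of `(R,R)`-bimodules.
-/

set_option autoImplicit false

open MvPolynomial

namespace Pool.Agent.Lib.FSB.St

/-- The simple reflections of type `B₃` acting on `R = K[x₀,x₁,x₂]`: number `0` is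
`s : x₀ ↦ -x₀`, number `1` is `t : x₀ ↔ x₁`, number `2` is `u : x₁ ↔ x₂`; so `m(s,t) = 4`,
`m(t,u) = 3`, `m(s,u) = 2`. -/
noncomputable def refl (K : Type) [Field K] :
    Fin 3 → (MvPolynomial (Fin 3) K →ₐ[K] MvPolynomial (Fin 3) K) :=
  ![aeval ![-X 0, X 1, X 2], rename (Equiv.swap 0 1), rename (Equiv.swap 1 2)]

variable {K : Type} [Field K]

/-- `π` presents the ring `A` as the Bott-Samelson bimodule
`BS(w) = R ⊗_{R^{w₀}} R ⊗_{R^{w₁}} ⋯ ⊗_{R^{w_{k-1}}} R`, that is, as the quotient of
`R ⊗_K ⋯ ⊗_K R = K[x_{j,a} : 0 ≤ j ≤ k, a < 3]` by the relations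
`⋯ ⊗ f ⊗ 1 ⊗ ⋯ = ⋯ ⊗ 1 ⊗ f ⊗ ⋯` for `f` invariant under the reflection `w_j`, in the
positions `j`, `j+1`. -/
structure IsBS {k : ℕ} (w : Fin k → Fin 3) {A : Type} [CommRing A]
    (π : MvPolynomial (Fin (k + 1) × Fin 3) K →+* A) : Prop where
  surj : Function.Surjective π
  ker : RingHom.ker π = Ideal.span {q | ∃ (j : Fin k) (f : MvPolynomial (Fin 3) K),
    refl K (w j) f = f ∧ q = rename (Prod.mk j.castSucc) f - rename (Prod.mk j.succ) f}

/-- `e` is an endomorphism of the graded `(R,R)`-bimodule `A`: it commutes with the left action of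
`R` on the first tensor factor and with the right action on the last one, and it preserves degrees.
-/
structure IsGrEnd {k : ℕ} {A : Type} [CommRing A]
    (π : MvPolynomial (Fin (k + 1) × Fin 3) K →+* A) (e : A →+ A) : Prop where
  left : ∀ (f : MvPolynomial (Fin 3) K) (a : A),
    e (π (rename (Prod.mk 0) f) * a) = π (rename (Prod.mk 0) f) * e a
  right : ∀ (f : MvPolynomial (Fin 3) K) (a : A),
    e (a * π (rename (Prod.mk (Fin.last k)) f)) = e a * π (rename (Prod.mk (Fin.last k)) f)
  deg : ∀ (n : ℕ) (q : MvPolynomial (Fin (k + 1) × Fin 3) K), q.IsHomogeneous n →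
    ∃ q' : MvPolynomial (Fin (k + 1) × Fin 3) K, q'.IsHomogeneous n ∧ e (π q) = π q'

/-- The left `R`-module `B` is an `(R,R)`-bimodule, with `K` acting centrally, for the right
action `b f = right f b`. -/
structure IsBimod {B : Type} [AddCommGroup B] [Module (MvPolynomial (Fin 3) K) B]
    (right : MvPolynomial (Fin 3) K → B → B) : Prop where
  add : ∀ f b b', right f (b + b') = right f b + right f b'
  add' : ∀ f g b, right (f + g) b = right f b + right g b
  mul : ∀ f g b, right (f * g) b = right g (right f b)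
  one : ∀ b, right 1 b = b
  smul : ∀ f (g : MvPolynomial (Fin 3) K) b, right f (g • b) = g • right f b
  scalar : ∀ (c : K) b, right (C c) b = (C c : MvPolynomial (Fin 3) K) • b

/-- The bimodule `B` is, with the inclusion `i : B → A` and the projection `p : A → B`, an
indecomposable direct summand of the graded bimodule `A` (the image of the idempotent `i ∘ p`) that
contains `1 ⊗ ⋯ ⊗ 1`, that is `p (1 ⊗ ⋯ ⊗ 1) ≠ 0`. -/
structure IsTop {k : ℕ} {A : Type} [CommRing A]
    (π : MvPolynomial (Fin (k + 1) × Fin 3) K →+* A) {B : Type} [AddCommGroup B]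
    [Module (MvPolynomial (Fin 3) K) B] (right : MvPolynomial (Fin 3) K → B → B) (i : B →+ A)
    (p : A →+ B) : Prop where
  bimod : IsBimod right
  i_left : ∀ (f : MvPolynomial (Fin 3) K) (b : B), i (f • b) = π (rename (Prod.mk 0) f) * i b
  i_right : ∀ (f : MvPolynomial (Fin 3) K) (b : B),
    i (right f b) = i b * π (rename (Prod.mk (Fin.last k)) f)
  p_i : ∀ b, p (i b) = b
  grEnd : IsGrEnd π (i.comp p)
  indec : ∀ e : A →+ A, IsGrEnd π e → (∀ a, e (e a) = e a) → (∀ a, i (p (e a)) = e a) →
    (∀ a, e (i (p a)) = e a) → (∀ a, e a = 0) ∨ ∀ a, e a = i (p a)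
  top : p 1 ≠ 0

/-- `∑ x ⊗ y`, over the pairs `(x,y)` in the list `l`, equals `∑ x ⊗ y`, over the pairs `(x,y)` in
`l'`, in `B ⊗_R B`: every `R`-balanced biadditive map has the same value on both sums. -/
def TEq {B : Type} [AddCommGroup B] [Module (MvPolynomial (Fin 3) K) B]
    (right : MvPolynomial (Fin 3) K → B → B) (l l' : List (B × B)) : Prop :=
  ∀ (G : Type) [AddCommGroup G] (β : B → B → G),
    (∀ x x' y, β (x + x') y = β x y + β x' y) → (∀ x y y', β x (y + y') = β x y + β x y') →
    (∀ (f : MvPolynomial (Fin 3) K) (x y : B), β (right f x) y = β x (f • y)) →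
    (l.map fun z => β z.1 z.2).sum = (l'.map fun z => β z.1 z.2).sum

/-- A Frobenius algebra object structure `(m, η, δ, ε)` on the bimodule `B` in the monoidal category
of `(R,R)`-bimodules.  The unit `η : R → B` is given by the central element `one = η(1)`, the
multiplication `m : B ⊗_R B → B` by an `R`-balanced biadditive map, and the comultiplication
`δ : B → B ⊗_R B` by expressions `δ(b) = ∑ x ⊗ y`, the sum being over the pairs `(x,y)` in the list
`comul b`. (Neither homogeneity of the maps nor coassociativity is required, so that this is weaker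
than the notion in the literature.) -/
structure Frob {B : Type} [AddCommGroup B] [Module (MvPolynomial (Fin 3) K) B]
    (right : MvPolynomial (Fin 3) K → B → B) where
  mul : B →+ B →+ B
  mul_left : ∀ (f : MvPolynomial (Fin 3) K) (a b : B), mul (f • a) b = f • mul a b
  mul_balanced : ∀ (f : MvPolynomial (Fin 3) K) (a b : B), mul (right f a) b = mul a (f • b)
  mul_right : ∀ (f : MvPolynomial (Fin 3) K) (a b : B), mul a (right f b) = right f (mul a b)
  one : B
  one_central : ∀ f : MvPolynomial (Fin 3) K, right f one = f • one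
  one_mul : ∀ a, mul one a = a
  mul_one : ∀ a, mul a one = a
  mul_assoc : ∀ a b c, mul (mul a b) c = mul a (mul b c)
  /-- the counit `ε : B → R`, left and right `R`-linear -/
  counit : B →+ MvPolynomial (Fin 3) K
  counit_left : ∀ (f : MvPolynomial (Fin 3) K) (a : B), counit (f • a) = f * counit a
  counit_right : ∀ (f : MvPolynomial (Fin 3) K) (a : B), counit (right f a) = counit a * f
  /-- the comultiplication `δ : B → B ⊗_R B` -/
  comul : B → List (B × B)
  comul_add : ∀ a b : B, TEq right (comul (a + b)) (comul a ++ comul b)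
  comul_left : ∀ (f : MvPolynomial (Fin 3) K) (a : B),
    TEq right (comul (f • a)) ((comul a).map fun z => (f • z.1, z.2))
  comul_right : ∀ (f : MvPolynomial (Fin 3) K) (a : B),
    TEq right (comul (right f a)) ((comul a).map fun z => (z.1, right f z.2))
  /-- `(ε ⊗ 1) δ = 1` -/
  counit_comul : ∀ a : B, ((comul a).map fun z => counit z.1 • z.2).sum = a
  /-- `(1 ⊗ ε) δ = 1` -/
  comul_counit : ∀ a : B, ((comul a).map fun z => right (counit z.2) z.1).sum = a
  /-- `δ m = (m ⊗ 1)(1 ⊗ δ)` -/
  frob_left : ∀ a b : B, TEq right (comul (mul a b)) ((comul b).map fun z => (mul a z.1, z.2))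
  /-- `δ m = (1 ⊗ m)(δ ⊗ 1)` -/
  frob_right : ∀ a b : B, TEq right (comul (mul a b)) ((comul a).map fun z => (z.1, mul z.2 b))

end Pool.Agent.Lib.FSB.St
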