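import Pool.Agent.Lib.FSB.Defs
import Pool.Agent.Lib.FSB.Stmt

/-!
# The two descriptions of Bott-Samelson bimodules agree
-/

set_option autoImplicit false

open MvPolynomial TensorProduct

namespace Pool.Agent.Lib.FSB

variable {K : Type} [Field K]

/-- The relations of `BS(w)` for a sequence of ring homomorphisms out of `R`. -/
def Compat : List (Fin 3) → {C : Type} → [CommRing C] → (ℕ → Rg K →+* C) → Prop
  | [], _, _, _ => True
  | i :: w, _, _, σ => (∀ f, refl K i f = f → σ 0 f = σ 1 f) ∧ Compat w (fun j => σ (j + 1))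

theorem compat_iff (w : List (Fin 3)) {C : Type} [CommRing C] (σ : ℕ → Rg K →+* C) :
    Compat w σ ↔ ∀ (j : ℕ) (hj : j < w.length) (f : Rg K), refl K w[j] f = f →
      σ j f = σ (j + 1) f := by
  induction w generalizing σ with
  | nil => simp [Compat]
  | cons i w ih =>
    rw [Compat, ih]
    constructor
    · rintro ⟨h0, h1⟩ j hj f hf
      cases j with
      | zero => exact h0 f hf
      | succ j => exact h1 j (by simpa using hj) f hf
    · intro h
      exact ⟨fun f hf => h 0 (by simp) f hf, fun j hj f hf =>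
        h (j + 1) (by simpa using hj) f hf⟩

/-- A commutative ring structure on `BS(w)` and its universal property. -/
structure Pres (K : Type) [Field K] (w : List (Fin 3)) where
  C : Type
  [ring : CommRing C]
  σ : ℕ → Rg K →+* C
  scal : ∀ (j : ℕ) (c : K), σ j (MvPolynomial.C c) = σ 0 (MvPolynomial.C c)
  compat : Compat w σ
  e : C ≃+ (BS K w).carrier
  e_left : ∀ f x, e (σ 0 f * x) = f • e x
  e_right : ∀ f x, e (x * σ w.length f) = (BS K w).right f (e x)
  e_one : e 1 = (BS K w).bot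
  lift : ∀ (A : Type) [CommRing A] (ρ : ℕ → Rg K →+* A),
    (∀ (j : ℕ) (c : K), ρ j (MvPolynomial.C c) = ρ 0 (MvPolynomial.C c)) → Compat w ρ →
    ∃ Θ : C →+* A, ∀ j ≤ w.length, ∀ f, Θ (σ j f) = ρ j f
  gen : ∀ P : Subring C, (∀ j ≤ w.length, ∀ f, σ j f ∈ P) → ∀ x, x ∈ P
  gr_mul : ∀ a b x y, e x ∈ (BS K w).gr a → e y ∈ (BS K w).gr b → e (x * y) ∈ (BS K w).gr (a + b)
  gr_σ : ∀ j ≤ w.length, ∀ n, ∀ f : Rg K, f.IsHomogeneous n → e (σ j f) ∈ (BS K w).gr n
  gr_min : ∀ Γ : ℕ → AddSubgroup C, (∀ a b x y, x ∈ Γ a → y ∈ Γ b → x * y ∈ Γ (a + b)) →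
    (∀ j ≤ w.length, ∀ n, ∀ f : Rg K, f.IsHomogeneous n → σ j f ∈ Γ n) →
    ∀ n x, e x ∈ (BS K w).gr n → x ∈ Γ n

attribute [instance] Pres.ring

/-- `BS() = R`. -/
noncomputable def presNil (K : Type) [Field K] : Pres K [] where
  C := Rg K
  σ := fun _ => RingHom.id _
  scal := fun _ _ => rfl
  compat := trivial
  e := AddEquiv.refl _
  e_left := fun _ _ => rfl
  e_right := fun f x => mul_comm x f
  e_one := rfl
  lift := fun A _ ρ _ _ => ⟨ρ 0, fun j hj f => by
    obtain rfl : j = 0 := by simpa using hj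
    rfl⟩
  gen := fun P h x => h 0 le_rfl x
  gr_mul := fun a b x y hx hy => by
    have hx' : (x : Rg K).IsHomogeneous a := hx
    have hy' : (y : Rg K).IsHomogeneous b := hy
    exact hx'.mul hy'
  gr_σ := fun j _ n f hf => hf
  gr_min := fun Γ _ h n x hx => h 0 le_rfl n x hx

section cons

variable (i : Fin 3) {C : Type} [CommRing C] [Algebra (Rg K) C] {M : Type} [AddCommGroup M]
  [Module (Rg K) M] (e : C ≃ₗ[Rg K] M)

/-- `R ⊗ C ≃ R ⊗ M`. -/
noncomputable def eCons : (Rg K ⊗[Inv K i] C) ≃+ Ind K i M :=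
  (TensorProduct.congr (LinearEquiv.refl (Inv K i) (Rg K))
    (e.restrictScalars (Inv K i))).toAddEquiv

theorem eCons_tmul (f : Rg K) (c : C) : eCons i e (f ⊗ₜ[Inv K i] c) = tm i f (e c) := rfl

theorem eCons_symm_tm (f : Rg K) (m : M) :
    (eCons i e).symm (tm i f m) = f ⊗ₜ[Inv K i] (e.symm m) := by
  rw [AddEquiv.symm_apply_eq, eCons_tmul, LinearEquiv.apply_symm_apply]

theorem eCons_left (f : Rg K) (x : Rg K ⊗[Inv K i] C) :
    eCons i e ((f ⊗ₜ[Inv K i] (1 : C)) * x) = f • eCons i e x := by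
  induction x using TensorProduct.induction_on with
  | zero => rw [mul_zero, map_zero, smul_zero]
  | add x y hx hy => rw [mul_add, map_add, map_add, smul_add, hx, hy]
  | tmul g c => rw [Algebra.TensorProduct.tmul_mul_tmul, one_mul, eCons_tmul, eCons_tmul, smul_tm]

theorem eCons_right (g : M →ₗ[Rg K] M) (d : C) (hd : ∀ c, e (c * d) = g (e c))
    (x : Rg K ⊗[Inv K i] C) :
    eCons i e (x * ((1 : Rg K) ⊗ₜ[Inv K i] d)) = bc i g (eCons i e x) := by
  induction x using TensorProduct.induction_on with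
  | zero => rw [zero_mul, map_zero, map_zero]
  | add x y hx hy => rw [add_mul, map_add, map_add, map_add, hx, hy]
  | tmul h c =>
    rw [Algebra.TensorProduct.tmul_mul_tmul, mul_one, eCons_tmul, eCons_tmul, bc_tm, hd]

/-- the graded pieces of `R ⊗ M` -/
noncomputable def grCons (G : ℕ → AddSubgroup M) (n : ℕ) : AddSubgroup (Ind K i M) :=
  AddSubgroup.closure {x | ∃ (a b : ℕ) (f : Rg K) (m : M), f.IsHomogeneous a ∧ m ∈ G b ∧
    a + b = n ∧ x = tm i f m}

theorem grCons_mul (G : ℕ → AddSubgroup M)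
    (hG : ∀ a b (x y : C), e x ∈ G a → e y ∈ G b → e (x * y) ∈ G (a + b)) (a b : ℕ)
    (x y : Rg K ⊗[Inv K i] C) (hx : eCons i e x ∈ grCons i G a)
    (hy : eCons i e y ∈ grCons i G b) : eCons i e (x * y) ∈ grCons i G (a + b) := by
  have key : ∀ X ∈ grCons i G a, ∀ Y ∈ grCons i G b,
      eCons i e ((eCons i e).symm X * (eCons i e).symm Y) ∈ grCons i G (a + b) := by
    intro X hX Y hY
    induction hX using AddSubgroup.closure_induction with
    | zero => rw [map_zero, zero_mul, map_zero]; exact zero_mem _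
    | add X X' _ _ h h' => rw [map_add, add_mul, map_add]; exact add_mem h h'
    | neg X _ h =>
      have h2 : eCons i e ((eCons i e).symm (-X) * (eCons i e).symm Y) =
          -(eCons i e ((eCons i e).symm X * (eCons i e).symm Y)) := by
        rw [map_neg (eCons i e).symm X]
        exact (congrArg (eCons i e) (neg_mul ((eCons i e).symm X)
          ((eCons i e).symm Y))).trans (map_neg (eCons i e) _)
      rw [h2]; exact neg_mem h
    | mem X hX =>
      obtain ⟨a1, a2, f, m, hf, hm, ha, rfl⟩ := hX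
      induction hY using AddSubgroup.closure_induction with
      | zero => rw [map_zero, mul_zero, map_zero]; exact zero_mem _
      | add Y Y' _ _ h h' => rw [map_add, mul_add, map_add]; exact add_mem h h'
      | neg Y _ h =>
        have h2 : eCons i e ((eCons i e).symm (tm i f m) * (eCons i e).symm (-Y)) =
            -(eCons i e ((eCons i e).symm (tm i f m) * (eCons i e).symm Y)) := by
          rw [map_neg (eCons i e).symm Y]
          exact (congrArg (eCons i e) (mul_neg ((eCons i e).symm (tm i f m))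
            ((eCons i e).symm Y))).trans (map_neg (eCons i e) _)
        rw [h2]; exact neg_mem h
      | mem Y hY =>
        obtain ⟨b1, b2, g, m', hg, hm', hb, rfl⟩ := hY
        apply AddSubgroup.subset_closure
        refine ⟨a1 + b1, a2 + b2, f * g, e (e.symm m * e.symm m'), hf.mul hg, ?_, by omega, ?_⟩
        · apply hG <;> rwa [LinearEquiv.apply_symm_apply]
        · rw [eCons_symm_tm, eCons_symm_tm, Algebra.TensorProduct.tmul_mul_tmul, eCons_tmul]
  have := key _ hx _ hy
  rwa [AddEquiv.symm_apply_apply, AddEquiv.symm_apply_apply] at this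

theorem grCons_min (G : ℕ → AddSubgroup M) (Γ : ℕ → AddSubgroup (Rg K ⊗[Inv K i] C))
    (hΓ : ∀ a b x y, x ∈ Γ a → y ∈ Γ b → x * y ∈ Γ (a + b))
    (h0 : ∀ n, ∀ f : Rg K, f.IsHomogeneous n → (f ⊗ₜ[Inv K i] (1 : C)) ∈ Γ n)
    (h1 : ∀ n, ∀ c : C, e c ∈ G n → ((1 : Rg K) ⊗ₜ[Inv K i] c) ∈ Γ n)
    (n : ℕ) (x : Rg K ⊗[Inv K i] C) (hx : eCons i e x ∈ grCons i G n) : x ∈ Γ n := by
  have key : ∀ X ∈ grCons i G n, (eCons i e).symm X ∈ Γ n := by
    intro X hX
    induction hX using AddSubgroup.closure_induction with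
    | zero => rw [map_zero]; exact zero_mem _
    | add X X' _ _ h h' => rw [map_add]; exact add_mem h h'
    | neg X _ h => rw [map_neg]; exact neg_mem h
    | mem X hX =>
      obtain ⟨a1, a2, f, m, hf, hm, rfl, rfl⟩ := hX
      have h2 := hΓ a1 a2 _ _ (h0 a1 f hf) (h1 a2 (e.symm m) (by
        rwa [LinearEquiv.apply_symm_apply]))
      rwa [Algebra.TensorProduct.tmul_mul_tmul, mul_one, one_mul] at h2
  have := key _ hx
  rwa [AddEquiv.symm_apply_apply] at this

end cons

section lift

variable (i : Fin 3) {C : Type} [CommRing C] [Algebra (Rg K) C] {A : Type} [CommRing A]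

theorem exists_lift (ρ : Rg K →+* A) (Θ : C →+* A)
    (h : ∀ f, refl K i f = f → ρ f = Θ (algebraMap (Rg K) C f)) :
    ∃ Ψ : (Rg K ⊗[Inv K i] C) →+* A, (∀ f, Ψ (f ⊗ₜ[Inv K i] (1 : C)) = ρ f) ∧
      ∀ c, Ψ ((1 : Rg K) ⊗ₜ[Inv K i] c) = Θ c := by
  let _ : Algebra (Rg K) A := ρ.toAlgebra
  let a1 : Rg K →ₐ[Inv K i] A := { ρ with commutes' := fun g => rfl }
  let a2 : C →ₐ[Inv K i] A := { Θ with commutes' := fun g => (h g.1 g.2).symm }
  refine ⟨(Algebra.TensorProduct.productMap a1 a2).toRingHom, fun f => ?_, fun c => ?_⟩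
  · exact (Algebra.TensorProduct.productMap_left_apply a1 a2 f)
  · exact (Algebra.TensorProduct.productMap_right_apply a1 a2 c)

end lift

/-- `BS(i, w) = R ⊗_{R^i} BS(w)`. -/
noncomputable def presCons (i : Fin 3) {w : List (Fin 3)} (P : Pres K w) : Pres K (i :: w) :=
  letI : Algebra (Rg K) P.C := (P.σ 0).toAlgebra
  let e : P.C ≃ₗ[Rg K] (BS K w).carrier :=
    { P.e with map_smul' := fun f x => P.e_left f x }
  { C := Rg K ⊗[Inv K i] P.C
    σ := fun j => match j with
      | 0 => (Algebra.TensorProduct.includeLeftRingHom : Rg K →+* Rg K ⊗[Inv K i] P.C)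
      | j + 1 => (Algebra.TensorProduct.includeRight :
          P.C →ₐ[Inv K i] Rg K ⊗[Inv K i] P.C).toRingHom.comp (P.σ j)
    scal := fun j c => by
      cases j with
      | zero => rfl
      | succ j =>
        have h : ((1 : Rg K) ⊗ₜ[Inv K i] (P.σ 0 (MvPolynomial.C c)) : Rg K ⊗[Inv K i] P.C) =
            (MvPolynomial.C c : Rg K) ⊗ₜ[Inv K i] (1 : P.C) := by
          have h := TensorProduct.smul_tmul (R := Inv K i)
            (⟨MvPolynomial.C c, (refl K i).commutes c⟩ : Inv K i) (1 : Rg K) (1 : P.C)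
          have h1 : ((⟨MvPolynomial.C c, (refl K i).commutes c⟩ : Inv K i) • (1 : Rg K)) =
              MvPolynomial.C c := mul_one _
          have h2 : ((⟨MvPolynomial.C c, (refl K i).commutes c⟩ : Inv K i) • (1 : P.C)) =
              P.σ 0 (MvPolynomial.C c) := mul_one _
          rw [h1, h2] at h
          exact h.symm
        have h2 : (1 : Rg K) ⊗ₜ[Inv K i] (P.σ j (MvPolynomial.C c)) =
            (MvPolynomial.C c : Rg K) ⊗ₜ[Inv K i] (1 : P.C) := by rw [P.scal j c, h]
        exact h2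
    compat := by
      refine ⟨fun f hf => ?_, ?_⟩
      · have h := TensorProduct.smul_tmul (R := Inv K i) (⟨f, hf⟩ : Inv K i) (1 : Rg K) (1 : P.C)
        have h1 : ((⟨f, hf⟩ : Inv K i) • (1 : Rg K)) = f := mul_one _
        have h2 : ((⟨f, hf⟩ : Inv K i) • (1 : P.C)) = P.σ 0 f := mul_one _
        rw [h1, h2] at h
        exact h
      · have h := P.compat
        rw [compat_iff] at h ⊢
        intro j hj f hf
        have := congrArg (fun z => (1 : Rg K) ⊗ₜ[Inv K i] z) (h j hj f hf)
        exact this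
    e := eCons i e
    e_left := fun f x => eCons_left i e f x
    e_right := fun f x => eCons_right i e _ _ (fun c => P.e_right f c) x
    e_one := by
      have h : eCons i e ((1 : Rg K) ⊗ₜ[Inv K i] (1 : P.C)) = tm i 1 (BS K w).bot := by
        rw [eCons_tmul]
        exact congrArg (tm i 1) P.e_one
      exact h
    lift := fun A _ ρ hρ hc => by
      obtain ⟨Θ, hΘ⟩ := P.lift A (fun j => ρ (j + 1)) (fun j c => by
        rw [hρ (j + 1), hρ (0 + 1)]) hc.2
      obtain ⟨Ψ, h0, h1⟩ := exists_lift i (C := P.C) (ρ 0) Θ (fun f hf => by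
        have := hΘ 0 (Nat.zero_le _) f
        exact (hc.1 f hf).trans this.symm)
      refine ⟨Ψ, fun j hj f => ?_⟩
      cases j with
      | zero => exact h0 f
      | succ j => exact (h1 _).trans (hΘ j (by simpa using hj) f)
    gen := fun S hS x => by
      have h0 : ∀ f : Rg K, f ⊗ₜ[Inv K i] (1 : P.C) ∈ S := fun f => hS 0 (Nat.zero_le _) f
      have h1 : ∀ c : P.C, (1 : Rg K) ⊗ₜ[Inv K i] c ∈ S := by
        intro c
        refine P.gen (S.comap (Algebra.TensorProduct.includeRight :
          P.C →ₐ[Inv K i] Rg K ⊗[Inv K i] P.C).toRingHom) (fun j hj f => ?_) c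
        exact hS (j + 1) (by simpa using hj) f
      induction x using TensorProduct.induction_on with
      | zero => exact zero_mem _
      | add x y hx hy => exact add_mem hx hy
      | tmul f c =>
        have := mul_mem (h0 f) (h1 c)
        rwa [Algebra.TensorProduct.tmul_mul_tmul, mul_one, one_mul] at this
    gr_mul := fun a b x y hx hy => grCons_mul i e _ (fun a b x y hx hy => P.gr_mul a b x y hx hy)
      a b x y hx hy
    gr_σ := fun j hj n f hf => by
      cases j with
      | zero =>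
        apply AddSubgroup.subset_closure
        refine ⟨n, 0, f, (BS K w).bot, hf, ?_, rfl, ?_⟩
        · have h := P.gr_σ 0 (Nat.zero_le _) 0 1 (isHomogeneous_one _ _)
          rw [map_one, P.e_one] at h
          exact h
        · have h : eCons i e (f ⊗ₜ[Inv K i] (1 : P.C)) = tm i f (BS K w).bot := by
            rw [eCons_tmul]
            exact congrArg (tm i f) P.e_one
          exact h
      | succ j =>
        apply AddSubgroup.subset_closure
        exact ⟨0, n, 1, P.e (P.σ j f), isHomogeneous_one _ _,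
          P.gr_σ j (by simpa using hj) n f hf, zero_add n, rfl⟩
    gr_min := fun Γ hΓ h n x hx => grCons_min i e (BS K w).gr Γ hΓ
      (fun n f hf => h 0 (Nat.zero_le _) n f hf) (fun n c hc => by
        refine P.gr_min (fun n => (Γ n).comap (Algebra.TensorProduct.includeRight :
          P.C →ₐ[Inv K i] Rg K ⊗[Inv K i] P.C).toRingHom.toAddMonoidHom) ?_ ?_ n c hc
        · intro a b x y hx hy
          have h2 := hΓ a b _ _ hx hy
          have h3 := (Algebra.TensorProduct.includeRight :
            P.C →ₐ[Inv K i] Rg K ⊗[Inv K i] P.C).toRingHom.map_mul x y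
          rw [AddSubgroup.mem_comap]
          exact (congrArg (· ∈ Γ (a + b)) h3).mpr h2
        · intro j hj n f hf
          exact h (j + 1) (by simpa using hj) n f hf) n x hx }

/-- Every `BS(w)` is a commutative ring with the universal property. -/
noncomputable def pres (K : Type) [Field K] : (w : List (Fin 3)) → Pres K w
  | [] => presNil K
  | i :: w => presCons i (pres K w)

theorem Pres.σ_zero_homog {w : List (Fin 3)} (P : Pres K w) (c : K) :
    P.e (P.σ 0 (MvPolynomial.C c)) ∈ (BS K w).gr 0 :=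
  P.gr_σ 0 (Nat.zero_le _) 0 _ (isHomogeneous_C _ _)

section main

variable {k : ℕ} (w : Fin k → Fin 3)

theorem st_refl (i : Fin 3) (f : Rg K) : St.refl K i f = refl K i f := by
  fin_cases i <;> rfl

/-- The ring homomorphism from polynomials to `BS(w)`. -/
noncomputable def toC (P : Pres K (List.ofFn w)) : MvPolynomial (Fin (k + 1) × Fin 3) K →+* P.C :=
  eval₂Hom ((P.σ 0).comp MvPolynomial.C) (fun z => P.σ z.1 (X z.2))

theorem toC_rename (P : Pres K (List.ofFn w)) (j : Fin (k + 1)) (f : Rg K) :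
    toC w P (rename (Prod.mk j) f) = P.σ j f := by
  have h : (toC w P).comp (rename (Prod.mk j) : Rg K →ₐ[K] _).toRingHom = P.σ j := by
    apply MvPolynomial.ringHom_ext
    · intro c
      have h1 : (rename (Prod.mk j) : Rg K →ₐ[K] MvPolynomial (Fin (k + 1) × Fin 3) K)
          (MvPolynomial.C c) = MvPolynomial.C c := rename_C _ _
      have h2 : toC w P (MvPolynomial.C c) = P.σ 0 (MvPolynomial.C c) := eval₂Hom_C _ _ _
      exact (congrArg (toC w P) h1).trans (h2.trans (P.scal j c).symm)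
    · intro a
      have h1 : (rename (Prod.mk j) : Rg K →ₐ[K] MvPolynomial (Fin (k + 1) × Fin 3) K)
          (X a) = X (j, a) := rename_X _ _
      exact (congrArg (toC w P) h1).trans (eval₂Hom_X' _ _ _)
  exact congrArg (fun φ => φ f) h

theorem toC_surj (P : Pres K (List.ofFn w)) : Function.Surjective (toC w P) := by
  intro x
  refine P.gen (toC w P).range (fun j hj f => ?_) x
  rw [List.length_ofFn] at hj
  exact ⟨rename (Prod.mk (⟨j, Nat.lt_succ_of_le hj⟩ : Fin (k + 1))) f, toC_rename w P _ f⟩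

theorem toC_homog (P : Pres K (List.ofFn w)) (n : ℕ) (q : MvPolynomial (Fin (k + 1) × Fin 3) K)
    (hq : q.IsHomogeneous n) : P.e (toC w P q) ∈ (BS K (List.ofFn w)).gr n := by
  have key : ∀ (d : Fin (k + 1) × Fin 3 →₀ ℕ) (c : K), ∃ n,
      (monomial d c : MvPolynomial (Fin (k + 1) × Fin 3) K).IsHomogeneous n ∧
      P.e (toC w P (monomial d c)) ∈ (BS K (List.ofFn w)).gr n := by
    intro d c
    refine MvPolynomial.induction_on_monomial (motive := fun p => ∃ n,
      p.IsHomogeneous n ∧ P.e (toC w P p) ∈ (BS K (List.ofFn w)).gr n) ?_ ?_ d c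
    · intro a
      refine ⟨0, isHomogeneous_C _ _, ?_⟩
      have h2 : toC w P (MvPolynomial.C a) = P.σ 0 (MvPolynomial.C a) := eval₂Hom_C _ _ _
      rw [h2]
      exact P.σ_zero_homog a
    · rintro p ⟨j, a⟩ ⟨n, hn, hp⟩
      refine ⟨n + 1, hn.mul (isHomogeneous_X _ _), ?_⟩
      rw [map_mul]
      refine P.gr_mul _ _ _ _ hp ?_
      have h2 : toC w P (X (j, a)) = P.σ j (X a) := eval₂Hom_X' _ _ _
      rw [h2]
      refine P.gr_σ j ?_ 1 _ (isHomogeneous_X _ _)
      rw [List.length_ofFn]
      exact Nat.lt_succ_iff.mp j.2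
  rw [q.as_sum, map_sum, map_sum]
  refine sum_mem fun d hd => ?_
  obtain ⟨n', h1, h2⟩ := key d (coeff d q)
  have h3 : (monomial d (coeff d q) : MvPolynomial (Fin (k + 1) × Fin 3) K).IsHomogeneous n := by
    refine isHomogeneous_monomial _ ?_
    have := hq (mem_support_iff.mp hd)
    rwa [Finsupp.degree_eq_weight_one]
  have h4 : (monomial d (coeff d q) : MvPolynomial (Fin (k + 1) × Fin 3) K) ≠ 0 := by
    rw [Ne, monomial_eq_zero]
    exact mem_support_iff.mp hd
  rwa [h3.inj_right h1 h4]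

theorem compat_of_isBS {A : Type} [CommRing A] (π : MvPolynomial (Fin (k + 1) × Fin 3) K →+* A)
    (h : St.IsBS w π) (ρ : ℕ → Rg K →+* A)
    (hρ : ∀ (j : Fin (k + 1)) f, ρ j f = π (rename (Prod.mk j) f)) : Compat (List.ofFn w) ρ := by
  rw [compat_iff]
  intro j hj f hf
  rw [List.length_ofFn] at hj
  rw [List.getElem_ofFn] at hf
  have h1 : (rename (Prod.mk (⟨j, hj⟩ : Fin k).castSucc) f -
      rename (Prod.mk (⟨j, hj⟩ : Fin k).succ) f : MvPolynomial (Fin (k + 1) × Fin 3) K) ∈
      RingHom.ker π := by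
    rw [h.ker]
    exact Ideal.subset_span ⟨⟨j, hj⟩, f, (st_refl _ f).trans hf, rfl⟩
  rw [RingHom.mem_ker, map_sub, sub_eq_zero, ← hρ, ← hρ] at h1
  exact h1

/-- **The two descriptions agree**. -/
theorem exists_iso {A : Type} [CommRing A] (π : MvPolynomial (Fin (k + 1) × Fin 3) K →+* A)
    (h : St.IsBS w π) : ∃ T : A ≃+ (BS K (List.ofFn w)).carrier,
      (∀ f a, T (π (rename (Prod.mk 0) f) * a) = f • T a) ∧
      (∀ f a, T (a * π (rename (Prod.mk (Fin.last k)) f)) =
        (BS K (List.ofFn w)).right f (T a)) ∧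
      T 1 = (BS K (List.ofFn w)).bot ∧
      (∀ n q, q.IsHomogeneous n → T (π q) ∈ (BS K (List.ofFn w)).gr n) ∧
      (∀ n, ∀ m ∈ (BS K (List.ofFn w)).gr n, ∃ q, q.IsHomogeneous n ∧ T.symm m = π q) := by
  let P := pres K (List.ofFn w)
  let ρ : ℕ → Rg K →+* A := fun j =>
    π.comp (rename (Prod.mk (⟨min j k, by omega⟩ : Fin (k + 1))) :
      Rg K →ₐ[K] MvPolynomial (Fin (k + 1) × Fin 3) K).toRingHom
  have hρ : ∀ (j : Fin (k + 1)) f, ρ j f = π (rename (Prod.mk j) f) := by
    intro j f
    have : (⟨min j k, by omega⟩ : Fin (k + 1)) = j := by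
      ext
      simp only
      omega
    simp only [ρ, this]
    rfl
  obtain ⟨Θ, hΘ⟩ := P.lift A ρ (fun j c => by
    have h1 : ∀ l : Fin (k + 1), (rename (Prod.mk l) : Rg K →ₐ[K]
      MvPolynomial (Fin (k + 1) × Fin 3) K) (MvPolynomial.C c) = MvPolynomial.C c :=
      fun l => rename_C _ _
    exact (congrArg π (h1 _)).trans (congrArg π (h1 _)).symm) (compat_of_isBS w π h ρ hρ)
  have hΘ' : ∀ (j : Fin (k + 1)) f, Θ (P.σ j f) = π (rename (Prod.mk j) f) := fun j f =>
    (hΘ j (by rw [List.length_ofFn]; exact Nat.lt_succ_iff.mp j.2) f).trans (hρ j f)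
  have hΘπ : ∀ q, Θ (toC w P q) = π q := by
    have : Θ.comp (toC w P) = π := by
      apply MvPolynomial.ringHom_ext
      · intro c
        have h2 : toC w P (MvPolynomial.C c) = P.σ 0 (MvPolynomial.C c) := eval₂Hom_C _ _ _
        have h1 : (rename (Prod.mk 0) : Rg K →ₐ[K]
          MvPolynomial (Fin (k + 1) × Fin 3) K) (MvPolynomial.C c) = MvPolynomial.C c :=
          rename_C _ _
        exact (congrArg Θ h2).trans ((hΘ' 0 _).trans (congrArg π h1))
      · rintro ⟨j, a⟩
        have h2 : toC w P (X (j, a)) = P.σ j (X a) := eval₂Hom_X' _ _ _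
        have h1 : (rename (Prod.mk j) : Rg K →ₐ[K] MvPolynomial (Fin (k + 1) × Fin 3) K)
          (X a) = X (j, a) := rename_X _ _
        exact (congrArg Θ h2).trans ((hΘ' j _).trans (congrArg π h1))
    intro q
    exact congrArg (fun φ => φ q) this
  have hker : ∀ q, π q = 0 → toC w P q = 0 := by
    intro q hq
    have h1 : RingHom.ker π ≤ RingHom.ker (toC w P) := by
      rw [h.ker, Ideal.span_le]
      rintro _ ⟨j, f, hf, rfl⟩
      rw [SetLike.mem_coe, RingHom.mem_ker, map_sub, sub_eq_zero, toC_rename, toC_rename]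
      have h2 := (compat_iff _ _).mp P.compat j (by rw [List.length_ofFn]; exact j.2) f (by
        rw [List.getElem_ofFn]
        exact (st_refl _ f).symm.trans hf)
      exact h2
    exact h1 hq
  have hbij : Function.Bijective Θ := by
    constructor
    · rw [injective_iff_map_eq_zero]
      intro x hx
      obtain ⟨q, rfl⟩ := toC_surj w P x
      rw [hΘπ] at hx
      exact hker q hx
    · intro a
      obtain ⟨q, rfl⟩ := h.surj a
      exact ⟨toC w P q, hΘπ q⟩
  let E := RingEquiv.ofBijective Θ hbij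
  have hE : ∀ x, E.symm (Θ x) = x := fun x => E.symm_apply_apply x
  have hE' : ∀ q, E.symm (π q) = toC w P q := fun q => by rw [← hΘπ, hE]
  refine ⟨E.symm.toAddEquiv.trans P.e, ?_, ?_, ?_, ?_, ?_⟩
  · intro f a
    have h1 : E.symm (π (rename (Prod.mk 0) f) * a) = P.σ 0 f * E.symm a := by
      rw [map_mul, hE', toC_rename]
      rfl
    exact (congrArg P.e h1).trans (P.e_left f _)
  · intro f a
    have h1 : E.symm (a * π (rename (Prod.mk (Fin.last k)) f)) =
        E.symm a * P.σ (List.ofFn w).length f := by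
      rw [map_mul, hE', toC_rename, List.length_ofFn]
      rfl
    exact (congrArg P.e h1).trans (P.e_right f _)
  · exact (congrArg P.e (map_one E.symm)).trans P.e_one
  · intro n q hq
    exact (congrArg (fun z => P.e z ∈ (BS K (List.ofFn w)).gr n) (hE' q)).mpr
      (toC_homog w P n q hq)
  · intro n m hm
    let Γ : ℕ → AddSubgroup P.C := fun n =>
      (homogeneousSubmodule (Fin (k + 1) × Fin 3) K n).toAddSubgroup.map (toC w P).toAddMonoidHom
    have hm' : P.e (P.e.symm m) ∈ (BS K (List.ofFn w)).gr n := by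
      rwa [AddEquiv.apply_symm_apply]
    have h1 := P.gr_min Γ (by
      rintro a b _ _ ⟨p, hp, rfl⟩ ⟨q, hq, rfl⟩
      exact ⟨p * q, IsHomogeneous.mul hp hq, map_mul (toC w P) p q⟩) (by
      intro j hj n f hf
      rw [List.length_ofFn] at hj
      exact ⟨rename (Prod.mk (⟨j, Nat.lt_succ_of_le hj⟩ : Fin (k + 1))) f,
        hf.rename_isHomogeneous, toC_rename w P _ f⟩) n (P.e.symm m) hm'
    obtain ⟨q, hq, h2⟩ := h1
    refine ⟨q, hq, ?_⟩
    have h3 : E.symm.toAddEquiv (π q) = P.e.symm m := (hE' q).trans h2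
    rw [AddEquiv.symm_apply_eq]
    exact (AddEquiv.symm_apply_eq P.e).mp h3.symm

end main

end Pool.Agent.Lib.FSB
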