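import Pool.Agent.Lib.FSB.Rank

/-!
# Rank bounds on the common kernel, continued
-/

set_option autoImplicit false

open MvPolynomial TensorProduct

namespace Pool.Agent.Lib.FSB

variable {K : Type} [Field K]

/-- `x` lies in the common kernel of `e_L`, `e_R`, `e_S`. -/
def InKer [CharZero K] (x : (BS K dW).carrier) : Prop := eL x = 0 ∧ eR x = 0 ∧ eS x = 0

theorem InKer.add_smul [CharZero K] {x y : (BS K dW).carrier} (hx : InKer x) (hy : InKer y)
    (a b : Rg K) : InKer (a • x + b • y) := by
  refine ⟨?_, ?_, ?_⟩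
  · rw [map_add, map_smul, map_smul, hx.1, hy.1, smul_zero, smul_zero, add_zero]
  · rw [map_add, map_smul, map_smul, hx.2.1, hy.2.1, smul_zero, smul_zero, add_zero]
  · rw [map_add, map_smul, map_smul, hx.2.2, hy.2.2, smul_zero, smul_zero, add_zero]

theorem Lab.add_smul {X : Bimod K} {g : Rg K ≃ₐ[K] Rg K} {x y : X.carrier} (hx : Lab X g x)
    (hy : Lab X g y) (a b : Rg K) : Lab X g (a • x + b • y) := by
  intro f
  rw [map_add, map_smul, map_smul, hx f, hy f, smul_add, smul_comm a, smul_comm b]

theorem ev_inj6 [CharZero K] (x : (BS K dW).carrier)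
    (h : ∀ b1 b2 b3 b4 b5 b6 : Bool, ev dW [b1, b2, b3, b4, b5, b6] x = 0) : x = 0 := by
  apply ev_inj dW x
  intro b hb
  match b, hb with
  | [b1, b2, b3, b4, b5, b6], _ => exact h b1 b2 b3 b4 b5 b6

/-- an element of the common kernel with label `t` is determined by one coordinate -/
theorem ker_t [CharZero K] {x : (BS K dW).carrier} (hx : Lab (BS K dW).toBimod (refl K 1) x)
    (hk : InKer x) (h : ev dW [false, true, false, false, false, false] x = 0) : x = 0 := by
  apply ev_inj6
  intro b1 b2 b3 b4 b5 b6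
  by_cases hb : labP dW [b1, b2, b3, b4, b5, b6] = labP [1] [true]
  · have h2 := labP_t b1 b2 b3 b4 b5 b6 hb
    have e3 := rel_t hx hk.1 hk.2.1 hk.2.2
    have e2 := eR_rel false true false false x hk.2.1
    have e4 := eL_rel false false true false x hk.1
    simp only [Bool.not_false] at e2 e4
    rw [h] at e3 e2
    rw [e3] at e4
    simp only [List.mem_cons, List.not_mem_nil, or_false] at h2
    rcases h2 with h2 | h2 | h2 | h2 <;> rw [h2]
    · exact h
    · exact e2.symm
    · exact e3
    · exact e4.symm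
  · exact ev_eq_zero hx _ (lab_ne_of dW [1] _ [true] hb)

/-- an element of the common kernel with label `u` is determined by one coordinate -/
theorem ker_u [CharZero K] {x : (BS K dW).carrier} (hx : Lab (BS K dW).toBimod (refl K 2) x)
    (hk : InKer x) (h : ev dW [false, false, false, true, false, false] x = 0) : x = 0 := by
  apply ev_inj6
  intro b1 b2 b3 b4 b5 b6
  by_cases hb : labP dW [b1, b2, b3, b4, b5, b6] = labP [2] [true]
  · have h2 := labP_u b1 b2 b3 b4 b5 b6 hb
    have e2 := eR_rel false false false true x hk.2.1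
    have e3 := eL_rel true true false true x hk.1
    have e4 := eL_rel false true false false x hk.1
    simp only [Bool.not_false, Bool.not_true] at e2 e3 e4
    rw [h] at e2 e4
    rw [← e2] at e3
    simp only [List.mem_cons, List.not_mem_nil, or_false] at h2
    rcases h2 with h2 | h2 | h2 | h2 <;> rw [h2]
    · exact h
    · exact e2.symm
    · exact e3.symm
    · exact e4.symm
  · exact ev_eq_zero hx _ (lab_ne_of dW [2] _ [true] hb)

/-- an element of the common kernel with label `1` is determined by two coordinates -/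
theorem ker_e [CharZero K] {x : (BS K dW).carrier} (hx : Lab (BS K dW).toBimod 1 x)
    (hk : InKer x) (h : ev dW [false, false, false, false, false, false] x = 0)
    (h' : ev dW [true, true, false, false, true, true] x = 0) : x = 0 := by
  apply ev_inj6
  intro b1 b2 b3 b4 b5 b6
  by_cases hb : labP dW [b1, b2, b3, b4, b5, b6] = labP [] []
  · have h2 := labP_e b1 b2 b3 b4 b5 b6 hb
    have e2 := eR_rel false false false false x hk.2.1
    have e3 := eL_rel true false false true x hk.1
    have e4 := eL_rel false false false false x hk.1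
    simp only [Bool.not_false, Bool.not_true] at e2 e3 e4
    rw [h] at e2 e4
    rw [← e2] at e3
    have e5 := rel_e hx hk.1 hk.2.1 hk.2.2
    rw [h, h', mul_zero, mul_zero, sub_zero] at e5
    have e5' := (mul_eq_zero.mp e5).resolve_left (mul_ne_zero X_add_ne_zero X_add_ne_zero)
    simp only [List.mem_cons, List.not_mem_nil, or_false] at h2
    rcases h2 with h2 | h2 | h2 | h2 | h2 | h2 <;> rw [h2]
    · exact h
    · exact e2.symm
    · exact e3.symm
    · exact e4.symm
    · exact e5'
    · exact h'
  · exact ev_eq_zero hx _ (lab_ne_of dW [] _ [] hb)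

theorem rank_one {X : Bimod K} (S : X.carrier → Prop) (F : X.carrier →ₗ[Rg K] Rg K)
    (hS : ∀ x y, S x → S y → ∀ a b : Rg K, S (a • x + b • y))
    (hF : ∀ x, S x → F x = 0 → x = 0) (x y : X.carrier) (hx : S x) (hy : S y) :
    ∃ a b : Rg K, (a ≠ 0 ∨ b ≠ 0) ∧ a • x + b • y = 0 := by
  by_cases h : F x = 0
  · exact ⟨1, 0, Or.inl one_ne_zero, by rw [hF x hx h, smul_zero, zero_smul, add_zero]⟩
  · refine ⟨F y, -F x, Or.inr (neg_ne_zero.mpr h), hF _ (hS x y hx hy _ _) ?_⟩
    rw [map_add, map_smul, map_smul]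
    simp only [smul_eq_mul]
    ring

theorem rank_two {X : Bimod K} (S : X.carrier → Prop) (F G : X.carrier →ₗ[Rg K] Rg K)
    (hS : ∀ x y, S x → S y → ∀ a b : Rg K, S (a • x + b • y))
    (hF : ∀ x, S x → F x = 0 → G x = 0 → x = 0) (x y z : X.carrier) (hx : S x) (hy : S y)
    (hz : S z) : ∃ a b c : Rg K, (a ≠ 0 ∨ b ≠ 0 ∨ c ≠ 0) ∧ a • x + b • y + c • z = 0 := by
  obtain ⟨v, hv, hv2⟩ := Matrix.exists_vecMul_eq_zero_iff.mpr
    (show (!![F x, G x, 0; F y, G y, 0; F z, G z, 0] : Matrix (Fin 3) (Fin 3) (Rg K)).det = 0 by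
      rw [Matrix.det_fin_three]; simp)
  refine ⟨v 0, v 1, v 2, ?_, ?_⟩
  · by_contra h
    push_neg at h
    apply hv
    funext i
    fin_cases i
    · exact h.1
    · exact h.2.1
    · exact h.2.2
  · have h0 := congrFun hv2 0
    have h1 := congrFun hv2 1
    simp [Matrix.vecMul, dotProduct, Fin.sum_univ_three] at h0 h1
    have hS2 : S (v 0 • x + v 1 • y + v 2 • z) := by
      have := hS _ _ (hS x y hx hy (v 0) (v 1)) hz 1 (v 2)
      rwa [one_smul] at this
    apply hF _ hS2
    · rw [map_add, map_add, map_smul, map_smul, map_smul]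
      exact h0
    · rw [map_add, map_add, map_smul, map_smul, map_smul]
      exact h1

/-- The projection to the common kernel. -/
noncomputable def pY [CharZero K] : (BS K dW).carrier →ₗ[Rg K] (BS K dW).carrier :=
  (LinearMap.id - eL).comp ((LinearMap.id - eR).comp (LinearMap.id - eS))

theorem pY_apply [CharZero K] (x : (BS K dW).carrier) :
    pY x = (x - eS x) - eR (x - eS x) - eL ((x - eS x) - eR (x - eS x)) := rfl

theorem pY_inKer [CharZero K] (x : (BS K dW).carrier) : InKer (pY x) := by
  rw [pY_apply]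
  have h1 : eS (x - eS x) = 0 := by rw [map_sub, eS_eS, sub_self]
  have h2 : ∀ y : (BS K dW).carrier, eR (y - eR y) = 0 := by
    intro y; rw [map_sub, eR_eR, sub_self]
  have h3 : ∀ y : (BS K dW).carrier, eL (y - eL y) = 0 := by
    intro y; rw [map_sub, eL_eL, sub_self]
  refine ⟨h3 _, ?_, ?_⟩
  · rw [map_sub, h2, ← eL_eR, h2, map_zero, sub_zero]
  · rw [map_sub, map_sub, h1, eS_eR, eS_eL, sub_zero, sub_zero]

theorem pY_right [CharZero K] (f : Rg K) (x : (BS K dW).carrier) :
    pY ((BS K dW).right f x) = (BS K dW).right f (pY x) := by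
  rw [pY_apply, pY_apply]
  simp only [map_sub, eS_right, eL_grEnd.right, eR_grEnd.right]

/-- `1 - pY` is a graded endomorphism killing `bot` -/
theorem pY_grEnd [CharZero K] : IsGrEnd (BS K dW) (LinearMap.id - pY) where
  right f m := by
    rw [LinearMap.sub_apply, LinearMap.sub_apply, pY_right, map_sub]
    rfl
  deg n m hm := by
    have h1 : m - eS m ∈ (BS K dW).gr n := sub_mem hm (eS_grEnd.deg n m hm)
    have h2 : (m - eS m) - eR (m - eS m) ∈ (BS K dW).gr n := sub_mem h1 (eR_grEnd.deg n _ h1)
    have h3 : pY m ∈ (BS K dW).gr n := by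
      rw [pY_apply]
      exact sub_mem h2 (eL_grEnd.deg n _ h2)
    exact sub_mem hm h3

theorem pY_bot [CharZero K] :
    ((LinearMap.id - pY : (BS K dW).carrier →ₗ[Rg K] (BS K dW).carrier)) (BS K dW).bot = 0 := by
  rw [LinearMap.sub_apply, pY_apply, eS_bot, sub_zero, eR_bot, sub_zero, eL_bot, sub_zero]
  exact sub_self _

end Pool.Agent.Lib.FSB
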