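import Pool.Agent.Lib.FSB.ES4

/-!
# Labels as signed permutations
-/

set_option autoImplicit false

open MvPolynomial TensorProduct

namespace Pool.Agent.Lib.FSB

variable {K : Type} [Field K]

/-- `(k, s)` stands for `x_k` (`s = false`) or `-x_k` (`s = true`). -/
noncomputable def val (p : Fin 3 × Bool) : Rg K := if p.2 then -X p.1 else X p.1

/-- action of the simple reflections on `±x_k` -/
def rp : Fin 3 → Fin 3 × Bool → Fin 3 × Bool
  | 0, (0, s) => (0, !s)
  | 0, (1, s) => (1, s)
  | 0, (2, s) => (2, s)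
  | 1, (0, s) => (1, s)
  | 1, (1, s) => (0, s)
  | 1, (2, s) => (2, s)
  | 2, (0, s) => (0, s)
  | 2, (1, s) => (2, s)
  | 2, (2, s) => (1, s)

theorem refl_val (i : Fin 3) (p : Fin 3 × Bool) : refl K i (val p) = val (rp i p) := by
  obtain ⟨k, s⟩ := p
  have h : ∀ (i k : Fin 3) (s : Bool), refl K i (val (k, s)) = val (rp i (k, s)) := by
    intro i k s
    fin_cases i <;> fin_cases k <;> cases s <;> simp [val, rp]
  exact h i k s

/-- the signed permutation of a label -/
def labP : List (Fin 3) → List Bool → Fin 3 → Fin 3 × Bool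
  | [], _ => fun j => (j, false)
  | i :: w, b => fun j => if b.headD false then rp i (labP w b.tail j) else labP w b.tail j

theorem lab_X (w : List (Fin 3)) (b : List Bool) (j : Fin 3) :
    lab w b (X j : Rg K) = val (labP w b j) := by
  induction w generalizing b with
  | nil => rfl
  | cons i w ih =>
    show tw i (b.headD false) (lab w b.tail (X j)) = _
    rw [ih]
    show _ = val (if b.headD false then rp i (labP w b.tail j) else labP w b.tail j)
    cases b.headD false
    · rfl
    · exact refl_val i _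

theorem val_inj [CharZero K] (p q : Fin 3 × Bool) (h : (val p : Rg K) = val q) : p = q := by
  obtain ⟨k, s⟩ := p
  obtain ⟨l, t⟩ := q
  have h2 := congrArg (MvPolynomial.eval (fun i : Fin 3 => ((i : ℕ) + 1 : K))) h
  have hk : ∀ k : Fin 3, ∀ s : Bool, MvPolynomial.eval (fun i : Fin 3 => ((i : ℕ) + 1 : K))
      (val (k, s)) = ((if s then -((k : ℕ) + 1 : ℤ) else ((k : ℕ) + 1 : ℤ) : ℤ) : K) := by
    intro k s
    cases s <;> simp [val]
  rw [hk, hk] at h2
  have h3 : (if s then -((k : ℕ) + 1 : ℤ) else ((k : ℕ) + 1 : ℤ)) =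
    (if t then -((l : ℕ) + 1 : ℤ) else ((l : ℕ) + 1 : ℤ)) := by exact_mod_cast h2
  cases s <;> cases t <;> simp at h3 <;> simp
  · exact Fin.ext (by omega)
  · omega
  · omega
  · exact Fin.ext (by omega)

theorem lab_eq_of (w w' : List (Fin 3)) (b b' : List Bool) (h : labP w b = labP w' b') :
    (lab w b : Rg K ≃ₐ[K] Rg K) = lab w' b' := by
  have h2 : (lab w b : Rg K ≃ₐ[K] Rg K).toAlgHom = (lab w' b').toAlgHom := by
    apply MvPolynomial.algHom_ext
    intro j
    show lab w b (X j : Rg K) = lab w' b' (X j)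
    rw [lab_X, lab_X, h]
  apply AlgEquiv.ext
  intro f
  exact DFunLike.congr_fun h2 f

theorem lab_ne_of [CharZero K] (w w' : List (Fin 3)) (b b' : List Bool)
    (h : labP w b ≠ labP w' b') : (lab w b : Rg K ≃ₐ[K] Rg K) ≠ lab w' b' := by
  intro h2
  apply h
  funext j
  apply val_inj (K := K)
  rw [← lab_X, ← lab_X, h2]

theorem lab_one : (lab [] [] : Rg K ≃ₐ[K] Rg K) = 1 := rfl
theorem lab_s : (lab [0] [true] : Rg K ≃ₐ[K] Rg K) = refl K 0 := rfl
theorem lab_t : (lab [1] [true] : Rg K ≃ₐ[K] Rg K) = refl K 1 := rfl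
theorem lab_u : (lab [2] [true] : Rg K ≃ₐ[K] Rg K) = refl K 2 := rfl
theorem lab_su : (lab [0, 2] [true, true] : Rg K ≃ₐ[K] Rg K) = refl K 0 * refl K 2 := rfl
theorem lab_tu : (lab [1, 2] [true, true] : Rg K ≃ₐ[K] Rg K) = refl K 1 * refl K 2 := rfl
theorem lab_utst : (lab [2, 1, 0, 1] [true, true, true, true] : Rg K ≃ₐ[K] Rg K) =
    refl K 2 * refl K 1 * refl K 0 * refl K 1 := rfl
theorem lab_utstu : (lab [2, 1, 0, 1, 2] [true, true, true, true, true] : Rg K ≃ₐ[K] Rg K) =
    refl K 2 * refl K 1 * refl K 0 * refl K 1 * refl K 2 := rfl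

theorem no_utst (b1 b2 b3 b4 b5 b6 : Bool) :
    labP dW [b1, b2, b3, b4, b5, b6] ≠ labP [2, 1, 0, 1] [true, true, true, true] := by
  revert b1 b2 b3 b4 b5 b6
  decide

theorem no_utstu (b1 b2 b3 b4 b5 b6 : Bool) :
    labP dW [b1, b2, b3, b4, b5, b6] ≠ labP [2, 1, 0, 1, 2] [true, true, true, true, true] := by
  revert b1 b2 b3 b4 b5 b6
  decide

/-- the coordinates with label `u` -/
theorem labP_u (b1 b2 b3 b4 b5 b6 : Bool) :
    labP dW [b1, b2, b3, b4, b5, b6] = labP [2] [true] →
    [b1, b2, b3, b4, b5, b6] ∈ ([[false, false, false, true, false, false],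
      [false, false, true, true, false, true],
      [true, false, false, true, false, true],
      [true, false, true, true, false, false]] : List (List Bool)) := by
  revert b1 b2 b3 b4 b5 b6
  decide

theorem labP_t (b1 b2 b3 b4 b5 b6 : Bool) :
    labP dW [b1, b2, b3, b4, b5, b6] = labP [1] [true] →
    [b1, b2, b3, b4, b5, b6] ∈ ([[false, true, false, false, false, false],
      [false, true, true, false, false, true],
      [false, false, false, false, true, false],
      [true, false, true, false, true, false]] : List (List Bool)) := by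
  revert b1 b2 b3 b4 b5 b6
  decide

theorem labP_e (b1 b2 b3 b4 b5 b6 : Bool) :
    labP dW [b1, b2, b3, b4, b5, b6] = labP [] [] →
    [b1, b2, b3, b4, b5, b6] ∈ ([[false, false, false, false, false, false],
      [false, false, true, false, false, true],
      [true, false, false, false, false, true],
      [true, false, true, false, false, false],
      [false, true, false, false, true, false],
      [true, true, false, false, true, true]] : List (List Bool)) := by
  revert b1 b2 b3 b4 b5 b6
  decide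

/-- condition ensuring that `x_j - (±x_k)` is not divisible by `x₀ - x₁` -/
def cond (j : Fin 3) (p : Fin 3 × Bool) : Bool :=
  p.2 || !(((j = 2) && (p.1 = 2)) || ((j ≠ 2) && (p.1 ≠ 2)))

theorem cond_spec [CharZero K] (j : Fin 3) (p : Fin 3 × Bool) (h : cond j p = true) :
    ¬ root K 1 ∣ (X j : Rg K) - val p := by
  rintro ⟨q, hq⟩
  have h2 := congrArg (MvPolynomial.eval (![1, 1, 2] : Fin 3 → K)) hq
  rw [map_mul] at h2
  have h3 : MvPolynomial.eval (![1, 1, 2] : Fin 3 → K) (root K 1) = 0 := by simp [root]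
  rw [h3, zero_mul] at h2
  obtain ⟨k, s⟩ := p
  revert h h2
  have key : ∀ (j k : Fin 3) (s : Bool), cond j (k, s) = true →
      MvPolynomial.eval (![1, 1, 2] : Fin 3 → K) (X j - val (k, s)) = 0 → False := by
    intro j k s
    fin_cases j <;> fin_cases k <;> cases s <;> simp [cond, val] <;> norm_num
  intro h h2
  exact key j k s h h2

theorem sep_labP (b1 b2 b3 b4 b5 b6 : Bool) :
    labP dW [b1, b2, b3, b4, b5, b6] ≠ labP [] [] →
    labP dW [b1, b2, b3, b4, b5, b6] ≠ labP [1] [true] →
    ∃ j : Fin 3, cond j (labP dW [b1, b2, b3, b4, b5, b6] j) = true := by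
  revert b1 b2 b3 b4 b5 b6
  decide

end Pool.Agent.Lib.FSB
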