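import Pool.Agent.Lib.FSB.M1a

/-!
# Module M1c, part 1: the Hecke algebra of type `B₃` exists

It is the centralizer of the operators of right multiplication by the generators on the free module
with basis `W`.
-/

set_option autoImplicit false

open LaurentPolynomial

namespace Pool.Agent.Lib.FSB.M1

/-- check: left descents and commutation of left and right multiplication -/
def chkX : Bool := (List.range 48).all fun a =>
  (a == 0 || ((List.range 3).any fun i => ln (ml i a) + 1 == ln a)) &&
  (List.range 3).all fun i => (List.range 3).all fun j =>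
    (ml i a == mr j a) ||
      ((decide (ln (mr j a) < ln (ml i (mr j a))) == decide (ln a < ln (ml i a))) &&
        (decide (ln a < ln (mr j a)) == decide (ln (ml i a) < ln (ml i (mr j a)))))

theorem chkX_true : chkX = true := by decide +kernel

/-- check: right descents (again) -/
def chkRd : Bool := (List.range 48).all fun a => decide (rd a < 3) &&
  (a == 0 || (ln (mr (rd a) a) + 1 == ln a)) && decide (ln a < 10)

theorem chkRd_true : chkRd = true := by decide +kernel

lemma rdesc {a : ℕ} (ha : a < 48) : rd a < 3 ∧ (a = 0 ∨ ln (mr (rd a) a) + 1 = ln a) ∧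
    ln a < 10 := by
  have h := chkRd_true
  unfold chkRd at h
  rw [List.all_eq_true] at h
  have h1 := h a (List.mem_range.mpr ha)
  simp only [Bool.and_eq_true, Bool.or_eq_true, beq_iff_eq, decide_eq_true_eq] at h1
  tauto

lemma ldesc {a : ℕ} (ha : a < 48) (ha0 : a ≠ 0) : ∃ i, i < 3 ∧ ln (ml i a) + 1 = ln a := by
  have h := chkX_true
  unfold chkX at h
  rw [List.all_eq_true] at h
  have h1 := h a (List.mem_range.mpr ha)
  rw [Bool.and_eq_true, Bool.or_eq_true, beq_iff_eq] at h1
  have h2 := h1.1.resolve_left ha0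
  rw [List.any_eq_true] at h2
  obtain ⟨i, hi, h3⟩ := h2
  exact ⟨i, List.mem_range.mp hi, beq_iff_eq.mp h3⟩

lemma commX {a i j : ℕ} (ha : a < 48) (hi : i < 3) (hj : j < 3) : ml i a = mr j a ∨
    ((ln (mr j a) < ln (ml i (mr j a)) ↔ ln a < ln (ml i a)) ∧
      (ln a < ln (mr j a) ↔ ln (ml i a) < ln (ml i (mr j a)))) := by
  have h := chkX_true
  unfold chkX at h
  rw [List.all_eq_true] at h
  have h1 := h a (List.mem_range.mpr ha)
  rw [Bool.and_eq_true] at h1
  have h2 := h1.2
  rw [List.all_eq_true] at h2
  have h3 := h2 i (List.mem_range.mpr hi)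
  rw [List.all_eq_true] at h3
  have h4 := h3 j (List.mem_range.mpr hj)
  simpa only [Bool.and_eq_true, Bool.or_eq_true, beq_iff_eq, decide_eq_decide] using h4

section

variable {W : Type} [Group W] (cs : CoxeterSystem cmB3 W)

lemma exists_left (w : W) (hw : w ≠ 1) :
    ∃ i : Fin 3, cs.length (cs.simple i * w) + 1 = cs.length w := by
  have ha := idx_lt cs w
  have hw' : E cs (idx cs w) = w := E_idx cs w
  have h0 : idx cs w ≠ 0 := by
    intro h
    rw [h, E_zero] at hw'
    exact hw hw'.symm
  obtain ⟨i, hi, h⟩ := ldesc ha h0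
  refine ⟨s3 i, ?_⟩
  rw [← hw', simple_mul_E cs hi ha, length_E cs ((tabs ha).2.2 i hi).2.1, length_E cs ha]
  exact h

lemma exists_right (w : W) (hw : w ≠ 1) :
    ∃ i : Fin 3, cs.length (w * cs.simple i) + 1 = cs.length w := by
  have ha := idx_lt cs w
  have hw' : E cs (idx cs w) = w := E_idx cs w
  have h0 : idx cs w ≠ 0 := by
    intro h
    rw [h, E_zero] at hw'
    exact hw hw'.symm
  obtain ⟨hi, h, -⟩ := rdesc ha
  refine ⟨s3 (rd (idx cs w)), ?_⟩
  have h1 := E_mul_simple cs hi ha
  have h2 := length_E cs ha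
  rw [hw'] at h1 h2
  rw [h1, length_E cs ((tabs ha).2.2 _ hi).2.2.2.2.1, h2]
  exact h.resolve_left h0

lemma comm_len (w : W) (i j : Fin 3) : cs.simple i * w = w * cs.simple j ∨
    ((cs.length (w * cs.simple j) < cs.length (cs.simple i * w * cs.simple j) ↔
      cs.length w < cs.length (cs.simple i * w)) ∧
    (cs.length w < cs.length (w * cs.simple j) ↔
      cs.length (cs.simple i * w) < cs.length (cs.simple i * w * cs.simple j))) := by
  have ha := idx_lt cs w
  have hw' : E cs (idx cs w) = w := E_idx cs w
  obtain ⟨-, -, ht⟩ := tabs ha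
  obtain ⟨-, k2, -, -, -, -, -, -⟩ := ht i.val i.isLt
  obtain ⟨-, -, -, -, k5, -, -, -⟩ := ht j.val j.isLt
  have e1 : cs.simple i * w = E cs (ml i.val (idx cs w)) := by
    have := simple_mul_E cs i.isLt ha
    rw [s3_val, hw'] at this
    exact this
  have e2 : w * cs.simple j = E cs (mr j.val (idx cs w)) := by
    have := E_mul_simple cs j.isLt ha
    rw [s3_val, hw'] at this
    exact this
  have e3 : cs.simple i * w * cs.simple j = E cs (ml i.val (mr j.val (idx cs w))) := by
    have := simple_mul_E cs i.isLt k5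
    rw [s3_val, ← e2] at this
    rw [mul_assoc]
    exact this
  have k9 := ((tabs k5).2.2 i.val i.isLt).2.1
  rw [e1, e2] at *
  rw [e3, length_E cs k2, length_E cs k5, length_E cs k9]
  have hl : cs.length w = ln (idx cs w) := by
    conv_lhs => rw [← hw']
    exact length_E cs ha
  rw [hl]
  rcases commX ha i.isLt j.isLt with h | h
  · left; rw [h]
  · right; exact h

variable {R : Type} [CommRing R] (κ : R)

/-- `v⁻¹ - v` when the length goes down -/
noncomputable def kq (w w' : W) : R :=
  if cs.length w < cs.length w' then 0 else κ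

variable {V : Type} [AddCommGroup V] [Module R V] (e : Module.Basis W R V)

/-- left multiplication by `H_s` -/
noncomputable def lam (i : Fin 3) : Module.End R V :=
  e.constr R fun w => e (cs.simple i * w) + kq cs κ w (cs.simple i * w) • e w

/-- right multiplication by `H_s` -/
noncomputable def rho (i : Fin 3) : Module.End R V :=
  e.constr R fun w => e (w * cs.simple i) + kq cs κ w (w * cs.simple i) • e w

lemma lam_e (i : Fin 3) (w : W) : lam cs κ e i (e w) =
    e (cs.simple i * w) + kq cs κ w (cs.simple i * w) • e w := by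
  unfold lam
  rw [Module.Basis.constr_basis]

lemma rho_e (i : Fin 3) (w : W) : rho cs κ e i (e w) =
    e (w * cs.simple i) + kq cs κ w (w * cs.simple i) • e w := by
  unfold rho
  rw [Module.Basis.constr_basis]

lemma lam_rho (i j : Fin 3) : lam cs κ e i * rho cs κ e j = rho cs κ e j * lam cs κ e i := by
  apply e.ext
  intro w
  rw [Module.End.mul_apply, Module.End.mul_apply, rho_e, lam_e, map_add, map_add, map_smul,
    map_smul, lam_e, lam_e, rho_e, rho_e, ← mul_assoc]
  have hk : (kq cs κ (w * cs.simple j) (cs.simple i * w * cs.simple j) =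
      kq cs κ w (cs.simple i * w) ∧ kq cs κ w (w * cs.simple j) =
      kq cs κ (cs.simple i * w) (cs.simple i * w * cs.simple j)) ∨
      cs.simple i * w = w * cs.simple j := by
    rcases comm_len cs w i j with h | ⟨h1, h2⟩
    · right; exact h
    · left
      unfold kq
      simp only [h1, h2, true_and]
  rcases hk with ⟨h1, h2⟩ | h
  · rw [h1, ← h2]
    module
  · rw [h]

/-- the Hecke algebra -/
noncomputable abbrev HA : Subalgebra R (Module.End R V) :=
  Subalgebra.centralizer R (Set.range (rho cs κ e))

lemma mem_HA {f : Module.End R V} :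
    f ∈ HA cs κ e ↔ ∀ j, rho cs κ e j * f = f * rho cs κ e j := by
  rw [Subalgebra.mem_centralizer_iff]
  constructor
  · intro h j
    exact h _ ⟨j, rfl⟩
  · rintro h _ ⟨j, rfl⟩
    exact h j

/-- the generators -/
noncomputable def Lam (i : Fin 3) : HA cs κ e :=
  ⟨lam cs κ e i, (mem_HA cs κ e).mpr fun j => (lam_rho cs κ e i j).symm⟩

/-- evaluation at the identity -/
noncomputable def evl : HA cs κ e →ₗ[R] V :=
  (LinearMap.applyₗ (e (1 : W))).comp (HA cs κ e).val.toLinearMap

lemma evl_apply (f : HA cs κ e) : evl cs κ e f = f.1 (e 1) := rfl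

lemma e_right {w : W} {j : Fin 3} (h : cs.length (w * cs.simple j) + 1 = cs.length w) :
    e w = rho cs κ e j (e (w * cs.simple j)) := by
  rw [rho_e, mul_assoc, cs.simple_mul_simple_self, mul_one, kq, if_pos (by omega), zero_smul,
    add_zero]

lemma e_left {w : W} {j : Fin 3} (h : cs.length (cs.simple j * w) + 1 = cs.length w) :
    e w = lam cs κ e j (e (cs.simple j * w)) := by
  rw [lam_e, ← mul_assoc, cs.simple_mul_simple_self, one_mul, kq, if_pos (by omega), zero_smul,
    add_zero]

lemma evl_injective : Function.Injective (evl cs κ e) := by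
  rw [← LinearMap.ker_eq_bot, LinearMap.ker_eq_bot']
  intro f hf
  have key : ∀ n : ℕ, ∀ w : W, cs.length w = n → f.1 (e w) = 0 := by
    intro n
    induction n using Nat.strong_induction_on with
    | _ n ih =>
      intro w hw
      by_cases h1 : w = 1
      · rw [h1]; exact hf
      · obtain ⟨j, hj⟩ := exists_right cs w h1
        have h2 := (mem_HA cs κ e).mp f.2 j
        rw [e_right cs κ e hj, ← Module.End.mul_apply, ← h2, Module.End.mul_apply,
          ih _ (by omega) _ rfl, map_zero]
  apply Subtype.ext
  apply e.ext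
  intro w
  rw [key _ w rfl]
  rfl

lemma exists_evl (w : W) : ∃ f : HA cs κ e, evl cs κ e f = e w := by
  have key : ∀ n : ℕ, ∀ w : W, cs.length w = n → ∃ f : HA cs κ e, evl cs κ e f = e w := by
    intro n
    induction n using Nat.strong_induction_on with
    | _ n ih =>
      intro w hw
      by_cases h1 : w = 1
      · refine ⟨1, ?_⟩
        rw [h1]; rfl
      · obtain ⟨j, hj⟩ := exists_left cs w h1
        obtain ⟨f, hf⟩ := ih _ (by omega) (cs.simple j * w) rfl
        refine ⟨Lam cs κ e j * f, ?_⟩
        rw [e_left cs κ e hj, ← hf]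
        rfl
  exact key _ w rfl

lemma evl_surjective : Function.Surjective (evl cs κ e) := by
  rw [← LinearMap.range_eq_top, ← top_le_iff, ← e.span_eq, Submodule.span_le]
  rintro _ ⟨w, rfl⟩
  obtain ⟨f, hf⟩ := exists_evl cs κ e w
  exact ⟨f, hf⟩

/-- the algebra and the free module -/
noncomputable def evlE : HA cs κ e ≃ₗ[R] V :=
  LinearEquiv.ofBijective (evl cs κ e) ⟨evl_injective cs κ e, evl_surjective cs κ e⟩

/-- the standard basis -/
noncomputable def stdB : Module.Basis W R (HA cs κ e) := e.map (evlE cs κ e).symm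

lemma stdB_apply (w : W) : (stdB cs κ e w).1 (e 1) = e w := by
  have h : evlE cs κ e (stdB cs κ e w) = e w := by
    unfold stdB
    rw [Module.Basis.map_apply, LinearEquiv.apply_symm_apply]
  exact h

lemma ext_HA {f g : HA cs κ e} (h : f.1 (e 1) = g.1 (e 1)) : f = g := evl_injective cs κ e h

lemma stdB_one : stdB cs κ e 1 = 1 := ext_HA cs κ e (stdB_apply cs κ e 1)

lemma stdB_left {w : W} {j : Fin 3} (h : cs.length (cs.simple j * w) + 1 = cs.length w) :
    stdB cs κ e w = Lam cs κ e j * stdB cs κ e (cs.simple j * w) := by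
  apply ext_HA
  rw [stdB_apply, e_left cs κ e h, ← stdB_apply cs κ e (cs.simple j * w)]
  rfl

lemma stdB_simple (j : Fin 3) : stdB cs κ e (cs.simple j) = Lam cs κ e j := by
  have h := stdB_left cs κ e (w := cs.simple j) (j := j)
    (by rw [cs.simple_mul_simple_self, cs.length_one, cs.length_simple])
  rw [cs.simple_mul_simple_self, stdB_one, mul_one] at h
  exact h

lemma stdB_apply_e : ∀ n : ℕ, ∀ x y : W, cs.length x = n →
    cs.length (x * y) = cs.length x + cs.length y → (stdB cs κ e x).1 (e y) = e (x * y) := by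
  intro n
  induction n using Nat.strong_induction_on with
  | _ n ih =>
    intro x y hx hxy
    by_cases h1 : x = 1
    · rw [h1, stdB_one, one_mul]; rfl
    · obtain ⟨j, hj⟩ := exists_left cs x h1
      have h2 : cs.length (cs.simple j * x * y) = cs.length (cs.simple j * x) + cs.length y := by
        apply le_antisymm (cs.length_mul_le _ _)
        have h3 : cs.length (x * y) ≤ cs.length (cs.simple j) +
            cs.length (cs.simple j * (x * y)) := by
          have := cs.length_mul_le (cs.simple j) (cs.simple j * (x * y))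
          rwa [cs.simple_mul_simple_cancel_left] at this
        rw [cs.length_simple, ← mul_assoc] at h3
        omega
      have h4 := ih _ (by omega) (cs.simple j * x) y rfl h2
      rw [stdB_left cs κ e hj]
      change lam cs κ e j ((stdB cs κ e (cs.simple j * x)).1 (e y)) = _
      rw [h4, mul_assoc]
      refine (e_left cs κ e (w := x * y) ?_).symm
      rw [← mul_assoc]
      omega

lemma stdB_mul (x y : W) (h : cs.length (x * y) = cs.length x + cs.length y) :
    stdB cs κ e x * stdB cs κ e y = stdB cs κ e (x * y) := by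
  apply ext_HA
  rw [stdB_apply, ← stdB_apply_e cs κ e _ x y rfl h]
  change (stdB cs κ e x).1 ((stdB cs κ e y).1 (e 1)) = _
  rw [stdB_apply]

lemma stdB_quad (i : Fin 3) : stdB cs κ e (cs.simple i) * stdB cs κ e (cs.simple i) =
    1 + κ • stdB cs κ e (cs.simple i) := by
  rw [stdB_simple]
  apply ext_HA
  change lam cs κ e i (lam cs κ e i (e 1)) = e 1 + κ • lam cs κ e i (e 1)
  have h1 : lam cs κ e i (e 1) = e (cs.simple i) := by
    rw [lam_e, mul_one, kq, if_pos (by rw [cs.length_one, cs.length_simple]; norm_num),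
      zero_smul, add_zero]
  rw [h1, lam_e, cs.simple_mul_simple_self, kq,
    if_neg (by rw [cs.length_one, cs.length_simple]; norm_num)]

end

section

variable {W : Type} [Group W] (cs : CoxeterSystem cmB3 W)

section gen
variable {R : Type} [CommRing R] (κ : R)
variable {V : Type} [AddCommGroup V] [Module R V] (e : Module.Basis W R V)

/-- type copy -/
def HT : Type := HA cs κ e

noncomputable instance : Ring (HT cs κ e) := inferInstanceAs (Ring (HA cs κ e))

noncomputable instance : Algebra R (HT cs κ e) := inferInstanceAs (Algebra R (HA cs κ e))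
/-- the standard basis -/
noncomputable def stdT : Module.Basis W R (HT cs κ e) := stdB cs κ e

lemma stdT_mul (x y : W) (h : cs.length (x * y) = cs.length x + cs.length y) :
    stdT cs κ e x * stdT cs κ e y = stdT cs κ e (x * y) := stdB_mul cs κ e x y h

lemma stdT_quad (i : Fin 3) : stdT cs κ e (cs.simple i) * stdT cs κ e (cs.simple i) =
    1 + κ • stdT cs κ e (cs.simple i) := stdB_quad cs κ e i
end gen

/-- the free module -/
def VB (W : Type) : Type := W →₀ ℤ[T;T⁻¹]
noncomputable instance : AddCommGroup (VB W) := inferInstanceAs (AddCommGroup (W →₀ ℤ[T;T⁻¹]))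

noncomputable instance : Module ℤ[T;T⁻¹] (VB W) :=
  inferInstanceAs (Module ℤ[T;T⁻¹] (W →₀ ℤ[T;T⁻¹]))

/-- its basis -/
noncomputable def eB : Module.Basis W ℤ[T;T⁻¹] (VB W) := Module.Basis.ofRepr (LinearEquiv.refl _ _)

/-- the Hecke algebra of type `B₃` -/
noncomputable def heckeB3 : HeckeAlg cs where
  H := HT cs (T (-1) - T 1 : ℤ[T;T⁻¹]) (eB (W := W))
  std := stdT cs (T (-1) - T 1 : ℤ[T;T⁻¹]) eB
  std_mul := fun x y h => stdT_mul cs _ _ x y h
  std_quad := fun i => stdT_quad cs _ _ i

end

end Pool.Agent.Lib.FSB.M1
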