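import Pool.Agent.Lib.FSB.M1Tab

/-!
# Kernel checks of the tables for `B₃`
-/

set_option autoImplicit false

namespace Pool.Agent.Lib.FSB.M1

/-- entry of a table -/
def tg (l : List (List ℕ)) (i j : ℕ) : ℕ := (l.getD i []).getD j 0

/-- left multiplication -/
def ml (i a : ℕ) : ℕ := tg tml i a
/-- right multiplication -/
def mr (i a : ℕ) : ℕ := tg tmr i a
/-- length -/
def ln (a : ℕ) : ℕ := tlen.getD a 0
/-- reduced word -/
def wd (a : ℕ) : List ℕ := tword.getD a []
/-- right descent -/
def rd (a : ℕ) : ℕ := trd.getD a 0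

/-- binary digits -/
def decF : ℕ → ℕ → List ℕ
  | 0, _ => []
  | f + 1, n => (n % 2) :: decF f (n / 2)

/-- addition of coefficient lists -/
def addL : List ℕ → List ℕ → List ℕ
  | [], y => y
  | x, [] => x
  | a :: x, b :: y => (a + b) :: addL x y

/-- equality of coefficient lists up to trailing zeros -/
def eqvL : List ℕ → List ℕ → Bool
  | [], y => y.all (fun c => c == 0)
  | x, [] => x.all (fun c => c == 0)
  | a :: x, b :: y => (a == b) && eqvL x y

/-- multiplication by a number -/
def smL (k : ℕ) (x : List ℕ) : List ℕ := x.map (fun c => k * c)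

/-- the coefficients of the polynomial `p_{b,a}` -/
def pL (b a : ℕ) : List ℕ := decF 10 (tg tP a b)

/-- the coefficients (in `v + v⁻¹`) of `h_{x,y,d}` -/
def hL (x y : ℕ) : List ℕ := decF 3 (tg tH x y)

/-- the rule for `C_a C_s` -/
def rr (s a : ℕ) : List (ℕ × ℕ) := (tRR.getD s []).getD a []
/-- the rule for `C_s C_a` -/
def rl (s a : ℕ) : List (ℕ × ℕ) := (tLL.getD s []).getD a []

/-- `v` times the coefficient of `H_b` in `∑ c_z C_z` -/
def rhsP (l : List (ℕ × ℕ)) (b : ℕ) : List ℕ :=
  l.foldr (fun zk acc => addL (if zk.2 = 0 then addL (pL b zk.1) (0 :: 0 :: pL b zk.1)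
    else 0 :: smL zk.2 (pL b zk.1)) acc) []

/-- `v` times the coefficient of `H_b` in `C_a C_s` or `C_s C_a`; `b' = b s` or `s b` -/
def lhsP (a b b' : ℕ) : List ℕ :=
  addL (0 :: pL b' a) (if ln b < ln b' then 0 :: 0 :: pL b a else pL b a)

/-- check of the rules for right multiplication -/
def chkR : Bool := (List.range 48).all fun a => a == 0 ||
  ((List.range 48).all fun b => eqvL (lhsP (mr (rd a) a) b (mr (rd a) b))
    (rhsP (rr (rd a) (mr (rd a) a)) b))

/-- check of the rules for left multiplication -/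
def chkL : Bool := (List.range 3).all fun s => (List.range 48).all fun a =>
  (List.range 48).all fun b => eqvL (lhsP a b (ml s b)) (rhsP (rl s a) b)

/-- sum of `c_z h_{x,z}` -/
def rhsH (l : List (ℕ × ℕ)) (f : ℕ → List ℕ) : List ℕ :=
  l.foldr (fun zk acc => addL (if zk.2 = 0 then 0 :: f zk.1 else smL zk.2 (f zk.1)) acc) []

/-- check of the recursion for the structure constants -/
def chkH : Bool := (List.range 48).all fun x => x == 0 ||
  ((List.range 48).all fun y => eqvL (rhsH (rr (rd x) (mr (rd x) x)) (fun z => hL z y))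
    (rhsH (rl (rd x) y) (fun z => hL (mr (rd x) x) z)))

end Pool.Agent.Lib.FSB.M1
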