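import Pool.Agent.Lib.FSB.M1Chk

/-!
# The three large kernel checks for `B₃`
-/

set_option autoImplicit false

namespace Pool.Agent.Lib.FSB.M1

theorem chkR_true : chkR = true := by decide +kernel

theorem chkL_true : chkL = true := by decide +kernel

theorem chkH_true : chkH = true := by decide +kernel

end Pool.Agent.Lib.FSB.M1
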