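import Pool.Agent.Lib.FSB.M1b
import Pool.Agent.Lib.FSB.M1Dec

/-!
# Module M1b, part 2: the Kazhdan-Lusztig basis in type `B₃`; `a(d) = Δ(d) = 2`
-/

set_option autoImplicit false

open LaurentPolynomial

namespace Pool.Agent.Lib.FSB.M1

/-- check of the shapes of the rules -/
def chkS : Bool := (List.range 48).all fun a =>
  (a == 0 || (match rr (rd a) (mr (rd a) a) with
    | [] => false
    | zk :: l => (zk == (a, 1)) && l.all fun zk => decide (zk.1 < 48) && decide (ln zk.1 < ln a) &&
        !(zk.2 == 0))) &&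
  ((List.range 3).all fun i => (rl i a).all fun zk => decide (zk.1 < 48)) &&
  ((List.range 48).all fun b => if a == b then (pL b a).getD 0 0 == 1 && (pL b a).tail.all (· == 0)
    else (pL b a).getD 0 0 == 0) &&
  (hL 0 a == if a == 33 then [1, 0, 0] else [0, 0, 0])

theorem chkS_true : chkS = true := by decide +kernel

lemma shapes {a : ℕ} (ha : a < 48) :
    (a ≠ 0 → ∃ l, rr (rd a) (mr (rd a) a) = (a, 1) :: l ∧
      ∀ zk ∈ l, zk.1 < 48 ∧ ln zk.1 < ln a ∧ zk.2 ≠ 0) ∧
    (∀ i, i < 3 → ∀ zk ∈ rl i a, zk.1 < 48) ∧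
    (∀ b, b < 48 → if a = b then (pL b a).getD 0 0 = 1 ∧ (pL b a).tail.all (· == 0) = true
      else (pL b a).getD 0 0 = 0) ∧
    (hL 0 a = if a = 33 then [1, 0, 0] else [0, 0, 0]) := by
  have h := chkS_true
  unfold chkS at h
  rw [List.all_eq_true] at h
  have h1 := h a (List.mem_range.mpr ha)
  rw [Bool.and_eq_true, Bool.and_eq_true, Bool.and_eq_true] at h1
  obtain ⟨⟨⟨h1, h2⟩, h3⟩, h5⟩ := h1
  refine ⟨fun ha0 => ?_, fun i hi zk hzk => ?_, fun b hb => ?_, ?_⟩
  · rw [Bool.or_eq_true, beq_iff_eq] at h1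
    have h6 := h1.resolve_left ha0
    split at h6
    · exact absurd h6 (by simp)
    · next zk l heq =>
      rw [Bool.and_eq_true, beq_iff_eq, List.all_eq_true] at h6
      refine ⟨l, by rw [heq, h6.1], fun zk hzk => ?_⟩
      have h7 := h6.2 zk hzk
      simp only [Bool.and_eq_true, decide_eq_true_eq, Bool.not_eq_true', beq_eq_false_iff_ne,
        ne_eq] at h7
      exact ⟨h7.1.1, h7.1.2, h7.2⟩
  · rw [List.all_eq_true] at h2
    have h6 := h2 i (List.mem_range.mpr hi)
    rw [List.all_eq_true] at h6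
    exact of_decide_eq_true (h6 zk hzk)
  · rw [List.all_eq_true] at h3
    have h6 := h3 b (List.mem_range.mpr hb)
    by_cases hab : a = b
    · rw [if_pos (beq_iff_eq.mpr hab), Bool.and_eq_true, beq_iff_eq] at h6
      rw [if_pos hab]
      exact h6
    · rw [if_neg (fun h => hab (beq_iff_eq.mp h)), beq_iff_eq] at h6
      rw [if_neg hab]
      exact h6
  · rw [beq_iff_eq] at h5
    rw [h5]
    by_cases hab : a = 33
    · rw [if_pos (beq_iff_eq.mpr hab), if_pos hab]
    · rw [if_neg (fun h => hab (beq_iff_eq.mp h)), if_neg hab]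

section

variable {W : Type} [Group W] {cs : CoxeterSystem cmB3 W} (A : HeckeAlg cs)

/-- the explicit Kazhdan-Lusztig element -/
noncomputable def KL (a : ℕ) : A.H := ∑ b ∈ Finset.range 48, ev (T 1) (pL b a) • H A b

/-- the Kazhdan-Lusztig generator -/
noncomputable def Cs (i : ℕ) : A.H := Hs A i + (T 1 : ℤ[T;T⁻¹]) • (1 : A.H)

/-- coefficient coded by a number -/
noncomputable def co (k : ℕ) : ℤ[T;T⁻¹] := if k = 0 then T 1 + T (-1) else (k : ℤ[T;T⁻¹])

/-- the linear combination coded by a list -/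
noncomputable def comb (f : ℕ → A.H) (l : List (ℕ × ℕ)) : A.H :=
  (l.map fun zk => co zk.2 • f zk.1).sum

lemma cf_KL {a b : ℕ} (hb : b < 48) : cf A (KL A a) b = ev (T 1) (pL b a) := by
  unfold KL
  rw [cf_sum, Finset.sum_eq_single b]
  · rw [cf_smul, cf_H A hb hb, if_pos rfl, mul_one]
  · intro c hc hcb
    rw [cf_smul, cf_H A (Finset.mem_range.mp hc) hb, if_neg hcb, mul_zero]
  · intro h
    exact absurd (Finset.mem_range.mpr hb) h

lemma T1_T : (T 1 : ℤ[T;T⁻¹]) * T (-1) = 1 := by
  rw [← T_add]; simp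

lemma cancel_T {f g : ℤ[T;T⁻¹]} (h : T 1 * f = T 1 * g) : f = g :=
  (isUnit_T (R := ℤ) 1).mul_left_cancel h

/-- `v` times a coefficient of a combination -/
lemma T_cf_comb {b : ℕ} (hb : b < 48) (l : List (ℕ × ℕ)) :
    T 1 * cf A (comb A (KL A) l) b = ev (T 1) (rhsP l b) := by
  induction l with
  | nil => simp [comb, rhsP, ev, cf]
  | cons zk l ih =>
    have h1 : comb A (KL A) (zk :: l) = co zk.2 • KL A zk.1 + comb A (KL A) l := by
      simp [comb]
    have h2 : rhsP (zk :: l) b = addL (if zk.2 = 0 then addL (pL b zk.1) (0 :: 0 :: pL b zk.1)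
        else 0 :: smL zk.2 (pL b zk.1)) (rhsP l b) := rfl
    rw [h1, h2, cf_add, mul_add, ih, ev_addL, cf_smul, cf_KL A hb]
    congr 1
    unfold co
    split_ifs with h
    · rw [ev_addL, ev_cons, ev_cons, Nat.cast_zero, zero_add, zero_add]
      linear_combination (ev (T 1) (pL b zk.1)) * T1_T
    · rw [ev_cons, ev_smL, Nat.cast_zero, zero_add]

/-- the rule for right multiplication -/
lemma KL_mul_Cs {a : ℕ} (ha : a < 48) (ha0 : a ≠ 0) :
    KL A (mr (rd a) a) * Cs A (rd a) = comb A (KL A) (rr (rd a) (mr (rd a) a)) := by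
  obtain ⟨-, d2, -⟩ := desc ha
  have h := chkR_true
  unfold chkR at h
  rw [List.all_eq_true] at h
  have h1 := h a (List.mem_range.mpr ha)
  rw [Bool.or_eq_true, beq_iff_eq] at h1
  have h2 := h1.resolve_left ha0
  rw [List.all_eq_true] at h2
  apply ext_cf A
  intro b hb
  obtain ⟨-, -, -, -, k5, k6, k7, -⟩ := (tabs hb).2.2 (rd a) d2
  apply cancel_T
  rw [T_cf_comb A hb, ← ev_eqvL (T 1) _ _ (h2 b (List.mem_range.mpr hb))]
  unfold Cs lhsP
  rw [mul_add, mul_smul_comm, mul_one, cf_add, cf_mul_Hs A d2 hb, cf_smul, cf_KL A hb,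
    cf_KL A k5, ev_addL, ev_cons, Nat.cast_zero, zero_add]
  unfold kap
  split_ifs with hl
  · rw [ev_cons, ev_cons, Nat.cast_zero, zero_add, zero_add]
    ring
  · linear_combination (ev (T 1) (pL b (mr (rd a) a))) * T1_T

/-- the rule for left multiplication -/
lemma Cs_mul_KL {i a : ℕ} (hi : i < 3) (ha : a < 48) :
    Cs A i * KL A a = comb A (KL A) (rl i a) := by
  have h := chkL_true
  unfold chkL at h
  rw [List.all_eq_true] at h
  have h1 := h i (List.mem_range.mpr hi)
  rw [List.all_eq_true] at h1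
  have h2 := h1 a (List.mem_range.mpr ha)
  rw [List.all_eq_true] at h2
  apply ext_cf A
  intro b hb
  obtain ⟨k6, k5, -, -, -, -, -, k7⟩ := (tabs hb).2.2 i hi
  apply cancel_T
  rw [T_cf_comb A hb, ← ev_eqvL (T 1) _ _ (h2 b (List.mem_range.mpr hb))]
  unfold Cs lhsP
  rw [add_mul, smul_mul_assoc, one_mul, cf_add, cf_Hs_mul A hi hb, cf_smul, cf_KL A hb,
    cf_KL A k5, ev_addL, ev_cons, Nat.cast_zero, zero_add]
  unfold kap
  split_ifs with hl
  · rw [ev_cons, ev_cons, Nat.cast_zero, zero_add, zero_add]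
    ring
  · linear_combination (ev (T 1) (pL b a)) * T1_T

lemma KL_zero : KL A 0 = 1 := by
  apply ext_cf A
  intro b hb
  rw [cf_KL A hb, ← H_zero A, cf_H A (by norm_num) hb]
  have h := (shapes (show 0 < 48 by norm_num)).2.2.1 b hb
  have h2 : ∀ b, b < 48 → eqvL (pL b 0) (if 0 = b then [1] else []) = true := by decide +kernel
  rw [ev_eqvL (T 1) _ _ (h2 b hb)]
  split_ifs <;> simp [ev]

variable {A} {bar : A.H →+* A.H} (hbar : IsBar A bar)

include hbar in
lemma bar_Cs (i : ℕ) : bar (Cs A i) = Cs A i := by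
  unfold Cs
  have h2 : bar (Hs A i) = Hs A i + (T 1 - T (-1) : ℤ[T;T⁻¹]) • (1 : A.H) := hbar.bar_std _
  rw [map_add, h2, bar_smul hbar, map_one, invert_T, sub_smul]
  abel

include hbar in
lemma bar_comb {f : ℕ → A.H} {l : List (ℕ × ℕ)} (hl : ∀ zk ∈ l, zk.2 ≠ 0 ∧ bar (f zk.1) = f zk.1) :
    bar (comb A f l) = comb A f l := by
  induction l with
  | nil => simp [comb]
  | cons zk l ih =>
    have h1 : comb A f (zk :: l) = co zk.2 • f zk.1 + comb A f l := by simp [comb]
    obtain ⟨h2, h3⟩ := hl zk (List.mem_cons_self ..)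
    rw [h1, map_add, ih (fun z hz => hl z (List.mem_cons_of_mem _ hz)), bar_smul hbar, h3]
    congr 2
    unfold co
    rw [if_neg h2, map_natCast]

include hbar in
/-- the explicit elements are bar invariant -/
lemma bar_KL (n : ℕ) : ∀ a, a < 48 → ln a = n → bar (KL A a) = KL A a := by
  induction n using Nat.strong_induction_on with
  | _ n ih =>
    intro a ha hn
    by_cases ha0 : a = 0
    · rw [ha0, KL_zero, map_one]
    · obtain ⟨-, d2, d3⟩ := desc ha
      have d3 := d3.resolve_left ha0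
      obtain ⟨-, -, -, -, k5, k6, -, -⟩ := (tabs ha).2.2 (rd a) d2
      obtain ⟨l, hl, hl2⟩ := (shapes ha).1 ha0
      have h1 := KL_mul_Cs A ha ha0
      rw [hl] at h1
      have h2 : comb A (KL A) ((a, 1) :: l) = KL A a + comb A (KL A) l := by
        simp [comb, co]
      rw [h2] at h1
      have h3 := congrArg bar h1
      rw [map_mul, bar_Cs hbar, ih (ln (mr (rd a) a)) (by omega) _ k5 rfl, map_add, h1,
        bar_comb hbar (l := l) (fun zk hzk => by
          obtain ⟨g1, g2, g3⟩ := hl2 zk hzk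
          exact ⟨g3, ih (ln zk.1) (by omega) _ g1 rfl⟩)] at h3
      exact (add_right_cancel h3).symm

variable {C : Module.Basis W ℤ[T;T⁻¹] A.H} (hC : IsKL A bar C)

include hbar hC in
/-- the Kazhdan-Lusztig basis is the explicit one -/
theorem C_eq {a : ℕ} (ha : a < 48) : C (E cs a) = KL A a := by
  rw [← sub_eq_zero]
  apply unique_zero hbar
  · rw [map_sub, hC.bar_C, bar_KL hbar (ln a) a ha rfl]
  · intro b hb
    rw [cf_sub, cf_KL A hb]
    have h := (shapes ha).2.2.1 b hb
    by_cases hab : a = b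
    · subst hab
      rw [if_pos rfl] at h
      have h1 : cf A (C (E cs a)) a = 1 := hC.diag _
      have h2 : ev (T 1) (pL a a) = 1 := by
        cases hp : pL a a with
        | nil => rw [hp] at h; simp at h
        | cons c x =>
          rw [hp] at h
          obtain ⟨g1, g2⟩ := h
          rw [List.getD_cons_zero] at g1
          rw [ev_cons, ev_zeros (T 1) x g2, g1]
          simp
      rw [h1, h2, sub_self]
      intro k _
      rfl
    · rw [if_neg hab] at h
      apply pos_sub
      · intro k hk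
        exact hC.upper (E cs a) (E cs b) (fun he => hab (E_inj cs hb ha he).symm) k hk
      · exact pos_ev h

/-- the coefficient of `C_d` -/
noncomputable def cd (C : Module.Basis W ℤ[T;T⁻¹] A.H) (x : A.H) : ℤ[T;T⁻¹] := C.repr x (E cs 33)

lemma cd_add (x y : A.H) : cd C (x + y) = cd C x + cd C y := by simp [cd]

lemma cd_smul (c : ℤ[T;T⁻¹]) (x : A.H) : cd C (c • x) = c * cd C x := by simp [cd]

/-- linear combinations and lists -/
lemma cd_comb (f : ℕ → A.H) (g : ℕ → List ℕ) (l : List (ℕ × ℕ))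
    (h : ∀ zk ∈ l, cd C (f zk.1) = ev (T 1 + T (-1)) (g zk.1)) :
    cd C (comb A f l) = ev (T 1 + T (-1)) (rhsH l g) := by
  induction l with
  | nil => simp [comb, rhsH, ev, cd]
  | cons zk l ih =>
    have h1 : comb A f (zk :: l) = co zk.2 • f zk.1 + comb A f l := by simp [comb]
    have h2 : rhsH (zk :: l) g = addL (if zk.2 = 0 then 0 :: g zk.1 else smL zk.2 (g zk.1))
        (rhsH l g) := rfl
    rw [h1, h2, cd_add, cd_smul, ih (fun z hz => h z (List.mem_cons_of_mem _ hz)), ev_addL,
      h zk (List.mem_cons_self ..)]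
    congr 1
    unfold co
    split_ifs with h3
    · rw [ev_cons, Nat.cast_zero, zero_add]
    · rw [ev_smL]

lemma mul_comb (x : A.H) (f : ℕ → A.H) (l : List (ℕ × ℕ)) :
    x * comb A f l = comb A (fun z => x * f z) l := by
  induction l with
  | nil => simp [comb]
  | cons zk l ih =>
    have h1 : ∀ f : ℕ → A.H, comb A f (zk :: l) = co zk.2 • f zk.1 + comb A f l := by
      intro f; simp [comb]
    rw [h1, h1, mul_add, ih, mul_smul_comm]

lemma comb_mul (x : A.H) (f : ℕ → A.H) (l : List (ℕ × ℕ)) :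
    comb A f l * x = comb A (fun z => f z * x) l := by
  induction l with
  | nil => simp [comb]
  | cons zk l ih =>
    have h1 : ∀ f : ℕ → A.H, comb A f (zk :: l) = co zk.2 • f zk.1 + comb A f l := by
      intro f; simp [comb]
    rw [h1, h1, add_mul, ih, smul_mul_assoc]

include hbar hC in
/-- the structure constants `h_{x,y,d}` -/
theorem structure_const (n : ℕ) : ∀ x, x < 48 → ln x = n → ∀ y, y < 48 →
    cd C (KL A x * KL A y) = ev (T 1 + T (-1)) (hL x y) := by
  induction n using Nat.strong_induction_on with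
  | _ n ih =>
    intro x hx hn y hy
    by_cases hx0 : x = 0
    · subst hx0
      rw [KL_zero, one_mul, ← C_eq hbar hC hy, (shapes hy).2.2.2]
      unfold cd
      rw [Module.Basis.repr_self]
      by_cases h33 : y = 33
      · subst h33
        rw [if_pos rfl, Finsupp.single_eq_same]
        simp [ev]
      · rw [if_neg h33, Finsupp.single_eq_of_ne]
        · simp [ev]
        · intro he
          exact h33 (E_inj cs (by norm_num) hy he).symm
    · obtain ⟨-, d2, d3⟩ := desc hx
      have d3 := d3.resolve_left hx0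
      obtain ⟨-, -, -, -, k5, k6, -, -⟩ := (tabs hx).2.2 (rd x) d2
      obtain ⟨l, hl, hl2⟩ := (shapes hx).1 hx0
      have h1 := KL_mul_Cs A hx hx0
      have h2 : KL A (mr (rd x) x) * (Cs A (rd x) * KL A y) =
          comb A (fun z => KL A z * KL A y) (rr (rd x) (mr (rd x) x)) := by
        rw [← mul_assoc, h1, comb_mul]
      rw [Cs_mul_KL A d2 hy, mul_comb] at h2
      have h3 := congrArg (cd C) h2
      rw [cd_comb (C := C) (fun z => KL A (mr (rd x) x) * KL A z)
        (fun z => hL (mr (rd x) x) z) (rl (rd x) y) (fun zk hzk =>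
          ih (ln (mr (rd x) x)) (by omega) _ k5 rfl _ ((shapes hy).2.1 _ d2 zk hzk))] at h3
      have h := chkH_true
      unfold chkH at h
      rw [List.all_eq_true] at h
      have g1 := h x (List.mem_range.mpr hx)
      rw [Bool.or_eq_true, beq_iff_eq] at g1
      have g2 := g1.resolve_left hx0
      rw [List.all_eq_true] at g2
      rw [← ev_eqvL _ _ _ (g2 y (List.mem_range.mpr hy)), hl] at h3
      have e1 : comb A (fun z => KL A z * KL A y) ((x, 1) :: l) =
          KL A x * KL A y + comb A (fun z => KL A z * KL A y) l := by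
        simp [comb, co]
      have e2 : rhsH ((x, 1) :: l) (fun z => hL z y) = addL (smL 1 (hL x y))
          (rhsH l (fun z => hL z y)) := rfl
      rw [e1, e2, cd_add, ev_addL, ev_smL, Nat.cast_one, one_mul,
        cd_comb (C := C) (fun z => KL A z * KL A y) (fun z => hL z y) l (fun zk hzk => by
          obtain ⟨j1, j2, j3⟩ := hl2 zk hzk
          exact ih (ln zk.1) (by omega) _ j1 rfl y hy)] at h3
      exact (add_right_cancel h3).symm

lemma coeff_ev_delta (x : List ℕ) (hx : x.length = 3) (k : ℤ) (hk : k < -2) :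
    (ev (T 1 + T (-1)) x).coeff k = 0 := by
  match x, hx with
  | [a, b, c], _ =>
    simp only [ev]
    have e : ((a : ℕ) : ℤ[T;T⁻¹]) + (T 1 + T (-1)) * (((b : ℕ) : ℤ[T;T⁻¹]) + (T 1 + T (-1)) *
        (((c : ℕ) : ℤ[T;T⁻¹]) + (T 1 + T (-1)) * 0)) =
        (a : ℤ[T;T⁻¹]) + T 1 * (b : ℤ[T;T⁻¹]) + T (-1) * (b : ℤ[T;T⁻¹]) +
          T 2 * (c : ℤ[T;T⁻¹]) + T (-2) * (c : ℤ[T;T⁻¹]) + 2 * (c : ℤ[T;T⁻¹]) := by
      have e2 : (T 2 : ℤ[T;T⁻¹]) = T 1 * T 1 := by rw [← T_add]; norm_num
      have e3 : (T (-2) : ℤ[T;T⁻¹]) = T (-1) * T (-1) := by rw [← T_add]; norm_num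
      rw [e2, e3]
      linear_combination (2 * (c : ℤ[T;T⁻¹])) * T1_T
    rw [e]
    have e4 : (2 : ℤ[T;T⁻¹]) * (c : ℤ[T;T⁻¹]) = ((2 * c : ℕ) : ℤ[T;T⁻¹]) := by push_cast; ring
    rw [e4]
    simp only [AddMonoidAlgebra.coeff_add, Finsupp.add_apply, coeff_T_mul, coeff_natCast]
    rw [if_neg (by omega), if_neg (by omega), if_neg (by omega), if_neg (by omega),
      if_neg (by omega), if_neg (by omega)]
    rfl

end

end Pool.Agent.Lib.FSB.M1

namespace Pool.Agent.Lib.FSB

open M1

variable {W : Type} [Group W]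

/-- M1b -/
theorem aFun_d (cs : CoxeterSystem cmB3 W) (A : HeckeAlg cs) (bar : A.H →+* A.H)
    (hbar : IsBar A bar) (C : Module.Basis W ℤ[T;T⁻¹] A.H) (hC : IsKL A bar C) :
    aFun C (cs.wordProd [0, 1, 0, 2, 1, 0]) = 2 := by
  rw [wordProd_d]
  have hst : ∀ x y : W, C.repr (C x * C y) (E cs 33) =
      ev (T 1 + T (-1)) (hL (idx cs x) (idx cs y)) := by
    intro x y
    have hx := idx_lt cs x
    have hy := idx_lt cs y
    have h := structure_const hbar hC (ln (idx cs x)) (idx cs x) hx rfl (idx cs y) hy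
    rw [← C_eq hbar hC hx, ← C_eq hbar hC hy, E_idx, E_idx] at h
    exact h
  unfold aFun
  apply le_antisymm
  · apply Nat.sInf_le
    intro x y k hk
    rw [hst]
    apply coeff_ev_delta _ (by rfl) k
    push_cast at hk
    exact hk
  · apply le_csInf
    · refine ⟨2, fun x y k hk => ?_⟩
      rw [hst]
      apply coeff_ev_delta _ (by rfl) k
      push_cast at hk
      exact hk
    · intro n hn
      by_contra hcon
      rw [not_le] at hcon
      have h1 := hn (E cs 33) (E cs 33) (-2) (by omega)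
      rw [hst, idx_E cs (by norm_num)] at h1
      have h2 : hL 33 33 = [0, 0, 1] := by decide +kernel
      rw [h2] at h1
      have e : ev (T 1 + T (-1)) [0, 0, 1] = T 2 + T (-2) + ((2 : ℕ) : ℤ[T;T⁻¹]) := by
        simp only [ev]
        have e2 : (T 2 : ℤ[T;T⁻¹]) = T 1 * T 1 := by rw [← T_add]; norm_num
        have e3 : (T (-2) : ℤ[T;T⁻¹]) = T (-1) * T (-1) := by rw [← T_add]; norm_num
        rw [e2, e3]
        push_cast
        linear_combination 2 * T1_T
      rw [e] at h1
      simp only [AddMonoidAlgebra.coeff_add, Finsupp.add_apply, T_apply, coeff_natCast] at h1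
      norm_num at h1

/-- M1b -/
theorem DeltaFun_d (cs : CoxeterSystem cmB3 W) (A : HeckeAlg cs) (bar : A.H →+* A.H)
    (hbar : IsBar A bar) (C : Module.Basis W ℤ[T;T⁻¹] A.H) (hC : IsKL A bar C) :
    DeltaFun C (cs.wordProd [0, 1, 0, 2, 1, 0]) = 2 := by
  rw [wordProd_d]
  unfold DeltaFun
  have h1 : A.std.repr (C (E cs 33)) 1 = ev (T 1) (pL 0 33) := by
    rw [C_eq hbar hC (by norm_num), ← E_zero cs]
    exact cf_KL A (by norm_num)
  rw [h1]
  have h2 : pL 0 33 = [0, 0, 1, 0, 0, 0, 1, 0, 0, 0] := by decide +kernel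
  rw [h2]
  apply le_antisymm
  · apply Nat.sInf_le
    rw [Set.mem_ofPred_eq, coeff_ev, if_pos (by norm_num)]
    decide
  · apply le_csInf
    · refine ⟨2, ?_⟩
      rw [Set.mem_ofPred_eq, coeff_ev, if_pos (by norm_num)]
      decide
    · intro n hn
      by_contra hcon
      rw [not_le] at hcon
      rw [Set.mem_ofPred_eq, coeff_ev] at hn
      have : n = 0 ∨ n = 1 := by omega
      rcases this with rfl | rfl
      · norm_num at hn
      · norm_num at hn

end Pool.Agent.Lib.FSB
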