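import Mathlib

/-!
# Tables for the Coxeter group of type `B₃` (48 elements)

The elements are numbered `0, …, 47`, by length.
-/

set_option autoImplicit false
set_option linter.style.longLine false

namespace Pool.Agent.Lib.FSB.M1

/-- left multiplication by the simple reflections -/
def tml : List (List ℕ) := [
  [1, 0, 6, 5, 9, 3, 2, 13, 15, 4, 17, 19, 16, 7, 22, 8, 12, 10, 26, 11, 24, 29, 14, 27, 20, 33, 18, 23, 36, 21, 37, 35, 39, 25, 40, 31, 28, 30, 43, 32, 34, 45, 44, 38, 42, 41, 47, 46],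
  [2, 4, 0, 8, 1, 11, 12, 14, 3, 16, 18, 5, 6, 21, 7, 23, 9, 25, 10, 27, 28, 13, 30, 15, 32, 17, 34, 19, 20, 37, 22, 38, 24, 40, 26, 41, 42, 29, 31, 44, 33, 35, 36, 46, 39, 47, 43, 45],
  [3, 5, 7, 0, 10, 1, 13, 2, 14, 17, 4, 18, 20, 6, 8, 22, 24, 9, 11, 26, 12, 28, 15, 31, 16, 32, 19, 35, 21, 36, 38, 23, 25, 39, 41, 27, 29, 43, 30, 33, 45, 34, 46, 37, 47, 40, 42, 44]]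

/-- right multiplication by the simple reflections -/
def tmr : List (List ℕ) := [
  [1, 0, 4, 5, 2, 3, 9, 10, 11, 6, 7, 8, 16, 17, 18, 19, 12, 13, 14, 15, 24, 25, 26, 27, 20, 21, 22, 23, 32, 33, 34, 35, 28, 29, 30, 31, 39, 40, 41, 36, 37, 38, 44, 45, 42, 43, 47, 46],
  [2, 6, 0, 7, 12, 13, 1, 3, 14, 16, 20, 21, 4, 5, 8, 22, 9, 24, 28, 29, 10, 11, 15, 30, 17, 32, 36, 37, 18, 19, 23, 38, 25, 39, 42, 43, 26, 27, 31, 33, 44, 46, 34, 35, 40, 47, 41, 45],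
  [3, 5, 8, 0, 11, 1, 15, 14, 2, 19, 18, 4, 23, 22, 7, 6, 27, 26, 10, 9, 31, 30, 13, 12, 35, 34, 17, 16, 38, 37, 21, 20, 41, 40, 25, 24, 43, 29, 28, 45, 33, 32, 46, 36, 47, 39, 42, 44]]

/-- lengths -/
def tlen : List ℕ := [0, 1, 1, 1, 2, 2, 2, 2, 2, 3, 3, 3, 3, 3, 3, 3, 4, 4, 4, 4, 4, 4, 4, 4, 5, 5, 5, 5, 5, 5, 5, 5, 6, 6, 6, 6, 6, 6, 6, 7, 7, 7, 7, 7, 8, 8, 8, 9]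

/-- reduced words -/
def tword : List (List ℕ) := [
  [],
  [0],
  [1],
  [2],
  [1, 0],
  [0, 2],
  [0, 1],
  [2, 1],
  [1, 2],
  [0, 1, 0],
  [2, 1, 0],
  [1, 0, 2],
  [1, 0, 1],
  [0, 2, 1],
  [1, 2, 1],
  [0, 1, 2],
  [0, 1, 0, 1],
  [0, 2, 1, 0],
  [1, 2, 1, 0],
  [0, 1, 0, 2],
  [2, 1, 0, 1],
  [1, 0, 2, 1],
  [0, 1, 2, 1],
  [1, 0, 1, 2],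
  [0, 2, 1, 0, 1],
  [1, 0, 2, 1, 0],
  [0, 1, 2, 1, 0],
  [0, 1, 0, 1, 2],
  [1, 2, 1, 0, 1],
  [0, 1, 0, 2, 1],
  [1, 0, 1, 2, 1],
  [2, 1, 0, 1, 2],
  [1, 0, 2, 1, 0, 1],
  [0, 1, 0, 2, 1, 0],
  [1, 0, 1, 2, 1, 0],
  [0, 2, 1, 0, 1, 2],
  [0, 1, 2, 1, 0, 1],
  [0, 1, 0, 1, 2, 1],
  [1, 2, 1, 0, 1, 2],
  [0, 1, 0, 2, 1, 0, 1],
  [0, 1, 0, 1, 2, 1, 0],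
  [1, 0, 2, 1, 0, 1, 2],
  [1, 0, 1, 2, 1, 0, 1],
  [0, 1, 2, 1, 0, 1, 2],
  [0, 1, 0, 1, 2, 1, 0, 1],
  [0, 1, 0, 2, 1, 0, 1, 2],
  [1, 0, 1, 2, 1, 0, 1, 2],
  [0, 1, 0, 1, 2, 1, 0, 1, 2]]

/-- a right descent of every element -/
def trd : List ℕ := [0, 0, 1, 2, 0, 0, 1, 1, 2, 0, 0, 0, 1, 1, 1, 2, 0, 0, 0, 0, 1, 1, 1, 2, 0, 0, 0, 0, 1, 1, 1, 2, 0, 0, 0, 0, 1, 1, 1, 0, 0, 0, 1, 1, 0, 0, 1, 0]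

/-- the polynomial `p_{b,a}` is in row `a`, column `b`; bit `k` is the coefficient of `v^k` -/
def tP : List (List ℕ) := [
  [1, 0, 0, 0, 0, 0, 0, 0, 0, 0, 0, 0, 0, 0, 0, 0, 0, 0, 0, 0, 0, 0, 0, 0, 0, 0, 0, 0, 0, 0, 0, 0, 0, 0, 0, 0, 0, 0, 0, 0, 0, 0, 0, 0, 0, 0, 0, 0],
  [2, 1, 0, 0, 0, 0, 0, 0, 0, 0, 0, 0, 0, 0, 0, 0, 0, 0, 0, 0, 0, 0, 0, 0, 0, 0, 0, 0, 0, 0, 0, 0, 0, 0, 0, 0, 0, 0, 0, 0, 0, 0, 0, 0, 0, 0, 0, 0],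
  [2, 0, 1, 0, 0, 0, 0, 0, 0, 0, 0, 0, 0, 0, 0, 0, 0, 0, 0, 0, 0, 0, 0, 0, 0, 0, 0, 0, 0, 0, 0, 0, 0, 0, 0, 0, 0, 0, 0, 0, 0, 0, 0, 0, 0, 0, 0, 0],
  [2, 0, 0, 1, 0, 0, 0, 0, 0, 0, 0, 0, 0, 0, 0, 0, 0, 0, 0, 0, 0, 0, 0, 0, 0, 0, 0, 0, 0, 0, 0, 0, 0, 0, 0, 0, 0, 0, 0, 0, 0, 0, 0, 0, 0, 0, 0, 0],
  [4, 2, 2, 0, 1, 0, 0, 0, 0, 0, 0, 0, 0, 0, 0, 0, 0, 0, 0, 0, 0, 0, 0, 0, 0, 0, 0, 0, 0, 0, 0, 0, 0, 0, 0, 0, 0, 0, 0, 0, 0, 0, 0, 0, 0, 0, 0, 0],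
  [4, 2, 0, 2, 0, 1, 0, 0, 0, 0, 0, 0, 0, 0, 0, 0, 0, 0, 0, 0, 0, 0, 0, 0, 0, 0, 0, 0, 0, 0, 0, 0, 0, 0, 0, 0, 0, 0, 0, 0, 0, 0, 0, 0, 0, 0, 0, 0],
  [4, 2, 2, 0, 0, 0, 1, 0, 0, 0, 0, 0, 0, 0, 0, 0, 0, 0, 0, 0, 0, 0, 0, 0, 0, 0, 0, 0, 0, 0, 0, 0, 0, 0, 0, 0, 0, 0, 0, 0, 0, 0, 0, 0, 0, 0, 0, 0],
  [4, 0, 2, 2, 0, 0, 0, 1, 0, 0, 0, 0, 0, 0, 0, 0, 0, 0, 0, 0, 0, 0, 0, 0, 0, 0, 0, 0, 0, 0, 0, 0, 0, 0, 0, 0, 0, 0, 0, 0, 0, 0, 0, 0, 0, 0, 0, 0],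
  [4, 0, 2, 2, 0, 0, 0, 0, 1, 0, 0, 0, 0, 0, 0, 0, 0, 0, 0, 0, 0, 0, 0, 0, 0, 0, 0, 0, 0, 0, 0, 0, 0, 0, 0, 0, 0, 0, 0, 0, 0, 0, 0, 0, 0, 0, 0, 0],
  [8, 4, 4, 0, 2, 0, 2, 0, 0, 1, 0, 0, 0, 0, 0, 0, 0, 0, 0, 0, 0, 0, 0, 0, 0, 0, 0, 0, 0, 0, 0, 0, 0, 0, 0, 0, 0, 0, 0, 0, 0, 0, 0, 0, 0, 0, 0, 0],
  [8, 4, 4, 4, 2, 2, 0, 2, 0, 0, 1, 0, 0, 0, 0, 0, 0, 0, 0, 0, 0, 0, 0, 0, 0, 0, 0, 0, 0, 0, 0, 0, 0, 0, 0, 0, 0, 0, 0, 0, 0, 0, 0, 0, 0, 0, 0, 0],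
  [8, 4, 4, 4, 2, 2, 0, 0, 2, 0, 0, 1, 0, 0, 0, 0, 0, 0, 0, 0, 0, 0, 0, 0, 0, 0, 0, 0, 0, 0, 0, 0, 0, 0, 0, 0, 0, 0, 0, 0, 0, 0, 0, 0, 0, 0, 0, 0],
  [8, 4, 4, 0, 2, 0, 2, 0, 0, 0, 0, 0, 1, 0, 0, 0, 0, 0, 0, 0, 0, 0, 0, 0, 0, 0, 0, 0, 0, 0, 0, 0, 0, 0, 0, 0, 0, 0, 0, 0, 0, 0, 0, 0, 0, 0, 0, 0],
  [8, 4, 4, 4, 0, 2, 2, 2, 0, 0, 0, 0, 0, 1, 0, 0, 0, 0, 0, 0, 0, 0, 0, 0, 0, 0, 0, 0, 0, 0, 0, 0, 0, 0, 0, 0, 0, 0, 0, 0, 0, 0, 0, 0, 0, 0, 0, 0],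
  [8, 0, 4, 4, 0, 0, 0, 2, 2, 0, 0, 0, 0, 0, 1, 0, 0, 0, 0, 0, 0, 0, 0, 0, 0, 0, 0, 0, 0, 0, 0, 0, 0, 0, 0, 0, 0, 0, 0, 0, 0, 0, 0, 0, 0, 0, 0, 0],
  [8, 4, 4, 4, 0, 2, 2, 0, 2, 0, 0, 0, 0, 0, 0, 1, 0, 0, 0, 0, 0, 0, 0, 0, 0, 0, 0, 0, 0, 0, 0, 0, 0, 0, 0, 0, 0, 0, 0, 0, 0, 0, 0, 0, 0, 0, 0, 0],
  [16, 8, 8, 0, 4, 0, 4, 0, 0, 2, 0, 0, 2, 0, 0, 0, 1, 0, 0, 0, 0, 0, 0, 0, 0, 0, 0, 0, 0, 0, 0, 0, 0, 0, 0, 0, 0, 0, 0, 0, 0, 0, 0, 0, 0, 0, 0, 0],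
  [16, 8, 8, 8, 4, 4, 4, 4, 0, 2, 2, 0, 0, 2, 0, 0, 0, 1, 0, 0, 0, 0, 0, 0, 0, 0, 0, 0, 0, 0, 0, 0, 0, 0, 0, 0, 0, 0, 0, 0, 0, 0, 0, 0, 0, 0, 0, 0],
  [16, 8, 8, 8, 4, 4, 0, 4, 4, 0, 2, 2, 0, 0, 2, 0, 0, 0, 1, 0, 0, 0, 0, 0, 0, 0, 0, 0, 0, 0, 0, 0, 0, 0, 0, 0, 0, 0, 0, 0, 0, 0, 0, 0, 0, 0, 0, 0],
  [16, 8, 8, 8, 4, 4, 4, 0, 4, 2, 0, 2, 0, 0, 0, 2, 0, 0, 0, 1, 0, 0, 0, 0, 0, 0, 0, 0, 0, 0, 0, 0, 0, 0, 0, 0, 0, 0, 0, 0, 0, 0, 0, 0, 0, 0, 0, 0],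
  [16, 8, 8, 8, 4, 4, 4, 4, 0, 0, 2, 0, 2, 2, 0, 0, 0, 0, 0, 0, 1, 0, 0, 0, 0, 0, 0, 0, 0, 0, 0, 0, 0, 0, 0, 0, 0, 0, 0, 0, 0, 0, 0, 0, 0, 0, 0, 0],
  [20, 8, 10, 8, 4, 4, 4, 4, 4, 0, 0, 2, 2, 2, 2, 0, 0, 0, 0, 0, 0, 1, 0, 0, 0, 0, 0, 0, 0, 0, 0, 0, 0, 0, 0, 0, 0, 0, 0, 0, 0, 0, 0, 0, 0, 0, 0, 0],
  [16, 8, 8, 8, 0, 4, 4, 4, 4, 0, 0, 0, 0, 2, 2, 2, 0, 0, 0, 0, 0, 0, 1, 0, 0, 0, 0, 0, 0, 0, 0, 0, 0, 0, 0, 0, 0, 0, 0, 0, 0, 0, 0, 0, 0, 0, 0, 0],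
  [16, 8, 8, 8, 4, 4, 4, 0, 4, 0, 0, 2, 2, 0, 0, 2, 0, 0, 0, 0, 0, 0, 0, 1, 0, 0, 0, 0, 0, 0, 0, 0, 0, 0, 0, 0, 0, 0, 0, 0, 0, 0, 0, 0, 0, 0, 0, 0],
  [32, 16, 16, 16, 8, 8, 8, 8, 0, 4, 4, 0, 4, 4, 0, 0, 2, 2, 0, 0, 2, 0, 0, 0, 1, 0, 0, 0, 0, 0, 0, 0, 0, 0, 0, 0, 0, 0, 0, 0, 0, 0, 0, 0, 0, 0, 0, 0],
  [40, 20, 20, 16, 10, 8, 8, 8, 8, 4, 4, 4, 4, 4, 4, 0, 2, 2, 2, 0, 0, 2, 0, 0, 0, 1, 0, 0, 0, 0, 0, 0, 0, 0, 0, 0, 0, 0, 0, 0, 0, 0, 0, 0, 0, 0, 0, 0],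
  [40, 20, 16, 20, 8, 10, 8, 8, 8, 4, 4, 4, 0, 4, 4, 4, 0, 2, 2, 2, 0, 0, 2, 0, 0, 0, 1, 0, 0, 0, 0, 0, 0, 0, 0, 0, 0, 0, 0, 0, 0, 0, 0, 0, 0, 0, 0, 0],
  [32, 16, 16, 16, 8, 8, 8, 0, 8, 4, 0, 4, 4, 0, 0, 4, 2, 0, 0, 2, 0, 0, 0, 2, 0, 0, 0, 1, 0, 0, 0, 0, 0, 0, 0, 0, 0, 0, 0, 0, 0, 0, 0, 0, 0, 0, 0, 0],
  [32, 16, 16, 16, 8, 8, 8, 8, 8, 0, 4, 4, 4, 4, 4, 0, 0, 0, 2, 0, 2, 2, 0, 0, 0, 0, 0, 0, 1, 0, 0, 0, 0, 0, 0, 0, 0, 0, 0, 0, 0, 0, 0, 0, 0, 0, 0, 0],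
  [40, 20, 20, 16, 8, 8, 10, 8, 8, 4, 0, 4, 4, 4, 4, 4, 2, 0, 0, 2, 0, 2, 2, 0, 0, 0, 0, 0, 0, 1, 0, 0, 0, 0, 0, 0, 0, 0, 0, 0, 0, 0, 0, 0, 0, 0, 0, 0],
  [32, 16, 16, 16, 8, 8, 8, 8, 8, 0, 0, 4, 4, 4, 4, 4, 0, 0, 0, 0, 0, 2, 2, 2, 0, 0, 0, 0, 0, 0, 1, 0, 0, 0, 0, 0, 0, 0, 0, 0, 0, 0, 0, 0, 0, 0, 0, 0],
  [40, 20, 16, 20, 8, 10, 8, 8, 8, 0, 4, 4, 4, 4, 4, 4, 0, 0, 2, 0, 2, 0, 2, 2, 0, 0, 0, 0, 0, 0, 0, 1, 0, 0, 0, 0, 0, 0, 0, 0, 0, 0, 0, 0, 0, 0, 0, 0],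
  [64, 32, 32, 32, 16, 16, 16, 16, 16, 8, 8, 8, 8, 8, 8, 0, 4, 4, 4, 0, 4, 4, 0, 0, 2, 2, 0, 0, 2, 0, 0, 0, 1, 0, 0, 0, 0, 0, 0, 0, 0, 0, 0, 0, 0, 0, 0, 0],
  [68, 34, 32, 32, 16, 16, 16, 16, 16, 8, 8, 8, 8, 8, 8, 8, 4, 4, 4, 4, 0, 4, 4, 0, 0, 2, 2, 0, 0, 2, 0, 0, 0, 1, 0, 0, 0, 0, 0, 0, 0, 0, 0, 0, 0, 0, 0, 0],
  [80, 40, 40, 40, 20, 20, 16, 16, 20, 8, 8, 10, 8, 8, 8, 8, 4, 4, 4, 4, 0, 4, 4, 4, 0, 2, 2, 2, 0, 0, 2, 0, 0, 0, 1, 0, 0, 0, 0, 0, 0, 0, 0, 0, 0, 0, 0, 0],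
  [80, 40, 32, 40, 16, 20, 16, 16, 16, 8, 8, 8, 8, 8, 8, 8, 4, 4, 4, 4, 4, 0, 4, 4, 2, 0, 2, 2, 0, 0, 0, 2, 0, 0, 0, 1, 0, 0, 0, 0, 0, 0, 0, 0, 0, 0, 0, 0],
  [80, 40, 40, 40, 16, 20, 20, 20, 16, 8, 8, 8, 8, 10, 8, 8, 4, 4, 4, 4, 4, 4, 4, 0, 2, 0, 2, 0, 2, 2, 0, 0, 0, 0, 0, 0, 1, 0, 0, 0, 0, 0, 0, 0, 0, 0, 0, 0],
  [64, 32, 32, 32, 16, 16, 16, 16, 16, 8, 0, 8, 8, 8, 8, 8, 4, 0, 0, 4, 0, 4, 4, 4, 0, 0, 0, 2, 0, 2, 2, 0, 0, 0, 0, 0, 0, 1, 0, 0, 0, 0, 0, 0, 0, 0, 0, 0],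
  [64, 32, 32, 32, 16, 16, 16, 16, 16, 0, 8, 8, 8, 8, 8, 8, 0, 0, 4, 0, 4, 4, 4, 4, 0, 0, 0, 0, 2, 0, 2, 2, 0, 0, 0, 0, 0, 0, 1, 0, 0, 0, 0, 0, 0, 0, 0, 0],
  [128, 64, 64, 64, 32, 32, 32, 32, 32, 16, 16, 16, 16, 16, 16, 16, 8, 8, 8, 8, 8, 8, 8, 0, 4, 4, 4, 0, 4, 4, 0, 0, 2, 2, 0, 0, 2, 0, 0, 1, 0, 0, 0, 0, 0, 0, 0, 0],
  [128, 64, 64, 64, 32, 32, 32, 32, 32, 16, 16, 16, 16, 16, 16, 16, 8, 8, 8, 8, 0, 8, 8, 8, 0, 4, 4, 4, 0, 4, 4, 0, 0, 2, 2, 0, 0, 2, 0, 0, 1, 0, 0, 0, 0, 0, 0, 0],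
  [160, 80, 80, 80, 40, 40, 32, 40, 40, 16, 20, 20, 16, 16, 20, 16, 8, 8, 10, 8, 8, 8, 8, 8, 4, 4, 4, 4, 4, 0, 4, 4, 2, 0, 2, 2, 0, 0, 2, 0, 0, 1, 0, 0, 0, 0, 0, 0],
  [168, 80, 84, 80, 40, 40, 40, 40, 40, 20, 16, 20, 20, 20, 20, 16, 10, 8, 8, 8, 8, 10, 8, 8, 4, 4, 4, 4, 4, 4, 4, 0, 2, 0, 2, 0, 2, 2, 0, 0, 0, 0, 1, 0, 0, 0, 0, 0],
  [160, 80, 80, 80, 32, 40, 40, 40, 40, 16, 16, 16, 16, 20, 20, 20, 8, 8, 8, 8, 8, 8, 10, 8, 4, 0, 4, 4, 4, 4, 4, 4, 0, 0, 0, 2, 2, 2, 2, 0, 0, 0, 0, 1, 0, 0, 0, 0],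
  [256, 128, 128, 128, 64, 64, 64, 64, 64, 32, 32, 32, 32, 32, 32, 32, 16, 16, 16, 16, 16, 16, 16, 16, 8, 8, 8, 8, 8, 8, 8, 0, 4, 4, 4, 0, 4, 4, 0, 2, 2, 0, 2, 0, 1, 0, 0, 0],
  [320, 160, 160, 160, 80, 80, 80, 80, 80, 40, 40, 40, 32, 40, 40, 40, 16, 20, 20, 20, 16, 16, 20, 16, 8, 8, 10, 8, 8, 8, 8, 8, 4, 4, 4, 4, 4, 4, 4, 2, 2, 2, 0, 2, 0, 1, 0, 0],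
  [272, 128, 136, 136, 64, 64, 64, 68, 68, 32, 32, 32, 32, 32, 34, 32, 16, 16, 16, 16, 16, 16, 16, 16, 8, 8, 8, 8, 8, 8, 8, 8, 4, 0, 4, 4, 4, 4, 4, 0, 0, 2, 2, 2, 0, 0, 1, 0],
  [512, 256, 256, 256, 128, 128, 128, 128, 128, 64, 64, 64, 64, 64, 64, 64, 32, 32, 32, 32, 32, 32, 32, 32, 16, 16, 16, 16, 16, 16, 16, 16, 8, 8, 8, 8, 8, 8, 8, 4, 4, 4, 4, 4, 2, 2, 2, 1]]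

/-- `h_{x,y,d}` in row `x`, column `y`; bit `k` is the coefficient of `(v + v⁻¹)^k` -/
def tH : List (List ℕ) := [
  [0, 0, 0, 0, 0, 0, 0, 0, 0, 0, 0, 0, 0, 0, 0, 0, 0, 0, 0, 0, 0, 0, 0, 0, 0, 0, 0, 0, 0, 0, 0, 0, 0, 1, 0, 0, 0, 0, 0, 0, 0, 0, 0, 0, 0, 0, 0, 0],
  [0, 0, 0, 0, 0, 0, 0, 0, 0, 0, 0, 0, 0, 0, 0, 0, 0, 0, 0, 0, 0, 0, 0, 0, 0, 1, 0, 0, 0, 0, 0, 0, 0, 2, 0, 0, 0, 0, 0, 0, 0, 0, 0, 0, 0, 0, 0, 0],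
  [0, 0, 0, 0, 0, 0, 0, 0, 0, 0, 0, 0, 0, 0, 0, 0, 0, 0, 0, 0, 0, 0, 0, 0, 0, 0, 0, 0, 0, 0, 0, 0, 0, 0, 0, 0, 0, 0, 0, 0, 0, 0, 0, 0, 0, 0, 0, 0],
  [0, 0, 0, 0, 0, 0, 0, 0, 0, 0, 0, 0, 0, 0, 0, 0, 0, 0, 0, 0, 0, 0, 0, 0, 0, 0, 0, 0, 0, 0, 0, 0, 0, 0, 0, 0, 0, 0, 0, 0, 0, 0, 0, 0, 0, 0, 0, 0],
  [0, 0, 0, 0, 0, 0, 0, 0, 0, 0, 0, 0, 0, 0, 0, 0, 0, 0, 0, 0, 0, 0, 0, 0, 0, 0, 0, 0, 0, 0, 0, 0, 0, 0, 0, 0, 0, 0, 0, 0, 0, 0, 0, 0, 0, 0, 0, 0],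
  [0, 0, 0, 0, 0, 0, 0, 0, 0, 0, 0, 0, 0, 0, 0, 0, 0, 0, 0, 0, 0, 0, 0, 0, 0, 0, 0, 0, 0, 0, 0, 0, 0, 0, 0, 0, 0, 0, 0, 0, 0, 0, 0, 0, 0, 0, 0, 0],
  [0, 0, 0, 0, 0, 0, 0, 0, 0, 0, 0, 0, 0, 0, 0, 0, 0, 1, 0, 0, 0, 0, 0, 0, 0, 2, 0, 0, 0, 0, 0, 0, 0, 1, 0, 0, 0, 0, 0, 0, 0, 0, 0, 0, 0, 0, 0, 0],
  [0, 0, 0, 0, 0, 0, 0, 0, 0, 0, 0, 0, 0, 0, 0, 0, 0, 0, 0, 0, 0, 0, 0, 0, 0, 0, 0, 0, 0, 0, 0, 0, 0, 0, 0, 0, 0, 0, 0, 0, 0, 0, 0, 0, 0, 0, 0, 0],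
  [0, 0, 0, 0, 0, 0, 0, 0, 0, 0, 0, 0, 0, 0, 0, 0, 0, 0, 0, 0, 0, 0, 0, 0, 0, 0, 0, 0, 0, 0, 0, 0, 0, 0, 0, 0, 0, 0, 0, 0, 0, 0, 0, 0, 0, 0, 0, 0],
  [0, 0, 0, 0, 0, 0, 0, 0, 0, 0, 1, 0, 0, 0, 0, 0, 0, 2, 0, 0, 0, 0, 0, 0, 0, 1, 0, 0, 0, 0, 0, 0, 0, 0, 0, 0, 0, 0, 0, 0, 0, 0, 0, 0, 0, 0, 0, 0],
  [0, 0, 0, 0, 0, 0, 0, 0, 0, 0, 0, 0, 0, 0, 0, 0, 0, 0, 0, 0, 0, 0, 0, 0, 0, 0, 0, 0, 0, 0, 0, 0, 0, 0, 0, 0, 0, 0, 0, 0, 0, 0, 0, 0, 0, 0, 0, 0],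
  [0, 0, 0, 0, 0, 0, 0, 0, 0, 0, 0, 0, 0, 0, 0, 0, 0, 0, 0, 0, 0, 0, 0, 0, 0, 0, 0, 0, 0, 0, 0, 0, 0, 0, 0, 0, 0, 0, 0, 0, 0, 0, 0, 0, 0, 0, 0, 0],
  [0, 0, 0, 0, 0, 0, 0, 0, 0, 0, 0, 0, 0, 0, 0, 0, 0, 0, 0, 0, 0, 0, 0, 0, 0, 0, 0, 0, 0, 0, 0, 0, 0, 0, 0, 0, 0, 0, 0, 0, 0, 0, 0, 0, 0, 0, 0, 0],
  [0, 0, 0, 0, 0, 0, 0, 0, 0, 0, 0, 0, 0, 0, 0, 0, 0, 0, 0, 0, 0, 0, 0, 0, 0, 0, 0, 0, 0, 0, 0, 0, 0, 0, 0, 0, 0, 0, 0, 0, 0, 0, 0, 0, 0, 0, 0, 0],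
  [0, 0, 0, 0, 0, 0, 0, 0, 0, 0, 0, 0, 0, 0, 0, 0, 0, 0, 0, 0, 0, 0, 0, 0, 0, 0, 0, 0, 0, 0, 0, 0, 0, 0, 0, 0, 0, 0, 0, 0, 0, 0, 0, 0, 0, 0, 0, 0],
  [0, 0, 0, 0, 0, 0, 0, 0, 0, 1, 0, 0, 0, 0, 0, 0, 0, 2, 0, 0, 0, 0, 0, 0, 0, 1, 0, 0, 0, 0, 0, 0, 0, 0, 0, 0, 0, 0, 0, 0, 0, 0, 0, 0, 0, 0, 0, 0],
  [0, 0, 0, 0, 0, 0, 0, 0, 0, 0, 0, 0, 0, 0, 0, 0, 0, 0, 0, 0, 0, 0, 0, 0, 0, 0, 0, 0, 0, 0, 0, 0, 0, 0, 0, 0, 0, 0, 0, 0, 0, 0, 0, 0, 0, 0, 0, 0],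
  [0, 0, 0, 0, 0, 0, 0, 0, 0, 0, 0, 0, 0, 0, 0, 0, 0, 0, 0, 0, 0, 0, 0, 0, 0, 0, 0, 0, 0, 0, 0, 0, 0, 0, 0, 0, 0, 0, 0, 0, 0, 0, 0, 0, 0, 0, 0, 0],
  [0, 0, 0, 0, 0, 0, 0, 0, 0, 0, 0, 0, 0, 0, 0, 0, 0, 0, 0, 0, 0, 0, 0, 0, 0, 0, 0, 0, 0, 0, 0, 0, 0, 0, 0, 0, 0, 0, 0, 0, 0, 0, 0, 0, 0, 0, 0, 0],
  [0, 0, 0, 0, 1, 0, 0, 0, 0, 2, 2, 0, 0, 0, 0, 0, 0, 4, 0, 0, 0, 0, 0, 0, 0, 2, 0, 0, 0, 0, 0, 0, 0, 0, 0, 0, 0, 0, 0, 0, 0, 0, 0, 0, 0, 0, 0, 0],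
  [0, 0, 0, 0, 0, 0, 0, 0, 0, 0, 0, 0, 0, 0, 0, 0, 0, 0, 0, 0, 0, 0, 0, 0, 0, 0, 0, 0, 0, 0, 0, 0, 0, 0, 0, 0, 0, 0, 0, 0, 0, 0, 0, 0, 0, 0, 0, 0],
  [0, 0, 0, 0, 0, 0, 0, 0, 0, 0, 0, 0, 0, 0, 0, 0, 0, 0, 0, 0, 0, 0, 0, 0, 0, 0, 0, 0, 0, 0, 0, 0, 0, 0, 0, 0, 0, 0, 0, 0, 0, 0, 0, 0, 0, 0, 0, 0],
  [0, 0, 0, 0, 0, 0, 0, 0, 0, 0, 0, 0, 0, 0, 0, 0, 0, 0, 0, 0, 0, 0, 0, 0, 0, 0, 0, 0, 0, 0, 0, 0, 0, 0, 0, 0, 0, 0, 0, 0, 0, 0, 0, 0, 0, 0, 0, 0],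
  [0, 0, 0, 0, 0, 0, 0, 0, 0, 0, 0, 0, 0, 0, 0, 0, 0, 0, 0, 0, 0, 0, 0, 0, 0, 0, 0, 0, 0, 0, 0, 0, 0, 0, 0, 0, 0, 0, 0, 0, 0, 0, 0, 0, 0, 0, 0, 0],
  [0, 0, 0, 0, 0, 0, 0, 0, 0, 0, 0, 0, 0, 0, 0, 0, 0, 0, 0, 0, 0, 0, 0, 0, 0, 0, 0, 0, 0, 0, 0, 0, 0, 0, 0, 0, 0, 0, 0, 0, 0, 0, 0, 0, 0, 0, 0, 0],
  [0, 0, 0, 0, 0, 0, 0, 0, 0, 0, 0, 0, 0, 0, 0, 0, 0, 0, 0, 0, 0, 0, 0, 0, 0, 0, 0, 0, 0, 0, 0, 0, 0, 0, 0, 0, 0, 0, 0, 0, 0, 0, 0, 0, 0, 0, 0, 0],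
  [0, 0, 0, 0, 0, 0, 0, 0, 0, 0, 0, 0, 0, 0, 0, 0, 0, 0, 0, 0, 0, 0, 0, 0, 0, 0, 0, 0, 0, 0, 0, 0, 0, 0, 0, 0, 0, 0, 0, 0, 0, 0, 0, 0, 0, 0, 0, 0],
  [0, 0, 0, 0, 0, 0, 0, 0, 0, 0, 0, 0, 0, 0, 0, 0, 0, 0, 0, 0, 0, 0, 0, 0, 0, 0, 0, 0, 0, 0, 0, 0, 0, 0, 0, 0, 0, 0, 0, 0, 0, 0, 0, 0, 0, 0, 0, 0],
  [0, 0, 0, 0, 0, 0, 0, 0, 0, 0, 0, 0, 0, 0, 0, 0, 0, 0, 0, 0, 0, 0, 0, 0, 0, 0, 0, 0, 0, 0, 0, 0, 0, 0, 0, 0, 0, 0, 0, 0, 0, 0, 0, 0, 0, 0, 0, 0],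
  [0, 1, 0, 0, 2, 0, 0, 0, 0, 1, 1, 0, 0, 0, 0, 0, 0, 2, 0, 0, 0, 0, 0, 0, 0, 4, 0, 0, 0, 0, 0, 0, 0, 2, 0, 0, 0, 0, 0, 0, 0, 0, 0, 0, 0, 0, 0, 0],
  [0, 0, 0, 0, 0, 0, 0, 0, 0, 0, 0, 0, 0, 0, 0, 0, 0, 0, 0, 0, 0, 0, 0, 0, 0, 0, 0, 0, 0, 0, 0, 0, 0, 0, 0, 0, 0, 0, 0, 0, 0, 0, 0, 0, 0, 0, 0, 0],
  [0, 0, 0, 0, 0, 0, 0, 0, 0, 0, 0, 0, 0, 0, 0, 0, 0, 0, 0, 0, 0, 0, 0, 0, 0, 0, 0, 0, 0, 0, 0, 0, 0, 0, 0, 0, 0, 0, 0, 0, 0, 0, 0, 0, 0, 0, 0, 0],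
  [0, 0, 0, 0, 0, 0, 0, 0, 0, 0, 0, 0, 0, 0, 0, 0, 0, 0, 0, 0, 0, 0, 0, 0, 0, 0, 0, 0, 0, 0, 0, 0, 0, 0, 0, 0, 0, 0, 0, 0, 0, 0, 0, 0, 0, 0, 0, 0],
  [1, 2, 0, 0, 1, 0, 0, 0, 0, 0, 0, 0, 0, 0, 0, 0, 0, 0, 0, 0, 0, 0, 0, 0, 0, 2, 0, 0, 0, 0, 0, 0, 0, 4, 0, 0, 0, 0, 0, 0, 0, 0, 0, 0, 0, 0, 0, 0],
  [0, 0, 0, 0, 0, 0, 0, 0, 0, 0, 0, 0, 0, 0, 0, 0, 0, 0, 0, 0, 0, 0, 0, 0, 0, 0, 0, 0, 0, 0, 0, 0, 0, 0, 0, 0, 0, 0, 0, 0, 0, 0, 0, 0, 0, 0, 0, 0],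
  [0, 0, 0, 0, 0, 0, 0, 0, 0, 0, 0, 0, 0, 0, 0, 0, 0, 0, 0, 0, 0, 0, 0, 0, 0, 0, 0, 0, 0, 0, 0, 0, 0, 0, 0, 0, 0, 0, 0, 0, 0, 0, 0, 0, 0, 0, 0, 0],
  [0, 0, 0, 0, 0, 0, 0, 0, 0, 0, 0, 0, 0, 0, 0, 0, 0, 0, 0, 0, 0, 0, 0, 0, 0, 0, 0, 0, 0, 0, 0, 0, 0, 0, 0, 0, 0, 0, 0, 0, 0, 0, 0, 0, 0, 0, 0, 0],
  [0, 0, 0, 0, 0, 0, 0, 0, 0, 0, 0, 0, 0, 0, 0, 0, 0, 0, 0, 0, 0, 0, 0, 0, 0, 0, 0, 0, 0, 0, 0, 0, 0, 0, 0, 0, 0, 0, 0, 0, 0, 0, 0, 0, 0, 0, 0, 0],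
  [0, 0, 0, 0, 0, 0, 0, 0, 0, 0, 0, 0, 0, 0, 0, 0, 0, 0, 0, 0, 0, 0, 0, 0, 0, 0, 0, 0, 0, 0, 0, 0, 0, 0, 0, 0, 0, 0, 0, 0, 0, 0, 0, 0, 0, 0, 0, 0],
  [0, 0, 0, 0, 0, 0, 0, 0, 0, 0, 0, 0, 0, 0, 0, 0, 0, 0, 0, 0, 0, 0, 0, 0, 0, 0, 0, 0, 0, 0, 0, 0, 0, 0, 0, 0, 0, 0, 0, 0, 0, 0, 0, 0, 0, 0, 0, 0],
  [0, 0, 0, 0, 0, 0, 0, 0, 0, 0, 0, 0, 0, 0, 0, 0, 0, 0, 0, 0, 0, 0, 0, 0, 0, 0, 0, 0, 0, 0, 0, 0, 0, 0, 0, 0, 0, 0, 0, 0, 0, 0, 0, 0, 0, 0, 0, 0],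
  [0, 0, 0, 0, 0, 0, 0, 0, 0, 0, 0, 0, 0, 0, 0, 0, 0, 0, 0, 0, 0, 0, 0, 0, 0, 0, 0, 0, 0, 0, 0, 0, 0, 0, 0, 0, 0, 0, 0, 0, 0, 0, 0, 0, 0, 0, 0, 0],
  [0, 0, 0, 0, 0, 0, 0, 0, 0, 0, 0, 0, 0, 0, 0, 0, 0, 0, 0, 0, 0, 0, 0, 0, 0, 0, 0, 0, 0, 0, 0, 0, 0, 0, 0, 0, 0, 0, 0, 0, 0, 0, 0, 0, 0, 0, 0, 0],
  [0, 0, 0, 0, 0, 0, 0, 0, 0, 0, 0, 0, 0, 0, 0, 0, 0, 0, 0, 0, 0, 0, 0, 0, 0, 0, 0, 0, 0, 0, 0, 0, 0, 0, 0, 0, 0, 0, 0, 0, 0, 0, 0, 0, 0, 0, 0, 0],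
  [0, 0, 0, 0, 0, 0, 0, 0, 0, 0, 0, 0, 0, 0, 0, 0, 0, 0, 0, 0, 0, 0, 0, 0, 0, 0, 0, 0, 0, 0, 0, 0, 0, 0, 0, 0, 0, 0, 0, 0, 0, 0, 0, 0, 0, 0, 0, 0],
  [0, 0, 0, 0, 0, 0, 0, 0, 0, 0, 0, 0, 0, 0, 0, 0, 0, 0, 0, 0, 0, 0, 0, 0, 0, 0, 0, 0, 0, 0, 0, 0, 0, 0, 0, 0, 0, 0, 0, 0, 0, 0, 0, 0, 0, 0, 0, 0],
  [0, 0, 0, 0, 0, 0, 0, 0, 0, 0, 0, 0, 0, 0, 0, 0, 0, 0, 0, 0, 0, 0, 0, 0, 0, 0, 0, 0, 0, 0, 0, 0, 0, 0, 0, 0, 0, 0, 0, 0, 0, 0, 0, 0, 0, 0, 0, 0],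
  [0, 0, 0, 0, 0, 0, 0, 0, 0, 0, 0, 0, 0, 0, 0, 0, 0, 0, 0, 0, 0, 0, 0, 0, 0, 0, 0, 0, 0, 0, 0, 0, 0, 0, 0, 0, 0, 0, 0, 0, 0, 0, 0, 0, 0, 0, 0, 0]]

/-- `C_a C_s` as a list of `(z, k)`: `k = 0` stands for the coefficient `v + v⁻¹` -/
def tRR : List (List (List (ℕ × ℕ))) := [
  [[(1, 1)],
   [(1, 0)],
   [(4, 1)],
   [(5, 1)],
   [(4, 0)],
   [(5, 0)],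
   [(9, 1), (1, 1)],
   [(10, 1)],
   [(11, 1)],
   [(9, 0)],
   [(10, 0)],
   [(11, 0)],
   [(16, 1), (4, 1)],
   [(17, 1), (5, 1)],
   [(18, 1)],
   [(19, 1), (5, 1)],
   [(16, 0)],
   [(17, 0)],
   [(18, 0)],
   [(19, 0)],
   [(24, 1), (10, 1)],
   [(25, 1), (11, 1)],
   [(26, 1)],
   [(27, 1), (11, 1)],
   [(24, 0)],
   [(25, 0)],
   [(26, 0)],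
   [(27, 0)],
   [(32, 1), (18, 1)],
   [(33, 1), (16, 1), (19, 1)],
   [(34, 1)],
   [(35, 1), (5, 1), (18, 1)],
   [(32, 0)],
   [(33, 0)],
   [(34, 0)],
   [(35, 0)],
   [(39, 1), (24, 1), (26, 1)],
   [(40, 1), (27, 1)],
   [(41, 1)],
   [(39, 0)],
   [(40, 0)],
   [(41, 0)],
   [(44, 1), (16, 1), (32, 1), (34, 1)],
   [(45, 1), (35, 1)],
   [(44, 0)],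
   [(45, 0)],
   [(47, 1), (41, 1)],
   [(47, 0)]],
  [[(2, 1)],
   [(6, 1)],
   [(2, 0)],
   [(7, 1)],
   [(12, 1), (2, 1)],
   [(13, 1)],
   [(6, 0)],
   [(7, 0)],
   [(14, 1), (2, 1)],
   [(16, 1), (6, 1)],
   [(20, 1), (7, 1)],
   [(21, 1)],
   [(12, 0)],
   [(13, 0)],
   [(14, 0)],
   [(22, 1), (6, 1)],
   [(16, 0)],
   [(24, 1), (13, 1)],
   [(28, 1), (14, 1)],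
   [(29, 1)],
   [(20, 0)],
   [(21, 0)],
   [(22, 0)],
   [(30, 1), (12, 1)],
   [(24, 0)],
   [(32, 1), (16, 1), (21, 1)],
   [(36, 1), (22, 1)],
   [(37, 1), (16, 1)],
   [(28, 0)],
   [(29, 0)],
   [(30, 0)],
   [(38, 1), (20, 1), (22, 1)],
   [(32, 0)],
   [(39, 1), (29, 1)],
   [(42, 1), (30, 1)],
   [(43, 1), (24, 1)],
   [(36, 0)],
   [(37, 0)],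
   [(38, 0)],
   [(39, 0)],
   [(44, 1), (37, 1)],
   [(46, 1), (32, 1), (38, 1)],
   [(42, 0)],
   [(43, 0)],
   [(44, 0)],
   [(47, 1), (39, 1), (43, 1)],
   [(46, 0)],
   [(47, 0)]],
  [[(3, 1)],
   [(5, 1)],
   [(8, 1)],
   [(3, 0)],
   [(11, 1)],
   [(5, 0)],
   [(15, 1)],
   [(14, 1), (3, 1)],
   [(8, 0)],
   [(19, 1)],
   [(18, 1), (5, 1)],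
   [(11, 0)],
   [(23, 1)],
   [(22, 1), (5, 1)],
   [(14, 0)],
   [(15, 0)],
   [(27, 1)],
   [(26, 1)],
   [(18, 0)],
   [(19, 0)],
   [(31, 1)],
   [(30, 1), (11, 1), (14, 1)],
   [(22, 0)],
   [(23, 0)],
   [(35, 1)],
   [(34, 1), (18, 1)],
   [(26, 0)],
   [(27, 0)],
   [(38, 1), (18, 1)],
   [(37, 1), (19, 1), (22, 1)],
   [(30, 0)],
   [(31, 0)],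
   [(41, 1)],
   [(40, 1), (26, 1)],
   [(34, 0)],
   [(35, 0)],
   [(43, 1), (26, 1)],
   [(37, 0)],
   [(38, 0)],
   [(45, 1)],
   [(40, 0)],
   [(41, 0)],
   [(46, 1), (34, 1), (37, 1)],
   [(43, 0)],
   [(47, 1), (40, 1)],
   [(45, 0)],
   [(46, 0)],
   [(47, 0)]]]

/-- `C_s C_a` as a list of `(z, k)`: `k = 0` stands for the coefficient `v + v⁻¹` -/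
def tLL : List (List (List (ℕ × ℕ))) := [
  [[(1, 1)],
   [(1, 0)],
   [(6, 1)],
   [(5, 1)],
   [(9, 1), (1, 1)],
   [(5, 0)],
   [(6, 0)],
   [(13, 1)],
   [(15, 1)],
   [(9, 0)],
   [(17, 1), (5, 1)],
   [(19, 1), (5, 1)],
   [(16, 1), (6, 1)],
   [(13, 0)],
   [(22, 1)],
   [(15, 0)],
   [(16, 0)],
   [(17, 0)],
   [(26, 1)],
   [(19, 0)],
   [(24, 1), (13, 1)],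
   [(29, 1), (13, 1)],
   [(22, 0)],
   [(27, 1), (15, 1)],
   [(24, 0)],
   [(33, 1), (16, 1), (17, 1)],
   [(26, 0)],
   [(27, 0)],
   [(36, 1)],
   [(29, 0)],
   [(37, 1), (22, 1)],
   [(35, 1), (5, 1), (22, 1)],
   [(39, 1), (24, 1)],
   [(33, 0)],
   [(40, 1), (26, 1), (27, 1)],
   [(35, 0)],
   [(36, 0)],
   [(37, 0)],
   [(43, 1)],
   [(39, 0)],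
   [(40, 0)],
   [(45, 1), (35, 1)],
   [(44, 1), (16, 1), (36, 1), (37, 1)],
   [(43, 0)],
   [(44, 0)],
   [(45, 0)],
   [(47, 1), (43, 1)],
   [(47, 0)]],
  [[(2, 1)],
   [(4, 1)],
   [(2, 0)],
   [(8, 1)],
   [(4, 0)],
   [(11, 1)],
   [(12, 1), (2, 1)],
   [(14, 1), (2, 1)],
   [(8, 0)],
   [(16, 1), (4, 1)],
   [(18, 1), (4, 1)],
   [(11, 0)],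
   [(12, 0)],
   [(21, 1)],
   [(14, 0)],
   [(23, 1), (8, 1)],
   [(16, 0)],
   [(25, 1)],
   [(18, 0)],
   [(27, 1), (11, 1)],
   [(28, 1), (12, 1)],
   [(21, 0)],
   [(30, 1), (14, 1)],
   [(23, 0)],
   [(32, 1), (16, 1)],
   [(25, 0)],
   [(34, 1), (18, 1)],
   [(27, 0)],
   [(28, 0)],
   [(37, 1), (16, 1), (21, 1)],
   [(30, 0)],
   [(38, 1), (18, 1), (23, 1)],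
   [(32, 0)],
   [(40, 1), (25, 1)],
   [(34, 0)],
   [(41, 1), (27, 1)],
   [(42, 1), (28, 1)],
   [(37, 0)],
   [(38, 0)],
   [(44, 1), (32, 1)],
   [(40, 0)],
   [(41, 0)],
   [(42, 0)],
   [(46, 1), (37, 1), (38, 1)],
   [(44, 0)],
   [(47, 1), (40, 1), (41, 1)],
   [(46, 0)],
   [(47, 0)]],
  [[(3, 1)],
   [(5, 1)],
   [(7, 1)],
   [(3, 0)],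
   [(10, 1)],
   [(5, 0)],
   [(13, 1)],
   [(7, 0)],
   [(14, 1), (3, 1)],
   [(17, 1)],
   [(10, 0)],
   [(18, 1), (5, 1)],
   [(20, 1)],
   [(13, 0)],
   [(14, 0)],
   [(22, 1), (5, 1)],
   [(24, 1)],
   [(17, 0)],
   [(18, 0)],
   [(26, 1)],
   [(20, 0)],
   [(28, 1), (13, 1), (14, 1)],
   [(22, 0)],
   [(31, 1)],
   [(24, 0)],
   [(32, 1), (17, 1), (18, 1)],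
   [(26, 0)],
   [(35, 1)],
   [(28, 0)],
   [(36, 1), (22, 1)],
   [(38, 1), (22, 1)],
   [(31, 0)],
   [(32, 0)],
   [(39, 1), (26, 1)],
   [(41, 1), (26, 1)],
   [(35, 0)],
   [(36, 0)],
   [(43, 1)],
   [(38, 0)],
   [(39, 0)],
   [(45, 1)],
   [(41, 0)],
   [(46, 1), (32, 1), (36, 1)],
   [(43, 0)],
   [(47, 1), (39, 1)],
   [(45, 0)],
   [(46, 0)],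
   [(47, 0)]]]

/-- braid moves `(position, number of the relation)` from the word of `b` to `i` followed by the word of
`s_i b`, for left descents `i` of `b` -/
def tB : List (List (List (ℕ × ℕ))) := [
  [[],
   [],
   [],
   [],
   [],
   [],
   [],
   [],
   [],
   [],
   [],
   [],
   [],
   [],
   [],
   [],
   [],
   [],
   [],
   [],
   [],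
   [],
   [],
   [],
   [],
   [],
   [],
   [],
   [],
   [],
   [],
   [],
   [],
   [],
   [],
   [],
   [],
   [],
   [],
   [],
   [],
   [],
   [],
   [],
   [],
   [],
   [],
   []],
  [[],
   [],
   [],
   [],
   [],
   [],
   [],
   [],
   [],
   [],
   [],
   [],
   [],
   [],
   [],
   [],
   [(0, 0)],
   [],
   [],
   [],
   [],
   [],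
   [],
   [],
   [],
   [],
   [],
   [(0, 0)],
   [],
   [],
   [],
   [],
   [],
   [],
   [],
   [],
   [],
   [(0, 0)],
   [],
   [],
   [(0, 0)],
   [],
   [],
   [],
   [(0, 0)],
   [],
   [],
   [(0, 0)]],
  [[],
   [],
   [],
   [],
   [],
   [(0, 4)],
   [],
   [],
   [],
   [],
   [],
   [],
   [],
   [(0, 4)],
   [(0, 2)],
   [],
   [],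
   [(0, 4)],
   [(0, 2), (2, 5)],
   [],
   [],
   [],
   [(1, 2), (0, 4)],
   [],
   [(0, 4)],
   [],
   [(1, 2), (0, 4), (3, 5)],
   [],
   [(0, 2), (2, 5)],
   [],
   [],
   [],
   [(1, 4), (2, 0), (0, 2), (2, 5)],
   [],
   [],
   [(0, 4)],
   [(1, 2), (0, 4), (3, 5)],
   [],
   [(0, 2), (2, 5), (3, 3)],
   [(2, 4), (3, 0), (1, 2), (0, 4), (3, 5)],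
   [],
   [(1, 4), (2, 0), (0, 2), (2, 5), (5, 4), (3, 3)],
   [],
   [(1, 2), (0, 4), (3, 5), (4, 3)],
   [],
   [(2, 4), (3, 0), (1, 2), (0, 4), (3, 5), (6, 4), (4, 3)],
   [(2, 2), (1, 4), (4, 5), (5, 3), (2, 0), (0, 2), (2, 5), (5, 4), (3, 3)],
   [(3, 2), (2, 4), (5, 5), (6, 3), (3, 0), (1, 2), (0, 4), (3, 5), (6, 4), (4, 3)]]]

end Pool.Agent.Lib.FSB.M1
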