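import Pool.Agent.Lib.FSB.Hecke
import Pool.Agent.Lib.FSB.M1Chk

/-!
# Module M1a: the Coxeter group of type `B₃`, its 48 elements
-/

set_option autoImplicit false

open CoxeterSystem

namespace Pool.Agent.Lib.FSB.M1

/-- the generators, numbered by natural numbers -/
def s3 (i : ℕ) : Fin 3 := if i = 0 then 0 else if i = 1 then 1 else 2

lemma s3_val (i : Fin 3) : s3 i.val = i := by
  fin_cases i <;> rfl

/-- the braid relations -/
def braidL : List (List ℕ × List ℕ) :=
  [([0, 1, 0, 1], [1, 0, 1, 0]), ([1, 0, 1, 0], [0, 1, 0, 1]), ([1, 2, 1], [2, 1, 2]),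
    ([2, 1, 2], [1, 2, 1]), ([0, 2], [2, 0]), ([2, 0], [0, 2])]

/-- one braid move -/
def mv (pk : ℕ × ℕ) (w : List ℕ) : List ℕ :=
  let r := braidL.getD pk.2 ([], [])
  if (w.drop pk.1).take r.1.length = r.1 then w.take pk.1 ++ r.2 ++ (w.drop pk.1).drop r.1.length
  else w

variable {W : Type} [Group W] (cs : CoxeterSystem cmB3 W)

/-- product of a word -/
def pw (w : List ℕ) : W := cs.wordProd (w.map s3)

lemma pw_nil : pw cs [] = 1 := by simp [pw]

lemma pw_cons (i : ℕ) (w : List ℕ) : pw cs (i :: w) = cs.simple (s3 i) * pw cs w := by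
  simp [pw, wordProd_cons]

lemma pw_append (u w : List ℕ) : pw cs (u ++ w) = pw cs u * pw cs w := by
  simp [pw, wordProd_append]

lemma braid01 : pw cs [0, 1, 0, 1] = pw cs [1, 0, 1, 0] := by
  have h := cs.wordProd_braidWord_eq 0 1
  have e1 : braidWord cmB3 0 1 = [0, 1, 0, 1] := by decide
  have e2 : braidWord cmB3 1 0 = [1, 0, 1, 0] := by decide
  rw [e1, e2] at h
  exact h

lemma braid12 : pw cs [1, 2, 1] = pw cs [2, 1, 2] := by
  have h := cs.wordProd_braidWord_eq 1 2
  have e1 : braidWord cmB3 1 2 = [2, 1, 2] := by decide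
  have e2 : braidWord cmB3 2 1 = [1, 2, 1] := by decide
  rw [e1, e2] at h
  exact h.symm

lemma braid02 : pw cs [0, 2] = pw cs [2, 0] := by
  have h := cs.wordProd_braidWord_eq 0 2
  have e1 : braidWord cmB3 0 2 = [0, 2] := by decide
  have e2 : braidWord cmB3 2 0 = [2, 0] := by decide
  rw [e1, e2] at h
  exact h

lemma braid_eq (k : ℕ) : pw cs (braidL.getD k ([], [])).1 = pw cs (braidL.getD k ([], [])).2 := by
  rcases k with _ | _ | _ | _ | _ | _ | k
  · exact braid01 cs
  · exact (braid01 cs).symm
  · exact braid12 cs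
  · exact (braid12 cs).symm
  · exact braid02 cs
  · exact (braid02 cs).symm
  · rfl

lemma pw_mv (pk : ℕ × ℕ) (w : List ℕ) : pw cs (mv pk w) = pw cs w := by
  unfold mv
  simp only
  split_ifs with h
  · have h1 : w = w.take pk.1 ++ (braidL.getD pk.2 ([], [])).1 ++
        (w.drop pk.1).drop (braidL.getD pk.2 ([], [])).1.length := by
      conv_lhs => rw [← List.take_append_drop pk.1 w,
        ← List.take_append_drop (braidL.getD pk.2 ([], [])).1.length (w.drop pk.1), h]
      rw [List.append_assoc]
    conv_rhs => rw [h1]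
    rw [pw_append, pw_append, pw_append, pw_append, braid_eq]
  · rfl

lemma pw_mvs (l : List (ℕ × ℕ)) (w : List ℕ) : pw cs (l.foldl (fun w pk => mv pk w) w) = pw cs w := by
  induction l generalizing w with
  | nil => rfl
  | cons pk l ih => rw [List.foldl_cons, ih, pw_mv]

/-- check of the braid moves -/
def chkB : Bool := (List.range 3).all fun i => (List.range 48).all fun b =>
  ln (ml i b) == ln b + 1 || (((tB.getD i []).getD b []).foldl (fun w pk => mv pk w) (wd b) ==
    i :: wd (ml i b))

/-- check of the tables -/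
def chkT : Bool := (List.range 48).all fun a =>
  ((wd a).foldr ml 0 == a) && ((wd a).length == ln a) &&
  (List.range 3).all fun i => (ml i (ml i a) == a) && (decide (ml i a < 48)) &&
    (decide (ln (ml i a) ≤ ln a + 1)) && ((wd a).foldr ml (ml i 0) == mr i a) &&
    (decide (mr i a < 48)) && (mr i (mr i a) == a) &&
    ((ln (mr i a) == ln a + 1) || (ln (mr i a) + 1 == ln a)) &&
    ((ln (ml i a) == ln a + 1) || (ln (ml i a) + 1 == ln a))

/-- the word `i j i j …` with `2 n` letters -/
def wij (i j : ℕ) : ℕ → List ℕ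
  | 0 => []
  | n + 1 => wij i j n ++ [i, j]

/-- check of the Coxeter relations for the left multiplication tables -/
def chkA : Bool := (List.range 48).all fun a => (List.finRange 3).all fun i =>
  (List.finRange 3).all fun j => (wij i.val j.val (cmB3.M i j)).foldr ml a == a

theorem chkB_true : chkB = true := by decide +kernel
theorem chkT_true : chkT = true := by decide +kernel
theorem chkA_true : chkA = true := by decide +kernel

lemma tabs {a : ℕ} (ha : a < 48) : (wd a).foldr ml 0 = a ∧ (wd a).length = ln a ∧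
    ∀ i, i < 3 → ml i (ml i a) = a ∧ ml i a < 48 ∧ ln (ml i a) ≤ ln a + 1 ∧
      (wd a).foldr ml (ml i 0) = mr i a ∧ mr i a < 48 ∧ mr i (mr i a) = a ∧
      (ln (mr i a) = ln a + 1 ∨ ln (mr i a) + 1 = ln a) ∧
      (ln (ml i a) = ln a + 1 ∨ ln (ml i a) + 1 = ln a) := by
  have h := chkT_true
  unfold chkT at h
  rw [List.all_eq_true] at h
  have h1 := h a (List.mem_range.mpr ha)
  rw [Bool.and_eq_true, Bool.and_eq_true] at h1
  obtain ⟨⟨h1, h2⟩, h3⟩ := h1
  refine ⟨beq_iff_eq.mp h1, beq_iff_eq.mp h2, fun i hi => ?_⟩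
  rw [List.all_eq_true] at h3
  have h4 := h3 i (List.mem_range.mpr hi)
  simp only [Bool.and_eq_true, Bool.or_eq_true, beq_iff_eq, decide_eq_true_eq] at h4
  tauto

/-- the elements of `W` -/
def E (a : ℕ) : W := pw cs (wd a)

lemma E_zero : E cs 0 = 1 := by
  have : wd 0 = [] := by decide
  rw [E, this, pw_nil]

lemma simple_mul_E {i a : ℕ} (hi : i < 3) (ha : a < 48) :
    cs.simple (s3 i) * E cs a = E cs (ml i a) := by
  obtain ⟨-, -, h3⟩ := tabs ha
  obtain ⟨k1, k2, -, -, -, -, -, k8⟩ := h3 i hi
  have key : ∀ b, b < 48 → ln (ml i b) + 1 = ln b → E cs b = cs.simple (s3 i) * E cs (ml i b) := by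
    intro b hb hl
    have h := chkB_true
    unfold chkB at h
    rw [List.all_eq_true] at h
    have h1 := h i (List.mem_range.mpr hi)
    rw [List.all_eq_true] at h1
    have h2 := h1 b (List.mem_range.mpr hb)
    rw [Bool.or_eq_true, beq_iff_eq, beq_iff_eq] at h2
    rcases h2 with h2 | h2
    · omega
    · rw [E, ← pw_mvs cs ((tB.getD i []).getD b []) (wd b), h2, pw_cons]
      rfl
  rcases k8 with k8 | k8
  · have h5 := key (ml i a) k2 (by rw [k1]; omega)
    rw [h5, k1]
  · rw [key a ha k8, simple_mul_simple_cancel_left]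

/-- action on the numbers -/
def actf (i : Fin 3) : Function.End ℕ := fun a => if a < 48 then ml i.val a else a

lemma actf_lt {i : Fin 3} {a : ℕ} (ha : a < 48) : actf i a = ml i.val a := if_pos ha

lemma actf_ge {i : Fin 3} {a : ℕ} (ha : ¬ a < 48) : actf i a = a := if_neg ha

lemma pow_actf (i j : Fin 3) (n : ℕ) (a : ℕ) (ha : a < 48) :
    ((actf i * actf j) ^ n) a = (wij i.val j.val n).foldr ml a := by
  induction n generalizing a with
  | zero => rfl
  | succ n ih =>
    rw [pow_succ]
    change ((actf i * actf j) ^ n) (actf i (actf j a)) = _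
    have h1 := ((tabs ha).2.2 j.val j.isLt).2.1
    have h2 := ((tabs h1).2.2 i.val i.isLt).2.1
    have e : actf i (actf j a) = ml i.val (ml j.val a) := by
      rw [actf_lt ha, actf_lt h1]
    rw [e, ih _ h2, wij, List.foldr_append]
    rfl

lemma liftable : cmB3.IsLiftable (actf) := by
  have h := chkA_true
  unfold chkA at h
  rw [List.all_eq_true] at h
  intro i j
  funext a
  by_cases ha : a < 48
  · have h1 := h a (List.mem_range.mpr ha)
    rw [List.all_eq_true] at h1
    have h2 := h1 i (List.mem_finRange i)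
    rw [List.all_eq_true] at h2
    have h3 := h2 j (List.mem_finRange j)
    rw [beq_iff_eq] at h3
    exact (pow_actf i j _ a ha).trans h3
  · have hpow : ∀ n : ℕ, ((actf i * actf j) ^ n) a = a := by
      intro n
      induction n with
      | zero => rfl
      | succ n ih =>
        rw [pow_succ]
        change ((actf i * actf j) ^ n) (actf i (actf j a)) = a
        have e : actf i (actf j a) = a := by rw [actf_ge ha, actf_ge ha]
        rw [e]
        exact ih
    exact hpow _

/-- the action of `W` on the numbers -/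
noncomputable def act : W →* Function.End ℕ := cs.lift ⟨actf, liftable⟩

lemma act_simple (i : Fin 3) : act cs (cs.simple i) = actf i := cs.lift_apply_simple liftable i

/-- the number of an element -/
noncomputable def idx (w : W) : ℕ := act cs w 0

lemma idx_one : idx cs 1 = 0 := by
  unfold idx
  rw [map_one]
  rfl

lemma idx_simple_mul (i : Fin 3) (w : W) (h : idx cs w < 48) :
    idx cs (cs.simple i * w) = ml i.val (idx cs w) := by
  unfold idx
  rw [map_mul, act_simple]
  change actf i (act cs w 0) = _
  exact actf_lt h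

lemma idx_spec (w : W) : idx cs w < 48 ∧ w = E cs (idx cs w) := by
  induction w using cs.simple_induction_left with
  | one => rw [idx_one, E_zero]; exact ⟨by norm_num, rfl⟩
  | mul_simple_left w i ih =>
    obtain ⟨h1, h2⟩ := ih
    rw [idx_simple_mul cs i w h1]
    refine ⟨((tabs h1).2.2 i.val i.isLt).2.1, ?_⟩
    have := simple_mul_E cs i.isLt h1
    rw [s3_val] at this
    rw [← this, ← h2]

lemma idx_lt (w : W) : idx cs w < 48 := (idx_spec cs w).1

lemma E_idx (w : W) : E cs (idx cs w) = w := (idx_spec cs w).2.symm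

lemma idx_pw (l : List ℕ) (hl : ∀ i ∈ l, i < 3) (w : W) :
    idx cs (pw cs l * w) = l.foldr ml (idx cs w) := by
  induction l with
  | nil => rw [pw_nil, one_mul]; rfl
  | cons i l ih =>
    have h1 := ih (fun j hj => hl j (List.mem_cons_of_mem _ hj))
    have hi : i < 3 := hl i (List.mem_cons_self ..)
    have hs : (s3 i).val = i := by
      unfold s3
      split_ifs with h h <;> omega
    rw [pw_cons, mul_assoc, idx_simple_mul cs _ _ (idx_lt cs _), hs, h1, List.foldr_cons]

/-- the letters of the words -/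
def chkLet : Bool := (List.range 48).all fun a => (wd a).all fun i => decide (i < 3)

theorem chkLet_true : chkLet = true := by decide +kernel

lemma wd_lt {a : ℕ} (ha : a < 48) : ∀ i ∈ wd a, i < 3 := by
  have h := chkLet_true
  unfold chkLet at h
  rw [List.all_eq_true] at h
  have h1 := h a (List.mem_range.mpr ha)
  rw [List.all_eq_true] at h1
  intro i hi
  exact of_decide_eq_true (h1 i hi)

lemma idx_E {a : ℕ} (ha : a < 48) : idx cs (E cs a) = a := by
  have h := idx_pw cs (wd a) (wd_lt ha) 1
  rw [mul_one, idx_one] at h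
  exact h.trans (tabs ha).1

lemma E_inj {a b : ℕ} (ha : a < 48) (hb : b < 48) (h : E cs a = E cs b) : a = b := by
  rw [← idx_E cs ha, ← idx_E cs hb, h]

lemma E_mul_simple {i a : ℕ} (hi : i < 3) (ha : a < 48) :
    E cs a * cs.simple (s3 i) = E cs (mr i a) := by
  have hs : (s3 i).val = i := by
    unfold s3
    split_ifs with h h <;> omega
  have h1 : idx cs (cs.simple (s3 i)) = ml i 0 := by
    have := idx_simple_mul cs (s3 i) 1 (by rw [idx_one]; norm_num)
    rw [mul_one, idx_one, hs] at this
    exact this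
  have h2 := idx_pw cs (wd a) (wd_lt ha) (cs.simple (s3 i))
  rw [h1, ((tabs ha).2.2 i hi).2.2.2.1] at h2
  rw [← h2]
  exact (E_idx cs _).symm

lemma ln_idx_le (l : List (Fin 3)) : ln (idx cs (cs.wordProd l)) ≤ l.length := by
  induction l with
  | nil =>
    rw [wordProd_nil, idx_one]
    decide
  | cons i l ih =>
    rw [wordProd_cons, idx_simple_mul cs i _ (idx_lt cs _), List.length_cons]
    have := ((tabs (idx_lt cs (cs.wordProd l))).2.2 i.val i.isLt).2.2.1
    omega

theorem length_E {a : ℕ} (ha : a < 48) : cs.length (E cs a) = ln a := by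
  apply le_antisymm
  · have := cs.length_wordProd_le ((wd a).map s3)
    rw [List.length_map, (tabs ha).2.1] at this
    exact this
  · obtain ⟨ω, h1, h2⟩ := cs.exists_isReduced (E cs a)
    have h3 := ln_idx_le cs ω
    rw [← h2, idx_E cs ha] at h3
    rw [CoxeterSystem.IsReduced, ← h2] at h1
    omega

lemma wordProd_d : cs.wordProd [0, 1, 0, 2, 1, 0] = E cs 33 := by
  have : wd 33 = [0, 1, 0, 2, 1, 0] := by decide +kernel
  rw [E, this]
  rfl

end Pool.Agent.Lib.FSB.M1

namespace Pool.Agent.Lib.FSB

variable {W : Type} [Group W]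

/-- M1a -/
theorem reduced_d (cs : CoxeterSystem cmB3 W) : cs.IsReduced [0, 1, 0, 2, 1, 0] := by
  unfold CoxeterSystem.IsReduced
  rw [M1.wordProd_d, M1.length_E cs (by norm_num)]
  decide +kernel

end Pool.Agent.Lib.FSB
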