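import Pool.Agent.Lib.FSB.M1a

/-!
# Module M1b, part 1: Laurent polynomials, the standard basis, uniqueness of the
Kazhdan-Lusztig basis in type `B₃`
-/

set_option autoImplicit false

open LaurentPolynomial

namespace Pool.Agent.Lib.FSB.M1

/-! ### Coefficient lists -/

/-- the value at `t` of the polynomial with the given coefficients -/
noncomputable def ev (t : ℤ[T;T⁻¹]) : List ℕ → ℤ[T;T⁻¹]
  | [] => 0
  | c :: l => (c : ℤ[T;T⁻¹]) + t * ev t l

lemma ev_addL (t : ℤ[T;T⁻¹]) : ∀ x y : List ℕ, ev t (addL x y) = ev t x + ev t y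
  | [], y => by simp [addL, ev]
  | a :: x, [] => by simp [addL, ev]
  | a :: x, b :: y => by
    simp only [addL, ev, ev_addL t x y]
    push_cast
    ring

lemma ev_zeros (t : ℤ[T;T⁻¹]) : ∀ x : List ℕ, (x.all fun c => c == 0) = true → ev t x = 0
  | [], _ => rfl
  | a :: x, h => by
    rw [List.all_cons, Bool.and_eq_true, beq_iff_eq] at h
    rw [ev, ev_zeros t x h.2, h.1]
    simp

lemma ev_eqvL (t : ℤ[T;T⁻¹]) : ∀ x y : List ℕ, eqvL x y = true → ev t x = ev t y
  | [], y, h => by
    rw [eqvL] at h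
    rw [ev_zeros t y h]; rfl
  | a :: x, [], h => by
    rw [eqvL] at h
    · rw [ev_zeros t _ h]; rfl
    · simp
  | a :: x, b :: y, h => by
    rw [eqvL, Bool.and_eq_true, beq_iff_eq] at h
    rw [ev, ev, h.1, ev_eqvL t x y h.2]

lemma ev_smL (t : ℤ[T;T⁻¹]) (k : ℕ) : ∀ x : List ℕ, ev t (smL k x) = (k : ℤ[T;T⁻¹]) * ev t x
  | [] => by simp [smL, ev]
  | a :: x => by
    have := ev_smL t k x
    simp only [smL, List.map_cons, ev] at this ⊢
    rw [this]
    push_cast
    ring

lemma ev_cons (t : ℤ[T;T⁻¹]) (c : ℕ) (x : List ℕ) : ev t (c :: x) = (c : ℤ[T;T⁻¹]) + t * ev t x :=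
  rfl

/-- only positive powers -/
def Pos (f : ℤ[T;T⁻¹]) : Prop := ∀ k : ℤ, k ≤ 0 → f.coeff k = 0

lemma coeff_T_mul (n : ℤ) (f : ℤ[T;T⁻¹]) (k : ℤ) : (T n * f).coeff k = f.coeff (k - n) := by
  have := AddMonoidAlgebra.coeff_single_mul_eq_mul_coeff (x := f) (r := (1 : ℤ)) (m := n)
    (m₁ := k) (k - n) (fun m' _ => by constructor <;> intro h <;> omega)
  rw [one_mul] at this
  exact this

lemma coeff_natCast (c : ℕ) (k : ℤ) : ((c : ℤ[T;T⁻¹])).coeff k = if k = 0 then (c : ℤ) else 0 := by
  have : (c : ℤ[T;T⁻¹]) = LaurentPolynomial.C (c : ℤ) := by simp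
  rw [this, C_apply]

lemma coeff_ev (x : List ℕ) (k : ℤ) :
    (ev (T 1) x).coeff k = if 0 ≤ k then ((x.getD k.toNat 0 : ℕ) : ℤ) else 0 := by
  induction x generalizing k with
  | nil => simp [ev]
  | cons c x ih =>
    rw [ev_cons, AddMonoidAlgebra.coeff_add, Finsupp.add_apply, coeff_T_mul, coeff_natCast, ih]
    rcases lt_trichotomy k 0 with h | h | h
    · rw [if_neg (by omega), if_neg (by omega), if_neg (by omega)]; rfl
    · subst h
      simp
    · rw [if_neg (by omega), if_pos (by omega), if_pos (by omega), zero_add]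
      have : k.toNat = (k - 1).toNat + 1 := by omega
      rw [this, List.getD_cons_succ]

lemma pos_ev {x : List ℕ} (h : x.getD 0 0 = 0) : Pos (ev (T 1) x) := by
  intro k hk
  rw [coeff_ev]
  split_ifs with h1
  · have : k = 0 := le_antisymm hk h1
    subst this
    rw [Int.toNat_zero, h]
    rfl
  · rfl

lemma pos_sub {f g : ℤ[T;T⁻¹]} (hf : Pos f) (hg : Pos g) : Pos (f - g) := by
  intro k hk
  rw [AddMonoidAlgebra.coeff_sub, Finsupp.sub_apply, hf k hk, hg k hk, sub_zero]

lemma pos_invert {f : ℤ[T;T⁻¹]} (hf : Pos f) (h : invert f = f) : f = 0 := by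
  ext k
  rcases le_or_gt k 0 with hk | hk
  · rw [hf k hk]; rfl
  · rw [← h, invert_apply, hf _ (by omega)]; rfl

/-! ### The Hecke algebra -/

section

variable {W : Type} [Group W] {cs : CoxeterSystem cmB3 W} (A : HeckeAlg cs)

/-- the standard basis -/
noncomputable def H (a : ℕ) : A.H := A.std (E cs a)

/-- the standard generators -/
noncomputable def Hs (i : ℕ) : A.H := A.std (cs.simple (s3 i))

lemma std_one : A.std (1 : W) = 1 := by
  have h1 : ∀ x : A.H, x * A.std 1 = x := by
    intro x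
    have h2 : LinearMap.mulRight ℤ[T;T⁻¹] (A.std (1 : W)) = LinearMap.id := by
      apply A.std.ext
      intro w
      rw [LinearMap.mulRight_apply, A.std_mul w 1 (by rw [mul_one, cs.length_one, add_zero]),
        mul_one]
      rfl
    exact congrArg (fun f : A.H →ₗ[ℤ[T;T⁻¹]] A.H => f x) h2
  rw [← h1 1, one_mul]

lemma H_zero : H A 0 = 1 := by
  rw [H, E_zero, std_one]

/-- the coefficient `v⁻¹ - v` in the down case -/
noncomputable def kap (a b : ℕ) : ℤ[T;T⁻¹] := if ln a < ln b then 0 else T (-1) - T 1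

lemma H_mul_Hs {i a : ℕ} (hi : i < 3) (ha : a < 48) :
    H A a * Hs A i = H A (mr i a) + kap a (mr i a) • H A a := by
  obtain ⟨-, -, -, -, k5, k6, k7, -⟩ := (tabs ha).2.2 i hi
  have up : ∀ b, b < 48 → ln (mr i b) = ln b + 1 → H A b * Hs A i = H A (mr i b) := by
    intro b hb hl
    have hb' := ((tabs hb).2.2 i hi).2.2.2.2.1
    unfold H Hs
    rw [A.std_mul, E_mul_simple cs hi hb]
    rw [E_mul_simple cs hi hb, length_E cs hb', length_E cs hb, cs.length_simple, hl]
  rcases k7 with k7 | k7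
  · rw [up a ha k7, kap, if_pos (by omega), zero_smul, add_zero]
  · have h1 : H A a = H A (mr i a) * Hs A i := by
      rw [up (mr i a) k5 (by rw [k6]; omega), k6]
    conv_lhs => rw [h1]
    have h2 : Hs A i * Hs A i = 1 + (T (-1) - T 1 : ℤ[T;T⁻¹]) • Hs A i := A.std_quad (s3 i)
    rw [mul_assoc, h2, mul_add, mul_one, mul_smul_comm, ← h1, kap, if_neg (by omega)]

lemma Hs_mul_H {i a : ℕ} (hi : i < 3) (ha : a < 48) :
    Hs A i * H A a = H A (ml i a) + kap a (ml i a) • H A a := by
  obtain ⟨k6, k5, -, -, -, -, -, k7⟩ := (tabs ha).2.2 i hi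
  have up : ∀ b, b < 48 → ln (ml i b) = ln b + 1 → Hs A i * H A b = H A (ml i b) := by
    intro b hb hl
    have hb' := ((tabs hb).2.2 i hi).2.1
    unfold H Hs
    rw [A.std_mul, simple_mul_E cs hi hb]
    rw [simple_mul_E cs hi hb, length_E cs hb', length_E cs hb, cs.length_simple, hl, add_comm]
  rcases k7 with k7 | k7
  · rw [up a ha k7, kap, if_pos (by omega), zero_smul, add_zero]
  · have h1 : H A a = Hs A i * H A (ml i a) := by
      rw [up (ml i a) k5 (by rw [k6]; omega), k6]
    conv_lhs => rw [h1]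
    have h2 : Hs A i * Hs A i = 1 + (T (-1) - T 1 : ℤ[T;T⁻¹]) • Hs A i := A.std_quad (s3 i)
    rw [← mul_assoc, h2, add_mul, one_mul, smul_mul_assoc, ← h1, kap, if_neg (by omega)]

/-- coefficient with respect to the standard basis -/
noncomputable def cf (x : A.H) (b : ℕ) : ℤ[T;T⁻¹] := A.std.repr x (E cs b)

lemma cf_add (x y : A.H) (b : ℕ) : cf A (x + y) b = cf A x b + cf A y b := by
  simp [cf]

lemma cf_sub (x y : A.H) (b : ℕ) : cf A (x - y) b = cf A x b - cf A y b := by
  simp [cf]

lemma cf_smul (c : ℤ[T;T⁻¹]) (x : A.H) (b : ℕ) : cf A (c • x) b = c * cf A x b := by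
  simp [cf]

lemma cf_sum {ι : Type} (s : Finset ι) (f : ι → A.H) (b : ℕ) :
    cf A (∑ i ∈ s, f i) b = ∑ i ∈ s, cf A (f i) b := by
  simp [cf, Finsupp.finsetSum_apply]

lemma cf_H {a b : ℕ} (ha : a < 48) (hb : b < 48) : cf A (H A a) b = if a = b then 1 else 0 := by
  classical
  unfold cf H
  rw [Module.Basis.repr_self, Finsupp.single_apply]
  by_cases h : a = b
  · rw [if_pos (by rw [h]), if_pos h]
  · rw [if_neg (fun he => h (E_inj cs ha hb he)), if_neg h]

lemma ext_cf {x y : A.H} (h : ∀ b, b < 48 → cf A x b = cf A y b) : x = y := by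
  apply A.std.repr.injective
  ext w : 1
  rw [← E_idx cs w]
  exact h _ (idx_lt cs w)

lemma expand (x : A.H) : x = ∑ b ∈ Finset.range 48, cf A x b • H A b := by
  apply ext_cf
  intro b hb
  rw [cf_sum, Finset.sum_eq_single b]
  · rw [cf_smul, cf_H A hb hb, if_pos rfl, mul_one]
  · intro a ha hab
    rw [cf_smul, cf_H A (Finset.mem_range.mp ha) hb, if_neg hab, mul_zero]
  · intro h
    exact absurd (Finset.mem_range.mpr hb) h

lemma cf_mul_Hs {i b : ℕ} (hi : i < 3) (hb : b < 48) (x : A.H) :
    cf A (x * Hs A i) b = cf A x (mr i b) + kap b (mr i b) * cf A x b := by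
  obtain ⟨-, -, -, -, k5, k6, k7, -⟩ := (tabs hb).2.2 i hi
  conv_lhs => rw [expand A x, Finset.sum_mul, cf_sum]
  have h1 : ∀ a ∈ Finset.range 48, cf A (cf A x a • H A a * Hs A i) b =
      (if a = mr i b then cf A x a else 0) + (if a = b then kap b (mr i b) * cf A x a else 0) := by
    intro a ha
    rw [Finset.mem_range] at ha
    obtain ⟨-, -, -, -, j5, j6, j7, -⟩ := (tabs ha).2.2 i hi
    rw [smul_mul_assoc, cf_smul, H_mul_Hs A hi ha, cf_add, cf_smul, cf_H A j5 hb, cf_H A ha hb,
      mul_add]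
    congr 1
    · by_cases h : a = mr i b
      · rw [if_pos (by rw [h, k6]), if_pos h, mul_one]
      · rw [if_neg (fun he => h (by rw [← he, j6])), if_neg h, mul_zero]
    · by_cases h : a = b
      · rw [if_pos h, if_pos h, h]; ring
      · rw [if_neg h, if_neg h, mul_zero, mul_zero]
  rw [Finset.sum_congr rfl h1, Finset.sum_add_distrib, Finset.sum_ite_eq' , Finset.sum_ite_eq',
    if_pos (Finset.mem_range.mpr k5), if_pos (Finset.mem_range.mpr hb)]

lemma cf_Hs_mul {i b : ℕ} (hi : i < 3) (hb : b < 48) (x : A.H) :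
    cf A (Hs A i * x) b = cf A x (ml i b) + kap b (ml i b) * cf A x b := by
  obtain ⟨k6, k5, -, -, -, -, -, k7⟩ := (tabs hb).2.2 i hi
  conv_lhs => rw [expand A x, Finset.mul_sum, cf_sum]
  have h1 : ∀ a ∈ Finset.range 48, cf A (Hs A i * cf A x a • H A a) b =
      (if a = ml i b then cf A x a else 0) + (if a = b then kap b (ml i b) * cf A x a else 0) := by
    intro a ha
    rw [Finset.mem_range] at ha
    obtain ⟨j6, j5, -, -, -, -, -, j7⟩ := (tabs ha).2.2 i hi
    rw [mul_smul_comm, cf_smul, Hs_mul_H A hi ha, cf_add, cf_smul, cf_H A j5 hb, cf_H A ha hb,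
      mul_add]
    congr 1
    · by_cases h : a = ml i b
      · rw [if_pos (by rw [h, k6]), if_pos h, mul_one]
      · rw [if_neg (fun he => h (by rw [← he, j6])), if_neg h, mul_zero]
    · by_cases h : a = b
      · rw [if_pos h, if_pos h, h]; ring
      · rw [if_neg h, if_neg h, mul_zero, mul_zero]
  rw [Finset.sum_congr rfl h1, Finset.sum_add_distrib, Finset.sum_ite_eq' , Finset.sum_ite_eq',
    if_pos (Finset.mem_range.mpr k5), if_pos (Finset.mem_range.mpr hb)]

/-! ### Uniqueness -/

/-- check: right descents -/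
def chkD : Bool := (List.range 48).all fun a => decide (ln a < 10) && decide (rd a < 3) &&
  (a == 0 || (ln (mr (rd a) a) + 1 == ln a))

theorem chkD_true : chkD = true := by decide +kernel

lemma desc {a : ℕ} (ha : a < 48) : ln a < 10 ∧ rd a < 3 ∧ (a = 0 ∨ ln (mr (rd a) a) + 1 = ln a) := by
  have h := chkD_true
  unfold chkD at h
  rw [List.all_eq_true] at h
  have h1 := h a (List.mem_range.mpr ha)
  simp only [Bool.and_eq_true, Bool.or_eq_true, beq_iff_eq, decide_eq_true_eq] at h1
  tauto

variable {A} {bar : A.H →+* A.H} (hbar : IsBar A bar)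

include hbar in
lemma bar_smul (c : ℤ[T;T⁻¹]) (x : A.H) : bar (c • x) = invert c • bar x := by
  rw [Algebra.smul_def, map_mul, hbar.bar_scalar, ← Algebra.smul_def]

include hbar in
/-- `bar H_a - H_a` has coefficients only at shorter elements -/
lemma bar_H (n : ℕ) : ∀ a, a < 48 → ln a = n → ∀ b, b < 48 → n ≤ ln b →
    cf A (bar (H A a) - H A a) b = 0 := by
  induction n using Nat.strong_induction_on with
  | _ n ih =>
    intro a ha hn b hb hnb
    obtain ⟨-, d2, d3⟩ := desc ha
    rcases d3 with d3 | d3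
    · rw [d3, H_zero, map_one, sub_self]
      simp [cf]
    · obtain ⟨-, -, -, -, k5, k6, -, -⟩ := (tabs ha).2.2 (rd a) d2
      set i := rd a with hi
      set c := mr i a with hc
      have h1 : H A a = H A c * Hs A i := by
        rw [H_mul_Hs A d2 k5, k6, kap, if_pos (by omega), zero_smul, add_zero]
      have h2 : bar (Hs A i) = Hs A i + (T 1 - T (-1) : ℤ[T;T⁻¹]) • (1 : A.H) := hbar.bar_std _
      set r := bar (H A c) - H A c with hr
      have h3 : bar (H A c) = H A c + r := by rw [hr]; abel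
      have h4 : bar (H A a) - H A a = r * Hs A i + (T 1 - T (-1) : ℤ[T;T⁻¹]) • (H A c + r) := by
        rw [h1, map_mul, h2, h3, mul_add, mul_smul_comm, mul_one, add_mul]
        abel
      have hcn := ih (ln c) (by omega) c k5 rfl
      obtain ⟨-, -, -, -, j5, j6, j7, -⟩ := (tabs hb).2.2 i d2
      rw [h4, cf_add, cf_mul_Hs A d2 hb, cf_smul, cf_add, cf_H A k5 hb,
        hcn b hb (by omega), hcn (mr i b) j5 (by omega), if_neg (by
          rintro rfl
          omega)]
      ring

include hbar in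
/-- a bar invariant element with coefficients in `v ℤ[v]` is zero -/
lemma unique_zero {D : A.H} (hD : bar D = D) (hpos : ∀ b, b < 48 → Pos (cf A D b)) : D = 0 := by
  have key : ∀ n, (∀ b, b < 48 → n ≤ ln b → cf A D b = 0) → ∀ b, b < 48 → cf A D b = 0 := by
    intro n
    induction n with
    | zero => intro h b hb; exact h b hb (Nat.zero_le _)
    | succ n ih =>
      intro h
      apply ih
      intro b0 hb0 hn
      rcases Nat.lt_or_ge n (ln b0) with hlt | hge
      · exact h b0 hb0 hlt
      · apply pos_invert (hpos b0 hb0)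
        have h1 : cf A (bar D) b0 = invert (cf A D b0) := by
          conv_lhs => rw [expand A D, map_sum, cf_sum]
          rw [Finset.sum_eq_single b0]
          · rw [bar_smul hbar, cf_smul]
            have h2 := bar_H hbar (ln b0) b0 hb0 rfl b0 hb0 le_rfl
            rw [cf_sub, cf_H A hb0 hb0, if_pos rfl, sub_eq_zero] at h2
            rw [h2, mul_one]
          · intro b hb hne
            rw [Finset.mem_range] at hb
            rw [bar_smul hbar, cf_smul]
            rcases Nat.lt_or_ge (ln b0) (ln b) with h5 | h5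
            · rw [h b hb (by omega), map_zero, zero_mul]
            · have h2 := bar_H hbar (ln b) b hb rfl b0 hb0 h5
              rw [cf_sub, cf_H A hb hb0, if_neg hne, sub_zero] at h2
              rw [h2, mul_zero]
          · intro h5
            exact absurd (Finset.mem_range.mpr hb0) h5
        rw [hD] at h1
        exact h1.symm
  apply ext_cf A
  intro b hb
  rw [key 10 (fun b hb h => absurd (desc hb).1 (by omega)) b hb]
  simp [cf]

end

end Pool.Agent.Lib.FSB.M1
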