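import Pool.Agent.Lib.FSB.M1Alg
import Pool.Agent.Lib.FSB.M1KL

/-!
# Module M1c, part 2: the bar involution and the Kazhdan-Lusztig basis in type `B₃` exist
-/

set_option autoImplicit false

open LaurentPolynomial

namespace Pool.Agent.Lib.FSB.M1

/-- check: the Kazhdan-Lusztig polynomials are triangular with respect to length -/
def chkTri : Bool := (List.range 48).all fun a => (List.range 48).all fun b =>
  (b == a) || decide (ln b < ln a) || ((pL b a).all fun c => c == 0)

theorem chkTri_true : chkTri = true := by decide +kernel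

lemma tri {a b : ℕ} (ha : a < 48) (hb : b < 48) (hab : b ≠ a) (hl : ln a ≤ ln b) :
    ev (T 1) (pL b a) = 0 := by
  have h := chkTri_true
  unfold chkTri at h
  rw [List.all_eq_true] at h
  have h1 := h a (List.mem_range.mpr ha)
  rw [List.all_eq_true] at h1
  have h2 := h1 b (List.mem_range.mpr hb)
  rw [Bool.or_eq_true, Bool.or_eq_true, beq_iff_eq, decide_eq_true_eq] at h2
  rcases h2 with (h2 | h2) | h2
  · exact absurd h2 hab
  · omega
  · exact ev_zeros _ _ h2

lemma ev_diag {a : ℕ} (ha : a < 48) : ev (T 1) (pL a a) = 1 := by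
  have h := (shapes ha).2.2.1 a ha
  rw [if_pos rfl] at h
  cases hp : pL a a with
  | nil => rw [hp] at h; simp at h
  | cons c x =>
    rw [hp] at h
    obtain ⟨g1, g2⟩ := h
    rw [List.getD_cons_zero] at g1
    rw [ev_cons, ev_zeros (T 1) x g2, g1]
    simp

section

variable {W : Type} [Group W] {cs : CoxeterSystem cmB3 W} (A : HeckeAlg cs)

/-- the strictly triangular part of the Kazhdan-Lusztig matrix -/
noncomputable def Nil : Module.End ℤ[T;T⁻¹] A.H :=
  A.std.constr ℤ[T;T⁻¹] fun w => KL A (idx cs w) - A.std w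

lemma Nil_H {a : ℕ} (ha : a < 48) : Nil A (H A a) = KL A a - H A a := by
  unfold Nil H
  rw [Module.Basis.constr_basis, idx_E cs ha]

lemma cf_zero (b : ℕ) : cf A 0 b = 0 := by simp [cf]

lemma Nil_lower (n : ℕ) (x : A.H) (hx : ∀ b, b < 48 → n + 1 ≤ ln b → cf A x b = 0) :
    ∀ b, b < 48 → n ≤ ln b → cf A (Nil A x) b = 0 := by
  intro b hb hn
  conv_lhs => rw [expand A x, map_sum, cf_sum]
  apply Finset.sum_eq_zero
  intro a ha
  rw [Finset.mem_range] at ha
  rw [map_smul, cf_smul, Nil_H A ha, cf_sub, cf_KL A hb, cf_H A ha hb]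
  by_cases hab : a = b
  · rw [hab, ev_diag hb, if_pos rfl, sub_self, mul_zero]
  · rw [if_neg hab, sub_zero]
    rcases Nat.lt_or_ge n (ln a) with h | h
    · rw [hx a ha h, zero_mul]
    · rw [tri ha hb (Ne.symm hab) (by omega), mul_zero]

lemma Nil_pow : (Nil A) ^ 10 = 0 := by
  have key : ∀ k : ℕ, k ≤ 10 → ∀ x : A.H, ∀ b, b < 48 → 10 - k ≤ ln b →
      cf A (((Nil A) ^ k) x) b = 0 := by
    intro k
    induction k with
    | zero =>
      intro _ x b hb hl
      have := (rdesc hb).2.2
      omega
    | succ k ih =>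
      intro hk x b hb hl
      rw [pow_succ', Module.End.mul_apply]
      apply Nil_lower A (10 - (k + 1)) _ _ b hb hl
      intro b hb hl
      exact ih (by omega) x b hb (by omega)
  apply LinearMap.ext
  intro x
  apply ext_cf A
  intro b hb
  rw [key 10 le_rfl x b hb (by omega), LinearMap.zero_apply, cf_zero]

lemma isUnit_one_add_Nil : IsUnit (1 + Nil A) := IsNilpotent.isUnit_one_add ⟨10, Nil_pow A⟩

/-- the Kazhdan-Lusztig basis -/
noncomputable def KLB : Module.Basis W ℤ[T;T⁻¹] A.H :=
  A.std.map (LinearMap.GeneralLinearGroup.toLinearEquiv (isUnit_one_add_Nil A).unit)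

lemma KLB_apply (w : W) : KLB A w = KL A (idx cs w) := by
  unfold KLB
  rw [Module.Basis.map_apply]
  change (1 + Nil A) (A.std w) = _
  have h1 : Nil A (A.std w) = KL A (idx cs w) - A.std w := by
    unfold Nil
    rw [Module.Basis.constr_basis]
  rw [LinearMap.add_apply, h1, Module.End.one_apply]
  abel

/-- the bar involution, as a map -/
noncomputable def barF (x : A.H) : A.H :=
  ∑ a ∈ Finset.range 48, invert ((KLB A).repr x (E cs a)) • KL A a

lemma barF_add (x y : A.H) : barF A (x + y) = barF A x + barF A y := by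
  unfold barF
  rw [← Finset.sum_add_distrib]
  refine Finset.sum_congr rfl fun a _ => ?_
  rw [map_add, Finsupp.add_apply, map_add, add_smul]

lemma barF_smul (c : ℤ[T;T⁻¹]) (x : A.H) : barF A (c • x) = invert c • barF A x := by
  unfold barF
  rw [Finset.smul_sum]
  refine Finset.sum_congr rfl fun a _ => ?_
  rw [map_smul, Finsupp.smul_apply, smul_eq_mul, map_mul, mul_smul]

lemma barF_KL {a : ℕ} (ha : a < 48) : barF A (KL A a) = KL A a := by
  classical
  have h1 : KL A a = KLB A (E cs a) := by rw [KLB_apply, idx_E cs ha]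
  unfold barF
  rw [Finset.sum_eq_single a]
  · conv_lhs => rw [h1]
    rw [Module.Basis.repr_self, Finsupp.single_eq_same, map_one, one_smul, ← h1]
  · intro b hb hba
    rw [Finset.mem_range] at hb
    conv_lhs => rw [h1]
    rw [Module.Basis.repr_self, Finsupp.single_eq_of_ne, map_zero, zero_smul]
    intro he
    exact hba (E_inj cs hb ha he)
  · intro h
    exact absurd (Finset.mem_range.mpr ha) h

lemma invert_co (k : ℕ) : invert (co k) = co k := by
  unfold co
  split_ifs with h
  · rw [map_add, invert_T, invert_T, neg_neg, add_comm]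
  · rw [map_natCast]

lemma barF_comb {l : List (ℕ × ℕ)} (hl : ∀ zk ∈ l, zk.1 < 48) :
    barF A (comb A (KL A) l) = comb A (KL A) l := by
  induction l with
  | nil =>
    have : comb A (KL A) [] = 0 := by simp [comb]
    rw [this]
    have h := barF_smul A 0 0
    rwa [map_zero, zero_smul, zero_smul] at h
  | cons zk l ih =>
    have h1 : comb A (KL A) (zk :: l) = co zk.2 • KL A zk.1 + comb A (KL A) l := by simp [comb]
    rw [h1, barF_add, barF_smul, invert_co, barF_KL A (hl zk (List.mem_cons_self ..)),
      ih fun z hz => hl z (List.mem_cons_of_mem _ hz)]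

/-- the bar map as an additive map -/
noncomputable def barA : A.H →+ A.H := AddMonoidHom.mk' (barF A) (barF_add A)

lemma expandKL (x : A.H) : x = ∑ a ∈ Finset.range 48, (KLB A).repr x (E cs a) • KL A a := by
  classical
  apply (KLB A).repr.injective
  rw [map_sum]
  ext w : 1
  rw [Finsupp.finsetSum_apply, Finset.sum_eq_single (idx cs w)]
  · rw [map_smul, Finsupp.smul_apply, ← KLB_apply, Module.Basis.repr_self,
      Finsupp.single_eq_same, smul_eq_mul, mul_one, E_idx]
  · intro b hb hne
    rw [Finset.mem_range] at hb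
    have h1 : KL A b = KLB A (E cs b) := by rw [KLB_apply, idx_E cs hb]
    rw [map_smul, Finsupp.smul_apply, h1, Module.Basis.repr_self, Finsupp.single_eq_of_ne,
      smul_zero]
    rintro rfl
    exact hne (idx_E cs hb).symm
  · intro h
    exact absurd (Finset.mem_range.mpr (idx_lt cs w)) h

lemma barF_Cs_mul {i : ℕ} (hi : i < 3) (x : A.H) : barF A (Cs A i * x) = Cs A i * barF A x := by
  have h1 : barF A (Cs A i * x) = barA A (Cs A i * x) := rfl
  conv_lhs => rw [h1, expandKL A x, Finset.mul_sum, map_sum]
  unfold barF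
  rw [Finset.mul_sum]
  refine Finset.sum_congr rfl fun a ha => ?_
  rw [Finset.mem_range] at ha
  rw [mul_smul_comm, mul_smul_comm, Cs_mul_KL A hi ha]
  change barF A _ = _
  rw [barF_smul, barF_comb A ((shapes ha).2.1 i hi)]

lemma barF_one : barF A 1 = 1 := by
  rw [← KL_zero A, barF_KL A (by norm_num)]

lemma barF_Cs {i : ℕ} (hi : i < 3) : barF A (Cs A i) = Cs A i := by
  have h := barF_Cs_mul A hi 1
  rwa [barF_one, mul_one] at h

/-- the elements at which `bar` is multiplicative -/
def Good (x : A.H) : Prop := ∀ y : A.H, barF A (x * y) = barF A x * barF A y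

lemma good_one : Good A 1 := by
  intro y
  rw [one_mul, barF_one, one_mul]

lemma good_add {x y : A.H} (hx : Good A x) (hy : Good A y) : Good A (x + y) := by
  intro z
  rw [add_mul, barF_add, hx, hy, barF_add, add_mul]

lemma good_smul (c : ℤ[T;T⁻¹]) {x : A.H} (hx : Good A x) : Good A (c • x) := by
  intro z
  rw [smul_mul_assoc, barF_smul, hx, barF_smul, smul_mul_assoc]

lemma good_mul {x y : A.H} (hx : Good A x) (hy : Good A y) : Good A (x * y) := by
  intro z
  rw [mul_assoc, hx, hy, hx, mul_assoc]

lemma good_Cs {i : ℕ} (hi : i < 3) : Good A (Cs A i) := by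
  intro z
  rw [barF_Cs_mul A hi, barF_Cs A hi]

lemma good_Hs {i : ℕ} (hi : i < 3) : Good A (Hs A i) := by
  have h : Hs A i = Cs A i + (-T 1 : ℤ[T;T⁻¹]) • (1 : A.H) := by
    unfold Cs
    rw [neg_smul]
    abel
  rw [h]
  exact good_add A (good_Cs A hi) (good_smul A _ (good_one A))

lemma good_H (n : ℕ) : ∀ a, a < 48 → ln a = n → Good A (H A a) := by
  induction n using Nat.strong_induction_on with
  | _ n ih =>
    intro a ha hn
    by_cases ha0 : a = 0
    · rw [ha0, H_zero]
      exact good_one A
    · obtain ⟨d2, d3, -⟩ := rdesc ha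
      have d3 := d3.resolve_left ha0
      obtain ⟨-, -, -, -, k5, k6, -, -⟩ := (tabs ha).2.2 (rd a) d2
      have h1 : H A a = H A (mr (rd a) a) * Hs A (rd a) := by
        rw [H_mul_Hs A d2 k5, k6, kap, if_pos (by omega), zero_smul, add_zero]
      rw [h1]
      exact good_mul A (ih _ (by omega) _ k5 rfl) (good_Hs A d2)

lemma good_sum {s : Finset ℕ} {f : ℕ → A.H} (h : ∀ a ∈ s, Good A (f a)) :
    Good A (∑ a ∈ s, f a) := by
  classical
  induction s using Finset.induction_on with
  | empty =>
    intro y
    have h0 : barF A 0 = 0 := by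
      have h := barF_smul A 0 0
      rwa [map_zero, zero_smul, zero_smul] at h
    rw [Finset.sum_empty, zero_mul, h0, zero_mul]
  | insert i s hi ih =>
    rw [Finset.sum_insert hi]
    exact good_add A (h i (Finset.mem_insert_self _ _))
      (ih fun a ha => h a (Finset.mem_insert_of_mem ha))

lemma good_all (x : A.H) : Good A x := by
  rw [expand A x]
  refine good_sum A fun a ha => good_smul A _ (good_H A _ a (Finset.mem_range.mp ha) rfl)

/-- the bar involution -/
noncomputable def barR : A.H →+* A.H where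
  toFun := barF A
  map_one' := barF_one A
  map_mul' := fun x y => good_all A x y
  map_zero' := (barA A).map_zero
  map_add' := barF_add A

lemma isBar : IsBar A (barR A) where
  bar_scalar := by
    intro f
    change barF A _ = _
    rw [Algebra.algebraMap_eq_smul_one, Algebra.algebraMap_eq_smul_one, barF_smul, barF_one]
  bar_std := by
    intro i
    change barF A _ = _
    have h : A.std (cs.simple i) = Cs A i.val + (-T 1 : ℤ[T;T⁻¹]) • (1 : A.H) := by
      unfold Cs Hs
      rw [s3_val, neg_smul]
      abel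
    rw [h, barF_add, barF_smul, barF_one, barF_Cs A i.isLt, map_neg, invert_T, neg_smul, neg_smul,
      sub_smul]
    abel

lemma isKL : IsKL A (barR A) (KLB A) where
  bar_C := by
    intro w
    change barF A _ = _
    rw [KLB_apply, barF_KL A (idx_lt cs w)]
  diag := by
    intro w
    have h := cf_KL A (a := idx cs w) (idx_lt cs w)
    unfold cf at h
    rw [E_idx] at h
    rw [KLB_apply, h, ev_diag (idx_lt cs w)]
  upper := by
    intro w y hy k hk
    have h := cf_KL A (a := idx cs w) (idx_lt cs y)
    unfold cf at h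
    rw [E_idx] at h
    rw [KLB_apply, h]
    have h2 := (shapes (idx_lt cs w)).2.2.1 (idx cs y) (idx_lt cs y)
    rw [if_neg] at h2
    · exact pos_ev h2 k hk
    · intro he
      apply hy
      rw [← E_idx cs y, ← he, E_idx]

end

end Pool.Agent.Lib.FSB.M1

namespace Pool.Agent.Lib.FSB

variable {W : Type} [Group W]

/-- M1c: the Hecke algebra, the bar involution and the Kazhdan-Lusztig basis of type `B₃` exist. -/
theorem exists_hecke (cs : CoxeterSystem cmB3 W) : ∃ (A : HeckeAlg cs) (bar : A.H →+* A.H)
    (C : Module.Basis W ℤ[T;T⁻¹] A.H), IsBar A bar ∧ IsKL A bar C :=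
  ⟨M1.heckeB3 cs, M1.barR _, M1.KLB _, M1.isBar _, M1.isKL _⟩

end Pool.Agent.Lib.FSB
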