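import Pool.Agent.Lib.FSB.Abs

/-!
# Module M2a: dual bases, labels
-/

set_option autoImplicit false

open MvPolynomial TensorProduct

namespace Pool.Agent.Lib.FSB

variable {K : Type} [Field K]

/-- `δ(1) = ∑ x_i ⊗ z_i` gives dual bases. -/
theorem Frob.toDual (X : Bimod K) (F : Frob X) : Nonempty (DualFrob X) := by
  obtain ⟨S, hS⟩ := TensorProduct.exists_finset (F.comul F.one)
  have hl : ∀ a, a = ∑ p ∈ S, F.counit (F.mul a p.1) • p.2 := by
    intro a
    have h1 := F.frob_left a F.one
    rw [F.mul_one, hS, map_sum] at h1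
    have h2 := F.counit_comul a
    rw [h1, map_sum] at h2
    exact h2.symm
  have hr : ∀ a, a = ∑ p ∈ S, X.right (F.counit (F.mul p.2 a)) p.1 := by
    intro a
    have h1 := F.frob_right F.one a
    rw [F.one_mul, hS, map_sum] at h1
    have h2 := F.comul_counit a
    rw [h1, map_sum] at h2
    exact h2.symm
  let e : S ≃ Fin S.card := S.equivFin
  refine ⟨{ mul := F.mul
            smul_mul := F.smul_mul
            mul_balanced := F.mul_balanced
            mul_right := F.mul_right
            one := F.one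
            one_central := F.one_central
            one_mul := F.one_mul
            mul_one := F.mul_one
            mul_assoc := F.mul_assoc
            counit := F.counit
            counit_right := F.counit_right
            n := S.card
            x := fun i => (e.symm i).1.1
            z := fun i => (e.symm i).1.2
            expand_left := ?_
            expand_right := ?_ }⟩
  · intro a
    rw [Equiv.sum_comp e.symm (fun p : S => F.counit (F.mul a p.1.1) • p.1.2),
      Finset.sum_coe_sort S (fun p => F.counit (F.mul a p.1) • p.2)]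
    exact hl a
  · intro a
    rw [Equiv.sum_comp e.symm (fun p : S => X.right (F.counit (F.mul p.1.2 a)) p.1.1),
      Finset.sum_coe_sort S (fun p => X.right (F.counit (F.mul p.2 a)) p.1)]
    exact hr a

theorem mul_smul_lab {X : Bimod K} (F : DualFrob X) {g : Rg K ≃ₐ[K] Rg K} {a : X.carrier}
    (ha : Lab X g a) (f : Rg K) (b : X.carrier) : F.mul a (f • b) = g f • F.mul a b := by
  rw [← F.mul_balanced, ha f, F.smul_mul]

theorem mul_lab {X : Bimod K} (F : DualFrob X) {g h : Rg K ≃ₐ[K] Rg K} {a b : X.carrier}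
    (ha : Lab X g a) (hb : Lab X h b) : Lab X (g * h) (F.mul a b) := by
  intro f
  rw [← F.mul_right, hb f, mul_smul_lab F ha]
  rfl

theorem smul_lab {X : Bimod K} {g : Rg K ≃ₐ[K] Rg K} {a : X.carrier}
    (ha : Lab X g a) (f : Rg K) : Lab X g (f • a) := by
  intro f'
  rw [map_smul, ha f', smul_comm]

theorem counit_lab {X : Bimod K} (F : DualFrob X) {g : Rg K ≃ₐ[K] Rg K} {a : X.carrier}
    (ha : Lab X g a) (hg : g ≠ 1) : F.counit a = 0 := by
  have h : ∃ f, g f ≠ f := by
    by_contra h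
    push Not at h
    exact hg (AlgEquiv.ext h)
  obtain ⟨f, hf⟩ := h
  have h1 := F.counit_right f a
  rw [ha f, map_smul, smul_eq_mul] at h1
  have h2 : (g f - f) * F.counit a = 0 := by rw [sub_mul, h1, sub_self]
  rcases mul_eq_zero.1 h2 with h3 | h3
  · exact absurd (sub_eq_zero.1 h3) hf
  · exact h3

/-- `X` is torsion free -/
theorem Coord.smul_eq_zero {X : Bimod K} (C : Coord X) {f : Rg K} {a : X.carrier}
    (h : f • a = 0) : f = 0 ∨ a = 0 := by
  by_cases hf : f = 0
  · exact Or.inl hf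
  · right
    apply C.inj
    rw [map_zero]
    funext j
    have h1 := congrFun (congrArg C.ι h) j
    rw [map_smul, map_zero] at h1
    rcases mul_eq_zero.1 (show f * C.ι a j = 0 from h1) with h2 | h2
    · exact absurd h2 hf
    · exact h2

/-- the coordinates of an element with label `g` vanish outside the label `g` -/
theorem Coord.ι_eq_zero {X : Bimod K} (C : Coord X) {g : Rg K ≃ₐ[K] Rg K} {a : X.carrier}
    (ha : Lab X g a) {j : C.J} (hj : C.y j ≠ g) : C.ι a j = 0 := by
  have h : ∃ f, C.y j f ≠ g f := by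
    by_contra h
    push Not at h
    exact hj (AlgEquiv.ext h)
  obtain ⟨f, hf⟩ := h
  have h1 := C.right f a j
  rw [ha f, map_smul] at h1
  have h2 : g f * C.ι a j = C.y j f * C.ι a j := h1
  have h3 : (C.y j f - g f) * C.ι a j = 0 := by rw [sub_mul, h2, sub_self]
  rcases mul_eq_zero.1 h3 with h4 | h4
  · exact absurd (sub_eq_zero.1 h4) hf
  · exact h4

theorem Coord.eq_zero_of_no_lab {X : Bimod K} (C : Coord X) {g : Rg K ≃ₐ[K] Rg K}
    (h : ∀ j, C.y j ≠ g) {a : X.carrier} (ha : Lab X g a) : a = 0 := by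
  apply C.inj
  rw [map_zero]
  funext j
  exact C.ι_eq_zero ha (h j)

theorem Coord.lab_of_ι {X : Bimod K} (C : Coord X) {g : Rg K ≃ₐ[K] Rg K} {a : X.carrier}
    (h : ∀ j, C.y j ≠ g → C.ι a j = 0) : Lab X g a := by
  intro f
  apply C.inj
  funext j
  rw [C.right, map_smul]
  show C.y j f * C.ι a j = g f * C.ι a j
  by_cases hj : C.y j = g
  · rw [hj]
  · rw [h j hj, mul_zero, mul_zero]

/-- products of operators `m ↦ m · f - h f m` -/
theorem Coord.exists_ops {X : Bimod K} (C : Coord X) (m0 : X.carrier) (S : Finset C.J)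
    (f : C.J → Rg K) : ∃ m : X.carrier,
      (∀ k, C.ι m k = (∏ j ∈ S, (C.y k (f j) - C.y j (f j))) * C.ι m0 k) ∧
      (∀ (F : DualFrob X) (g : Rg K ≃ₐ[K] Rg K) (a : X.carrier), Lab X g a →
        F.counit (F.mul m a) = (∏ j ∈ S, (g⁻¹ (f j) - C.y j (f j))) * F.counit (F.mul m0 a)) := by
  classical
  induction S using Finset.induction_on with
  | empty => exact ⟨m0, fun k => by simp, fun F g a _ => by simp⟩
  | insert i S hi ih =>
    obtain ⟨m, h1, h2⟩ := ih
    refine ⟨X.right (f i) m - C.y i (f i) • m, fun k => ?_, fun F g a ha => ?_⟩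
    · rw [map_sub, map_smul, Finset.prod_insert hi]
      show C.ι (X.right (f i) m) k - C.y i (f i) * C.ι m k = _
      rw [C.right, h1]
      ring
    · rw [map_sub, AddMonoidHom.sub_apply, F.smul_mul, map_sub, map_smul, smul_eq_mul,
        F.mul_balanced, Finset.prod_insert hi]
      have h3 : f i • a = X.right (g⁻¹ (f i)) a := by
        rw [ha]
        congr 1
        exact (AlgEquiv.apply_symm_apply g (f i)).symm
      rw [h3, F.mul_right, F.counit_right, h2 F g a ha]
      ring

/-- separating functions -/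
theorem Coord.exists_sep {X : Bimod K} (C : Coord X) (g : Rg K ≃ₐ[K] Rg K) :
    ∃ f : C.J → Rg K, ∀ j, C.y j ≠ g → g (f j) - C.y j (f j) ≠ 0 := by
  classical
  have h : ∀ j, ∃ f : Rg K, C.y j ≠ g → g f - C.y j f ≠ 0 := by
    intro j
    by_contra h
    push Not at h
    have h1 := h 0
    exact h1.1 (AlgEquiv.ext fun f => (sub_eq_zero.1 (h f).2).symm)
  choose f hf using h
  exact ⟨f, hf⟩

/-- if `g` is the label of some coordinate then there are nonzero elements with label `g`
(apply `∏_{h ≠ g} (· f_h - h(f_h))` to `bot`) -/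
theorem Coord.exists_lab {X : Bimod K} (C : Coord X) {g : Rg K ≃ₐ[K] Rg K} (h : ∃ j, C.y j = g) :
    ∃ a : X.carrier, Lab X g a ∧ a ≠ 0 := by
  classical
  obtain ⟨f, hf⟩ := C.exists_sep g
  obtain ⟨m, h1, _⟩ := C.exists_ops C.bot (Finset.univ.filter fun j => C.y j ≠ g) f
  refine ⟨m, C.lab_of_ι fun j hj => ?_, ?_⟩
  · rw [h1, Finset.prod_eq_zero (i := j) (by simp [hj]) (sub_self _), zero_mul]
  · obtain ⟨j, hj⟩ := h
    rintro rfl
    have h2 := h1 j
    rw [map_zero, C.ι_bot, mul_one] at h2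
    refine (Finset.prod_ne_zero_iff.2 fun i hi => ?_) h2.symm
    rw [hj]
    exact hf i (Finset.mem_filter.1 hi).2

/-- nondegeneracy: if `a ≠ 0` has label `g`, there is `b` with label `g⁻¹` and `ε(ba) ≠ 0`.
Proof: `a = ∑ x_i ε(z_i a)` gives `b` with `ε(ba) ≠ 0`; replace `b` by
`∏_{h ≠ g⁻¹} (· f_h - h(f_h)) b` where `g⁻¹ f_h ≠ h f_h`; since
`ε((b · f) a) = ε(b (f a)) = ε(b (a · g⁻¹ f)) = g⁻¹(f) ε(ba)`, the value `ε(ba)` is multiplied by
`∏ (g⁻¹ f_h - h f_h) ≠ 0`. -/
theorem nondeg {X : Bimod K} (C : Coord X) (F : DualFrob X) {g : Rg K ≃ₐ[K] Rg K} {a : X.carrier}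
    (ha : Lab X g a) (h : a ≠ 0) :
    ∃ b : X.carrier, Lab X g⁻¹ b ∧ F.counit (F.mul b a) ≠ 0 := by
  classical
  have h0 : ∃ i, F.counit (F.mul (F.z i) a) ≠ 0 := by
    by_contra h0
    push Not at h0
    apply h
    rw [F.expand_right a]
    exact Finset.sum_eq_zero fun i _ => by rw [h0, map_zero]; rfl
  obtain ⟨i, hi⟩ := h0
  obtain ⟨f, hf⟩ := C.exists_sep g⁻¹
  obtain ⟨b, h1, h2⟩ := C.exists_ops (F.z i) (Finset.univ.filter fun j => C.y j ≠ g⁻¹) f
  refine ⟨b, C.lab_of_ι fun j hj => ?_, ?_⟩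
  · rw [h1, Finset.prod_eq_zero (i := j) (by simp [hj]) (sub_self _), zero_mul]
  · rw [h2 F g a ha]
    refine mul_ne_zero (Finset.prod_ne_zero_iff.2 fun k hk => ?_) hi
    exact hf k (Finset.mem_filter.1 hk).2

end Pool.Agent.Lib.FSB
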