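import Pool.Agent.Lib.FSB.Defs

/-!
# Module M4a: Fitting's lemma for graded bimodules
-/

set_option autoImplicit false

open MvPolynomial TensorProduct

namespace Pool.Agent.Lib.FSB

variable {K : Type} [Field K]

/-- Finiteness properties of graded bimodules. -/
structure FinGen (B : GBimod K) : Prop where
  gen : ∃ N : ℕ, ∀ m : B.carrier, m ∈ Submodule.span (Rg K) {v | ∃ n ≤ N, v ∈ B.gr n}
  fin : ∀ n : ℕ, ∃ T : Finset B.carrier, ∀ v ∈ B.gr n, ∃ c : B.carrier → K,
    v = ∑ t ∈ T, (C (c t) : Rg K) • t
  gr_C : ∀ (n : ℕ) (c : K) (v : B.carrier), v ∈ B.gr n → (C c : Rg K) • v ∈ B.gr n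

namespace Fit

/-- the `K`-vector space structure -/
noncomputable local instance instK (B : GBimod K) : Module K B.carrier :=
  Module.compHom B.carrier (C : K →+* Rg K)

theorem k_smul (B : GBimod K) (c : K) (m : B.carrier) : c • m = (C c : Rg K) • m := rfl

local instance instT (B : GBimod K) : IsScalarTower K (Rg K) B.carrier :=
  ⟨fun c r m => by rw [k_smul, smul_eq_C_mul, mul_smul]⟩

/-- the algebra of graded endomorphisms -/
noncomputable def grAlg (B : GBimod K) (hB : FinGen B) :
    Subalgebra K (Module.End (Rg K) B.carrier) where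
  carrier := {g | IsGrEnd B g}
  mul_mem' {g h} hg hh :=
    ⟨fun f m => by rw [Module.End.mul_apply, Module.End.mul_apply, hh.right, hg.right],
      fun n m hm => hg.deg n _ (hh.deg n m hm)⟩
  add_mem' {g h} hg hh :=
    ⟨fun f m => by rw [LinearMap.add_apply, LinearMap.add_apply, hh.right, hg.right, map_add],
      fun n m hm => (B.gr n).add_mem (hg.deg n _ hm) (hh.deg n m hm)⟩
  algebraMap_mem' c :=
    ⟨fun f m => by
      rw [Module.algebraMap_end_apply, Module.algebraMap_end_apply, k_smul, k_smul, map_smul],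
      fun n m hm => by
      rw [Module.algebraMap_end_apply, k_smul]
      exact hB.gr_C n c m hm⟩

theorem mem_grAlg (B : GBimod K) (hB : FinGen B) (g : Module.End (Rg K) B.carrier) :
    g ∈ grAlg B hB ↔ IsGrEnd B g := Iff.rfl

theorem aeval_grEnd (B : GBimod K) (hB : FinGen B) (φ : Module.End (Rg K) B.carrier)
    (hφ : IsGrEnd B φ) (f : Polynomial K) : IsGrEnd B (Polynomial.aeval φ f) := by
  rw [← mem_grAlg B hB]
  have h := Subalgebra.mem_toSubring (S := grAlg B hB) (x := Polynomial.aeval φ f)
  rw [Polynomial.aeval_eq_sum_range]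
  exact Subalgebra.sum_mem _ fun i _ => Subalgebra.smul_mem _ (Subalgebra.pow_mem _ hφ i) _

/-- the `K`-space spanned by the components of low degree -/
noncomputable def V (B : GBimod K) (N : ℕ) : Submodule K B.carrier :=
  Submodule.span K {v | ∃ n ≤ N, v ∈ B.gr n}

theorem V_fin (B : GBimod K) (hB : FinGen B) (N : ℕ) : FiniteDimensional K (V B N) := by
  classical
  choose T hT using hB.fin
  have h : V B N ≤ Submodule.span K
      (((Finset.range (N + 1)).biUnion T : Finset B.carrier) : Set B.carrier) := by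
    rw [V, Submodule.span_le]
    rintro v ⟨n, hn, hv⟩
    obtain ⟨c, hc⟩ := hT n v hv
    rw [hc]
    refine Submodule.sum_mem _ fun t ht => ?_
    rw [← k_smul]
    refine Submodule.smul_mem _ _ (Submodule.subset_span ?_)
    rw [Finset.mem_coe, Finset.mem_biUnion]
    exact ⟨n, Finset.mem_range.mpr (by omega), ht⟩
  exact Submodule.finiteDimensional_of_le h

theorem V_map (B : GBimod K) (N : ℕ) (g : Module.End (Rg K) B.carrier) (hg : IsGrEnd B g) :
    ∀ v ∈ V B N, (g.restrictScalars K) v ∈ V B N := by
  intro v hv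
  induction hv using Submodule.span_induction with
  | mem x h =>
    obtain ⟨n, hn, hx⟩ := h
    exact Submodule.subset_span ⟨n, hn, hg.deg n x hx⟩
  | zero => rw [map_zero]; exact Submodule.zero_mem _
  | add x y _ _ hx hy => rw [map_add]; exact Submodule.add_mem _ hx hy
  | smul a x _ hx => rw [map_smul]; exact Submodule.smul_mem _ _ hx

theorem ext_V (B : GBimod K) (N : ℕ)
    (hN : ∀ m : B.carrier, m ∈ Submodule.span (Rg K) {v | ∃ n ≤ N, v ∈ B.gr n})
    (g h : Module.End (Rg K) B.carrier) (H : ∀ v ∈ V B N, g v = h v) : g = h := by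
  apply LinearMap.ext
  intro m
  refine LinearMap.eqOn_span (s := {v | ∃ n ≤ N, v ∈ B.gr n}) ?_ (hN m)
  intro v hv
  exact H v (Submodule.subset_span hv)

theorem aeval_restrict (B : GBimod K) (N : ℕ) (φ : Module.End (Rg K) B.carrier)
    (hφ : ∀ v ∈ V B N, (φ.restrictScalars K) v ∈ V B N) (f : Polynomial K) (v : V B N) :
    ((Polynomial.aeval ((φ.restrictScalars K).restrict hφ) f) v : B.carrier) =
      (Polynomial.aeval φ f) (v : B.carrier) := by
  have hpow : ∀ (n : ℕ) (v : V B N),
      (((((φ.restrictScalars K).restrict hφ) ^ n) v : V B N) : B.carrier) =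
        (φ ^ n) (v : B.carrier) := by
    intro n
    induction n with
    | zero => intro v; rfl
    | succ n ih =>
      intro v
      rw [pow_succ, pow_succ, Module.End.mul_apply, Module.End.mul_apply, ih]
      rfl
  induction f using Polynomial.induction_on' with
  | add p q hp hq =>
    rw [map_add, map_add, LinearMap.add_apply, LinearMap.add_apply, Submodule.coe_add, hp, hq]
  | monomial n a =>
    rw [Polynomial.aeval_monomial, Polynomial.aeval_monomial, Module.End.mul_apply,
      Module.End.mul_apply, Module.algebraMap_end_apply, Module.algebraMap_end_apply,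
      Submodule.coe_smul, hpow]

/-- every graded endomorphism is annihilated by a nonzero polynomial -/
theorem exists_poly (B : GBimod K) (hB : FinGen B) (φ : Module.End (Rg K) B.carrier)
    (hφ : IsGrEnd B φ) : ∃ f : Polynomial K, f ≠ 0 ∧ Polynomial.aeval φ f = 0 := by
  obtain ⟨N, hN⟩ := hB.gen
  have hV := V_map B N φ hφ
  have := V_fin B hB N
  refine ⟨((φ.restrictScalars K).restrict hV).charpoly, (LinearMap.charpoly_monic _).ne_zero, ?_⟩
  apply ext_V B N hN
  intro v hv
  have h := aeval_restrict B N φ hV ((φ.restrictScalars K).restrict hV).charpoly ⟨v, hv⟩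
  rw [LinearMap.aeval_self_charpoly] at h
  rw [← h]
  rfl

theorem const_smul_eq_zero (B : GBimod K) (c : K) (x : B.carrier) (h : (C c : Rg K) • x = 0)
    (hx : x ≠ 0) : c = 0 := by
  by_contra hc
  apply hx
  have h2 : (C c⁻¹ : Rg K) • (C c : Rg K) • x = 0 := by rw [h, smul_zero]
  rwa [smul_smul, ← C_mul, inv_mul_cancel₀ hc, C_1, one_smul] at h2

/-- the value of a polynomial in `φ` on a fixed vector -/
theorem aeval_fixed (B : GBimod K) (φ : Module.End (Rg K) B.carrier) (x : B.carrier)
    (hx : φ x = x) (f : Polynomial K) :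
    (Polynomial.aeval φ f) x = (C (f.eval 1) : Rg K) • x := by
  have hpow : ∀ n : ℕ, (φ ^ n) x = x := by
    intro n
    induction n with
    | zero => rfl
    | succ n ih => rw [pow_succ, Module.End.mul_apply, hx, ih]
  induction f using Polynomial.induction_on' with
  | add p q hp hq =>
    rw [map_add, LinearMap.add_apply, hp, hq, Polynomial.eval_add, C_add, add_smul]
  | monomial n a =>
    rw [Polynomial.aeval_monomial, Module.End.mul_apply, Module.algebraMap_end_apply, hpow,
      k_smul, Polynomial.eval_monomial, one_pow, mul_one]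

end Fit

/-- If `θ` is a graded endomorphism killing `bot`, and the indecomposable idempotent `e` fixes
`bot ≠ 0`, then `θ` has no fixed points in the image of `e`. -/
theorem fitting_fixed (B : GBimod K) (hB : FinGen B) (e θ : B.carrier →ₗ[Rg K] B.carrier)
    (he : IsIndecomposableIdempotent B e) (hbot : e B.bot = B.bot) (h0 : B.bot ≠ 0)
    (hθ : IsGrEnd B θ) (hθ0 : θ B.bot = 0) (x : B.carrier) (hx : e x = x) (hx' : θ x = x) :
    x = 0 := by
  by_contra hx0
  let := Fit.instK B
  let := Fit.instT B
  let E : Module.End (Rg K) B.carrier := e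
  let Θ : Module.End (Rg K) B.carrier := θ
  have hEE : E * E = E := he.idem
  let φ : Module.End (Rg K) B.carrier := E * Θ * E
  have hφ : IsGrEnd B φ := (Fit.mem_grAlg B hB _).mp
    ((Fit.grAlg B hB).mul_mem ((Fit.grAlg B hB).mul_mem he.grEnd hθ) he.grEnd)
  have hEφ : E * φ = φ := by
    show E * (E * Θ * E) = E * Θ * E
    rw [← mul_assoc, ← mul_assoc, hEE]
  have hφE : φ * E = φ := by
    show (E * Θ * E) * E = E * Θ * E
    rw [mul_assoc, hEE]
  have hφx : φ x = x := by
    show e (θ (e x)) = x
    rw [hx, hx', hx]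
  have hφb : φ B.bot = 0 := by
    show e (θ (e B.bot)) = 0
    rw [hbot, hθ0, map_zero]
  obtain ⟨f, hf0, hf⟩ := Fit.exists_poly B hB φ hφ
  obtain ⟨g, hg, hgd⟩ := Polynomial.exists_eq_pow_rootMultiplicity_mul_and_not_dvd f hf0 0
  rw [Polynomial.C_0, sub_zero] at hg hgd
  set k := Polynomial.rootMultiplicity 0 f with hk
  have hcop : IsCoprime (Polynomial.X ^ (k + 1) : Polynomial K) g := by
    apply IsCoprime.pow_left
    exact (Polynomial.irreducible_X.coprime_iff_not_dvd).mpr hgd
  obtain ⟨a, b, hab⟩ := hcop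
  let P : Polynomial K := a * Polynomial.X ^ (k + 1)
  let p : Module.End (Rg K) B.carrier := Polynomial.aeval φ P
  have hp : IsGrEnd B p := Fit.aeval_grEnd B hB φ hφ P
  have hpq : P * (1 - P) = f * (Polynomial.X * a * b) := by
    have h1 : 1 - P = b * g := by rw [← hab]; show _ - a * _ = _; ring
    rw [h1, hg]
    show a * Polynomial.X ^ (k + 1) * (b * g) = _
    ring
  have hidem : p * p = p := by
    have h1 : p * (1 - p) = 0 := by
      show Polynomial.aeval φ P * (1 - Polynomial.aeval φ P) = 0
      have h2 : (1 : Module.End (Rg K) B.carrier) = Polynomial.aeval φ (1 : Polynomial K) :=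
        (map_one (Polynomial.aeval φ)).symm
      rw [h2, ← map_sub, ← map_mul, hpq, map_mul, hf, zero_mul]
    rw [mul_sub, mul_one, sub_eq_zero] at h1
    exact h1.symm
  have hpr : p = φ * Polynomial.aeval φ (a * Polynomial.X ^ k) := by
    have h1 : P = Polynomial.X * (a * Polynomial.X ^ k) := by
      show a * _ = _
      ring
    show Polynomial.aeval φ P = _
    rw [h1, map_mul, Polynomial.aeval_X]
  have hpl : p = Polynomial.aeval φ (a * Polynomial.X ^ k) * φ := by
    have h1 : P = (a * Polynomial.X ^ k) * Polynomial.X := by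
      show a * _ = _
      ring
    show Polynomial.aeval φ P = _
    rw [h1, map_mul, Polynomial.aeval_X]
  have hEp : E * p = p := by rw [hpr, ← mul_assoc, hEφ]
  have hpE : p * E = p := by rw [hpl, mul_assoc, hφE]
  have hpb : p B.bot = 0 := by
    rw [hpl, Module.End.mul_apply, hφb, map_zero]
  rcases he.indec p hp hidem hEp hpE with h | h
  · -- `p = 0`
    have h1 := Fit.aeval_fixed B φ x hφx P
    have h2 := Fit.aeval_fixed B φ x hφx f
    rw [hf, LinearMap.zero_apply] at h2
    have h3 : Polynomial.aeval φ P = 0 := h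
    rw [h3, LinearMap.zero_apply] at h1
    have e1 := Fit.const_smul_eq_zero B _ x h1.symm hx0
    have e2 := Fit.const_smul_eq_zero B _ x h2.symm hx0
    have e3 := congrArg (Polynomial.eval 1) hab
    rw [hg, Polynomial.eval_mul, Polynomial.eval_pow, Polynomial.eval_X, one_pow, one_mul] at e2
    rw [Polynomial.eval_add, Polynomial.eval_mul (p := b) (q := g), e2, mul_zero, add_zero,
      Polynomial.eval_one] at e3
    have e4 : Polynomial.eval 1 P = 1 := e3
    rw [e1] at e4
    exact zero_ne_one e4
  · rw [h] at hpb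
    rw [hbot] at hpb
    exact h0 hpb

/-- Existence of an indecomposable idempotent fixing `bot`: take an idempotent graded endomorphism
`e` with `e bot = bot` such that the dimension of `e V` is minimal. -/
theorem exists_indec (B : GBimod K) (hB : FinGen B) (h0 : B.bot ≠ 0) (hbot : B.bot ∈ B.gr 0)
    (hgr0 : ∀ m ∈ B.gr 0, ∃ c : K, m = (C c : Rg K) • B.bot) :
    ∃ e : B.carrier →ₗ[Rg K] B.carrier, IsIndecomposableIdempotent B e ∧ e B.bot = B.bot := by
  classical
  obtain ⟨N, hN⟩ := hB.gen
  have hVf := Fit.V_fin B hB N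
  let := Fit.instK B
  let := Fit.instT B
  let Q : ℕ → Prop := fun d => ∃ e : Module.End (Rg K) B.carrier, IsGrEnd B e ∧ e * e = e ∧
    e B.bot = B.bot ∧ Module.finrank K ((Fit.V B N).map (e.restrictScalars K)) = d
  have hQ : ∃ d, Q d := ⟨_, 1, ⟨fun _ _ => rfl, fun _ _ h => h⟩, one_mul _, rfl, rfl⟩
  obtain ⟨e, he, hee, heb, hed⟩ := Nat.find_spec hQ
  have hmin : ∀ e' : Module.End (Rg K) B.carrier, IsGrEnd B e' → e' * e' = e' →
      e' B.bot = B.bot → e * e' = e' → e' * e = e' → e' = e := by
    intro e' he' hee' heb' h1 h2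
    have hle : (Fit.V B N).map (e'.restrictScalars K) ≤ (Fit.V B N).map (e.restrictScalars K) := by
      rintro _ ⟨v, hv, rfl⟩
      refine ⟨e' v, Fit.V_map B N e' he' v hv, ?_⟩
      show e (e' v) = e' v
      rw [← Module.End.mul_apply, h1]
    have hfin : FiniteDimensional K ((Fit.V B N).map (e.restrictScalars K)) := inferInstance
    have hge : Module.finrank K ((Fit.V B N).map (e.restrictScalars K)) ≤
        Module.finrank K ((Fit.V B N).map (e'.restrictScalars K)) := by
      rw [hed]
      exact Nat.find_min' hQ ⟨e', he', hee', heb', rfl⟩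
    have heq := Submodule.eq_of_le_of_finrank_le hle hge
    apply Fit.ext_V B N hN
    intro v hv
    have h3 : e v ∈ (Fit.V B N).map (e'.restrictScalars K) := by
      rw [heq]
      exact ⟨v, hv, rfl⟩
    obtain ⟨w, hw, hw2⟩ := h3
    have h4 : e' w = e v := hw2
    have h5 : e' (e v) = e v := by
      rw [← h4, ← Module.End.mul_apply, hee']
    rw [← Module.End.mul_apply, h2] at h5
    exact h5
  refine ⟨e, ⟨he, hee, ?_, ?_⟩, heb⟩
  · intro h
    apply h0
    rw [← heb, h, LinearMap.zero_apply]
  · intro e' he' hee' h1 h2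
    have hee'' : (e' : Module.End (Rg K) B.carrier) * e' = e' := hee'
    have h1' : e * (e' : Module.End (Rg K) B.carrier) = e' := h1
    have h2' : (e' : Module.End (Rg K) B.carrier) * e = e' := h2
    obtain ⟨c, hc⟩ := hgr0 _ (he'.deg 0 _ hbot)
    have hcc : c * c = c := by
      have h3 : e' (e' B.bot) = e' B.bot := LinearMap.congr_fun hee' B.bot
      rw [hc, map_smul, hc, smul_smul, ← C_mul] at h3
      have h4 : (C (c * c - c) : Rg K) • B.bot = 0 := by
        rw [C_sub, sub_smul, h3, sub_self]
      exact sub_eq_zero.mp (Fit.const_smul_eq_zero B _ _ h4 h0)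
    have hc01 : c = 0 ∨ c = 1 := by
      rcases eq_or_ne c 0 with h | h
      · exact Or.inl h
      · exact Or.inr (mul_left_cancel₀ h (by rw [hcc, mul_one]))
    rcases hc01 with h | h
    · left
      rw [h, C_0, zero_smul] at hc
      have h6 : (e - e' : Module.End (Rg K) B.carrier) = e := by
        apply hmin
        · exact (Fit.grAlg B hB).sub_mem he he'
        · rw [mul_sub, sub_mul, sub_mul, hee, hee'', h1', h2']
          abel
        · rw [LinearMap.sub_apply, heb, hc, sub_zero]
        · rw [mul_sub, hee, h1']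
        · rw [sub_mul, hee, h2']
      exact sub_eq_self.mp h6
    · right
      apply hmin e' he' hee'' _ h1' h2'
      rw [hc, h, C_1, one_smul]

end Pool.Agent.Lib.FSB
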