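import Pool.Agent.Lib.FSB.Ten

/-!
# The coordinates and the three idempotents on `BS(s,t,s,u,t,s)`
-/

set_option autoImplicit false

open MvPolynomial TensorProduct

namespace Pool.Agent.Lib.FSB

variable {K : Type} [Field K]

/-- `r_i` or the identity -/
noncomputable def tw (i : Fin 3) (c : Bool) : Rg K ≃ₐ[K] Rg K := if c then refl K i else 1

@[simp] theorem tw_true (i : Fin 3) : (tw i true : Rg K ≃ₐ[K] Rg K) = refl K i := rfl
@[simp] theorem tw_false (i : Fin 3) : (tw i false : Rg K ≃ₐ[K] Rg K) = 1 := rfl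

theorem tw_inv (i : Fin 3) (c : Bool) (a : Rg K) (ha : refl K i a = a) : tw i c a = a := by
  cases c
  · rfl
  · exact ha

section

variable {M : Type} [AddCommGroup M] [Module (Rg K) M]

/-- `f ⊗ m ↦ f * r_i^c (φ m)` -/
noncomputable def ev1 (i : Fin 3) (c : Bool) (φ : M →ₗ[Rg K] Rg K) : Ind K i M →ₗ[Rg K] Rg K :=
  liftI i
    { toFun := fun m => tw i c (φ m)
      map_zero' := by rw [map_zero, map_zero]
      map_add' := fun x y => by rw [map_add, map_add] }
    (fun a ha m => by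
      show tw i c (φ (a • m)) = a * tw i c (φ m)
      rw [map_smul, smul_eq_mul, map_mul, tw_inv i c a ha])

theorem ev1_tm (i : Fin 3) (c : Bool) (φ : M →ₗ[Rg K] Rg K) (f : Rg K) (m : M) :
    ev1 i c φ (tm i f m) = f * tw i c (φ m) := rfl

/-- `f ⊗ m ↦ f * ∂_i (φ m)` -/
noncomputable def lamD (i : Fin 3) (φ : M →ₗ[Rg K] Rg K) : Ind K i M →ₗ[Rg K] Rg K :=
  liftI i
    { toFun := fun m => dem i (φ m)
      map_zero' := by rw [map_zero, map_zero]
      map_add' := fun x y => by rw [map_add, map_add] }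
    (fun a ha m => by
      show dem i (φ (a • m)) = a * dem i (φ m)
      rw [map_smul, smul_eq_mul, dem_mul_left i a _ ha])

theorem lamD_tm (i : Fin 3) (φ : M →ₗ[Rg K] Rg K) (f : Rg K) (m : M) :
    lamD i φ (tm i f m) = f * dem i (φ m) := rfl

/-- the multiplication map `f ⊗ m ↦ f m` -/
noncomputable def mu (i : Fin 3) : Ind K i M →ₗ[Rg K] M :=
  liftI i (AddMonoidHom.id M) (fun _ _ _ => rfl)

theorem mu_tm (i : Fin 3) (f : Rg K) (m : M) : mu i (tm i f m) = f • m := rfl

/-- the map `f ⊗ m ↦ ∂_i(f) m` -/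
noncomputable def dm (i : Fin 3) : Ind K i M →+ M :=
  liftB i
    { toFun := fun f =>
        { toFun := fun m => (dem i f : Rg K) • m
          map_zero' := smul_zero _
          map_add' := fun m m' => smul_add _ _ _ }
      map_zero' := by
        ext m
        show (dem i 0 : Rg K) • m = 0
        rw [map_zero, zero_smul]
      map_add' := fun f g => by
        ext m
        show (dem i (f + g) : Rg K) • m = (dem i f : Rg K) • m + (dem i g : Rg K) • m
        rw [map_add, add_smul] }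
    (fun c hc f m => by
      show (dem i (c * f) : Rg K) • m = (dem i f : Rg K) • c • m
      rw [dem_mul_left i c _ hc, smul_smul, mul_comm])

theorem dm_tm (i : Fin 3) (f : Rg K) (m : M) : dm i (tm i f m) = (dem i f : Rg K) • m := rfl

theorem dm_smul (i : Fin 3) (c : Rg K) (hc : refl K i c = c) (x : Ind K i M) :
    dm i (c • x) = c • dm i x := by
  induction x using tm_induction with
  | hadd x y hx hy => rw [smul_add, map_add, map_add, hx, hy, smul_add]
  | hP f m => rw [smul_tm, dm_tm, dm_tm, dem_mul_left i c _ hc, mul_smul]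

/-- `f₁ ⊗ f₂ ⊗ m ↦ ∂_s(f₁ f₂) m` -/
noncomputable def gL (x : Ind K 1 (Ind K 0 M)) : M := dm 0 (mu 1 x)

theorem gL_tm (f g : Rg K) (m : M) : gL (tm 1 f (tm 0 g m)) = (dem 0 (f * g) : Rg K) • m := rfl

theorem gL_add (x y : Ind K 1 (Ind K 0 M)) : gL (x + y) = gL x + gL y := by
  simp only [gL, map_add]

theorem gL_zero : gL (0 : Ind K 1 (Ind K 0 M)) = 0 := by
  simp only [gL, map_zero]

theorem gL_smul (c : Rg K) (hc : refl K 0 c = c) (x : Ind K 1 (Ind K 0 M)) :
    gL (c • x) = c • gL x := by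
  unfold gL
  rw [map_smul, dm_smul 0 c hc]

/-- `m ↦ ½ (α_t ⊗ 1 + 1 ⊗ α_t) ⊗ m` -/
noncomputable def hL (m : M) : Ind K 1 (Ind K 0 M) := (hf : Rg K) • del 1 (tm 0 1 m)

theorem hL_add (m m' : M) : (hL (m + m') : Ind K 1 (Ind K 0 M)) = hL m + hL m' := by
  unfold hL
  rw [tm_add, del_add, smul_add]

theorem hL_zero : (hL (0 : M) : Ind K 1 (Ind K 0 M)) = 0 := by
  have h := hL_add (K := K) (0 : M) 0
  rw [add_zero] at h
  exact left_eq_add.mp h

theorem hL_smul [CharZero K] (c : Rg K) (hc : refl K 0 c = c) (m : M) :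
    hL (c • m) = c • (hL m : Ind K 1 (Ind K 0 M)) := by
  unfold hL
  rw [← inv_tm 0 c 1 hc, ← smul_tm, del_smul]
  exact smul_comm _ _ _

/-- The idempotent `θ` on `R ⊗_t R ⊗_s M`, `f₁ ⊗ f₂ ⊗ m ↦ ½ Δ_t ∂_s(f₁ f₂) m`. -/
noncomputable def theta : Ind K 1 (Ind K 0 M) →+ Ind K 1 (Ind K 0 M) where
  toFun x := (hf : Rg K) • hL (gL x)
  map_zero' := by rw [gL_zero, hL_zero, smul_zero]
  map_add' x y := by rw [gL_add, hL_add, smul_add]

theorem theta_apply (x : Ind K 1 (Ind K 0 M)) : theta x = (hf : Rg K) • hL (gL x) := rfl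

theorem theta_smul [CharZero K] (c : Rg K) (hc : refl K 0 c = c) (x : Ind K 1 (Ind K 0 M)) :
    theta (c • x) = c • theta x := by
  rw [theta_apply, theta_apply, gL_smul c hc, hL_smul c hc]
  exact smul_comm _ _ _

/-- The function `f ⊗ m ↦ a₀(f) ⊗ θ(m) + a₁(f) ⊗ θ(x₀ m)` on `R × M`, where
`f = a₀ + a₁ x₀` with `s`-invariant `a₀`, `a₁`. -/
noncomputable def phi0 (θ : M →+ M) (f : Rg K) (m : M) : Ind K 2 M :=
  tm 2 (c0 0 f) (θ m) + tm 2 (c1 0 f) (θ ((X 0 : Rg K) • m))

theorem phi0_add_left (θ : M →+ M) (f g : Rg K) (m : M) :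
    phi0 θ (f + g) m = phi0 θ f m + phi0 θ g m := by
  unfold phi0
  rw [c0_add, c1_add, add_tm, add_tm]
  abel

theorem phi0_add_right (θ : M →+ M) (f : Rg K) (m m' : M) :
    phi0 θ f (m + m') = phi0 θ f m + phi0 θ f m' := by
  unfold phi0
  rw [smul_add, map_add, map_add, tm_add, tm_add]
  abel

theorem refl_commSU (f : Rg K) : refl K 0 (refl K 2 f) = refl K 2 (refl K 0 f) := by
  have h : (refl K 0).toAlgHom.comp (refl K 2).toAlgHom =
      (refl K 2).toAlgHom.comp (refl K 0).toAlgHom := by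
    apply MvPolynomial.algHom_ext
    intro j
    fin_cases j <;> simp
  exact DFunLike.congr_fun h f

/-- if `c` is `u`-invariant, so is its even part -/
theorem refl2_c0 (c : Rg K) (hc : refl K 2 c = c) : refl K 2 (c0 0 c) = c0 0 c := by
  unfold c0
  rw [map_mul, map_add, ← refl_commSU, hc, refl_hf]

theorem refl2_c1 (c : Rg K) (hc : refl K 2 c = c) : refl K 2 (c1 0 c) = c1 0 c := by
  unfold c1
  rw [map_mul, refl_hf]
  congr 1
  apply mul_left_cancel₀ (root_ne_zero (K := K) 0)
  rw [root_mul_dem]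
  have h := congrArg (refl K 2) (root_mul_dem 0 c)
  rw [map_mul, map_sub, ← refl_commSU, hc] at h
  have h2 : refl K 2 (root K 0) = root K 0 := by simp [root]
  rw [h2] at h
  exact h

theorem c0_unique [CharZero K] (i : Fin 3) (f p q : Rg K) (hp : refl K i p = p)
    (hq : refl K i q = q) (h : f = p + q * root K i) : c0 i f = p := by
  have h2 := hf_add (K := K)
  unfold c0
  rw [h, map_add, map_mul, hp, hq, refl_root]
  linear_combination p * h2

theorem c1_unique [CharZero K] (i : Fin 3) (f p q : Rg K) (hp : refl K i p = p)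
    (hq : refl K i q = q) (h : f = p + q * root K i) : c1 i f = q := by
  have h2 := hf_add (K := K)
  apply mul_right_cancel₀ (root_ne_zero (K := K) i)
  have h3 := c0_add_c1 i f
  rw [c0_unique i f p q hp hq h] at h3
  linear_combination h - h3

theorem phi0_balanced [CharZero K] (θ : M →+ M)
    (hθ : ∀ c : Rg K, refl K 0 c = c → ∀ m, θ (c • m) = c • θ m)
    (c : Rg K) (hc : refl K 2 c = c) (f : Rg K) (m : M) :
    phi0 θ (c * f) m = phi0 θ f (c • m) := by
  have ec : c = c0 0 c + c1 0 c * X 0 := c0_add_c1 0 c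
  have ef : f = c0 0 f + c1 0 f * X 0 := c0_add_c1 0 f
  have hx : refl K 0 (X 0 * X 0) = (X 0 * X 0 : Rg K) := by simp
  have hx2 : refl K 2 (X 0 * X 0) = (X 0 * X 0 : Rg K) := by simp
  have ha := refl_c0 0 c
  have hb := refl_c1 0 c
  have ha2 := refl2_c0 c hc
  have hb2 := refl2_c1 c hc
  have hf0 := refl_c0 0 f
  have hf1 := refl_c1 0 f
  unfold phi0
  generalize c0 0 c = a at *
  generalize c1 0 c = b at *
  generalize c0 0 f = p at *
  generalize c1 0 f = q at *
  have e0 : c0 0 (c * f) = a * p + b * (X 0 * X 0) * q := by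
    apply c0_unique 0 _ _ (a * q + b * p)
    · rw [map_add, map_mul, map_mul, map_mul, ha, hb, hf0, hf1, hx]
    · rw [map_add, map_mul, map_mul, ha, hb, hf0, hf1]
    · show c * f = _ + _ * X 0
      linear_combination f * ec + (a + b * X 0) * ef
  have e1 : c1 0 (c * f) = a * q + b * p := by
    apply c1_unique 0 _ (a * p + b * (X 0 * X 0) * q)
    · rw [map_add, map_mul, map_mul, map_mul, ha, hb, hf0, hf1, hx]
    · rw [map_add, map_mul, map_mul, ha, hb, hf0, hf1]
    · show c * f = _ + _ * X 0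
      linear_combination f * ec + (a + b * X 0) * ef
  have e2 : θ (c • m) = a • θ m + b • θ ((X 0 : Rg K) • m) := by
    rw [ec, add_smul, map_add, hθ a ha, mul_smul, hθ b hb]
  have hbx : refl K 0 (b * (X 0 * X 0)) = b * (X 0 * X 0) := by rw [map_mul, hb, hx]
  have hbx2 : refl K 2 (b * (X 0 * X 0)) = b * (X 0 * X 0) := by rw [map_mul, hb2, hx2]
  have e3 : θ ((X 0 : Rg K) • c • m) = a • θ ((X 0 : Rg K) • m) + (b * (X 0 * X 0)) • θ m := by
    rw [← hθ a ha, ← hθ _ hbx, ← map_add]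
    congr 1
    rw [ec, smul_smul, smul_smul, ← add_smul]
    congr 1
    ring
  rw [e0, e1, e2, e3, tm_add, tm_add, add_tm, add_tm, inv_tm 2 a p ha2, inv_tm 2 a q ha2,
    inv_tm 2 b p hb2, inv_tm 2 _ q hbx2]
  abel

/-- The map `Φ(θ)`. -/
noncomputable def phi [CharZero K] (θ : M →+ M)
    (hθ : ∀ c : Rg K, refl K 0 c = c → ∀ m, θ (c • m) = c • θ m) : Ind K 2 M →+ Ind K 2 M :=
  liftB 2
    { toFun := fun f =>
        { toFun := fun m => phi0 θ f m
          map_zero' := by unfold phi0; rw [smul_zero, map_zero, tm_zero, tm_zero, add_zero]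
          map_add' := fun m m' => phi0_add_right θ f m m' }
      map_zero' := by
        ext m
        show phi0 θ 0 m = 0
        have h := phi0_add_left θ (0 : Rg K) 0 m
        rw [add_zero] at h
        exact left_eq_add.mp h
      map_add' := fun f f' => by
        ext m
        exact phi0_add_left θ f f' m }
    (fun c hc f m => phi0_balanced θ hθ c hc f m)

theorem phi_tm [CharZero K] (θ : M →+ M)
    (hθ : ∀ c : Rg K, refl K 0 c = c → ∀ m, θ (c • m) = c • θ m) (f : Rg K) (m : M) :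
    phi θ hθ (tm 2 f m) = tm 2 (c0 0 f) (θ m) + tm 2 (c1 0 f) (θ ((X 0 : Rg K) • m)) := rfl

theorem phi_smul [CharZero K] (θ : M →+ M)
    (hθ : ∀ c : Rg K, refl K 0 c = c → ∀ m, θ (c • m) = c • θ m)
    (c : Rg K) (hc : refl K 0 c = c) (x : Ind K 2 M) : phi θ hθ (c • x) = c • phi θ hθ x := by
  induction x using tm_induction with
  | hadd x y hx hy => rw [smul_add, map_add, map_add, hx, hy, smul_add]
  | hP f m =>
    rw [smul_tm, phi_tm, phi_tm, c0_inv_mul 0 c f hc, c1_inv_mul 0 c f hc, smul_add, smul_tm,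
      smul_tm]

end

end Pool.Agent.Lib.FSB
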