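import Pool.Agent.Lib.FSB.LabP
import Pool.Agent.Lib.FSB.Abs

/-!
# Rank bounds on the common kernel of the three idempotents
-/

set_option autoImplicit false

open MvPolynomial TensorProduct

namespace Pool.Agent.Lib.FSB

variable {K : Type} [Field K]

section

variable {M : Type} [AddCommGroup M] [Module (Rg K) M]

theorem ev1_rel (i : Fin 3) (c : Bool) (a : Rg K) (ψ ψ1 ψ2 : M →ₗ[Rg K] Rg K)
    (h : a • ψ = ψ1 - ψ2) : (tw i c a : Rg K) • ev1 i c ψ = ev1 i c ψ1 - ev1 i c ψ2 := by
  apply LinearMap.ext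
  intro x
  rw [LinearMap.smul_apply, smul_eq_mul, ← ev1_smul, h, ev1_sub]
  rfl

theorem lamD_rel (i : Fin 3) (φ : M →ₗ[Rg K] Rg K) :
    (root K i) • lamD i φ = ev1 i false φ - ev1 i true φ := by
  apply LinearMap.ext
  intro x
  exact root_lamD i φ x

end

/-- partial functionals -/
noncomputable def k5 : (BS K [0]).carrier →ₗ[Rg K] Rg K :=
  lamD 0 (LinearMap.id : Rg K →ₗ[Rg K] Rg K)
noncomputable def k4 : (BS K [1, 0]).carrier →ₗ[Rg K] Rg K := lamD 1 k5
noncomputable def k3 : (BS K [2, 1, 0]).carrier →ₗ[Rg K] Rg K := ev1 2 false k4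
noncomputable def k2 : (BS K [0, 2, 1, 0]).carrier →ₗ[Rg K] Rg K := lamD 0 k3
noncomputable def k1 : (BS K [1, 0, 2, 1, 0]).carrier →ₗ[Rg K] Rg K := lamD 1 k2

noncomputable def a1 (b1 : Bool) : (BS K dW).carrier →ₗ[Rg K] Rg K := ev1 0 b1 k1
noncomputable def a2 (b1 b2 : Bool) : (BS K dW).carrier →ₗ[Rg K] Rg K := ev1 0 b1 (ev1 1 b2 k2)
noncomputable def a3 (b1 b2 b3 : Bool) : (BS K dW).carrier →ₗ[Rg K] Rg K :=
  ev1 0 b1 (ev1 1 b2 (ev1 0 b3 k3))
noncomputable def a4 (b1 b2 b3 b5 : Bool) : (BS K dW).carrier →ₗ[Rg K] Rg K :=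
  ev1 0 b1 (ev1 1 b2 (ev1 0 b3 (ev1 2 false (ev1 1 b5 k5))))

theorem rel0 (x : (BS K dW).carrier) : root K 0 * lam x = a1 false x - a1 true x :=
  root_lamD 0 k1 x

theorem rel1 (b1 : Bool) (x : (BS K dW).carrier) :
    tw 0 b1 (root K 1) * a1 b1 x = a2 b1 false x - a2 b1 true x :=
  DFunLike.congr_fun (ev1_rel 0 b1 _ _ _ _ (lamD_rel 1 k2)) x

theorem rel2 (b1 b2 : Bool) (x : (BS K dW).carrier) :
    tw 0 b1 (tw 1 b2 (root K 0)) * a2 b1 b2 x = a3 b1 b2 false x - a3 b1 b2 true x :=
  DFunLike.congr_fun (ev1_rel 0 b1 _ _ _ _ (ev1_rel 1 b2 _ _ _ _ (lamD_rel 0 k3))) x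

theorem rel3 (b1 b2 b3 : Bool) (x : (BS K dW).carrier) :
    tw 0 b1 (tw 1 b2 (tw 0 b3 (root K 1))) * a3 b1 b2 b3 x =
      a4 b1 b2 b3 false x - a4 b1 b2 b3 true x :=
  DFunLike.congr_fun (ev1_rel 0 b1 _ _ _ _ (ev1_rel 1 b2 _ _ _ _ (ev1_rel 0 b3 _ _ _ _
    (ev1_rel 2 false _ _ _ _ (lamD_rel 1 k5))))) x

theorem rel4 (b1 b2 b3 b5 : Bool) (x : (BS K dW).carrier) :
    tw 0 b1 (tw 1 b2 (tw 0 b3 (tw 1 b5 (root K 0)))) * a4 b1 b2 b3 b5 x =
      ev dW [b1, b2, b3, false, b5, false] x - ev dW [b1, b2, b3, false, b5, true] x :=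
  DFunLike.congr_fun (ev1_rel 0 b1 _ _ _ _ (ev1_rel 1 b2 _ _ _ _ (ev1_rel 0 b3 _ _ _ _
    (ev1_rel 2 false _ _ _ _ (ev1_rel 1 b5 _ _ _ _
      (lamD_rel 0 (LinearMap.id : Rg K →ₗ[Rg K] Rg K))))))) x

/-- the coordinates of an element with label `g` vanish outside the label `g` -/
theorem ev_eq_zero {g : Rg K ≃ₐ[K] Rg K} {x : (BS K dW).carrier}
    (hx : Lab (BS K dW).toBimod g x) (b : List Bool) (hb : lab dW b ≠ g) : ev dW b x = 0 := by
  by_contra h
  apply hb
  apply AlgEquiv.ext
  intro f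
  have h1 := ev_right dW b f x
  have h2 : (BS K dW).right f x = (g f) • x := hx f
  rw [h2, map_smul, smul_eq_mul] at h1
  exact (mul_right_cancel₀ h h1).symm

theorem sum_bb_bs : ∑ i : Fin 8, (bb i : Rg K) * bs i =
    4 * X 0 * X 1 * ((X 0 - X 1) * (X 0 + X 1)) := by
  rw [Fin.sum_univ_eight]
  show 1 * (X 0 * (X 1 * (X 0 * X 0))) + X 0 * (X 1 * (X 0 * X 0)) + X 1 * (X 0 * (X 0 * X 0)) +
    X 0 * X 1 * (X 0 * X 0) + -(X 1 * X 1) * (X 0 * X 1) + -(X 0 * (X 1 * X 1)) * X 1 +
    -(X 1 * (X 1 * X 1)) * X 0 + -(X 0 * (X 1 * (X 1 * X 1))) * 1 = _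
  ring

theorem X_add_ne_zero [CharZero K] : (X 0 + X 1 : Rg K) ≠ 0 := by
  intro h
  have := congrArg (MvPolynomial.eval (fun _ => (1 : K))) h
  simp at this

theorem four_ne [CharZero K] : (4 : Rg K) ≠ 0 := by
  have : (4 : Rg K) = ((4 : ℕ) : Rg K) := by norm_num
  rw [this]
  exact Nat.cast_ne_zero.mpr (by norm_num)

theorem two_ne [CharZero K] : (2 : Rg K) ≠ 0 := by
  have : (2 : Rg K) = ((2 : ℕ) : Rg K) := by norm_num
  rw [this]
  exact Nat.cast_ne_zero.mpr (by norm_num)

theorem sum_bb_bs_ne [CharZero K] : (∑ i : Fin 8, (bb i : Rg K) * bs i) ≠ 0 := by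
  rw [sum_bb_bs]
  have h0 : (X 0 : Rg K) ≠ 0 := X_ne_zero 0
  have h1 : (X 1 : Rg K) ≠ 0 := X_ne_zero 1
  exact mul_ne_zero (mul_ne_zero (mul_ne_zero four_ne h0) h1)
    (mul_ne_zero (root_ne_zero (K := K) 1) X_add_ne_zero)

theorem cS_ne [CharZero K] : (cS : Rg K) ≠ 0 := by
  intro h
  have := cS_mul (K := K)
  rw [h, zero_mul] at this
  exact zero_ne_one this

theorem lam_eq_zero [CharZero K] {x : (BS K dW).carrier} (b : List Bool)
    (hb : ev dW b (Psi : (BS K dW).carrier) ≠ 0)
    (hx : Lab (BS K dW).toBimod (lab dW b) x) (hS : eS x = 0) : lam x = 0 := by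
  have h1 := congrArg (ev dW b) hS
  rw [map_zero, eS_apply, map_smul, map_sum] at h1
  have h2 : ∀ i : Fin 8, ev dW b (lam ((BS K dW).right (bb i) x) • (BS K dW).right (bs i) Psi) =
      lab dW b (bb i * bs i) * (lam x * ev dW b (Psi : (BS K dW).carrier)) := by
    intro i
    have h3 : (BS K dW).right (bb i) x = (lab dW b (bb i)) • x := hx (bb i)
    rw [map_smul, ev_right, h3, map_smul, map_mul]
    simp only [smul_eq_mul]
    ring
  rw [Finset.sum_congr rfl (fun i _ => h2 i), ← Finset.sum_mul, ← map_sum, smul_eq_mul] at h1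
  have h4 := (mul_eq_zero.mp h1).resolve_left cS_ne
  have h5 : lab dW b (∑ i : Fin 8, (bb i : Rg K) * bs i) ≠ 0 := by
    intro h
    exact sum_bb_bs_ne ((map_eq_zero_iff _ (lab dW b).injective).mp h)
  have h6 := (mul_eq_zero.mp h4).resolve_left h5
  exact (mul_eq_zero.mp h6).resolve_right hb

/-- the middle part of `Ψ` -/
noncomputable def PsiY : Ind K 2 (Ind K 1 (Ind K 0 (Rg K))) :=
  (hf : Rg K) • del 2 (tm 1 1 (tm 0 1 (1 : Rg K)))

theorem ev_PsiY [CharZero K] (φ : Ind K 1 (Ind K 0 (Rg K)) →ₗ[Rg K] Rg K)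
    (hφ : φ (tm 1 1 (tm 0 1 (1 : Rg K))) = 1) : ev1 2 false φ PsiY = root K 2 := by
  unfold PsiY del
  rw [map_smul, map_add, ev1_tm, ev1_tm, map_smul, hφ]
  simp only [tw_false, AlgEquiv.one_apply, smul_eq_mul, one_mul, mul_one]
  have h2 := hf_add (K := K)
  linear_combination root K 2 * h2

theorem ev_Psi [CharZero K] (b1 b2 b3 b5 b6 : Bool) :
    ev dW [b1, b2, b3, false, b5, b6] (Psi : (BS K dW).carrier) =
      tw 0 b1 (tw 1 b2 (tw 0 b3 (root K 2))) := by
  have h1 : ev dW [b1, b2, b3, false, b5, b6] (Psi : (BS K dW).carrier) =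
    1 * tw 0 b1 (1 * tw 1 b2 (1 * tw 0 b3 (ev1 2 false (ev [1, 0] [b5, b6])
      (PsiY : Ind K 2 (Ind K 1 (Ind K 0 (Rg K))))))) := rfl
  have h2 := ev_PsiY (K := K) (ev [1, 0] [b5, b6]) (ev_bot [1, 0] [b5, b6])
  refine h1.trans ((congrArg (fun z : Rg K => 1 * tw 0 b1 (1 * tw 1 b2 (1 * tw 0 b3 z))) h2).trans
    ?_)
  simp only [one_mul]

theorem ev_Psi_ne [CharZero K] (b1 b2 b3 b5 b6 : Bool) :
    ev dW [b1, b2, b3, false, b5, b6] (Psi : (BS K dW).carrier) ≠ 0 := by
  rw [ev_Psi]
  exact tw_ne_zero _ _ _ (tw_ne_zero _ _ _ (tw_ne_zero _ _ _ (root_ne_zero (K := K) 2)))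

theorem a4_zero {x : (BS K dW).carrier} (b1 b2 b3 b5 : Bool)
    (h1 : ev dW [b1, b2, b3, false, b5, false] x = 0)
    (h2 : ev dW [b1, b2, b3, false, b5, true] x = 0) : a4 b1 b2 b3 b5 x = 0 := by
  have h := rel4 b1 b2 b3 b5 x
  rw [h1, h2, sub_zero] at h
  exact (mul_eq_zero.mp h).resolve_left (tw_ne_zero _ _ _ (tw_ne_zero _ _ _ (tw_ne_zero _ _ _
    (tw_ne_zero _ _ _ (root_ne_zero (K := K) 0)))))

theorem a3_zero {x : (BS K dW).carrier} (b1 b2 b3 : Bool)
    (h1 : a4 b1 b2 b3 false x = 0) (h2 : a4 b1 b2 b3 true x = 0) : a3 b1 b2 b3 x = 0 := by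
  have h := rel3 b1 b2 b3 x
  rw [h1, h2, sub_zero] at h
  exact (mul_eq_zero.mp h).resolve_left (tw_ne_zero _ _ _ (tw_ne_zero _ _ _ (tw_ne_zero _ _ _
    (root_ne_zero (K := K) 1))))

theorem a2_zero {x : (BS K dW).carrier} (b1 b2 : Bool)
    (h1 : a3 b1 b2 false x = 0) (h2 : a3 b1 b2 true x = 0) : a2 b1 b2 x = 0 := by
  have h := rel2 b1 b2 x
  rw [h1, h2, sub_zero] at h
  exact (mul_eq_zero.mp h).resolve_left (tw_ne_zero _ _ _ (tw_ne_zero _ _ _
    (root_ne_zero (K := K) 0)))

theorem alg_t {R : Type} [CommRing R] [IsDomain R] {x0 x1 p q a40 a41 a42 a43 a30 a31 a32 a33 a20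
    a21 a22 a10 a11 : R} (hx0 : x0 ≠ 0) (hx1 : x1 ≠ 0) (two : (2 : R) ≠ 0)
    (h8 : 0 = a10 - a11) (h60 : x0 * a20 = a32 - 0) (h62 : -x0 * a22 = 0 - a33)
    (h40 : x1 * a40 = q - 0) (h41 : -x1 * a41 = 0 - q) (h42 : x1 * a42 = p - 0)
    (h43 : x1 * a43 = p - 0) (h61 : x1 * a21 = a30 - a31) (h50 : (x1 - x0) * a30 = a40 - 0)
    (h51 : (-x1 - x0) * a31 = a41 - 0) (h52 : (x0 - x1) * a32 = 0 - a42)
    (h53 : (x0 - x1) * a33 = 0 - a43) (h70 : (x0 - x1) * a10 = a20 - a21)
    (h71 : (-x0 - x1) * a11 = a22 - 0) : p = q := by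
  have s1 : (x0 + x1) * (a20 - a21) + (x0 - x1) * a22 = 0 := by
    linear_combination -(x0 + x1) * h70 - (x0 - x1) * h71 - (x0 + x1) * (x0 - x1) * h8
  have E1 : (x0 + x1) * (x1 * a32 - x0 * a30 + x0 * a31) + (x0 - x1) * x1 * a33 = 0 := by
    linear_combination x0 * x1 * s1 - (x0 + x1) * x1 * h60 + (x0 + x1) * x0 * h61 +
      (x0 - x1) * x1 * h62
  have E2 : -(x0 + x1) * x1 * a42 + (x0 + x1) * x0 * a40 - x0 * (x0 - x1) * a41 -
      (x0 - x1) * x1 * a43 = 0 := by
    linear_combination (x0 - x1) * E1 - (x0 + x1) * x1 * h52 - (x0 + x1) * x0 * h50 +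
      x0 * (x0 - x1) * h51 - (x0 - x1) * x1 * h53
  have E3 : 2 * x0 * x1 * (q - p) = 0 := by
    linear_combination x1 * E2 + (x0 + x1) * x1 * h42 - (x0 + x1) * x0 * h40 -
      x0 * (x0 - x1) * h41 + (x0 - x1) * x1 * h43
  have h := (mul_eq_zero.mp E3).resolve_left (mul_ne_zero (mul_ne_zero two hx0) hx1)
  exact (sub_eq_zero.mp h).symm

/-- all coordinates of an element with label `t` of the common kernel agree -/
theorem rel_t [CharZero K] {x : (BS K dW).carrier} (hx : Lab (BS K dW).toBimod (refl K 1) x)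
    (hL : eL x = 0) (hR : eR x = 0) (hS : eS x = 0) :
    ev dW [false, false, false, false, true, false] x =
      ev dW [false, true, false, false, false, false] x := by
  have z : ∀ b : List Bool, labP dW b ≠ labP [1] [true] → ev dW b x = 0 := fun b hb =>
    ev_eq_zero hx b (lab_ne_of dW [1] b [true] hb)
  have hlab : (lab dW [false, true, false, false, false, false] : Rg K ≃ₐ[K] Rg K) = refl K 1 :=
    lab_eq_of dW [1] _ [true] (by decide)
  have hl : lam x = 0 := lam_eq_zero [false, true, false, false, false, false]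
    (ev_Psi_ne _ _ _ _ _) (by rw [hlab]; exact hx) hS
  set q := ev dW [false, true, false, false, false, false] x with hq
  set p := ev dW [false, false, false, false, true, false] x with hp
  have q2 : ev dW [false, true, true, false, false, true] x = q :=
    (eR_rel false true false false x hR).symm
  have q4 : ev dW [true, false, true, false, true, false] x = p :=
    (eL_rel false false true false x hL).symm
  -- level 4
  have z4 : ∀ b1 b2 b3 b5 : Bool, labP dW [b1, b2, b3, false, b5, false] ≠ labP [1] [true] →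
      labP dW [b1, b2, b3, false, b5, true] ≠ labP [1] [true] → a4 b1 b2 b3 b5 x = 0 :=
    fun b1 b2 b3 b5 h h' => a4_zero b1 b2 b3 b5 (z _ h) (z _ h')
  have h40 := rel4 false true false false x
  have h41 := rel4 false true true false x
  have h42 := rel4 false false false true x
  have h43 := rel4 true false true true x
  rw [z [false, true, false, false, false, true] (by decide)] at h40
  rw [z [false, true, true, false, false, false] (by decide), q2] at h41
  rw [z [false, false, false, false, true, true] (by decide)] at h42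
  rw [z [true, false, true, false, true, true] (by decide), q4] at h43
  -- level 3
  have h50 := rel3 false true false x
  have h51 := rel3 false true true x
  have h52 := rel3 false false false x
  have h53 := rel3 true false true x
  rw [z4 false true false true (by decide) (by decide)] at h50
  rw [z4 false true true true (by decide) (by decide)] at h51
  rw [z4 false false false false (by decide) (by decide)] at h52
  rw [z4 true false true false (by decide) (by decide)] at h53
  -- level 2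
  have h60 := rel2 false false x
  have h61 := rel2 false true x
  have h62 := rel2 true false x
  rw [a3_zero false false true (z4 _ _ _ _ (by decide) (by decide))
    (z4 _ _ _ _ (by decide) (by decide))] at h60
  rw [a3_zero true false false (z4 _ _ _ _ (by decide) (by decide))
    (z4 _ _ _ _ (by decide) (by decide))] at h62
  -- level 1
  have h70 := rel1 false x
  have h71 := rel1 true x
  rw [a2_zero true true (a3_zero _ _ _ (z4 _ _ _ _ (by decide) (by decide))
    (z4 _ _ _ _ (by decide) (by decide))) (a3_zero _ _ _ (z4 _ _ _ _ (by decide) (by decide))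
    (z4 _ _ _ _ (by decide) (by decide)))] at h71
  have h8 := rel0 x
  rw [hl, mul_zero] at h8
  simp only [tw_true, tw_false, AlgEquiv.one_apply, root, map_sub, map_neg, refl0_X0, refl0_X1,
    refl1_X0, refl1_X1, neg_neg] at h40 h41 h42 h43 h50 h51 h52 h53 h60 h61 h62 h70 h71
  rw [← hq] at h40
  rw [← hp] at h42
  exact alg_t (X_ne_zero 0) (X_ne_zero 1) two_ne h8 h60 h62 h40 h41 h42 h43 h61 h50 h51 h52 h53
    h70 h71

theorem alg_e {R : Type} [CommRing R] [IsDomain R] {x0 x1 o o5 o6 a40 a41 a42 a43 a44 a45 a30 a31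
    a32 a33 a34 a35 a20 a21 a22 a23 a10 a11 : R} (hx0 : x0 ≠ 0)
    (h8 : 0 = a10 - a11)
    (h40 : x0 * a40 = o - 0) (h41 : -x0 * a41 = 0 - o) (h42 : -x0 * a42 = 0 - o)
    (h43 : x0 * a43 = o - 0) (h44 : x0 * a44 = o5 - 0) (h45 : -x0 * a45 = 0 - o6)
    (h60 : x0 * a20 = a30 - a31) (h62 : -x0 * a22 = a32 - a33)
    (h61 : x1 * a21 = a34 - 0) (h63 : x1 * a23 = a35 - 0)
    (h50 : (x0 - x1) * a30 = a40 - 0) (h51 : (-x0 - x1) * a31 = a41 - 0)
    (h52 : (-x0 - x1) * a32 = a42 - 0) (h53 : (x0 - x1) * a33 = a43 - 0)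
    (h54 : (x1 - x0) * a34 = 0 - a44) (h55 : (x1 - -x0) * a35 = 0 - a45)
    (h70 : (x0 - x1) * a10 = a20 - a21) (h71 : (-x0 - x1) * a11 = a22 - a23) :
    (x0 + x1) * (x0 + x1) * o5 - (x0 - x1) * (x0 - x1) * o6 = 4 * x0 * x1 * o := by
  have s1 : (x0 + x1) * (a20 - a21) + (x0 - x1) * (a22 - a23) = 0 := by
    linear_combination -(x0 + x1) * h70 - (x0 - x1) * h71 - (x0 + x1) * (x0 - x1) * h8
  have E1 : (x0 + x1) * (x1 * (a30 - a31) - x0 * a34) +
      (x0 - x1) * (x1 * (a33 - a32) - x0 * a35) = 0 := by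
    linear_combination x0 * x1 * s1 - (x0 + x1) * x1 * h60 + (x0 + x1) * x0 * h61 +
      (x0 - x1) * x1 * h62 + (x0 - x1) * x0 * h63
  have E2 : (x0 + x1) * (x1 * ((x0 + x1) * a40 + (x0 - x1) * a41) - x0 * (x0 + x1) * a44) +
      (x0 - x1) * (x1 * ((x0 + x1) * a43 + (x0 - x1) * a42) + x0 * (x0 - x1) * a45) = 0 := by
    linear_combination (x0 - x1) * (x0 + x1) * E1 - (x0 + x1) ^ 2 * x1 * h50 -
      (x0 + x1) * x1 * (x0 - x1) * h51 - (x0 + x1) ^ 2 * x0 * h54 -
      (x0 - x1) * x1 * (x0 + x1) * h53 - (x0 - x1) ^ 2 * x1 * h52 + (x0 - x1) ^ 2 * x0 * h55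
  have E3 : x0 * ((x0 + x1) * (x0 + x1) * o5 - (x0 - x1) * (x0 - x1) * o6 -
      4 * x0 * x1 * o) = 0 := by
    linear_combination -x0 * E2 + (x0 + x1) ^ 2 * x1 * h40 - (x0 + x1) * x1 * (x0 - x1) * h41 -
      (x0 + x1) ^ 2 * x0 * h44 + (x0 - x1) * (x0 + x1) * x1 * h43 - (x0 - x1) ^ 2 * x1 * h42 -
      (x0 - x1) ^ 2 * x0 * h45
  exact sub_eq_zero.mp ((mul_eq_zero.mp E3).resolve_left hx0)

/-- The relation between the coordinates of an element with label `e` of the common kernel. -/
theorem rel_e [CharZero K] {x : (BS K dW).carrier} (hx : Lab (BS K dW).toBimod 1 x)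
    (hL : eL x = 0) (hR : eR x = 0) (hS : eS x = 0) :
    (X 0 + X 1) * (X 0 + X 1) * ev dW [false, true, false, false, true, false] x -
      (X 0 - X 1) * (X 0 - X 1) * ev dW [true, true, false, false, true, true] x =
      4 * X 0 * X 1 * ev dW [false, false, false, false, false, false] x := by
  have z : ∀ b : List Bool, labP dW b ≠ labP [] [] → ev dW b x = 0 := fun b hb =>
    ev_eq_zero hx b (lab_ne_of dW [] b [] hb)
  have hlab : (lab dW [false, false, false, false, false, false] : Rg K ≃ₐ[K] Rg K) = 1 :=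
    lab_eq_of dW [] _ [] (by decide)
  have hl : lam x = 0 := lam_eq_zero [false, false, false, false, false, false]
    (ev_Psi_ne _ _ _ _ _) (by rw [hlab]; exact hx) hS
  set o := ev dW [false, false, false, false, false, false] x with ho
  set o5 := ev dW [false, true, false, false, true, false] x with ho5
  set o6 := ev dW [true, true, false, false, true, true] x with ho6
  have o2 : ev dW [false, false, true, false, false, true] x = o :=
    (eR_rel false false false false x hR).symm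
  have o4 : ev dW [true, false, true, false, false, false] x = o :=
    (eL_rel false false false false x hL).symm
  have o3 : ev dW [true, false, false, false, false, true] x = o := by
    have := eL_rel true false false true x hL
    rw [o2] at this
    exact this.symm
  -- level 4
  have z4 : ∀ b1 b2 b3 b5 : Bool, labP dW [b1, b2, b3, false, b5, false] ≠ labP [] [] →
      labP dW [b1, b2, b3, false, b5, true] ≠ labP [] [] → a4 b1 b2 b3 b5 x = 0 :=
    fun b1 b2 b3 b5 h h' => a4_zero b1 b2 b3 b5 (z _ h) (z _ h')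
  have h40 := rel4 false false false false x
  have h41 := rel4 false false true false x
  have h42 := rel4 true false false false x
  have h43 := rel4 true false true false x
  have h44 := rel4 false true false true x
  have h45 := rel4 true true false true x
  rw [z [false, false, false, false, false, true] (by decide)] at h40
  rw [z [false, false, true, false, false, false] (by decide), o2] at h41
  rw [z [true, false, false, false, false, false] (by decide), o3] at h42
  rw [z [true, false, true, false, false, true] (by decide), o4] at h43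
  rw [z [false, true, false, false, true, true] (by decide)] at h44
  rw [z [true, true, false, false, true, false] (by decide)] at h45
  -- level 3
  have h50 := rel3 false false false x
  have h51 := rel3 false false true x
  have h52 := rel3 true false false x
  have h53 := rel3 true false true x
  have h54 := rel3 false true false x
  have h55 := rel3 true true false x
  rw [z4 false false false true (by decide) (by decide)] at h50
  rw [z4 false false true true (by decide) (by decide)] at h51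
  rw [z4 true false false true (by decide) (by decide)] at h52
  rw [z4 true false true true (by decide) (by decide)] at h53
  rw [z4 false true false false (by decide) (by decide)] at h54
  rw [z4 true true false false (by decide) (by decide)] at h55
  -- level 2
  have h60 := rel2 false false x
  have h61 := rel2 false true x
  have h62 := rel2 true false x
  have h63 := rel2 true true x
  rw [a3_zero false true true (z4 _ _ _ _ (by decide) (by decide))
    (z4 _ _ _ _ (by decide) (by decide))] at h61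
  rw [a3_zero true true true (z4 _ _ _ _ (by decide) (by decide))
    (z4 _ _ _ _ (by decide) (by decide))] at h63
  -- level 1
  have h70 := rel1 false x
  have h71 := rel1 true x
  have h8 := rel0 x
  rw [hl, mul_zero] at h8
  simp only [tw_true, tw_false, AlgEquiv.one_apply, root, map_sub, map_neg, refl0_X0, refl0_X1,
    refl1_X0, refl1_X1, neg_neg] at h40 h41 h42 h43 h44 h45 h50 h51 h52 h53 h54 h55
  simp only [tw_true, tw_false, AlgEquiv.one_apply, root, map_sub, map_neg, refl0_X0, refl0_X1,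
    refl1_X0, refl1_X1, neg_neg] at h60 h61 h62 h63 h70 h71
  rw [← ho] at h40
  rw [← ho5] at h44
  rw [← ho6] at h45
  exact alg_e (X_ne_zero 0) h8 h40 h41 h42 h43 h44 h45 h60 h62 h61 h63 h50 h51 h52 h53 h54 h55
    h70 h71

end Pool.Agent.Lib.FSB
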