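import Pool.Agent.Lib.FSB.M1a
import Pool.Agent.Lib.FSB.LabP

/-!
# The reflection representation is a faithful representation of the Coxeter group of type `B₃`
-/

set_option autoImplicit false

open MvPolynomial CoxeterSystem

namespace Pool.Agent.Lib.FSB

variable {W : Type} [Group W]

theorem refl_mul_self (K : Type) [Field K] (i : Fin 3) :
    (refl K i * refl K i : Rg K ≃ₐ[K] Rg K) = 1 := by
  apply AlgEquiv.ext
  intro f
  exact refl_refl i f

/-- products of simple reflections as labels -/
theorem prod_eq_lab (K : Type) [Field K] (l : List (Fin 3)) :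
    (l.map (refl K)).prod = (lab l (l.map fun _ => true) : Rg K ≃ₐ[K] Rg K) := by
  induction l with
  | nil => rfl
  | cons i l ih =>
    rw [List.map_cons, List.prod_cons, ih]
    rfl

theorem labP_rel : ∀ i j : Fin 3,
    labP ((List.replicate (cmB3 i j) [i, j]).flatten)
      (((List.replicate (cmB3 i j) [i, j]).flatten).map fun _ => true) = labP [] [] := by
  decide

theorem prod_flatten {G : Type} [Group G] (f : Fin 3 → G) (i j : Fin 3) (n : ℕ) :
    (((List.replicate n [i, j]).flatten).map f).prod = (f i * f j) ^ n := by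
  induction n with
  | zero => simp
  | succ n ih =>
    rw [List.replicate_succ, List.flatten_cons, List.map_append, List.prod_append, ih, pow_succ']
    simp

theorem refl_liftable (K : Type) [Field K] :
    cmB3.IsLiftable (fun i => (refl K i : Rg K ≃ₐ[K] Rg K)) := by
  intro i j
  rw [← prod_flatten (fun i => (refl K i : Rg K ≃ₐ[K] Rg K)) i j (cmB3 i j)]
  refine (prod_eq_lab K _).trans ?_
  exact lab_eq_of _ [] _ [] (labP_rel i j)

theorem labP_words : ∀ a < 48, a ≠ 0 →
    labP ((M1.wd a).map M1.s3) (((M1.wd a).map M1.s3).map fun _ => true) ≠ labP [] [] := by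
  decide +kernel

/-- The simple reflections `refl K i` generate a faithful representation of the Coxeter group of
type `B₃` on `R`. -/
theorem faithful_rep (K : Type) [Field K] [CharZero K] (cs : CoxeterSystem cmB3 W) :
    ∃ φ : W →* (Rg K ≃ₐ[K] Rg K), Function.Injective φ ∧ ∀ i, φ (cs.simple i) = refl K i := by
  refine ⟨cs.lift ⟨fun i => refl K i, refl_liftable K⟩, ?_,
    fun i => cs.lift_apply_simple (refl_liftable K) i⟩
  rw [injective_iff_map_eq_one]
  intro w hw
  have h1 := M1.idx_lt cs w
  have h2 := M1.E_idx cs w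
  by_cases h0 : M1.idx cs w = 0
  · rw [← h2, h0, M1.E_zero]
  · exfalso
    have h3 := labP_words _ h1 h0
    apply lab_ne_of (K := K) _ _ _ _ h3
    rw [← prod_eq_lab]
    have h4 : (cs.lift ⟨fun i => refl K i, refl_liftable K⟩ : W →* (Rg K ≃ₐ[K] Rg K))
        (cs.wordProd ((M1.wd (M1.idx cs w)).map M1.s3)) =
        (((M1.wd (M1.idx cs w)).map M1.s3).map (refl K)).prod := by
      rw [CoxeterSystem.wordProd, map_list_prod, List.map_map]
      congr 1
      apply List.map_congr_left
      intro i _
      exact cs.lift_apply_simple (refl_liftable K) _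
    rw [← h4]
    have h5 : cs.wordProd ((M1.wd (M1.idx cs w)).map M1.s3) = w := h2
    rw [h5, hw]
    rfl

end Pool.Agent.Lib.FSB
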