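import Mathlib

/-!
# Hecke algebras, Kazhdan-Lusztig bases, Lusztig's functions `a` and `Δ`

Hecke algebras with equal parameters of Coxeter systems, in Soergel's normalisation: the standard
basis `H_w` satisfies `H_x H_y = H_{xy}` if `ℓ(xy) = ℓ(x) + ℓ(y)`, and
`H_s² = 1 + (v⁻¹ - v) H_s`; the Kazhdan-Lusztig basis element `C_w` is bar invariant and lies in
`H_w + ∑_{y ≠ w} v ℤ[v] H_y`.  (Lusztig's normalisation is obtained by exchanging `v` and `v⁻¹`.)
-/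

set_option autoImplicit false

open LaurentPolynomial

namespace Pool.Agent.Lib.FSB.St

/-- The Coxeter matrix of type `B₃`, with `m(0,1) = 4`, `m(1,2) = 3`, `m(0,2) = 2`. -/
def cmB3 : CoxeterMatrix (Fin 3) where
  M := !![1, 4, 2; 4, 1, 3; 2, 3, 1]
  isSymm := by decide
  diagonal := by decide
  off_diagonal := by decide

/-- `H` is the Hecke algebra of the Coxeter system `cs` with standard basis `h`, `bar` is its bar
involution (`v ↦ v⁻¹`, `H_s ↦ H_s⁻¹ = H_s + (v - v⁻¹)`), and `c` is its Kazhdan-Lusztig basis: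
`c_w` is bar invariant and `c_w ∈ h_w + ∑_{y ≠ w} v ℤ[v] h_y`. -/
structure IsKL {B : Type} {M : CoxeterMatrix B} {W : Type} [Group W] (cs : CoxeterSystem M W)
    {H : Type} [Ring H] [Algebra ℤ[T;T⁻¹] H] (h : Module.Basis W ℤ[T;T⁻¹] H) (bar : H →+* H)
    (c : Module.Basis W ℤ[T;T⁻¹] H) : Prop where
  mul : ∀ x y : W, cs.length (x * y) = cs.length x + cs.length y → h x * h y = h (x * y)
  quad : ∀ i : B, h (cs.simple i) * h (cs.simple i) =
    1 + (T (-1) - T 1 : ℤ[T;T⁻¹]) • h (cs.simple i)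
  bar_scalar : ∀ f : ℤ[T;T⁻¹], bar (algebraMap ℤ[T;T⁻¹] H f) = algebraMap ℤ[T;T⁻¹] H (invert f)
  bar_simple : ∀ i : B, bar (h (cs.simple i)) =
    h (cs.simple i) + (T 1 - T (-1) : ℤ[T;T⁻¹]) • (1 : H)
  bar_c : ∀ w, bar (c w) = c w
  diag : ∀ w, h.repr (c w) w = 1
  upper : ∀ w y, y ≠ w → ∀ k : ℤ, k ≤ 0 → (h.repr (c w) y).coeff k = 0

variable {W H : Type} [Ring H] [Algebra ℤ[T;T⁻¹] H]

/-- Lusztig's function `a(z)`: the least `n` such that `vⁿ h_{x,y,z} ∈ ℤ[v]` for all `x, y`, where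
`c_x c_y = ∑_z h_{x,y,z} c_z`. -/
noncomputable def aFun (c : Module.Basis W ℤ[T;T⁻¹] H) (z : W) : ℕ :=
  sInf {n : ℕ | ∀ x y : W, ∀ k : ℤ, k < -(n : ℤ) → (c.repr (c x * c y) z).coeff k = 0}

/-- Lusztig's function `Δ(z)`: the order of vanishing at `v = 0` of the coefficient `p_{1,z}` of
`h_1` in `c_z`. -/
noncomputable def DeltaFun [One W] (h c : Module.Basis W ℤ[T;T⁻¹] H) (z : W) : ℕ :=
  sInf {n : ℕ | (h.repr (c z) 1).coeff (n : ℤ) ≠ 0}

end Pool.Agent.Lib.FSB.St
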