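import Pool.Agent.Lib.FSB.Final
import Pool.Agent.Lib.FSB.Iso

/-!
# Transport of the results to the definitions of `Stmt.lean`
-/

set_option autoImplicit false

open MvPolynomial TensorProduct

namespace Pool.Agent.Lib.FSB

variable {K : Type} [Field K]

theorem ofFn_d : List.ofFn (![0, 1, 0, 2, 1, 0] : Fin 6 → Fin 3) = dW := rfl

/-- The ring structure on `BS(d)`. -/
structure IsoD {A : Type} [CommRing A] (π : MvPolynomial (Fin 7 × Fin 3) K →+* A)
    (T : A ≃+ (BS K dW).carrier) : Prop where
  left : ∀ f a, T (π (rename (Prod.mk 0) f) * a) = f • T a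
  right : ∀ f a, T (a * π (rename (Prod.mk (Fin.last 6)) f)) = (BS K dW).right f (T a)
  one : T 1 = (BS K dW).bot
  gr : ∀ n q, q.IsHomogeneous n → T (π q) ∈ (BS K dW).gr n
  gr' : ∀ n, ∀ m ∈ (BS K dW).gr n, ∃ q, q.IsHomogeneous n ∧ T.symm m = π q

theorem exists_isoD {A : Type} [CommRing A] (π : MvPolynomial (Fin 7 × Fin 3) K →+* A)
    (h : St.IsBS ![0, 1, 0, 2, 1, 0] π) : ∃ T : A ≃+ (BS K dW).carrier, IsoD π T := by
  have h2 := exists_iso (K := K) ![0, 1, 0, 2, 1, 0] π h
  rw [ofFn_d] at h2
  obtain ⟨T, h1, h2, h3, h4, h5⟩ := h2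
  exact ⟨T, h1, h2, h3, h4, h5⟩

variable {A : Type} [CommRing A] {π : MvPolynomial (Fin 7 × Fin 3) K →+* A}
  {T : A ≃+ (BS K dW).carrier}

theorem IsoD.symm_left (D : IsoD π T) (f : Rg K) (m : (BS K dW).carrier) :
    T.symm (f • m) = π (rename (Prod.mk 0) f) * T.symm m := by
  rw [AddEquiv.symm_apply_eq, D.left, AddEquiv.apply_symm_apply]

theorem IsoD.symm_right (D : IsoD π T) (f : Rg K) (m : (BS K dW).carrier) :
    T.symm ((BS K dW).right f m) = T.symm m * π (rename (Prod.mk (Fin.last 6)) f) := by
  rw [AddEquiv.symm_apply_eq, D.right, AddEquiv.apply_symm_apply]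

/-- the transported endomorphism -/
noncomputable def toL (D : IsoD π T) (e : A →+ A) (he : St.IsGrEnd π e) :
    (BS K dW).carrier →ₗ[Rg K] (BS K dW).carrier where
  toFun m := T (e (T.symm m))
  map_add' m m' := by rw [map_add, map_add, map_add]
  map_smul' f m := by rw [D.symm_left, he.left, D.left, RingHom.id_apply]

theorem toL_apply (D : IsoD π T) (e : A →+ A) (he : St.IsGrEnd π e) (m : (BS K dW).carrier) :
    toL D e he m = T (e (T.symm m)) := rfl

theorem toL_grEnd (D : IsoD π T) (e : A →+ A) (he : St.IsGrEnd π e) :
    IsGrEnd (BS K dW) (toL D e he) where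
  right f m := by rw [toL_apply, toL_apply, D.symm_right, he.right, D.right]
  deg n m hm := by
    obtain ⟨q, hq, h1⟩ := D.gr' n m hm
    obtain ⟨q', hq', h2⟩ := he.deg n q hq
    rw [toL_apply, h1, h2]
    exact D.gr n q' hq'

/-- the transported endomorphism -/
noncomputable def ofL (T : A ≃+ (BS K dW).carrier)
    (e : (BS K dW).carrier →ₗ[Rg K] (BS K dW).carrier) : A →+ A where
  toFun a := T.symm (e (T a))
  map_zero' := by rw [map_zero, map_zero, map_zero]
  map_add' m m' := by rw [map_add, map_add, map_add]

theorem ofL_apply (T : A ≃+ (BS K dW).carrier)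
    (e : (BS K dW).carrier →ₗ[Rg K] (BS K dW).carrier) (a : A) :
    ofL T e a = T.symm (e (T a)) := rfl

theorem ofL_grEnd (D : IsoD π T) (e : (BS K dW).carrier →ₗ[Rg K] (BS K dW).carrier)
    (he : IsGrEnd (BS K dW) e) : St.IsGrEnd π (ofL T e) where
  left f a := by rw [ofL_apply, ofL_apply, D.left, map_smul, D.symm_left]
  right f a := by rw [ofL_apply, ofL_apply, D.right, he.right, D.symm_right]
  deg n q hq := D.gr' n _ (he.deg n _ (D.gr n q hq))

/-- the summand `B_d` exists -/
theorem exists_isTop [CharZero K] (D : IsoD π T) :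
    ∃ (B : Type) (_ : AddCommGroup B) (_ : Module (MvPolynomial (Fin 3) K) B)
        (right : MvPolynomial (Fin 3) K → B → B) (i : B →+ A) (p : A →+ B),
        St.IsTop π right i p := by
  obtain ⟨e, he, hb⟩ := exists_Bd (K := K)
  let X := image (BS K dW).toBimod e he.grEnd.right
  have hidem : ∀ m, e (e m) = e m := fun m => DFunLike.congr_fun he.idem m
  let i : LinearMap.range e →+ A := T.symm.toAddMonoidHom.comp (LinearMap.range e).subtype.toAddMonoidHom
  let p : A →+ LinearMap.range e := e.rangeRestrict.toAddMonoidHom.comp T.toAddMonoidHom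
  have hip : ∀ a, i (p a) = T.symm (e (T a)) := fun a => rfl
  refine ⟨LinearMap.range e, inferInstance, inferInstance, fun f b => X.right f b, i, p, ?_, ?_,
    ?_, ?_, ?_, ?_, ?_⟩
  · constructor
    · intro f b b'
      exact map_add (X.right f) b b'
    · intro f g b
      have := congrArg (fun φ => φ b) (map_add X.right f g)
      exact this
    · intro f g b
      have h1 : X.right (f * g) = X.right g * X.right f := by rw [mul_comm, map_mul]
      exact congrArg (fun φ => φ b) h1
    · intro b
      have h1 : X.right 1 = 1 := map_one _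
      exact congrArg (fun φ => φ b) h1
    · intro f g b
      exact map_smul (X.right f) g b
    · intro c b
      exact X.right_C c b
  · intro f b
    exact D.symm_left f b.1
  · intro f b
    exact D.symm_right f b.1
  · rintro ⟨_, ⟨m, rfl⟩⟩
    apply Subtype.ext
    show e (T (T.symm (e m))) = e m
    rw [AddEquiv.apply_symm_apply, hidem]
  · have h1 : i.comp p = ofL T e := rfl
    rw [h1]
    exact ofL_grEnd D e he.grEnd
  · intro e' h1 h2 h3 h4
    rcases he.indec (toL D e' h1) (toL_grEnd D e' h1) (by
        ext m
        rw [LinearMap.comp_apply, toL_apply, toL_apply, AddEquiv.symm_apply_apply, h2]) (by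
        ext m
        rw [LinearMap.comp_apply, toL_apply]
        have h5 := h3 (T.symm m)
        rw [hip, AddEquiv.symm_apply_eq] at h5
        exact h5) (by
        ext m
        rw [LinearMap.comp_apply, toL_apply, toL_apply]
        have h5 := h4 (T.symm m)
        rw [hip, AddEquiv.apply_symm_apply] at h5
        rw [h5]) with h | h
    · left
      intro a
      have h5 := DFunLike.congr_fun h (T a)
      rw [toL_apply, AddEquiv.symm_apply_apply, LinearMap.zero_apply] at h5
      exact (AddEquiv.map_eq_zero_iff T).mp h5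
    · right
      intro a
      have h5 := DFunLike.congr_fun h (T a)
      rw [toL_apply, AddEquiv.symm_apply_apply] at h5
      rw [hip, ← h5, AddEquiv.symm_apply_apply]
  · intro h
    have h1 : e (T 1) = 0 := congrArg Subtype.val h
    rw [D.one, hb] at h1
    exact bot_ne_zero_BS dW h1

/-- the dual basis of a Frobenius structure -/
theorem dual_of_st (X : Bimod K) {B : Type} [AddCommGroup B] [Module (Rg K) B]
    {right : Rg K → B → B} (hb : St.IsBimod right) (F : St.Frob right) (ψ : B ≃+ X.carrier)
    (hl : ∀ (f : Rg K) (b : B), ψ (f • b) = f • ψ b)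
    (hr : ∀ (f : Rg K) (b : B), ψ (right f b) = X.right f (ψ b)) :
    Nonempty (DualFrob X) := by
  have hl' : ∀ (f : Rg K) (m : X.carrier), ψ.symm (f • m) = f • ψ.symm m := fun f m => by
    rw [AddEquiv.symm_apply_eq, hl, AddEquiv.apply_symm_apply]
  have hr' : ∀ (f : Rg K) (m : X.carrier), ψ.symm (X.right f m) = right f (ψ.symm m) :=
    fun f m => by rw [AddEquiv.symm_apply_eq, hr, AddEquiv.apply_symm_apply]
  have hsum : ∀ (l : List (B × B)) (φ : B × B → B),
      ψ (l.map φ).sum = ∑ i : Fin l.length, ψ (φ (l.get i)) := by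
    intro l φ
    induction l with
    | nil => rw [List.map_nil, List.sum_nil, map_zero]; rfl
    | cons a l ih =>
      rw [List.map_cons, List.sum_cons, map_add, ih]
      exact (Fin.sum_univ_succ (fun i : Fin (l.length + 1) => ψ (φ ((a :: l).get i)))).symm
  have e1 : ∀ a : B, ((F.comul F.one).map fun z => F.counit (F.mul a z.1) • z.2).sum = a := by
    intro a
    have h := F.frob_left a F.one B (fun x y => F.counit x • y) (fun x x' y => by
      simp only [map_add, add_smul]) (fun x y y' => by
      simp only [smul_add]) (fun f x y => by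
      simp only [F.counit_right, mul_smul])
    rw [F.mul_one] at h
    simp only [List.map_map] at h
    rw [F.counit_comul a] at h
    exact h.symm
  have e2 : ∀ a : B, ((F.comul F.one).map fun z => right (F.counit (F.mul z.2 a)) z.1).sum = a := by
    intro a
    have h := F.frob_right F.one a B (fun x y => right (F.counit y) x) (fun x x' y => by
      simp only [hb.add]) (fun x y y' => by
      simp only [map_add, hb.add']) (fun f x y => by
      simp only [F.counit_left, hb.mul])
    rw [F.one_mul] at h
    simp only [List.map_map] at h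
    rw [F.comul_counit a] at h
    exact h.symm
  refine ⟨{
    mul := AddMonoidHom.mk' (fun a => AddMonoidHom.mk' (fun b =>
      ψ (F.mul (ψ.symm a) (ψ.symm b))) (fun b b' => by rw [map_add, map_add, map_add]))
      (fun a a' => by ext b; simp only [AddMonoidHom.mk'_apply, AddMonoidHom.add_apply, map_add])
    smul_mul := fun f a b => by
      simp only [AddMonoidHom.mk'_apply, hl', F.mul_left, hl]
    mul_balanced := fun f a b => by
      simp only [AddMonoidHom.mk'_apply, hl', hr', F.mul_balanced]
    mul_right := fun f a b => by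
      simp only [AddMonoidHom.mk'_apply, hr', F.mul_right, hr]
    one := ψ F.one
    one_central := fun f => by rw [← hr, F.one_central, hl]
    one_mul := fun a => by
      simp only [AddMonoidHom.mk'_apply, AddEquiv.symm_apply_apply, F.one_mul,
        AddEquiv.apply_symm_apply]
    mul_one := fun a => by
      simp only [AddMonoidHom.mk'_apply, AddEquiv.symm_apply_apply, F.mul_one,
        AddEquiv.apply_symm_apply]
    mul_assoc := fun a b c => by
      simp only [AddMonoidHom.mk'_apply, AddEquiv.symm_apply_apply, F.mul_assoc]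
    counit :=
      { toFun := fun a => F.counit (ψ.symm a)
        map_add' := fun a b => by rw [map_add, map_add]
        map_smul' := fun f a => by rw [hl', F.counit_left, RingHom.id_apply, smul_eq_mul] }
    counit_right := fun f a => by
      show F.counit (ψ.symm (X.right f a)) = f * F.counit (ψ.symm a)
      rw [hr', F.counit_right, mul_comm]
    n := (F.comul F.one).length
    x := fun i => ψ ((F.comul F.one).get i).1
    z := fun i => ψ ((F.comul F.one).get i).2
    expand_left := fun a => by
      have h := congrArg ψ (e1 (ψ.symm a))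
      rw [hsum, AddEquiv.apply_symm_apply] at h
      refine h.symm.trans (Finset.sum_congr rfl fun i _ => ?_)
      rw [hl]
      show _ = F.counit (ψ.symm (ψ (F.mul (ψ.symm a) (ψ.symm (ψ _))))) • _
      rw [AddEquiv.symm_apply_apply, AddEquiv.symm_apply_apply]
    expand_right := fun a => by
      have h := congrArg ψ (e2 (ψ.symm a))
      rw [hsum, AddEquiv.apply_symm_apply] at h
      refine h.symm.trans (Finset.sum_congr rfl fun i _ => ?_)
      rw [hr]
      show _ = X.right (F.counit (ψ.symm (ψ (F.mul (ψ.symm (ψ _)) (ψ.symm a))))) _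
      rw [AddEquiv.symm_apply_apply, AddEquiv.symm_apply_apply] }⟩

/-- no such summand is a Frobenius algebra object -/
theorem no_frob_isTop [CharZero K] (D : IsoD π T) {B : Type} [AddCommGroup B] [Module (Rg K) B]
    {right : Rg K → B → B} {i : B →+ A} {p : A →+ B} (h : St.IsTop π right i p) :
    IsEmpty (St.Frob right) := by
  constructor
  intro F
  let e := toL D (i.comp p) h.grEnd
  have e_apply : ∀ m, e m = T (i (p (T.symm m))) := fun m => rfl
  have ei : ∀ b, e (T (i b)) = T (i b) := fun b => by
    rw [e_apply, AddEquiv.symm_apply_apply, h.p_i]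
  have hbot : e (BS K dW).bot ≠ 0 := by
    intro h1
    rw [← D.one, e_apply, AddEquiv.symm_apply_apply, AddEquiv.map_eq_zero_iff] at h1
    apply h.top
    rw [← h.p_i (p 1), h1, map_zero]
  have he : IsIndecomposableIdempotent (BS K dW) e := by
    refine ⟨toL_grEnd D _ _, ?_, ?_, ?_⟩
    · ext m
      rw [LinearMap.comp_apply, e_apply m, ei]
    · intro h1
      rw [h1, LinearMap.zero_apply] at hbot
      exact hbot rfl
    · intro e' h1 h2 h3 h4
      rcases h.indec (ofL T e') (ofL_grEnd D e' h1) (fun a => by
          rw [ofL_apply, ofL_apply, AddEquiv.apply_symm_apply]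
          exact congrArg T.symm (DFunLike.congr_fun h2 (T a))) (fun a => by
          have h5 := DFunLike.congr_fun h3 (T a)
          rw [LinearMap.comp_apply, e_apply] at h5
          rw [ofL_apply, AddEquiv.eq_symm_apply]
          exact h5) (fun a => by
          have h5 := DFunLike.congr_fun h4 (T a)
          rw [LinearMap.comp_apply, e_apply, AddEquiv.symm_apply_apply] at h5
          rw [ofL_apply, ofL_apply, h5]) with h6 | h6
      · left
        ext m
        have h7 := h6 (T.symm m)
        rw [ofL_apply, AddEquiv.apply_symm_apply] at h7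
        rw [LinearMap.zero_apply]
        exact (AddEquiv.map_eq_zero_iff T.symm).mp h7
      · right
        ext m
        have h7 := h6 (T.symm m)
        rw [ofL_apply, AddEquiv.apply_symm_apply, AddEquiv.symm_apply_eq] at h7
        rw [h7, e_apply]
  have h2 := e_bot_eq e he hbot
  let ψ : B ≃+ (Bd e he).carrier :=
    { toFun := fun b => ⟨T (i b), ⟨T (i b), ei b⟩⟩
      invFun := fun m => p (T.symm m.1)
      left_inv := fun b => by
        show p (T.symm (T (i b))) = b
        rw [AddEquiv.symm_apply_apply, h.p_i]
      right_inv := by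
        rintro ⟨_, ⟨m, rfl⟩⟩
        apply Subtype.ext
        exact DFunLike.congr_fun he.idem m
      map_add' := fun b b' => by
        apply Subtype.ext
        show T (i (b + b')) = T (i b) + T (i b')
        rw [map_add, map_add] }
  obtain ⟨D'⟩ := dual_of_st (Bd e he) h.bimod F ψ (fun f b => by
    apply Subtype.ext
    show T (i (f • b)) = f • T (i b)
    rw [h.i_left, D.left]) (fun f b => by
    apply Subtype.ext
    show T (i (right f b)) = (BS K dW).right f (T (i b))
    rw [h.i_right, D.right])
  exact no_dual (coordX e he h2) (propsX e he h2) D'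
    (fun ζ hζ hz => no_nilp (coordX e he h2) (propsX e he h2) D' hζ hz)

theorem exists_isBS (K : Type) [Field K] {k : ℕ} (w : Fin k → Fin 3) :
    ∃ (A : Type) (_ : CommRing A) (π : MvPolynomial (Fin (k + 1) × Fin 3) K →+* A),
      St.IsBS w π :=
  ⟨_ ⧸ Ideal.span {q : MvPolynomial (Fin (k + 1) × Fin 3) K |
    ∃ (j : Fin k) (f : MvPolynomial (Fin 3) K),
    St.refl K (w j) f = f ∧ q = rename (Prod.mk j.castSucc) f - rename (Prod.mk j.succ) f},
    inferInstance, Ideal.Quotient.mk _, Ideal.Quotient.mk_surjective, Ideal.mk_ker⟩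

end Pool.Agent.Lib.FSB
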