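import Pool.Agent.Lib.FSB.M1KL
import Pool.Agent.Lib.FSB.Rep
import Pool.Agent.Lib.FSB.M1c
import Pool.Agent.Lib.FSB.StHecke
import Pool.Agent.Lib.FSB.Iso

/-!
# Transport of the results on the Hecke algebra to the definitions of `StHecke.lean`
-/

set_option autoImplicit false

open MvPolynomial LaurentPolynomial

namespace Pool.Agent.Lib.FSB

theorem faithful_st (K : Type) [Field K] [CharZero K] {W : Type} [Group W]
    (cs : CoxeterSystem St.cmB3 W) :
    ∃ φ : W →* (MvPolynomial (Fin 3) K →ₐ[K] MvPolynomial (Fin 3) K),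
      Function.Injective φ ∧ ∀ i, φ (cs.simple i) = St.refl K i := by
  obtain ⟨φ, h1, h2⟩ := faithful_rep K (show CoxeterSystem cmB3 W from cs)
  refine ⟨(AlgEquiv.toAlgHomHom K (Rg K)).comp φ, ?_, ?_⟩
  · intro x y hxy
    apply h1
    apply AlgEquiv.ext
    intro f
    exact DFunLike.congr_fun (hxy : ((φ x : Rg K ≃ₐ[K] Rg K) : Rg K →ₐ[K] Rg K) = φ y) f
  · intro i
    apply AlgHom.ext
    intro f
    rw [st_refl]
    exact DFunLike.congr_fun (h2 i) f

section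

variable {W : Type} [Group W] {H : Type} [Ring H] [Algebra ℤ[T;T⁻¹] H]

/-- the bundled Hecke algebra -/
noncomputable def toHA {cs : CoxeterSystem cmB3 W} {h : Module.Basis W ℤ[T;T⁻¹] H} {bar : H →+* H}
    {c : Module.Basis W ℤ[T;T⁻¹] H} (hk : St.IsKL cs h bar c) : HeckeAlg cs where
  H := H
  std := h
  std_mul := hk.mul
  std_quad := hk.quad

theorem hecke_st {cs : CoxeterSystem cmB3 W} {h : Module.Basis W ℤ[T;T⁻¹] H} {bar : H →+* H}
    {c : Module.Basis W ℤ[T;T⁻¹] H} (hk : St.IsKL cs h bar c) :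
    St.aFun c (cs.wordProd [0, 1, 0, 2, 1, 0]) = 2 ∧
      St.DeltaFun h c (cs.wordProd [0, 1, 0, 2, 1, 0]) = 2 := by
  have h1 : IsBar (toHA hk) bar := ⟨hk.bar_scalar, hk.bar_simple⟩
  have h2 : IsKL (toHA hk) bar c := ⟨hk.bar_c, hk.diag, hk.upper⟩
  exact ⟨aFun_d cs (toHA hk) bar h1 c h2, DeltaFun_d cs (toHA hk) bar h1 c h2⟩

theorem exists_st (cs : CoxeterSystem cmB3 W) :
    ∃ (H : Type) (_ : Ring H) (_ : Algebra ℤ[T;T⁻¹] H) (h : Module.Basis W ℤ[T;T⁻¹] H)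
      (bar : H →+* H) (c : Module.Basis W ℤ[T;T⁻¹] H), St.IsKL cs h bar c := by
  obtain ⟨A, bar, C, h1, h2⟩ := exists_hecke cs
  exact ⟨A.H, A.ring, A.alg, A.std, bar, C, A.std_mul, A.std_quad, h1.bar_scalar, h1.bar_std,
    h2.bar_C, h2.diag, h2.upper⟩

end

end Pool.Agent.Lib.FSB
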